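import Pool.Agent.TSC.Stmts

/-!
# TSC: generic constants exist (module AGE)
-/

set_option autoImplicit false

namespace Pool.Agent.TSC

open Set Filter Topology Pool.Agent.TSM

namespace AGE_

section
variable {V : Type} [DecidableEq V] {L : Pg V} {pr : V → V}

theorem not_both (hL : L.Ok) (hpr : IsPr L pr) {i x : V} (hi : i ∈ L.S) (h : NF L i)
    (hx : x ∈ L.S) (hxi : x ≠ i) (h1 : det3 (L.p i) (L.p (L.s i)) (L.p x) = 0)
    (h2 : det3 (L.p (pr i)) (L.p i) (L.p x) = 0) : False := by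
  obtain ⟨p1, p2, p3⟩ := hpr i hi
  have ht := turn_pr_ne hL hpr hi h
  unfold Pg.turn at ht
  rw [p2] at ht
  by_cases e1 : x = L.s i
  · rw [e1] at h2; exact ht h2
  by_cases e2 : x = pr i
  · rw [e2, ← det3_rot] at h1; exact ht h1
  have f1 : L.Flat i (L.s i) x := by
    by_contra hf
    exact hL.gen i hi _ (hL.maps i hi) x hx (s_ne hL hpr hi).symm (Ne.symm hxi) (Ne.symm e1)
      hf h1
  have f2 : L.Flat (pr i) i x := by
    by_contra hf
    exact hL.gen _ p1 i hi x hx (pr_ne hL hpr hi) (Ne.symm e2) (Ne.symm hxi) hf h2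
  obtain ⟨m, q, hm, hq, hqm, he⟩ := f1
  obtain ⟨m', q', hm', hq', hqm', he'⟩ := f2
  rw [hm] at hm'
  obtain rfl := Option.some.inj hm'
  have hqq : q = q' := hL.inj q hq q' hq' (hqm.trans hqm'.symm)
  subst hqq
  have h5 : L.s i ∈ ({pr i, i, x} : Finset V) := by
    rw [he', ← he]; simp
  simp only [Finset.mem_insert, Finset.mem_singleton] at h5
  rcases h5 with h5 | h5 | h5
  · exact pr_ne_s hL hpr hi h5.symm
  · exact s_ne hL hpr hi h5
  · exact e1 h5.symm

end

end AGE_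

/-- generic constants exist -/
theorem AGE_proof : Stmt_AGE := by
  intro V _ L pr hL hpr
  let F : Finset ℝ := (L.S ×ˢ L.S).image fun q =>
    -det3 (L.p q.1) (L.p (L.s q.1)) (L.p q.2) / det3 (L.p (pr q.1)) (L.p q.1) (L.p q.2)
  obtain ⟨a, ha, haF⟩ := ((Set.Ioi_infinite (0 : ℝ)).sdiff F.finite_toSet).nonempty
  refine ⟨a, ha, ?_⟩
  intro i hi hn x hx hxi h0
  by_cases hB : det3 (L.p (pr i)) (L.p i) (L.p x) = 0
  · rw [hB, mul_zero, add_zero] at h0
    exact AGE_.not_both hL hpr hi hn hx hxi h0 hB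
  · apply haF
    rw [Finset.mem_coe, Finset.mem_image]
    refine ⟨(i, x), Finset.mem_product.2 ⟨hi, hx⟩, ?_⟩
    show -det3 (L.p i) (L.p (L.s i)) (L.p x) / det3 (L.p (pr i)) (L.p i) (L.p x) = a
    rw [div_eq_iff hB]
    linarith

end Pool.Agent.TSC
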