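import Pool.Agent.TSC.Stmts

/-!
# TSC, module AGN: genericity of the cut polygon
-/

set_option autoImplicit false

namespace Pool.Agent.TSC

open Set Filter Topology Pool.Agent.TSM

namespace AGN_

theorem poly_ne {D0 D1 D2 D3 : ℝ} (h : D0 ≠ 0 ∨ (D0 = 0 ∧ D1 ≠ 0)) :
    ∀ᶠ δ : ℝ in 𝓝[>] 0, D0 + δ * D1 + δ ^ 2 * D2 + δ ^ 3 * D3 ≠ 0 := by
  rcases h with h | ⟨h, h1⟩
  · have hc : Continuous fun δ : ℝ => D0 + δ * D1 + δ ^ 2 * D2 + δ ^ 3 * D3 := by fun_prop
    have h2 : ∀ᶠ δ : ℝ in 𝓝 0, D0 + δ * D1 + δ ^ 2 * D2 + δ ^ 3 * D3 ≠ 0 := by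
      apply hc.continuousAt.eventually_ne
      simpa using h
    exact h2.filter_mono nhdsWithin_le_nhds
  · have hc : Continuous fun δ : ℝ => D1 + δ * D2 + δ ^ 2 * D3 := by fun_prop
    have h2 : ∀ᶠ δ : ℝ in 𝓝 0, D1 + δ * D2 + δ ^ 2 * D3 ≠ 0 := by
      apply hc.continuousAt.eventually_ne
      simpa using h1
    filter_upwards [h2.filter_mono nhdsWithin_le_nhds, self_mem_nhdsWithin] with δ h3 h4
    have h5 : δ ≠ 0 := ne_of_gt h4
    have h6 : D0 + δ * D1 + δ ^ 2 * D2 + δ ^ 3 * D3 = δ * (D1 + δ * D2 + δ ^ 2 * D3) := by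
      rw [h]; ring
    rw [h6]
    exact mul_ne_zero h5 h3

theorem det3_exp (P Q R u v w : E3) (δ : ℝ) :
    det3 (P + δ • u) (Q + δ • v) (R + δ • w) =
      det3 P Q R + δ * (det3 u Q R + det3 P v R + det3 P Q w) +
      δ ^ 2 * (det3 u v R + det3 u Q w + det3 P v w) + δ ^ 3 * det3 u v w := by
  simp only [det3, PiLp.add_apply, PiLp.smul_apply, smul_eq_mul]; ring

section
variable {V : Type} [DecidableEq V] (L : Pg V) (pr : V → V) (a : ℝ)

/-- first order part of the directions -/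
noncomputable def vv (q : V × Bool) : E3 :=
  if L.X = some q.1 then 0 else if q.2 = true then L.p (L.s q.1) else a • L.p (pr q.1)

theorem p_eq (δ : ℝ) (q : V × Bool) :
    (cut L pr a δ).p q = L.p q.1 + δ • vv L pr a q := by
  unfold cut vv
  dsimp only
  split_ifs
  · rw [smul_zero, add_zero]
  · rfl
  · rw [smul_smul]

/-- the determinant of the three directions is eventually non-zero -/
def EV (x y z : V × Bool) : Prop :=
  ∀ᶠ δ : ℝ in 𝓝[>] 0,
    det3 ((cut L pr a δ).p x) ((cut L pr a δ).p y) ((cut L pr a δ).p z) ≠ 0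

theorem EV_rot {x y z : V × Bool} (h : EV L pr a x y z) : EV L pr a y z x := by
  unfold EV at *
  filter_upwards [h] with δ hδ
  rwa [det3_rot] at hδ

theorem EV_swap {x y z : V × Bool} (h : EV L pr a x y z) : EV L pr a y x z := by
  unfold EV at *
  filter_upwards [h] with δ hδ
  rw [det3_swap] at hδ
  intro h0
  rw [h0, neg_zero] at hδ
  exact hδ rfl

theorem EV_of {x y z : V × Bool}
    (h : det3 (L.p x.1) (L.p y.1) (L.p z.1) ≠ 0 ∨
      (det3 (L.p x.1) (L.p y.1) (L.p z.1) = 0 ∧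
        det3 (vv L pr a x) (L.p y.1) (L.p z.1) + det3 (L.p x.1) (vv L pr a y) (L.p z.1) +
          det3 (L.p x.1) (L.p y.1) (vv L pr a z) ≠ 0)) : EV L pr a x y z := by
  unfold EV
  simp only [p_eq, det3_exp]
  exact poly_ne h

variable {L} {pr} {a}

/-- two equal base labels -/
theorem EV_pair (hg : GenA L pr a) {i : V} (hi : i ∈ L.S) (h : NF L i) {z : V × Bool}
    (hz : z.1 ∈ L.S) (hzi : z.1 ≠ i) : EV L pr a (i, false) (i, true) z := by
  apply EV_of
  right
  have hn : ¬ L.X = some i := h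
  refine ⟨det3_self12 _ _, ?_⟩
  have e1 : vv L pr a (i, false) = a • L.p (pr i) := by simp [vv, hn]
  have e2 : vv L pr a (i, true) = L.p (L.s i) := by simp [vv, hn]
  rw [e1, e2, det3_self12, det3_smul1, add_zero, add_comm]
  exact hg i hi h z.1 hz hzi

/-- labels over the flat vertex and its neighbours -/
theorem EV_flat (hL : L.Ok) (hpr : IsPr L pr) (ha : 0 < a) {m : V} (hm : L.X = some m)
    (c d : Bool) (hcd : ¬ (c = true ∧ d = false)) :
    EV L pr a (pr m, c) (m, false) (L.s m, d) := by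
  obtain ⟨hmS, ⟨α, β, hα, hβ, hab⟩, σ, hσ, hneg⟩ := flat_data hL hpr hm
  obtain ⟨h1, h2, h3⟩ := hpr m hmS
  have hs : L.s m ∈ L.S := hL.maps m hmS
  have hss : L.s (L.s m) ∈ L.S := hL.maps _ hs
  obtain ⟨h1', h2', h3'⟩ := hpr (pr m) h1
  have nq : ¬ L.X = some (pr m) := by
    intro h; rw [hm] at h
    exact pr_ne hL hpr hmS (Option.some.inj h).symm
  have nq' : ¬ L.X = some (L.s m) := by
    intro h; rw [hm] at h
    exact s_ne hL hpr hmS (Option.some.inj h).symm
  -- the two outer vertices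
  have k1 : pr (pr m) ≠ pr m := pr_ne hL hpr h1
  have k2 : pr (pr m) ≠ m := by
    intro h
    rw [h] at h2'
    exact pr_ne_s hL hpr hmS h2'.symm
  have k3 : pr (pr m) ≠ L.s m := by
    intro h
    rw [h] at h2'
    have h5 := h2
    rw [← h2'] at h5
    exact sss_ne hL hmS h5
  have l1 : L.s (L.s m) ≠ pr m := by
    intro h
    have h5 := h2
    rw [← h] at h5
    exact sss_ne hL hmS h5
  have l2 : L.s (L.s m) ≠ m := ss_ne hL hmS
  have l3 : L.s (L.s m) ≠ L.s m := s_ne hL hpr hs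
  have n1 := hneg _ h1' k1 k2 k3
  have n2 := hneg _ hss l1 l2 l3
  have d0 : ∀ x : E3, det3 x (L.p m) (L.p (L.s m)) = (inner ℝ (L.nor m) x : ℝ) := fun x => by
    unfold Pg.nor
    rw [inner_crs, det3_rot]
  have hpq : L.p (pr m) = -(α⁻¹ • (β • L.p (L.s m) + L.p m)) := by
    have h5 : α • L.p (pr m) = -(β • L.p (L.s m) + L.p m) := by
      rw [eq_neg_iff_add_eq_zero, ← add_assoc]; exact hab
    rw [← smul_neg, ← h5, smul_smul, inv_mul_cancel₀ hα.ne', one_smul]
  have d1 : ∀ x : E3, det3 (L.p (pr m)) (L.p m) x = (β / α) * (inner ℝ (L.nor m) x : ℝ) :=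
    fun x => by
    rw [hpq, ← neg_one_smul ℝ, det3_smul1, det3_smul1, det3_add1, det3_smul1, det3_self12]
    unfold Pg.nor
    rw [inner_crs, det3_swap (L.p (L.s m))]
    field_simp
    ring
  have hba : 0 < β / α := div_pos hβ hα
  apply EV_of
  right
  constructor
  · change det3 (L.p (pr m)) (L.p m) (L.p (L.s m)) = 0
    have := turn_flat hL hpr hm
    unfold Pg.turn at this
    rwa [h2] at this
  · have e0 : vv L pr a (m, false) = 0 := by simp [vv, hm]
    have e0' : ∀ x y : E3, det3 x 0 y = 0 := fun x y => by simp [det3]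
    have e1 : ∀ c : Bool, vv L pr a (pr m, c) =
        if c = true then L.p m else a • L.p (pr (pr m)) := fun c => by
      simp [vv, nq, h2]
    have e2 : ∀ c : Bool, vv L pr a (L.s m, c) =
        if c = true then L.p (L.s (L.s m)) else a • L.p m := fun c => by
      simp [vv, nq', h3]
    rw [e0, e1, e2]
    change det3 _ (L.p m) (L.p (L.s m)) + det3 (L.p (pr m)) 0 (L.p (L.s m)) +
      det3 (L.p (pr m)) (L.p m) _ ≠ 0
    rw [d0, d1, e0', add_zero]
    have m0 : (inner ℝ (L.nor m) (L.p m) : ℝ) = 0 := by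
      unfold Pg.nor; rw [inner_crs, det3_self13]
    have hσ0 : σ ≠ 0 := by rcases hσ with h | h <;> rw [h] <;> norm_num
    cases c <;> cases d
    · simp only [Bool.false_eq_true, if_false, inner_smul_right, m0, mul_zero, add_zero]
      intro h
      rcases mul_eq_zero.1 h with h | h
      · exact ha.ne' h
      · rw [h, mul_zero] at n1; exact lt_irrefl _ n1
    · simp only [Bool.false_eq_true, if_false, if_true, inner_smul_right]
      intro h
      have h5 : a * (σ * (inner ℝ (L.nor m) (L.p (pr (pr m))) : ℝ)) < 0 :=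
        mul_neg_of_pos_of_neg ha n1
      have h6 : (β / α) * (σ * (inner ℝ (L.nor m) (L.p (L.s (L.s m))) : ℝ)) < 0 :=
        mul_neg_of_pos_of_neg hba n2
      have h7 : σ * (a * (inner ℝ (L.nor m) (L.p (pr (pr m))) : ℝ) +
          (β / α) * (inner ℝ (L.nor m) (L.p (L.s (L.s m))) : ℝ)) = 0 := by
        rw [h, mul_zero]
      nlinarith
    · exact absurd ⟨rfl, rfl⟩ hcd
    · simp only [if_true, m0, zero_add]
      intro h
      rcases mul_eq_zero.1 h with h | h
      · exact hba.ne' h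
      · rw [h, mul_zero] at n2; exact lt_irrefl _ n2

/-- the middle label lies over the flat vertex -/
theorem EV_mid (hL : L.Ok) (hpr : IsPr L pr) (ha : 0 < a) {m : V} (hm : L.X = some m)
    {x y z : V × Bool} (hx : x ∈ (cut L pr a 0).S) (hy : y ∈ (cut L pr a 0).S)
    (hz : z ∈ (cut L pr a 0).S) (hym : y.1 = m)
    (hs : ({x.1, z.1} : Finset V) = {pr m, L.s m}) (hne : x.1 ≠ z.1)
    (hf : ¬ (cut L pr a 0).Flat x y z) : EV L pr a x y z := by
  have hmS := (flat_data hL hpr hm).1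
  have hy2 : y = (m, false) := by
    have h5 := ((mem_cut L pr a 0 y).1 hy).2
    rw [hym] at h5
    exact Prod.ext hym (h5 hm)
  subst hy2
  have hx1 : x.1 = pr m ∨ x.1 = L.s m := by
    have : x.1 ∈ ({pr m, L.s m} : Finset V) := by rw [← hs]; simp
    simpa using this
  have hz1 : z.1 = pr m ∨ z.1 = L.s m := by
    have : z.1 ∈ ({pr m, L.s m} : Finset V) := by rw [← hs]; simp
    simpa using this
  have key : ∀ c d : Bool, c = true → d = false →
      (cut L pr a 0).Flat (pr m, c) (m, false) (L.s m, d) := by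
    rintro c d rfl rfl
    refine ⟨(m, false), (pr m, true), X_cut_some L pr a 0 hm, ?_, ?_, ?_⟩
    · apply mem_cut_true L pr a 0 (hpr m hmS).1
      intro h; rw [hm] at h
      exact pr_ne hL hpr hmS (Option.some.inj h).symm
    · rw [s_true, (hpr m hmS).2.1]
    · rw [s_flat L pr a 0 hm]
  obtain ⟨x1, c⟩ := x
  obtain ⟨z1, d⟩ := z
  simp only at hx1 hz1 hne
  rcases hx1 with rfl | rfl
  · rcases hz1 with rfl | rfl
    · exact absurd rfl hne
    · apply EV_flat hL hpr ha hm
      rintro ⟨h1, h2⟩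
      exact hf (key c d h1 h2)
  · rcases hz1 with rfl | rfl
    · have h5 : EV L pr a (pr m, d) (m, false) (L.s m, c) := by
        apply EV_flat hL hpr ha hm
        rintro ⟨h1, h2⟩
        apply hf
        obtain ⟨m', q, k1, k2, k3, k4⟩ := key d c h1 h2
        refine ⟨m', q, k1, k2, k3, ?_⟩
        rw [← k4]
        ext t
        simp only [Finset.mem_insert, Finset.mem_singleton]
        tauto
      exact EV_rot L pr a (EV_rot L pr a (EV_swap L pr a h5))
    · exact absurd rfl hne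

/-- base labels distinct -/
theorem EV_dist (hL : L.Ok) (hpr : IsPr L pr) (ha : 0 < a) {x y z : V × Bool}
    (hx : x ∈ (cut L pr a 0).S) (hy : y ∈ (cut L pr a 0).S)
    (hz : z ∈ (cut L pr a 0).S) (hxy : x.1 ≠ y.1) (hxz : x.1 ≠ z.1) (hyz : y.1 ≠ z.1)
    (hf : ¬ (cut L pr a 0).Flat x y z) : EV L pr a x y z := by
  have hx' := ((mem_cut L pr a 0 x).1 hx).1
  have hy' := ((mem_cut L pr a 0 y).1 hy).1
  have hz' := ((mem_cut L pr a 0 z).1 hz).1
  by_cases hfl : L.Flat x.1 y.1 z.1
  · obtain ⟨m, q, hm, hq, hqm, he⟩ := hfl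
    have hq' : q = pr m := by
      have := (hpr q hq).2.2
      rw [hqm] at this
      exact this.symm
    subst hq'
    have hmS := (flat_data hL hpr hm).1
    have n1 : pr m ≠ m := pr_ne hL hpr hmS
    have n2 : pr m ≠ L.s m := pr_ne_s hL hpr hmS
    have n3 : m ≠ L.s m := (s_ne hL hpr hmS).symm
    have hmm : m ∈ ({x.1, y.1, z.1} : Finset V) := by rw [he]; simp
    have mem : ∀ t, t ∈ ({x.1, y.1, z.1} : Finset V) ↔ t ∈ ({pr m, m, L.s m} : Finset V) :=
      fun t => by rw [he]
    simp only [Finset.mem_insert, Finset.mem_singleton] at hmm mem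
    -- removing m from both sides
    have rem : ∀ u v : V, u ≠ m → v ≠ m → (∀ t, (t = m ∨ t = u ∨ t = v) ↔
        (t = pr m ∨ t = m ∨ t = L.s m)) → ({u, v} : Finset V) = {pr m, L.s m} := by
      intro u v hu hv h
      ext t
      simp only [Finset.mem_insert, Finset.mem_singleton]
      have := h t
      constructor
      · rintro (rfl | rfl)
        · have := this.1 (Or.inr (Or.inl rfl))
          tauto
        · have := this.1 (Or.inr (Or.inr rfl))
          tauto
      · rintro (rfl | rfl)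
        · have := this.2 (Or.inl rfl)
          tauto
        · have := this.2 (Or.inr (Or.inr rfl))
          have n3' : L.s m ≠ m := n3.symm
          tauto
    rcases hmm with h | h | h
    · -- x over the flat vertex
      have h5 : EV L pr a y x z := by
        apply EV_mid hL hpr ha hm hy hx hz h.symm _ hyz
        · rintro ⟨m', q, k1, k2, k3, k4⟩
          apply hf
          refine ⟨m', q, k1, k2, k3, ?_⟩
          rw [← k4]
          ext t
          simp only [Finset.mem_insert, Finset.mem_singleton]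
          tauto
        · apply rem y.1 z.1 (h ▸ hxy.symm) (h ▸ hxz.symm)
          intro t
          rw [← mem t, ← h]
      exact EV_swap L pr a h5
    · apply EV_mid hL hpr ha hm hx hy hz h.symm _ hxz hf
      apply rem x.1 z.1 (h ▸ hxy) (h ▸ hyz.symm)
      intro t
      rw [← mem t, ← h]
      tauto
    · have h5 : EV L pr a x z y := by
        apply EV_mid hL hpr ha hm hx hz hy h.symm _ hxy
        · rintro ⟨m', q, k1, k2, k3, k4⟩
          apply hf
          refine ⟨m', q, k1, k2, k3, ?_⟩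
          rw [← k4]
          ext t
          simp only [Finset.mem_insert, Finset.mem_singleton]
          tauto
        · apply rem x.1 y.1 (h ▸ hxz) (h ▸ hyz)
          intro t
          rw [← mem t, ← h]
          tauto
      -- x z y -> z x y -> x y z
      exact EV_rot L pr a (EV_swap L pr a h5)
  · apply EV_of
    left
    exact hL.gen _ hx' _ hy' _ hz' hxy hxz hyz hfl

/-- pairs with the same base label -/
theorem EV_same (hg : GenA L pr a) {x y z : V × Bool}
    (hx : x ∈ (cut L pr a 0).S) (hy : y ∈ (cut L pr a 0).S)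
    (hz : z ∈ (cut L pr a 0).S) (hxy : x ≠ y) (hxz : x ≠ z) (hyz : y ≠ z)
    (h : x.1 = y.1) : EV L pr a x y z := by
  obtain ⟨x1, x2⟩ := x
  obtain ⟨y1, y2⟩ := y
  obtain ⟨z1, z2⟩ := z
  simp only at h
  subst h
  have hx' := (mem_cut L pr a 0 _).1 hx
  have hy' := (mem_cut L pr a 0 _).1 hy
  have hz' := (mem_cut L pr a 0 _).1 hz
  simp only at hx' hy' hz'
  have hne : x2 ≠ y2 := fun h => hxy (by rw [h])
  have hnf : NF L x1 := by
    intro h
    exact hne ((hx'.2 h).trans (hy'.2 h).symm)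
  have hz1 : z1 ≠ x1 := by
    rintro rfl
    have h1 : x2 ≠ z2 := fun h => hxz (by rw [h])
    have h2 : y2 ≠ z2 := fun h => hyz (by rw [h])
    cases x2 <;> cases y2 <;> cases z2 <;> simp at h1 h2 hne
  cases x2 <;> cases y2
  · exact absurd rfl hne
  · exact EV_pair hg hx'.1 hnf hz'.1 hz1
  · exact EV_swap L pr a (EV_pair hg hx'.1 hnf hz'.1 hz1)
  · exact absurd rfl hne

theorem EV_all (hL : L.Ok) (hpr : IsPr L pr) (ha : 0 < a) (hg : GenA L pr a) {x y z : V × Bool}
    (hx : x ∈ (cut L pr a 0).S) (hy : y ∈ (cut L pr a 0).S)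
    (hz : z ∈ (cut L pr a 0).S) (hxy : x ≠ y) (hxz : x ≠ z) (hyz : y ≠ z)
    (hf : ¬ (cut L pr a 0).Flat x y z) : EV L pr a x y z := by
  by_cases h1 : x.1 = y.1
  · exact EV_same hg hx hy hz hxy hxz hyz h1
  by_cases h2 : x.1 = z.1
  · -- x z y -> z x y -> x y z
    exact EV_rot L pr a (EV_swap L pr a (EV_same hg hx hz hy hxz hxy hyz.symm h2))
  by_cases h3 : y.1 = z.1
  · -- y z x -> z x y -> x y z
    exact EV_rot L pr a (EV_rot L pr a (EV_same hg hy hz hx hyz hxy.symm hxz.symm h3))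
  exact EV_dist hL hpr ha hx hy hz h1 h2 h3 hf

end

end AGN_

open AGN_ in
theorem AGN_proof : Stmt_AGN := by
  intro V _ L pr hL hpr a ha hg
  have hS : ∀ δ : ℝ, (cut L pr a δ).S = (cut L pr a 0).S := fun δ => rfl
  have hF : ∀ (δ : ℝ) (x y z : V × Bool), (cut L pr a δ).Flat x y z ↔
      (cut L pr a 0).Flat x y z := fun δ x y z => Iff.rfl
  have key : ∀ᶠ δ : ℝ in 𝓝[>] 0, ∀ x ∈ (cut L pr a 0).S, ∀ y ∈ (cut L pr a 0).S,
      ∀ z ∈ (cut L pr a 0).S, x ≠ y → x ≠ z → y ≠ z → ¬ (cut L pr a 0).Flat x y z →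
      det3 ((cut L pr a δ).p x) ((cut L pr a δ).p y) ((cut L pr a δ).p z) ≠ 0 := by
    rw [Filter.eventually_all_finset]
    intro x hx
    rw [Filter.eventually_all_finset]
    intro y hy
    rw [Filter.eventually_all_finset]
    intro z hz
    by_cases h1 : x ≠ y ∧ x ≠ z ∧ y ≠ z ∧ ¬ (cut L pr a 0).Flat x y z
    · filter_upwards [EV_all hL hpr ha hg hx hy hz h1.1 h1.2.1 h1.2.2.1 h1.2.2.2] with δ hδ
      intro _ _ _ _
      exact hδ
    · apply Filter.Eventually.of_forall
      intro δ k1 k2 k3 k4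
      exact absurd ⟨k1, k2, k3, k4⟩ h1
  obtain ⟨δ₀, h0, h1⟩ := (mem_nhdsGT_iff_exists_Ioo_subset).1 key
  refine ⟨δ₀, h0, fun δ hδ hδ' i hi j hj k hk hij hik hjk hf => ?_⟩
  exact h1 ⟨hδ, hδ'⟩ i hi j hj k hk hij hik hjk ((hF δ i j k).not.1 hf)

end Pool.Agent.TSC
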