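import Pool.Agent.TSC.Stmts

/-!
# TSC, module AKD: the kind of the cut polygon
-/

set_option autoImplicit false

namespace Pool.Agent.TSC

open Set Filter Topology Pool.Agent.TSM

namespace AKD_

variable {V : Type} [DecidableEq V]

omit [DecidableEq V] in
/-- compactness: a uniform positive lower bound on the sphere -/
theorem unif (S : Finset V) (p : V → E3)
    (h : ∀ ν : E3, ν ≠ 0 → ∃ i ∈ S, 0 < (inner ℝ ν (p i) : ℝ)) :
    ∃ c : ℝ, 0 < c ∧ ∀ ν : E3, ∃ i ∈ S, c * ‖ν‖ ≤ (inner ℝ ν (p i) : ℝ) := by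
  have hne : S.Nonempty := by
    obtain ⟨i, hi, -⟩ := h (EuclideanSpace.single 0 (1 : ℝ)) (by
      intro h0
      have := congrArg (fun x : E3 => x 0) h0
      simp at this)
    exact ⟨i, hi⟩
  let g : E3 → ℝ := fun ν => S.sup' hne fun i => (inner ℝ ν (p i) : ℝ)
  have hg : Continuous g := by
    apply Continuous.finset_sup'_apply
    intro i _
    exact continuous_id.inner continuous_const
  have hcomp : IsCompact (Metric.sphere (0 : E3) 1) := isCompact_sphere _ _
  have hnes : (Metric.sphere (0 : E3) 1).Nonempty :=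
    ⟨EuclideanSpace.single 0 (1 : ℝ), by simp⟩
  obtain ⟨ν₀, hν₀, hmin⟩ := hcomp.exists_isMinOn hnes hg.continuousOn
  have hν₀' : ν₀ ≠ 0 := by
    rintro rfl
    simp at hν₀
  have hpos : 0 < g ν₀ := by
    obtain ⟨i, hi, h1⟩ := h ν₀ hν₀'
    exact lt_of_lt_of_le h1 (Finset.le_sup' (fun i => (inner ℝ ν₀ (p i) : ℝ)) hi)
  refine ⟨g ν₀, hpos, fun ν => ?_⟩
  by_cases hν : ν = 0
  · obtain ⟨i, hi⟩ := hne
    refine ⟨i, hi, ?_⟩
    rw [hν]
    simp
  · have hn : 0 < ‖ν‖ := norm_pos_iff.2 hν
    have hs : (‖ν‖⁻¹ • ν) ∈ Metric.sphere (0 : E3) 1 := by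
      rw [mem_sphere_zero_iff_norm, norm_smul, norm_inv, norm_norm, inv_mul_cancel₀ hn.ne']
    have h1 : g ν₀ ≤ g (‖ν‖⁻¹ • ν) := hmin hs
    obtain ⟨i, hi, h2⟩ := Finset.exists_mem_eq_sup' hne
      (fun i => (inner ℝ (‖ν‖⁻¹ • ν) (p i) : ℝ))
    refine ⟨i, hi, ?_⟩
    have h3 : g ν₀ ≤ (inner ℝ (‖ν‖⁻¹ • ν) (p i) : ℝ) := by
      rw [← h2]; exact h1
    rw [inner_smul_left] at h3
    have h4 : (starRingEnd ℝ) ‖ν‖⁻¹ = ‖ν‖⁻¹ := rfl
    rw [h4] at h3
    calc g ν₀ * ‖ν‖ ≤ (‖ν‖⁻¹ * inner ℝ ν (p i)) * ‖ν‖ := by gcongr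
      _ = inner ℝ ν (p i) := by field_simp

end AKD_

open AKD_ in
theorem AKD_proof : Stmt_AKD := by
  intro V _ L pr hL hpr a ha
  rcases hX : L.X with _ | m
  · -- closed type
    have hk : ∀ ν : E3, ν ≠ 0 → ∃ i ∈ L.S, 0 < (inner ℝ ν (L.p i) : ℝ) := by
      rcases hL.kind with h | ⟨m, h1, -⟩
      · exact h.2
      · rw [hX] at h1; exact absurd h1 (by simp)
    obtain ⟨c, hc, hu⟩ := unif L.S L.p hk
    obtain ⟨M, hM⟩ : ∃ M : ℝ, ∀ i ∈ L.S, ‖L.p (pr i)‖ ≤ M :=
      ⟨∑ i ∈ L.S, ‖L.p (pr i)‖, fun i hi =>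
        Finset.single_le_sum (f := fun i => ‖L.p (pr i)‖) (fun _ _ => norm_nonneg _) hi⟩
    have hM1 : 0 < a * |M| + 1 := by positivity
    refine ⟨c / (a * |M| + 1), div_pos hc hM1, fun δ hδ hδ' => Or.inl ⟨?_, ?_⟩⟩
    · rw [X_cut, hX]; rfl
    · intro ν hν
      obtain ⟨i, hi, h1⟩ := hu ν
      refine ⟨(i, false), mem_cut_false L pr a δ hi, ?_⟩
      have hnf : NF L i := by unfold NF; rw [hX]; simp
      have hn : 0 < ‖ν‖ := norm_pos_iff.2 hν
      rw [p_false L pr a δ hnf, inner_add_right, inner_smul_right]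
      have h2 : |(inner ℝ ν (L.p (pr i)) : ℝ)| ≤ ‖ν‖ * |M| :=
        (abs_real_inner_le_norm _ _).trans (by
          gcongr
          exact (hM i hi).trans (le_abs_self M))
      have h3 : δ * (a * |M| + 1) < c := by
        rwa [lt_div_iff₀ hM1] at hδ'
      have h4 : -(‖ν‖ * |M|) ≤ (inner ℝ ν (L.p (pr i)) : ℝ) := neg_le_of_abs_le h2
      have h5 : δ * a * (-(‖ν‖ * |M|)) ≤ δ * a * (inner ℝ ν (L.p (pr i)) : ℝ) := by
        gcongr
      have h6 : δ * (a * |M| + 1) * ‖ν‖ < c * ‖ν‖ := by gcongr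
      have h7 : 0 < δ * ‖ν‖ := by positivity
      nlinarith
  · -- corner type
    obtain ⟨hmS, ⟨α, β, hα, hβ, hrel⟩, σ, hσ, hsgn⟩ := flat_data hL hpr hX
    obtain ⟨hpm, hspm, hprs⟩ := hpr m hmS
    have hsm : L.s m ∈ L.S := hL.maps m hmS
    have hnfp : NF L (pr m) := by
      unfold NF; rw [hX]
      intro h
      exact pr_ne hL hpr hmS (Option.some.inj h).symm
    have hnfs : NF L (L.s m) := by
      unfold NF; rw [hX]
      intro h
      exact s_ne hL hpr hmS (Option.some.inj h).symm
    have hα' : 0 < α + a * β := by positivity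
    refine ⟨1 / (α + a * β), by positivity, fun δ hδ hδ' => Or.inr ⟨(m, false), ?_, ?_⟩⟩
    · exact X_cut_some L pr a δ hX
    have hw : 0 < 1 - δ * α - δ * a * β := by
      rw [lt_div_iff₀ hα'] at hδ'
      nlinarith
    -- values of the functional
    have hz1 : (inner ℝ (L.nor m) (L.p m) : ℝ) = 0 := by
      unfold Pg.nor; rw [inner_crs, det3_self13]
    have hz2 : (inner ℝ (L.nor m) (L.p (L.s m)) : ℝ) = 0 := by
      unfold Pg.nor; rw [inner_crs, det3_self23]
    have hz3 : (inner ℝ (L.nor m) (L.p (pr m)) : ℝ) = 0 := by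
      have h1 : (inner ℝ (L.nor m) (α • L.p (pr m) + β • L.p (L.s m) + L.p m) : ℝ) = 0 := by
        rw [hrel, inner_zero_right]
      rw [inner_add_right, inner_add_right, inner_smul_right, inner_smul_right, hz1, hz2,
        mul_zero, add_zero, add_zero] at h1
      rcases mul_eq_zero.1 h1 with h | h
      · exact absurd h hα.ne'
      · exact h
    have hle : ∀ i ∈ L.S, σ * (inner ℝ (L.nor m) (L.p i) : ℝ) ≤ 0 := by
      intro i hi
      by_cases h1 : i = pr m
      · rw [h1, hz3, mul_zero]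
      by_cases h2 : i = m
      · rw [h2, hz1, mul_zero]
      by_cases h3 : i = L.s m
      · rw [h3, hz2, mul_zero]
      exact (hsgn i hi h1 h2 h3).le
    have hnor : (cut L pr a δ).nor (m, false) = L.nor m := by
      have := nor_lab a δ hL hpr hmS
      rw [lab_flat L hX, lam, if_pos (Or.inl hX), one_smul] at this
      exact this
    have hs1 : (cut L pr a δ).s (m, false) = (L.s m, false) := s_flat L pr a δ hX
    refine ⟨mem_cut_false L pr a δ hmS, (pr m, true), mem_cut_true L pr a δ hpm hnfp, ?_, ?_, ?_⟩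
    · rw [s_true, hspm]
    · refine ⟨α / (1 - δ * α - δ * a * β), β / (1 - δ * α - δ * a * β), div_pos hα hw,
        div_pos hβ hw, ?_⟩
      rw [hs1, p_true L pr a δ hnfp, p_false L pr a δ hnfs, p_flat L pr a δ hX, hspm, hprs]
      have h1 : α • (L.p (pr m) + δ • L.p m) + β • (L.p (L.s m) + (δ * a) • L.p m) +
          (1 - δ * α - δ * a * β) • L.p m = 0 := by
        rw [← hrel]; module
      have h2 : ∀ (w : ℝ) (X Y Z : E3), w ≠ 0 → α • X + β • Y + w • Z = 0 →
          (α / w) • X + (β / w) • Y + Z = 0 := by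
        intro w X Y Z hw0 h
        have h3 : (α / w) • X + (β / w) • Y + Z = w⁻¹ • (α • X + β • Y + w • Z) := by
          rw [smul_add, smul_add, smul_smul, smul_smul, smul_smul, inv_mul_cancel₀ hw0, one_smul,
            div_eq_inv_mul, div_eq_inv_mul]
        rw [h3, h, smul_zero]
      exact h2 _ _ _ _ hw.ne' h1
    · refine ⟨σ, hσ, ?_⟩
      rintro ⟨x, c⟩ hi h1 h2 h3
      obtain ⟨hx, hc⟩ := (mem_cut L pr a δ _).1 hi
      simp only at hx hc
      rw [hs1] at h3
      rw [hnor]
      have hxm : x ≠ m := by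
        rintro rfl
        apply h2
        rw [hc hX]
      have hnfx : NF L x := by
        unfold NF; rw [hX]
        intro h
        exact hxm (Option.some.inj h).symm
      obtain ⟨hpx, hspx, hprsx⟩ := hpr x hx
      cases c
      · -- (x, false)
        rw [p_false L pr a δ hnfx, inner_add_right, inner_smul_right, mul_add]
        by_cases hxp : x = pr m
        · subst hxp
          rw [hz3, mul_zero, zero_add]
          have h4 : pr (pr m) ≠ pr m := pr_ne hL hpr hpm
          have h5 : pr (pr m) ≠ m := by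
            intro h
            have h6 := hspx
            rw [h] at h6
            exact pr_ne_s hL hpr hmS h6.symm
          have h6 : pr (pr m) ≠ L.s m := by
            intro h
            have h7 := hspx
            rw [h] at h7
            have h8 : L.s (L.s (L.s m)) = m := by rw [h7, hspm]
            exact sss_ne hL hmS h8
          have h7 := hsgn _ hpx h4 h5 h6
          have h8 : 0 < δ * a := by positivity
          nlinarith
        · have hxs : x ≠ L.s m := by
            rintro rfl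
            exact h3 rfl
          have h4 := hsgn x hx hxp hxm hxs
          have h5 := hle _ hpx
          have h8 : 0 < δ * a := by positivity
          nlinarith
      · -- (x, true)
        rw [p_true L pr a δ hnfx, inner_add_right, inner_smul_right, mul_add]
        have hxp : x ≠ pr m := by
          rintro rfl
          exact h1 rfl
        by_cases hxs : x = L.s m
        · subst hxs
          rw [hz2, mul_zero, zero_add]
          have h4 : L.s (L.s m) ≠ pr m := by
            intro h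
            have h5 : L.s (L.s (L.s m)) = m := by rw [h, hspm]
            exact sss_ne hL hmS h5
          have h5 : L.s (L.s m) ≠ m := ss_ne hL hmS
          have h6 : L.s (L.s m) ≠ L.s m := s_ne hL hpr hsm
          have h7 := hsgn _ (hL.maps _ hsm) h4 h5 h6
          nlinarith
        · have h4 := hsgn x hx hxp hxm hxs
          have h5 := hle _ (hL.maps _ hx)
          nlinarith

end Pool.Agent.TSC
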