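import Pool.Agent.TSC.Stmts

/-!
# TSC: the cut polygon is Ok
-/

set_option autoImplicit false

namespace Pool.Agent.TSC

open Set Filter Topology Pool.Agent.TSM

theorem AOK_proof (hCOM : Stmt_COM) (hAGN : Stmt_AGN) (hASM : Stmt_ASM) (hAKD : Stmt_AKD) :
    Stmt_AOK := by
  intro V _ L pr hL hpr a ha hg
  obtain ⟨d1, hd1, h1⟩ := hAGN V L pr hL hpr a ha hg
  obtain ⟨d2, hd2, h2⟩ := hASM V L pr hL hpr a ha
  obtain ⟨d3, hd3, h3⟩ := hAKD V L pr hL hpr a ha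
  refine ⟨min d1 (min d2 d3), lt_min hd1 (lt_min hd2 hd3), ?_⟩
  intro δ hδ hlt
  obtain ⟨c1, c2, c3, c4⟩ := hCOM V L pr hL hpr a δ
  have e1 : δ < d1 := hlt.trans_le (min_le_left _ _)
  have e2 : δ < d2 := hlt.trans_le ((min_le_right _ _).trans (min_le_left _ _))
  have e3 : δ < d3 := hlt.trans_le ((min_le_right _ _).trans (min_le_right _ _))
  exact ⟨c1, c2, c3, c4, h1 δ hδ e1, h2 δ hδ e2, h3 δ hδ e3⟩

end Pool.Agent.TSC
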