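import Pool.Agent.TSC.Stmts
import Pool.Agent.TSM.FINJ

/-!
# TSC module ASM: the cut polygon is simple
-/

set_option autoImplicit false

namespace Pool.Agent.TSC

open Set Filter Topology Pool.Agent.TSM

namespace ASM_

variable {V : Type} [DecidableEq V] {L : Pg V} {pr : V → V}

/-- the conclusion -/
def Con (Lo : Pg (V × Bool)) (i j : V × Bool) (x : E3) : Prop :=
  (j = Lo.s i ∧ ∃ c : ℝ, 0 ≤ c ∧ x = c • Lo.p j) ∨
    (i = Lo.s j ∧ ∃ c : ℝ, 0 ≤ c ∧ x = c • Lo.p i) ∨ x = 0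

theorem Con.symm {Lo : Pg (V × Bool)} {i j : V × Bool} {x : E3} (h : Con Lo i j x) :
    Con Lo j i x := by
  rcases h with h | h | h
  · exact Or.inr (Or.inl h)
  · exact Or.inl h
  · exact Or.inr (Or.inr h)

theorem p_lab (a δ : ℝ) (hδ : 0 < δ) (k : V) :
    ∃ t : ℝ, 0 ≤ t ∧ (cut L pr a δ).p (lab L k) = L.p k + t • L.p (L.s k) := by
  by_cases h : L.X = some k
  · refine ⟨0, le_refl _, ?_⟩
    rw [lab_flat L h, p_flat L pr a δ h, zero_smul, add_zero]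
  · refine ⟨δ, hδ.le, ?_⟩
    rw [lab_nf L h, p_true L pr a δ h]

theorem p_s (hpr : IsPr L pr) (a δ : ℝ) (ha : 0 < a) (hδ : 0 < δ) {k : V} (hk : k ∈ L.S) :
    ∃ t : ℝ, 0 ≤ t ∧ (NF L (L.s k) → 0 < t) ∧
      (cut L pr a δ).p (L.s k, false) = L.p (L.s k) + t • L.p k := by
  by_cases h : L.X = some (L.s k)
  · refine ⟨0, le_refl _, fun h' => absurd h h', ?_⟩
    rw [p_flat L pr a δ h, zero_smul, add_zero]
  · refine ⟨δ * a, (mul_pos hδ ha).le, fun _ => mul_pos hδ ha, ?_⟩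
    rw [p_false L pr a δ h, (hpr k hk).2.2]

/-- a point of a big face in coordinates -/
theorem big_coord (hpr : IsPr L pr) (a δ : ℝ) (ha : 0 < a) (hδ : 0 < δ) {k : V} (hk : k ∈ L.S)
    {x : E3} (hx : x ∈ (cut L pr a δ).face (lab L k)) :
    ∃ α β t t' : ℝ, 0 ≤ α ∧ 0 ≤ β ∧ 0 ≤ t ∧ 0 ≤ t' ∧ (NF L (L.s k) → 0 < t') ∧
      x = (α + β * t') • L.p k + (α * t + β) • L.p (L.s k) := by
  obtain ⟨α, β, hα, hβ, h⟩ := hx
  obtain ⟨t, ht, h1⟩ := p_lab (L := L) (pr := pr) a δ hδ k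
  obtain ⟨t', ht', h2, h3⟩ := p_s hpr a δ ha hδ hk
  refine ⟨α, β, t, t', hα, hβ, ht, ht', h2, ?_⟩
  rw [h, s_lab, h1, h3]
  module

theorem big_sub (hpr : IsPr L pr) (a δ : ℝ) (ha : 0 < a) (hδ : 0 < δ) {k : V} (hk : k ∈ L.S)
    {x : E3} (hx : x ∈ (cut L pr a δ).face (lab L k)) : x ∈ L.face k := by
  obtain ⟨α, β, t, t', hα, hβ, ht, ht', -, h⟩ := big_coord hpr a δ ha hδ hk hx
  exact ⟨_, _, by positivity, by positivity, h⟩

theorem caseA (hL : L.Ok) (hpr : IsPr L pr) (a δ : ℝ) (ha : 0 < a) (hδ : 0 < δ) {k : V}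
    (hk : k ∈ L.S) {x : E3} (hx : x ∈ (cut L pr a δ).face (lab L k)) {c : ℝ} (hc : 0 ≤ c)
    (hxc : x = c • L.p (L.s k)) :
    Con (cut L pr a δ) (lab L k) (lab L (L.s k)) x := by
  obtain ⟨α, β, t, t', hα, hβ, ht, ht', hpos, h⟩ := big_coord hpr a δ ha hδ hk hx
  have h1 : (α + β * t') • L.p k + (α * t + β - c) • L.p (L.s k) = 0 := by
    have h2 : x - x = 0 := sub_self x
    nth_rewrite 1 [h] at h2
    rw [hxc] at h2
    rw [← h2]
    module
  obtain ⟨h2, h3⟩ := FINJ_.indep hL hk _ _ h1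
  have hα0 : α = 0 := by nlinarith [mul_nonneg hβ ht']
  have hβt : β * t' = 0 := by rw [hα0, zero_add] at h2; exact h2
  by_cases hfl : L.X = some (L.s k)
  · left
    refine ⟨?_, c, hc, ?_⟩
    · rw [s_lab, lab_flat L hfl]
    · rw [lab_flat L hfl, p_flat L pr a δ hfl]; exact hxc
  · right; right
    have ht0 : t' ≠ 0 := (hpos hfl).ne'
    have hβ0 : β = 0 := (mul_eq_zero.1 hβt).resolve_right ht0
    rw [h, hα0, hβ0]
    module

/-- a point of a small face in coordinates -/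
theorem small_coord (a δ : ℝ) {j : V} (h : NF L j) {x : E3}
    (hx : x ∈ (cut L pr a δ).face (j, false)) :
    ∃ u v : ℝ, 0 ≤ u ∧ 0 ≤ v ∧ x = u • (cut L pr a δ).p (j, false) +
      v • (cut L pr a δ).p (j, true) ∧
      x = (u + v) • L.p j + δ • ((u * a) • L.p (pr j) + v • L.p (L.s j)) := by
  obtain ⟨u, v, hu, hv, hx⟩ := hx
  rw [s_false L pr a δ h] at hx
  refine ⟨u, v, hu, hv, hx, ?_⟩
  rw [hx, p_false L pr a δ h, p_true L pr a δ h]
  module

theorem caseB1 (hL : L.Ok) (hpr : IsPr L pr) (a δ : ℝ) (hδ : 0 < δ) {j : V}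
    (hj : j ∈ L.S) (h : NF L j) {x : E3} (hx : x ∈ (cut L pr a δ).face (j, false))
    (hx2 : x ∈ L.face (pr j)) : Con (cut L pr a δ) (lab L (pr j)) (j, false) x := by
  obtain ⟨h1, h2, h3⟩ := hpr j hj
  obtain ⟨u, v, hu, hv, e1, e2⟩ := small_coord a δ h hx
  obtain ⟨α, β, -, -, e3⟩ := hx2
  rw [h2] at e3
  have hT := turn_pr_ne hL hpr hj h
  have hT2 : L.turn (pr j) = det3 (L.p (pr j)) (L.p j) (L.p (L.s j)) := by
    unfold Pg.turn; rw [h2]
  have d1 : det3 (L.p (pr j)) (L.p j) x = δ * v * det3 (L.p (pr j)) (L.p j) (L.p (L.s j)) := by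
    rw [e2]
    simp only [det3, PiLp.add_apply, PiLp.smul_apply, smul_eq_mul]
    ring
  have d2 : det3 (L.p (pr j)) (L.p j) x = 0 := by
    rw [e3]
    simp only [det3, PiLp.add_apply, PiLp.smul_apply, smul_eq_mul]
    ring
  rw [d2, ← hT2] at d1
  have hv0 : v = 0 := by
    rcases mul_eq_zero.1 d1.symm with h4 | h4
    · exact (mul_eq_zero.1 h4).resolve_left hδ.ne'
    · exact absurd h4 hT
  left
  refine ⟨?_, u, hu, ?_⟩
  · rw [s_lab, h2]
  · rw [e1, hv0, zero_smul, add_zero]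

theorem caseB2 (hL : L.Ok) (hpr : IsPr L pr) (a δ : ℝ) (ha : 0 < a) (hδ : 0 < δ) {j : V}
    (hj : j ∈ L.S) (h : NF L j) {x : E3} (hx : x ∈ (cut L pr a δ).face (j, false))
    (hx2 : x ∈ L.face j) : Con (cut L pr a δ) (lab L j) (j, false) x := by
  obtain ⟨h1, h2, h3⟩ := hpr j hj
  obtain ⟨u, v, hu, hv, e1, e2⟩ := small_coord a δ h hx
  obtain ⟨α, β, -, -, e3⟩ := hx2
  have hT := turn_pr_ne hL hpr hj h
  have hT2 : L.turn (pr j) = det3 (L.p (pr j)) (L.p j) (L.p (L.s j)) := by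
    unfold Pg.turn; rw [h2]
  have d1 : det3 (L.p j) (L.p (L.s j)) x =
      δ * (u * a) * det3 (L.p (pr j)) (L.p j) (L.p (L.s j)) := by
    rw [e2]
    simp only [det3, PiLp.add_apply, PiLp.smul_apply, smul_eq_mul]
    ring
  have d2 : det3 (L.p j) (L.p (L.s j)) x = 0 := by
    rw [e3]
    simp only [det3, PiLp.add_apply, PiLp.smul_apply, smul_eq_mul]
    ring
  rw [d2, ← hT2] at d1
  have hu0 : u = 0 := by
    rcases mul_eq_zero.1 d1.symm with h4 | h4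
    · exact (mul_eq_zero.1 ((mul_eq_zero.1 h4).resolve_left hδ.ne')).resolve_right ha.ne'
    · exact absurd h4 hT
  right; left
  rw [lab_nf L h]
  refine ⟨?_, v, hv, ?_⟩
  · rw [s_false L pr a δ h]
  · rw [e1, hu0, zero_smul, zero_add]

theorem p_not_mem (hL : L.Ok) (hpr : IsPr L pr) {j k : V} (hj : j ∈ L.S) (hk : k ∈ L.S)
    (h1 : k ≠ j) (h2 : k ≠ pr j) : L.p j ∉ L.face k := by
  intro h
  have h0 : L.p j ∈ L.face j := ⟨1, 0, zero_le_one, le_refl _, by module⟩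
  rcases hL.simple j hj k hk h1.symm (L.p j) h0 h with ⟨e, c, hc, hx⟩ | ⟨e, -⟩ | hx
  · have h3 : (1 : ℝ) • L.p j + (-c) • L.p (L.s j) = 0 := by
      rw [← e]
      nth_rewrite 1 [hx]
      module
    exact one_ne_zero (FINJ_.indep hL hj _ _ h3).1
  · apply h2
    have := (hpr k hk).2.2
    rw [← e] at this
    exact this.symm
  · have h3 : (1 : ℝ) • L.p j + (0 : ℝ) • L.p (L.s j) = 0 := by
      rw [hx]; module
    exact one_ne_zero (FINJ_.indep hL hj _ _ h3).1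

theorem caseB3 (hL : L.Ok) (hpr : IsPr L pr) (a : ℝ) {j k : V} (hj : j ∈ L.S) (h : NF L j)
    (hk : k ∈ L.S) (h1 : k ≠ j) (h2 : k ≠ pr j) :
    ∀ᶠ δ in 𝓝[>] (0 : ℝ), ∀ x, x ∈ (cut L pr a δ).face (j, false) → x ∈ L.face k → x = 0 := by
  have hcl := FINJ_.face_closed hL hk
  obtain ⟨ρ, hρ, hball⟩ := Metric.isOpen_iff.1 hcl.isOpen_compl (L.p j)
    (p_not_mem hL hpr hj hk h1 h2)
  set M : ℝ := |a| * ‖L.p (pr j)‖ + ‖L.p (L.s j)‖ + 1 with hM
  have hMpos : 0 < M := by positivity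
  have hev : ∀ᶠ δ in 𝓝[>] (0 : ℝ), δ < ρ / M := by
    have : Ioo (0 : ℝ) (ρ / M) ∈ 𝓝[>] (0 : ℝ) := Ioo_mem_nhdsGT (div_pos hρ hMpos)
    filter_upwards [this] with δ hδ using hδ.2
  filter_upwards [hev, self_mem_nhdsWithin] with δ hδ1 hδ0 x hx hxk
  have hδ0' : 0 < δ := hδ0
  obtain ⟨u, v, hu, hv, -, e⟩ := small_coord a δ h hx
  by_cases hw : u + v = 0
  · have hu0 : u = 0 := by linarith
    have hv0 : v = 0 := by linarith
    rw [e, hu0, hv0]; module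
  exfalso
  have hwpos : 0 < u + v := lt_of_le_of_ne (by positivity) (Ne.symm hw)
  have hmem : (u + v)⁻¹ • x ∈ L.face k := by
    obtain ⟨α, β, hα, hβ, e3⟩ := hxk
    refine ⟨(u + v)⁻¹ * α, (u + v)⁻¹ * β, by positivity, by positivity, ?_⟩
    rw [e3]; module
  have hd : (u + v)⁻¹ • x - L.p j =
      ((u + v)⁻¹ * δ) • ((u * a) • L.p (pr j) + v • L.p (L.s j)) := by
    rw [e, smul_add, smul_smul, inv_mul_cancel₀ hw]
    module
  have hn : ‖(u + v)⁻¹ • x - L.p j‖ < ρ := by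
    rw [hd, norm_smul, Real.norm_of_nonneg (by positivity)]
    have hb : ‖(u * a) • L.p (pr j) + v • L.p (L.s j)‖ ≤ (u + v) * M := by
      refine le_trans (norm_add_le _ _) ?_
      rw [norm_smul, norm_smul, Real.norm_eq_abs, Real.norm_eq_abs, abs_mul, abs_of_nonneg hu,
        abs_of_nonneg hv, hM]
      have p1 := norm_nonneg (L.p (pr j))
      have p2 := norm_nonneg (L.p (L.s j))
      have p3 := abs_nonneg a
      nlinarith [mul_nonneg hv (mul_nonneg p3 p1), mul_nonneg hu p2]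
    calc (u + v)⁻¹ * δ * ‖(u * a) • L.p (pr j) + v • L.p (L.s j)‖
        ≤ (u + v)⁻¹ * δ * ((u + v) * M) := by
          apply mul_le_mul_of_nonneg_left hb (by positivity)
      _ = δ * M := by field_simp
      _ < ρ := by rwa [lt_div_iff₀ hMpos] at hδ1
  exact hball (by rw [Metric.mem_ball, dist_eq_norm]; exact hn) hmem

theorem ray_ne (hL : L.Ok) {j k : V} (hj : j ∈ L.S) (hk : k ∈ L.S)
    (hne : j ≠ k) {w w' : ℝ} (hw : 0 ≤ w) (hw' : 0 ≤ w') (h : w • L.p j = w' • L.p k) :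
    w = 0 ∧ w' = 0 := by
  have i1 : ∀ t : ℝ, t • L.p j = 0 → t = 0 := fun t ht =>
    (FINJ_.indep hL hj t 0 (by rw [ht]; module)).1
  have i2 : ∀ t : ℝ, t • L.p k = 0 → t = 0 := fun t ht =>
    (FINJ_.indep hL hk t 0 (by rw [ht]; module)).1
  have m1 : w • L.p j ∈ L.face j := ⟨w, 0, hw, le_refl _, by module⟩
  have m2 : w • L.p j ∈ L.face k := ⟨w', 0, hw', le_refl _, by rw [h]; module⟩
  have main : w = 0 ∨ w' = 0 := by
    rcases hL.simple j hj k hk hne _ m1 m2 with ⟨e, c, hc, hx⟩ | ⟨e, c, hc, hx⟩ | hx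
    · left
      rw [e] at hx
      exact (FINJ_.indep hL hj w (-c) (by rw [hx]; module)).1
    · right
      rw [h, e] at hx
      exact (FINJ_.indep hL hk w' (-c) (by rw [hx]; module)).1
    · left; exact i1 _ hx
  rcases main with h0 | h0
  · refine ⟨h0, i2 _ ?_⟩
    rw [← h, h0, zero_smul]
  · refine ⟨i1 _ ?_, h0⟩
    rw [h, h0, zero_smul]

theorem ray_gap (hL : L.Ok) {j k : V} (hj : j ∈ L.S) (hk : k ∈ L.S) (hne : j ≠ k) :
    ∃ c : ℝ, 0 < c ∧ ∀ w w' : ℝ, 0 ≤ w → 0 ≤ w' → c * (w + w') ≤ ‖w • L.p j - w' • L.p k‖ := by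
  obtain ⟨t₀, ht₀, hmin⟩ := isCompact_Icc.exists_isMinOn (nonempty_Icc.2 (zero_le_one (α := ℝ)))
    (f := fun t : ℝ => ‖t • L.p j - (1 - t) • L.p k‖)
    (Continuous.continuousOn (by fun_prop))
  refine ⟨‖t₀ • L.p j - (1 - t₀) • L.p k‖, ?_, ?_⟩
  · rw [norm_pos_iff]
    intro h0
    obtain ⟨h1, h2⟩ := ray_ne hL hj hk hne ht₀.1 (sub_nonneg.2 ht₀.2) (sub_eq_zero.1 h0)
    linarith
  · intro w w' hw hw'
    by_cases hs : w + w' = 0
    · rw [hs, mul_zero]; exact norm_nonneg _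
    have hspos : 0 < w + w' := lt_of_le_of_ne (by positivity) (Ne.symm hs)
    have h1 := hmin (a := w / (w + w'))
      ⟨by positivity, by rw [div_le_one hspos]; linarith⟩
    simp only [mem_ofPred_eq] at h1
    have h2 : w • L.p j - w' • L.p k =
        (w + w') • ((w / (w + w')) • L.p j - (1 - w / (w + w')) • L.p k) := by
      rw [smul_sub, smul_smul, smul_smul]
      congr 2
      · field_simp
      · field_simp
        ring
    rw [h2, norm_smul, Real.norm_of_nonneg hspos.le, mul_comm]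
    exact mul_le_mul_of_nonneg_left h1 hspos.le

theorem small_near (a δ : ℝ) (hδ : 0 < δ) {j : V} (h : NF L j) {x : E3}
    (hx : x ∈ (cut L pr a δ).face (j, false)) :
    ∃ w : ℝ, 0 ≤ w ∧ (w = 0 → x = 0) ∧
      ‖x - w • L.p j‖ ≤ δ * (|a| * ‖L.p (pr j)‖ + ‖L.p (L.s j)‖) * w := by
  obtain ⟨u, v, hu, hv, -, e⟩ := small_coord a δ h hx
  refine ⟨u + v, by positivity, ?_, ?_⟩
  · intro hw
    have hu0 : u = 0 := by linarith
    have hv0 : v = 0 := by linarith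
    rw [e, hu0, hv0]; module
  · have hd : x - (u + v) • L.p j = δ • ((u * a) • L.p (pr j) + v • L.p (L.s j)) := by
      rw [e]; module
    rw [hd, norm_smul, Real.norm_of_nonneg hδ.le, mul_assoc]
    apply mul_le_mul_of_nonneg_left _ hδ.le
    refine le_trans (norm_add_le _ _) ?_
    rw [norm_smul, norm_smul, Real.norm_eq_abs, Real.norm_eq_abs, abs_mul, abs_of_nonneg hu,
      abs_of_nonneg hv]
    have p1 := norm_nonneg (L.p (pr j))
    have p2 := norm_nonneg (L.p (L.s j))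
    have p3 := abs_nonneg a
    nlinarith [mul_nonneg hv (mul_nonneg p3 p1), mul_nonneg hu p2]

theorem caseC (hL : L.Ok) (a : ℝ) {j k : V} (hj : j ∈ L.S) (h : NF L j)
    (hk : k ∈ L.S) (h' : NF L k) (hne : j ≠ k) :
    ∀ᶠ δ in 𝓝[>] (0 : ℝ), ∀ x, x ∈ (cut L pr a δ).face (j, false) →
      x ∈ (cut L pr a δ).face (k, false) → x = 0 := by
  obtain ⟨c, hc, hgap⟩ := ray_gap hL hj hk hne
  set M : ℝ := (|a| * ‖L.p (pr j)‖ + ‖L.p (L.s j)‖) + (|a| * ‖L.p (pr k)‖ + ‖L.p (L.s k)‖) + 1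
    with hM
  have hMpos : 0 < M := by positivity
  have hev : ∀ᶠ δ in 𝓝[>] (0 : ℝ), δ < c / M := by
    have : Ioo (0 : ℝ) (c / M) ∈ 𝓝[>] (0 : ℝ) := Ioo_mem_nhdsGT (div_pos hc hMpos)
    filter_upwards [this] with δ hδ using hδ.2
  filter_upwards [hev, self_mem_nhdsWithin] with δ hδ1 hδ0 x hx hx'
  have hδ0' : 0 < δ := hδ0
  obtain ⟨w, hw, hw0, hwn⟩ := small_near a δ hδ0' h hx
  obtain ⟨w', hw', hw0', hwn'⟩ := small_near a δ hδ0' h' hx'
  by_cases hs : w = 0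
  · exact hw0 hs
  exfalso
  have hwpos : 0 < w := lt_of_le_of_ne hw (Ne.symm hs)
  have h1 := hgap w w' hw hw'
  have h2 : ‖w • L.p j - w' • L.p k‖ ≤ δ * M * (w + w') := by
    have e : w • L.p j - w' • L.p k = (x - w' • L.p k) - (x - w • L.p j) := by module
    rw [e]
    refine le_trans (norm_sub_le _ _) ?_
    set A := |a| * ‖L.p (pr j)‖ + ‖L.p (L.s j)‖ with hA
    set B := |a| * ‖L.p (pr k)‖ + ‖L.p (L.s k)‖ with hB
    have hA0 : 0 ≤ A := by positivity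
    have hB0 : 0 ≤ B := by positivity
    have hδw : 0 ≤ δ * w := by positivity
    have hδw' : 0 ≤ δ * w' := by positivity
    rw [hM]
    nlinarith [mul_nonneg hA0 hδw', mul_nonneg hB0 hδw, mul_nonneg hδ0'.le hw,
      mul_nonneg hδ0'.le hw']
  have h3 : δ * M < c := by rwa [lt_div_iff₀ hMpos] at hδ1
  nlinarith

end ASM_

theorem ASM_proof : Stmt_ASM := by
  intro V _ L pr hL hpr a ha
  classical
  have evB : ∀ᶠ δ in 𝓝[>] (0 : ℝ), ∀ j ∈ L.S, ∀ k ∈ L.S, NF L j → k ≠ j → k ≠ pr j →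
      ∀ x, x ∈ (cut L pr a δ).face (j, false) → x ∈ L.face k → x = 0 := by
    rw [Filter.eventually_all_finset]
    intro j hj
    rw [Filter.eventually_all_finset]
    intro k hk
    by_cases hc : NF L j ∧ k ≠ j ∧ k ≠ pr j
    · filter_upwards [ASM_.caseB3 hL hpr a hj hc.1 hk hc.2.1 hc.2.2] with δ hδ _ _ _
      exact hδ
    · filter_upwards with δ h1 h2 h3
      exact absurd ⟨h1, h2, h3⟩ hc
  have evC : ∀ᶠ δ in 𝓝[>] (0 : ℝ), ∀ j ∈ L.S, ∀ k ∈ L.S, NF L j → NF L k → j ≠ k →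
      ∀ x, x ∈ (cut L pr a δ).face (j, false) → x ∈ (cut L pr a δ).face (k, false) →
        x = 0 := by
    rw [Filter.eventually_all_finset]
    intro j hj
    rw [Filter.eventually_all_finset]
    intro k hk
    by_cases hc : NF L j ∧ NF L k ∧ j ≠ k
    · filter_upwards [ASM_.caseC (pr := pr) hL a hj hc.1 hk hc.2.1 hc.2.2] with δ hδ _ _ _
      exact hδ
    · filter_upwards with δ h1 h2 h3
      exact absurd ⟨h1, h2, h3⟩ hc
  obtain ⟨δ₀, hδ₀, hsub⟩ := (mem_nhdsGT_iff_exists_Ioo_subset).1 (evB.and evC)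
  refine ⟨δ₀, hδ₀, fun δ hδ hδδ => ?_⟩
  obtain ⟨hB, hC⟩ := hsub ⟨hδ, hδδ⟩
  have mixed : ∀ k ∈ L.S, ∀ j ∈ L.S, NF L j → ∀ x, x ∈ (cut L pr a δ).face (lab L k) →
      x ∈ (cut L pr a δ).face (j, false) → ASM_.Con (cut L pr a δ) (lab L k) (j, false) x := by
    intro k hk j hj hnf x hx hx'
    have hxk := ASM_.big_sub hpr a δ ha hδ hk hx
    by_cases h1 : k = j
    · subst h1
      exact ASM_.caseB2 hL hpr a δ ha hδ hk hnf hx' hxk
    · by_cases h2 : k = pr j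
      · subst h2
        exact ASM_.caseB1 hL hpr a δ hδ hj hnf hx' hxk
      · exact Or.inr (Or.inr (hB j hj k hk hnf h1 h2 x hx' hxk))
  have main : ∀ i ∈ (cut L pr a δ).S, ∀ j ∈ (cut L pr a δ).S, i ≠ j →
      ∀ x, x ∈ (cut L pr a δ).face i → x ∈ (cut L pr a δ).face j →
        ASM_.Con (cut L pr a δ) i j x := by
    intro i hi j hj hij x hxi hxj
    rcases cut_cases L pr a δ hi with ⟨k, hk, rfl⟩ | ⟨k, hk, hnk, rfl⟩
    · rcases cut_cases L pr a δ hj with ⟨l, hl, rfl⟩ | ⟨l, hl, hnl, rfl⟩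
      · have hkl : k ≠ l := by rintro rfl; exact hij rfl
        rcases hL.simple k hk l hl hkl x (ASM_.big_sub hpr a δ ha hδ hk hxi)
          (ASM_.big_sub hpr a δ ha hδ hl hxj) with ⟨e, c, hc, hx⟩ | ⟨e, c, hc, hx⟩ | hx
        · subst e
          exact ASM_.caseA hL hpr a δ ha hδ hk hxi hc hx
        · subst e
          exact (ASM_.caseA hL hpr a δ ha hδ hl hxj hc hx).symm
        · exact Or.inr (Or.inr hx)
      · exact mixed k hk l hl hnl x hxi hxj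
    · rcases cut_cases L pr a δ hj with ⟨l, hl, rfl⟩ | ⟨l, hl, hnl, rfl⟩
      · exact (mixed l hl k hk hnk x hxj hxi).symm
      · have hkl : k ≠ l := by rintro rfl; exact hij rfl
        exact Or.inr (Or.inr (hC k hk l hl hnk hnl hkl x hxi hxj))
  exact main

end Pool.Agent.TSC
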