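import Pool.Agent.TSC.Defs

/-!
# TSC: base lemmas on the cut polygon
-/

set_option autoImplicit false

namespace Pool.Agent.TSC

open Set Filter Topology Pool.Agent.TSM

/-! ### cross products -/

theorem crs0 (a b : E3) : crs a b 0 = a 1 * b 2 - a 2 * b 1 := rfl
theorem crs1 (a b : E3) : crs a b 1 = a 2 * b 0 - a 0 * b 2 := rfl
theorem crs2 (a b : E3) : crs a b 2 = a 0 * b 1 - a 1 * b 0 := rfl

theorem inn3 (a b : E3) : (inner ℝ a b : ℝ) = a 0 * b 0 + a 1 * b 1 + a 2 * b 2 := by
  simp [PiLp.inner_apply, Fin.sum_univ_three, mul_comm]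

theorem e3ext {a b : E3} (h0 : a 0 = b 0) (h1 : a 1 = b 1) (h2 : a 2 = b 2) : a = b := by
  ext i
  fin_cases i
  · exact h0
  · exact h1
  · exact h2

theorem inner_crs (a b c : E3) : (inner ℝ (crs a b) c : ℝ) = det3 a b c := by
  rw [inn3, crs0, crs1, crs2, det3]; ring

theorem inner_crs' (a b c : E3) : (inner ℝ a (crs b c) : ℝ) = det3 a b c := by
  rw [inn3, crs0, crs1, crs2, det3]; ring

theorem det3_rot (a b c : E3) : det3 a b c = det3 b c a := by
  simp only [det3]; ring

theorem det3_swap (a b c : E3) : det3 a b c = - det3 b a c := by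
  simp only [det3]; ring

theorem det3_swap' (a b c : E3) : det3 a b c = - det3 a c b := by
  simp only [det3]; ring

theorem det3_self12 (a b : E3) : det3 a a b = 0 := by simp only [det3]; ring
theorem det3_self23 (a b : E3) : det3 a b b = 0 := by simp only [det3]; ring
theorem det3_self13 (a b : E3) : det3 a b a = 0 := by simp only [det3]; ring

theorem det3_add1 (a a' b c : E3) : det3 (a + a') b c = det3 a b c + det3 a' b c := by
  simp only [det3, PiLp.add_apply]; ring
theorem det3_add2 (a b b' c : E3) : det3 a (b + b') c = det3 a b c + det3 a b' c := by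
  simp only [det3, PiLp.add_apply]; ring
theorem det3_add3 (a b c c' : E3) : det3 a b (c + c') = det3 a b c + det3 a b c' := by
  simp only [det3, PiLp.add_apply]; ring
theorem det3_smul1 (t : ℝ) (a b c : E3) : det3 (t • a) b c = t * det3 a b c := by
  simp only [det3, PiLp.smul_apply, smul_eq_mul]; ring
theorem det3_smul2 (t : ℝ) (a b c : E3) : det3 a (t • b) c = t * det3 a b c := by
  simp only [det3, PiLp.smul_apply, smul_eq_mul]; ring
theorem det3_smul3 (t : ℝ) (a b c : E3) : det3 a b (t • c) = t * det3 a b c := by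
  simp only [det3, PiLp.smul_apply, smul_eq_mul]; ring

theorem crs_add_left (a a' b : E3) : crs (a + a') b = crs a b + crs a' b := by
  apply e3ext <;> simp only [PiLp.add_apply, crs0, crs1, crs2] <;> ring
theorem crs_add_right (a b b' : E3) : crs a (b + b') = crs a b + crs a b' := by
  apply e3ext <;> simp only [PiLp.add_apply, crs0, crs1, crs2] <;> ring
theorem crs_smul_left (t : ℝ) (a b : E3) : crs (t • a) b = t • crs a b := by
  apply e3ext <;> simp only [PiLp.smul_apply, smul_eq_mul, crs0, crs1, crs2] <;> ring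
theorem crs_smul_right (t : ℝ) (a b : E3) : crs a (t • b) = t • crs a b := by
  apply e3ext <;> simp only [PiLp.smul_apply, smul_eq_mul, crs0, crs1, crs2] <;> ring
theorem crs_self (a : E3) : crs a a = 0 := by
  apply e3ext <;> simp only [PiLp.zero_apply, crs0, crs1, crs2] <;> ring
theorem crs_anti (a b : E3) : crs a b = - crs b a := by
  apply e3ext <;> simp only [PiLp.neg_apply, crs0, crs1, crs2] <;> ring

/-- `(a × b) × (a × c) = det(a,b,c) a` -/
theorem crs_crs (a b c : E3) : crs (crs a b) (crs a c) = det3 a b c • a := by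
  apply e3ext <;> simp only [PiLp.smul_apply, smul_eq_mul, crs0, crs1, crs2, det3] <;> ring

/-- `n × (a × b) = <n,b> a - <n,a> b` -/
theorem crs_crs' (n a b : E3) :
    crs n (crs a b) = (inner ℝ n b : ℝ) • a - (inner ℝ n a : ℝ) • b := by
  rw [inn3, inn3]
  apply e3ext <;>
    simp only [PiLp.sub_apply, PiLp.smul_apply, smul_eq_mul, crs0, crs1, crs2] <;> ring

theorem det3_eq_inner_crs (a b c : E3) : det3 a b c = (inner ℝ (crs a b) c : ℝ) :=
  (inner_crs a b c).symm

/-! ### the cut polygon -/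

section
variable {V : Type} [DecidableEq V] (L : Pg V) (pr : V → V) (a δ : ℝ)

theorem mem_cut (q : V × Bool) :
    q ∈ (cut L pr a δ).S ↔ q.1 ∈ L.S ∧ (L.X = some q.1 → q.2 = false) := by
  unfold cut
  simp only [Finset.mem_filter, Finset.mem_product, Finset.mem_insert, Finset.mem_singleton]
  constructor
  · rintro ⟨⟨h1, -⟩, h2⟩; exact ⟨h1, h2⟩
  · rintro ⟨h1, h2⟩
    refine ⟨⟨h1, ?_⟩, h2⟩
    cases q.2 <;> simp

theorem mem_cut_false {i : V} (hi : i ∈ L.S) : (i, false) ∈ (cut L pr a δ).S :=
  (mem_cut L pr a δ _).2 ⟨hi, fun _ => rfl⟩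

theorem mem_cut_true {i : V} (hi : i ∈ L.S) (h : NF L i) : (i, true) ∈ (cut L pr a δ).S :=
  (mem_cut L pr a δ _).2 ⟨hi, fun h' => absurd h' h⟩

theorem lab_nf {i : V} (h : NF L i) : lab L i = (i, true) := by
  unfold lab
  rw [decide_eq_false h]; rfl

theorem lab_flat {i : V} (h : L.X = some i) : lab L i = (i, false) := by
  unfold lab
  rw [decide_eq_true h]; rfl

theorem lab_mem {i : V} (hi : i ∈ L.S) : lab L i ∈ (cut L pr a δ).S := by
  by_cases h : L.X = some i
  · rw [lab_flat L h]; exact mem_cut_false L pr a δ hi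
  · rw [lab_nf L h]; exact mem_cut_true L pr a δ hi h

/-- every label of the cut polygon is `lab i` or `(i, false)` with `i` not flat -/
theorem cut_cases {q : V × Bool} (hq : q ∈ (cut L pr a δ).S) :
    (∃ i ∈ L.S, q = lab L i) ∨ ∃ i ∈ L.S, NF L i ∧ q = (i, false) := by
  obtain ⟨h1, h2⟩ := (mem_cut L pr a δ q).1 hq
  obtain ⟨i, c⟩ := q
  by_cases h : L.X = some i
  · left
    refine ⟨i, h1, ?_⟩
    rw [lab_flat L h]
    have := h2 h
    simp only at this
    rw [this]
  · cases c
    · right; exact ⟨i, h1, h, rfl⟩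
    · left; exact ⟨i, h1, (lab_nf L h).symm⟩

theorem s_true (i : V) : (cut L pr a δ).s (i, true) = (L.s i, false) := by
  simp [cut]

theorem s_false {i : V} (h : NF L i) : (cut L pr a δ).s (i, false) = (i, true) := by
  have h' : ¬ L.X = some i := h
  simp only [cut]
  rw [if_neg]
  simpa using h'

theorem s_flat {i : V} (h : L.X = some i) : (cut L pr a δ).s (i, false) = (L.s i, false) := by
  simp [cut, h]

theorem s_lab (i : V) : (cut L pr a δ).s (lab L i) = (L.s i, false) := by
  by_cases h : L.X = some i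
  · rw [lab_flat L h, s_flat L pr a δ h]
  · rw [lab_nf L h, s_true]

theorem p_flat {i : V} (h : L.X = some i) (c : Bool) : (cut L pr a δ).p (i, c) = L.p i := by
  simp [cut, h]

theorem p_true {i : V} (h : NF L i) :
    (cut L pr a δ).p (i, true) = L.p i + δ • L.p (L.s i) := by
  have h' : ¬ L.X = some i := h
  simp [cut, h']

theorem p_false {i : V} (h : NF L i) :
    (cut L pr a δ).p (i, false) = L.p i + (δ * a) • L.p (pr i) := by
  have h' : ¬ L.X = some i := h
  simp [cut, h']

theorem X_cut : (cut L pr a δ).X = L.X.map fun m => (m, false) := rfl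

theorem X_cut_some {m : V} (h : L.X = some m) : (cut L pr a δ).X = some (m, false) := by
  rw [X_cut, h]; rfl

variable {L} {pr}

/-- elementary facts on a good polygon -/
theorem s_ne (hL : L.Ok) (hpr : IsPr L pr) {i : V} (hi : i ∈ L.S) : L.s i ≠ i := by
  intro h
  have h1 : ∀ m : ℕ, L.s^[m] i = i := fun m => by
    induction m with
    | zero => rfl
    | succ m ih => rw [Function.iterate_succ_apply', ih, h]
  have h2 : L.S ⊆ {i} := fun j hj => by
    obtain ⟨m, hm⟩ := hL.trans i hi j hj
    rw [h1 m] at hm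
    simp [hm]
  have h3 := Finset.card_le_card h2
  have h4 := hL.card
  simp at h3
  omega

theorem ss_ne (hL : L.Ok) {i : V} (hi : i ∈ L.S) : L.s (L.s i) ≠ i := by
  intro h
  have h1 : ∀ m : ℕ, L.s^[m] i = i ∨ L.s^[m] i = L.s i := fun m => by
    induction m with
    | zero => left; rfl
    | succ m ih =>
      rw [Function.iterate_succ_apply']
      rcases ih with ih | ih
      · rw [ih]; right; rfl
      · rw [ih, h]; left; rfl
  have h2 : L.S ⊆ {i, L.s i} := fun j hj => by
    obtain ⟨m, hm⟩ := hL.trans i hi j hj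
    rcases h1 m with h | h
    · rw [h] at hm; simp [hm]
    · rw [h] at hm; simp [hm]
  have h3 := (Finset.card_le_card h2).trans Finset.card_le_two
  have h4 := hL.card
  omega

theorem sss_ne (hL : L.Ok) {i : V} (hi : i ∈ L.S) : L.s (L.s (L.s i)) ≠ i := by
  intro h
  have h1 : ∀ m : ℕ, L.s^[m] i = i ∨ L.s^[m] i = L.s i ∨ L.s^[m] i = L.s (L.s i) := fun m => by
    induction m with
    | zero => left; rfl
    | succ m ih =>
      rw [Function.iterate_succ_apply']
      rcases ih with ih | ih | ih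
      · rw [ih]; right; left; rfl
      · rw [ih]; right; right; rfl
      · rw [ih, h]; left; rfl
  have h2 : L.S ⊆ {i, L.s i, L.s (L.s i)} := fun j hj => by
    obtain ⟨m, hm⟩ := hL.trans i hi j hj
    rcases h1 m with h | h | h
    · rw [h] at hm; simp [hm]
    · rw [h] at hm; simp [hm]
    · rw [h] at hm; simp [hm]
  have h3 := (Finset.card_le_card h2).trans Finset.card_le_three
  have h4 := hL.card
  omega

theorem pr_ne (hL : L.Ok) (hpr : IsPr L pr) {i : V} (hi : i ∈ L.S) : pr i ≠ i := by
  intro h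
  have := (hpr i hi).2.1
  rw [h] at this
  exact s_ne hL hpr hi this

theorem pr_ne_s (hL : L.Ok) (hpr : IsPr L pr) {i : V} (hi : i ∈ L.S) : pr i ≠ L.s i := by
  intro h
  have := (hpr i hi).2.1
  rw [h] at this
  exact ss_ne hL hi this

/-- the flat vertex and its neighbours -/
theorem flat_data (hL : L.Ok) (hpr : IsPr L pr) {m : V} (hm : L.X = some m) :
    m ∈ L.S ∧ (∃ α β : ℝ, 0 < α ∧ 0 < β ∧ α • L.p (pr m) + β • L.p (L.s m) + L.p m = 0) ∧
    ∃ σ : ℝ, (σ = 1 ∨ σ = -1) ∧ ∀ i ∈ L.S, i ≠ pr m → i ≠ m → i ≠ L.s m →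
      σ * (inner ℝ (L.nor m) (L.p i) : ℝ) < 0 := by
  rcases hL.kind with h | ⟨m', h1, h2, q, hq, hqm, h3, h4⟩
  · rw [h.1] at hm; exact absurd hm (by simp)
  · rw [hm] at h1
    obtain rfl := Option.some.inj h1
    have hq' : q = pr m := by
      have := (hpr q hq).2.2
      rw [hqm] at this
      exact this.symm
    subst hq'
    exact ⟨h2, h3, h4⟩

theorem not_flat (hL : L.Ok) (hpr : IsPr L pr) {i j k : V}
    (h : ∀ m, L.X = some m → ({i, j, k} : Finset V) ≠ {pr m, m, L.s m}) : ¬ L.Flat i j k := by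
  rintro ⟨m, q, hm, hq, hqm, he⟩
  have hq' : q = pr m := by
    have := (hpr q hq).2.2
    rw [hqm] at this
    exact this.symm
  subst hq'
  exact h m hm he

/-- turn at the arm `j` vanishes iff `j` is flat -/
theorem turn_pr_ne (hL : L.Ok) (hpr : IsPr L pr) {j : V} (hj : j ∈ L.S) (h : NF L j) :
    L.turn (pr j) ≠ 0 := by
  obtain ⟨h1, h2, h3⟩ := hpr j hj
  unfold Pg.turn
  rw [h2]
  refine hL.gen _ h1 _ hj _ (hL.maps j hj) (pr_ne hL hpr hj) (pr_ne_s hL hpr hj)
    (s_ne hL hpr hj).symm ?_
  apply not_flat hL hpr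
  intro m hm he
  have hmS : m ∈ L.S := (flat_data hL hpr hm).1
  have hmj : m ≠ j := by
    rintro rfl; exact h hm
  have h5 : m ∈ ({pr j, j, L.s j} : Finset V) := by rw [he]; simp
  simp only [Finset.mem_insert, Finset.mem_singleton] at h5
  rcases h5 with h5 | h5 | h5
  · -- m = pr j, s m = j; pr m must be in the set
    have h6 : pr m ∈ ({pr j, j, L.s j} : Finset V) := by rw [he]; simp
    have h7 : L.s m = j := by rw [h5]; exact h2
    simp only [Finset.mem_insert, Finset.mem_singleton] at h6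
    rcases h6 with h6 | h6 | h6
    · rw [← h5] at h6; exact pr_ne hL hpr hmS h6
    · rw [← h7] at h6; exact pr_ne_s hL hpr hmS h6
    · have h8 := (hpr m hmS).2.1
      rw [h6, ← h7] at h8
      exact sss_ne hL hmS h8
  · exact hmj h5
  · -- m = s j, pr m = j
    have h7 : pr m = j := by rw [h5]; exact h3
    have h6 : L.s m ∈ ({pr j, j, L.s j} : Finset V) := by rw [he]; simp
    simp only [Finset.mem_insert, Finset.mem_singleton] at h6
    rcases h6 with h6 | h6 | h6
    · have h8 := h2
      rw [← h6, h5] at h8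
      exact sss_ne hL hj h8
    · rw [h5] at h6; exact ss_ne hL hj h6
    · rw [← h5] at h6; exact s_ne hL hpr hmS h6

theorem turn_flat (hL : L.Ok) (hpr : IsPr L pr) {m : V} (hm : L.X = some m) :
    L.turn (pr m) = 0 := by
  obtain ⟨hmS, ⟨α, β, hα, hβ, h⟩, -⟩ := flat_data hL hpr hm
  unfold Pg.turn
  rw [(hpr m hmS).2.1]
  have h1 : L.p m = -(α • L.p (pr m) + β • L.p (L.s m)) := by
    rw [eq_neg_iff_add_eq_zero, add_comm]; exact h
  rw [h1, ← neg_one_smul ℝ, det3_smul2, det3_add2, det3_smul2, det3_smul2, det3_self12,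
    det3_self23]
  ring

theorem turn_eq_zero_iff (hL : L.Ok) (hpr : IsPr L pr) {i : V} (hi : i ∈ L.S) :
    L.turn i = 0 ↔ L.X = some (L.s i) := by
  constructor
  · intro h
    by_contra hn
    have := turn_pr_ne hL hpr (hL.maps i hi) hn
    rw [(hpr i hi).2.2] at this
    exact this h
  · intro h
    have := turn_flat hL hpr h
    rwa [(hpr i hi).2.2] at this

/-- normals of the big faces -/
theorem nor_lab (hL : L.Ok) (hpr : IsPr L pr) {i : V} (hi : i ∈ L.S) :
    (cut L pr a δ).nor (lab L i) = lam L a δ i • L.nor i := by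
  unfold Pg.nor
  rw [s_lab]
  have hpri : pr (L.s i) = i := (hpr i hi).2.2
  by_cases h : L.X = some i
  · have h' : NF L (L.s i) := by
      intro h'; rw [h] at h'
      exact s_ne hL hpr hi (Option.some.inj h').symm
    rw [lab_flat L h, p_flat L pr a δ h, p_false L pr a δ h', hpri, lam, if_pos (Or.inl h),
      crs_add_right, crs_smul_right, crs_self, smul_zero, add_zero, one_smul]
  · by_cases h' : L.X = some (L.s i)
    · rw [lab_nf L h, p_true L pr a δ h, p_flat L pr a δ h', lam, if_pos (Or.inr h'),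
        crs_add_left, crs_smul_left, crs_self, smul_zero, add_zero, one_smul]
    · rw [lab_nf L h, p_true L pr a δ h, p_false L pr a δ h', hpri, lam,
        if_neg (by tauto)]
      simp only [crs_add_left, crs_add_right, crs_smul_left, crs_smul_right, crs_self, smul_zero,
        add_zero]
      rw [crs_anti (L.p (L.s i)) (L.p i)]
      module

/-- normals of the small faces -/
theorem nor_small {j : V} (h : NF L j) :
    (cut L pr a δ).nor (j, false) = δ • L.nor j + (δ * a) • crs (L.p (pr j)) (L.p j) +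
      (δ ^ 2 * a) • crs (L.p (pr j)) (L.p (L.s j)) := by
  unfold Pg.nor
  rw [s_false L pr a δ h, p_false L pr a δ h, p_true L pr a δ h]
  simp only [crs_add_left, crs_add_right, crs_smul_left, crs_smul_right, crs_self]
  module

theorem nor_pr (hpr : IsPr L pr) {j : V} (hj : j ∈ L.S) :
    L.nor (pr j) = crs (L.p (pr j)) (L.p j) := by
  unfold Pg.nor
  rw [(hpr j hj).2.1]

theorem lam_pos (ha : 0 < a) (h : a * δ ^ 2 < 1) (i : V) : 0 < lam L a δ i := by
  unfold lam
  split_ifs
  · exact one_pos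
  · linarith

/-- turns of the cut polygon at the arm `(j, false)` -/
theorem turn_left (hL : L.Ok) (hpr : IsPr L pr) {j : V} (hj : j ∈ L.S) (h : NF L j) :
    (cut L pr a δ).turn (lab L (pr j)) = lam L a δ (pr j) * (δ * L.turn (pr j)) := by
  obtain ⟨h1, h2, h3⟩ := hpr j hj
  have e1 : (cut L pr a δ).turn (lab L (pr j)) =
      (inner ℝ ((cut L pr a δ).nor (lab L (pr j))) ((cut L pr a δ).p (j, true)) : ℝ) := by
    unfold Pg.turn Pg.nor
    rw [s_lab, h2, s_false L pr a δ h, inner_crs]
  rw [e1, nor_lab a δ hL hpr h1, p_true L pr a δ h, nor_pr hpr hj, inner_smul_left,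
    inner_add_right, inner_smul_right, inner_crs, inner_crs, det3_self23, zero_add]
  unfold Pg.turn
  rw [h2]
  rfl

/-- turns of the cut polygon at the arm `(j, true)` -/
theorem turn_right (hL : L.Ok) (hpr : IsPr L pr) {j : V} (hj : j ∈ L.S) (h : NF L j) :
    (cut L pr a δ).turn (j, false) = lam L a δ j * (δ * a * L.turn (pr j)) := by
  obtain ⟨h1, h2, h3⟩ := hpr j hj
  have e1 : (cut L pr a δ).turn (j, false) =
      (inner ℝ ((cut L pr a δ).nor (lab L j)) ((cut L pr a δ).p (j, false)) : ℝ) := by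
    unfold Pg.turn Pg.nor
    rw [s_false L pr a δ h, s_true, lab_nf L h, s_true, inner_crs, det3_rot]
  rw [e1, nor_lab a δ hL hpr hj, p_false L pr a δ h, inner_smul_left, inner_add_right,
    inner_smul_right]
  unfold Pg.nor Pg.turn
  rw [inner_crs, inner_crs, det3_self13, zero_add, h2, det3_rot (L.p (pr j))]
  rfl

theorem sign_mul_pos {c t : ℝ} (hc : 0 < c) : Real.sign (c * t) = Real.sign t := by
  rcases lt_trichotomy t 0 with h | h | h
  · rw [Real.sign_of_neg h, Real.sign_of_neg (mul_neg_of_pos_of_neg hc h)]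
  · rw [h, mul_zero]
  · rw [Real.sign_of_pos h, Real.sign_of_pos (mul_pos hc h)]

theorem sign_left (hL : L.Ok) (hpr : IsPr L pr) {j : V} (hj : j ∈ L.S) (h : NF L j)
    (ha : 0 < a) (hδ : 0 < δ) (haδ : a * δ ^ 2 < 1) :
    Real.sign ((cut L pr a δ).turn (lab L (pr j))) = Real.sign (L.turn (pr j)) := by
  rw [turn_left a δ hL hpr hj h, sign_mul_pos (lam_pos a δ ha haδ _), sign_mul_pos hδ]

theorem sign_right (hL : L.Ok) (hpr : IsPr L pr) {j : V} (hj : j ∈ L.S) (h : NF L j)
    (ha : 0 < a) (hδ : 0 < δ) (haδ : a * δ ^ 2 < 1) :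
    Real.sign ((cut L pr a δ).turn (j, false)) = Real.sign (L.turn (pr j)) := by
  rw [turn_right a δ hL hpr hj h, sign_mul_pos (lam_pos a δ ha haδ _),
    sign_mul_pos (mul_pos hδ ha)]

end

end Pool.Agent.TSC
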