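import Pool.Agent.TSC.Stmts

/-!
# TSC: the conditions CondG
-/

set_option autoImplicit false

namespace Pool.Agent.TSC

open Set Filter Topology Pool.Agent.TSM

theorem CGG_proof (hCGS : Stmt_CGS) (hCGI : Stmt_CGI) : Stmt_CGG := by
  intro V _ L pr hL hpr a ha
  obtain ⟨μ, hμ, h1⟩ := hCGS V L pr hL hpr a ha
  refine ⟨μ, hμ, ?_⟩
  intro ε hε hε1
  obtain ⟨d0, hd0, h2⟩ := h1 ε hε hε1
  have hq : 0 < Real.sqrt (1 / a) := Real.sqrt_pos.2 (by positivity)
  refine ⟨min d0 (Real.sqrt (1 / a)), lt_min hd0 hq, ?_⟩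
  intro δ hδ hlt hok
  have haδ : a * δ ^ 2 < 1 := by
    have h : δ < Real.sqrt (1 / a) := hlt.trans_le (min_le_right _ _)
    have h' : δ ^ 2 < 1 / a := by
      have := (Real.lt_sqrt hδ.le).1 h
      exact this
    rw [lt_div_iff₀ ha] at h'
    linarith
  obtain ⟨e1, he1, h3⟩ := h2 δ hδ (hlt.trans_le (min_le_left _ _)) hok
  obtain ⟨e2, he2, h4⟩ := hCGI V L pr hL hpr a ha δ hδ haδ hok
  refine ⟨min e1 e2, lt_min he1 he2, ?_⟩
  intro ε' hε' hlt' Co No hC i hi
  have h5 := h3 ε' hε' (hlt'.trans_le (min_le_left _ _)) Co No hC i hi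
  have h6 := h4 ε' hε' (hlt'.trans_le (min_le_right _ _)) Co No hC i hi
  refine ⟨?_, ?_, ?_⟩
  · intro ht
    have hx := (turn_eq_zero_iff hL hpr hi).1 ht
    unfold chL
    rw [if_pos hx]
  · intro n hn
    by_cases hx : L.X = some (L.s i)
    · unfold chL at hn
      rw [if_pos hx] at hn
      exact absurd hn (Finset.notMem_empty _)
    · exact h5 hx n hn
  · intro n hn n' hn' hne
    by_cases hx : L.X = some (L.s i)
    · unfold chL at hn
      rw [if_pos hx] at hn
      exact absurd hn (Finset.notMem_empty _)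
    · exact h6 hx n hn n' hn' hne

end Pool.Agent.TSC
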