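import Pool.Agent.TSC.Stmts

/-!
# TSC: module CGI, independence of the chamfers of `L`
-/

set_option autoImplicit false

namespace Pool.Agent.TSC

open Set Filter Topology Pool.Agent.TSM

namespace CGI_

theorem det3_cont : Continuous fun v : E3 × E3 × E3 => det3 v.1 v.2.1 v.2.2 := by
  unfold det3
  fun_prop

/-- finitely many non-zero determinants stay non-zero under small perturbations -/
theorem unif (W : Finset E3) : ∃ r : ℝ, 0 < r ∧ ∀ w1 ∈ W, ∀ w2 ∈ W, ∀ w3 ∈ W,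
    det3 w1 w2 w3 ≠ 0 → ∀ v1 v2 v3 : E3, ‖v1 - w1‖ ≤ r → ‖v2 - w2‖ ≤ r → ‖v3 - w3‖ ≤ r →
      det3 v1 v2 v3 ≠ 0 := by
  classical
  have key : ∀ w : E3 × E3 × E3, ∀ᶠ r in 𝓝[>] (0 : ℝ), det3 w.1 w.2.1 w.2.2 ≠ 0 →
      ∀ v1 v2 v3 : E3, ‖v1 - w.1‖ ≤ r → ‖v2 - w.2.1‖ ≤ r → ‖v3 - w.2.2‖ ≤ r →
        det3 v1 v2 v3 ≠ 0 := by
    intro w
    by_cases h : det3 w.1 w.2.1 w.2.2 = 0
    · exact Filter.Eventually.of_forall fun r h' => absurd h h'
    · have hopen : IsOpen {v : E3 × E3 × E3 | det3 v.1 v.2.1 v.2.2 ≠ 0} :=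
        isOpen_ne_fun det3_cont continuous_const
      obtain ⟨r, hr, hball⟩ := Metric.isOpen_iff.1 hopen w h
      have h1 : ∀ᶠ s in 𝓝[>] (0 : ℝ), s < r := by
        filter_upwards [Ioo_mem_nhdsGT hr] with s hs using hs.2
      filter_upwards [h1] with s hs _ v1 v2 v3 h1 h2 h3
      have h4 : ((v1, v2, v3) : E3 × E3 × E3) ∈ Metric.ball w r := by
        rw [Metric.mem_ball, Prod.dist_eq, Prod.dist_eq]
        simp only [dist_eq_norm]
        exact max_lt (lt_of_le_of_lt h1 hs) (max_lt (lt_of_le_of_lt h2 hs)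
          (lt_of_le_of_lt h3 hs))
      exact hball h4
  have h := (Filter.eventually_all_finset (W ×ˢ W ×ˢ W)).2 fun w _ => key w
  obtain ⟨r, hr1, hr2⟩ := (h.and self_mem_nhdsWithin).exists
  refine ⟨r, hr2, fun w1 h1 w2 h2 w3 h3 hne v1 v2 v3 e1 e2 e3 => ?_⟩
  exact hr1 (w1, w2, w3) (Finset.mem_product.2 ⟨h1, Finset.mem_product.2 ⟨h2, h3⟩⟩) hne
    v1 v2 v3 e1 e2 e3

theorem exW {α β : Type} (S : Finset α) (T : Finset β) (f : α → E3) (h : β → β → E3)
    (g : α → E3) : ∃ W : Finset E3, (∀ k ∈ S, f k ∈ W) ∧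
      (∀ q ∈ T, ∀ m ∈ T, ∀ σ : ℝ, (σ = 1 ∨ σ = -1) → σ • h q m ∈ W) ∧ ∀ k ∈ S, g k ∈ W := by
  classical
  refine ⟨S.image f ∪ ((T ×ˢ T).image (fun x => (1 : ℝ) • h x.1 x.2) ∪
    (T ×ˢ T).image (fun x => (-1 : ℝ) • h x.1 x.2)) ∪ S.image g, ?_, ?_, ?_⟩
  · intro k hk
    exact Finset.mem_union.2 (Or.inl (Finset.mem_union.2 (Or.inl
      (Finset.mem_image.2 ⟨k, hk, rfl⟩))))
  · intro q hq m hm σ hσ
    refine Finset.mem_union.2 (Or.inl (Finset.mem_union.2 (Or.inr (Finset.mem_union.2 ?_))))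
    rcases hσ with rfl | rfl
    · exact Or.inl (Finset.mem_image.2 ⟨(q, m), Finset.mem_product.2 ⟨hq, hm⟩, rfl⟩)
    · exact Or.inr (Finset.mem_image.2 ⟨(q, m), Finset.mem_product.2 ⟨hq, hm⟩, rfl⟩)
  · intro k hk
    exact Finset.mem_union.2 (Or.inr (Finset.mem_image.2 ⟨k, hk, rfl⟩))

theorem swap12 {a b c : E3} (h : det3 a b c ≠ 0) : det3 b a c ≠ 0 := by
  rw [det3_swap]
  exact neg_ne_zero.2 h

theorem swap23 {a b c : E3} (h : det3 a b c ≠ 0) : det3 a c b ≠ 0 := by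
  rw [det3_swap']
  exact neg_ne_zero.2 h

theorem smul1 {t : ℝ} {a b c : E3} (h : det3 (t • a) b c ≠ 0) : det3 a b c ≠ 0 := by
  rw [det3_smul1] at h
  exact right_ne_zero_of_mul h

theorem smul_1 {t : ℝ} (ht : t ≠ 0) {a b c : E3} (h : det3 a b c ≠ 0) :
    det3 (t • a) b c ≠ 0 := by
  rw [det3_smul1]
  exact mul_ne_zero ht h

/-- `det(a × b, a × c, v) = det(a,b,c) <a,v>` -/
theorem dcc (n a b c : E3) : det3 n (crs a b) (crs a c) = det3 a b c * (inner ℝ n a : ℝ) := by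
  rw [← inner_crs', crs_crs, inner_smul_right]

/-- `det(n, a × b, v) = <n,b> <a,v> - <n,a> <b,v>` -/
theorem dcv (n a b v : E3) : det3 n (crs a b) v =
    (inner ℝ n b : ℝ) * inner ℝ a v - (inner ℝ n a : ℝ) * inner ℝ b v := by
  rw [← inner_crs, crs_crs', inner_sub_left, inner_smul_left, inner_smul_left]
  rfl

end CGI_

open CGI_

theorem CGI_proof (hM : Stmt_MRG) : Stmt_CGI := by
  classical
  intro V _ L pr hL hpr a ha δ hδ haδ hLo
  obtain ⟨c, ε₁, C, hc, hε₁, hC, hmrg⟩ := hM V L pr hL hpr a ha δ hδ haδ hLo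
  obtain ⟨W, hW1, hW2, hW3⟩ := exW L.S (cut L pr a δ).S L.nor
    (fun q m => crs ((cut L pr a δ).p q) ((cut L pr a δ).p m))
    (fun j => δ⁻¹ • (cut L pr a δ).nor (j, false))
  obtain ⟨r, hr, hunif⟩ := unif W
  refine ⟨min ε₁ r, lt_min hε₁ hr, ?_⟩
  intro ε' hε' hε'' Co No hcond i hi hnf
  have hε1 : ε' < ε₁ := lt_of_lt_of_le hε'' (min_le_left _ _)
  have hεr : ε' ≤ r := (lt_of_lt_of_le hε'' (min_le_right _ _)).le
  obtain ⟨j, hj⟩ : ∃ j, j = L.s i := ⟨_, rfl⟩
  rw [← hj] at hnf ⊢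
  have hjS : j ∈ L.S := by rw [hj]; exact hL.maps i hi
  have hprj : pr j = i := by rw [hj]; exact (hpr i hi).2.2
  have hT : L.turn i ≠ 0 := by
    have := turn_pr_ne hL hpr hjS hnf
    rwa [hprj] at this
  have hSF : (j, false) ∈ (cut L pr a δ).S := mem_cut_false L pr a δ hjS
  have hST : (j, true) ∈ (cut L pr a δ).S := mem_cut_true L pr a δ hjS hnf
  have hSL : lab L i ∈ (cut L pr a δ).S := lab_mem L pr a δ hi
  have hSN : (L.s j, false) ∈ (cut L pr a δ).S := mem_cut_false L pr a δ (hL.maps j hjS)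
  have hcL := hcond (lab L i) hSL
  rw [s_lab, ← hj, s_false L pr a δ hnf] at hcL
  have hcR := hcond (j, false) hSF
  rw [s_false L pr a δ hnf, s_true] at hcR
  obtain ⟨-, hcL1, hcL2⟩ := hcL
  obtain ⟨-, hcR1, hcR2⟩ := hcR
  -- directions of the two new arms
  have hP : (cut L pr a δ).p (j, false) = L.p j + (δ * a) • L.p i := by
    rw [p_false L pr a δ hnf, hprj]
  have hP' : (cut L pr a δ).p (j, true) = L.p j + δ • L.p (L.s j) := p_true L pr a δ hnf
  have hnorS : (cut L pr a δ).nor (j, false) =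
      crs ((cut L pr a δ).p (j, false)) ((cut L pr a δ).p (j, true)) := by
    unfold Pg.nor
    rw [s_false L pr a δ hnf]
  have hnorL : lam L a δ i • L.nor i =
      crs ((cut L pr a δ).p (lab L i)) ((cut L pr a δ).p (j, false)) := by
    rw [← nor_lab a δ hL hpr hi]
    unfold Pg.nor
    rw [s_lab, ← hj]
  have hnorR : lam L a δ j • L.nor j =
      crs ((cut L pr a δ).p (j, true)) ((cut L pr a δ).p (L.s j, false)) := by
    rw [← nor_lab a δ hL hpr hjS]
    unfold Pg.nor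
    rw [s_lab, lab_nf L hnf]
  have hlami := lam_pos (L := L) a δ ha haδ i
  have hlamj := lam_pos (L := L) a δ ha haδ j
  have hiP : (inner ℝ (L.nor i) ((cut L pr a δ).p (j, false)) : ℝ) = 0 := by
    rw [hP]
    unfold Pg.nor
    rw [← hj, inner_add_right, inner_smul_right, inner_crs, inner_crs, det3_self23,
      det3_self13]
    ring
  have hiP' : (inner ℝ (L.nor i) ((cut L pr a δ).p (j, true)) : ℝ) = δ * L.turn i := by
    rw [hP']
    unfold Pg.nor Pg.turn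
    rw [← hj, inner_add_right, inner_smul_right, inner_crs, inner_crs, det3_self23]
    ring
  have hjP' : (inner ℝ (L.nor j) ((cut L pr a δ).p (j, true)) : ℝ) = 0 := by
    rw [hP']
    unfold Pg.nor
    rw [inner_add_right, inner_smul_right, inner_crs, inner_crs, det3_self23,
      det3_self13]
    ring
  have hjP : (inner ℝ (L.nor j) ((cut L pr a δ).p (j, false)) : ℝ) = δ * a * L.turn i := by
    rw [hP]
    unfold Pg.nor Pg.turn
    rw [← hj, inner_add_right, inner_smul_right, inner_crs, inner_crs, det3_self13,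
      det3_rot (L.p i)]
    ring
  have hnormi := hW1 i hi
  have hnormj := hW1 j hjS
  generalize hPg : (cut L pr a δ).p (j, false) = P at *
  generalize hPg' : (cut L pr a δ).p (j, true) = P' at *
  have hδa : δ * a * L.turn i ≠ 0 := mul_ne_zero (mul_pos hδ ha).ne' hT
  have hδT : δ * L.turn i ≠ 0 := mul_ne_zero hδ.ne' hT
  -- data of the chamfers at the two arms
  have dF : ∀ n ∈ Co (j, false), ∃ m ∈ (cut L pr a δ).S, ∃ σ : ℝ, n = s((j, false), m) ∧
      (∀ x ∈ (cut L pr a δ).S, x ≠ (j, false) → x ≠ m →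
        det3 P ((cut L pr a δ).p m) ((cut L pr a δ).p x) ≠ 0) ∧ σ ≠ 0 ∧
      σ • crs P ((cut L pr a δ).p m) ∈ W ∧ ‖No n - σ • crs P ((cut L pr a δ).p m)‖ ≤ r ∧
      (inner ℝ (L.nor i) ((cut L pr a δ).p m) : ℝ) ≠ 0 ∧
      det3 P P' ((cut L pr a δ).p m) ≠ 0 := by
    intro n hn
    obtain ⟨m, hm, hnm, hm1, hm2, hm3, hcl, -, -, -, σ, hσ, hnear⟩ := hcL1 n hn
    refine ⟨m, hm, σ, hnm, hcl, ?_, ?_, hnear.trans hεr, ?_, ?_⟩
    · rcases hσ with rfl | rfl <;> norm_num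
    · have := hW2 _ hSF m hm σ hσ
      rwa [hPg] at this
    · have h1 := hcl _ hSL (by
        intro h
        have h2 := s_lab L pr a δ i
        rw [h, ← hj, s_false L pr a δ hnf] at h2
        simp at h2) hm1.symm
      have h2 : lam L a δ i * (inner ℝ (L.nor i) ((cut L pr a δ).p m) : ℝ) =
          det3 P ((cut L pr a δ).p m) ((cut L pr a δ).p (lab L i)) := by
        have h3 : (inner ℝ (lam L a δ i • L.nor i) ((cut L pr a δ).p m) : ℝ) =
            lam L a δ i * (inner ℝ (L.nor i) ((cut L pr a δ).p m) : ℝ) := by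
          rw [inner_smul_left]; rfl
        rw [← h3, hnorL, inner_crs, det3_rot]
      rw [← h2] at h1
      exact right_ne_zero_of_mul h1
    · have h1 := hcl _ hST (by simp) hm3.symm
      rw [hPg'] at h1
      exact swap23 h1
  have dT : ∀ n ∈ Co (j, true), ∃ m ∈ (cut L pr a δ).S, ∃ σ : ℝ, n = s((j, true), m) ∧
      (∀ x ∈ (cut L pr a δ).S, x ≠ (j, true) → x ≠ m →
        det3 P' ((cut L pr a δ).p m) ((cut L pr a δ).p x) ≠ 0) ∧ σ ≠ 0 ∧
      σ • crs P' ((cut L pr a δ).p m) ∈ W ∧ ‖No n - σ • crs P' ((cut L pr a δ).p m)‖ ≤ r ∧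
      (inner ℝ (L.nor j) ((cut L pr a δ).p m) : ℝ) ≠ 0 ∧
      det3 P P' ((cut L pr a δ).p m) ≠ 0 := by
    intro n hn
    obtain ⟨m, hm, hnm, hm1, hm2, hm3, hcl, -, -, -, σ, hσ, hnear⟩ := hcR1 n hn
    refine ⟨m, hm, σ, hnm, hcl, ?_, ?_, hnear.trans hεr, ?_, ?_⟩
    · rcases hσ with rfl | rfl <;> norm_num
    · have := hW2 _ hST m hm σ hσ
      rwa [hPg'] at this
    · have h1 := hcl _ hSN (by simp) hm3.symm
      have h2 : lam L a δ j * (inner ℝ (L.nor j) ((cut L pr a δ).p m) : ℝ) =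
          det3 P' ((cut L pr a δ).p (L.s j, false)) ((cut L pr a δ).p m) := by
        have h3 : (inner ℝ (lam L a δ j • L.nor j) ((cut L pr a δ).p m) : ℝ) =
            lam L a δ j * (inner ℝ (L.nor j) ((cut L pr a δ).p m) : ℝ) := by
          rw [inner_smul_left]; rfl
        rw [← h3, hnorR, inner_crs]
      have h4 := swap23 h1
      rw [← h2] at h4
      exact right_ne_zero_of_mul h4
    · have h1 := hcl _ hSF (by simp) hm1.symm
      rw [hPg] at h1
      -- det P' M P ≠ 0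
      rw [det3_rot, det3_rot] at h1
      exact h1
  -- margins
  have mg := hmrg ε' hε' hε1 Co No hcond j hjS hnf
  rw [hprj, hPg, hPg'] at mg
  have mF : ∀ n ∈ Co (j, false), (inner ℝ P (No n) : ℝ) ≠ 0 ∧ (inner ℝ P' (No n) : ℝ) ≠ 0 := by
    intro n hn
    obtain ⟨-, -, h1, h2, -, -⟩ := mg.1 n hn
    rw [real_inner_comm (No n) P, real_inner_comm (No n) P']
    constructor
    · intro h
      rw [h, mul_zero] at h1
      exact lt_irrefl _ h1
    · intro h
      rw [h, mul_zero] at h2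
      exact absurd hc (not_lt.2 h2)
  have mT : ∀ n ∈ Co (j, true), (inner ℝ P (No n) : ℝ) ≠ 0 ∧ (inner ℝ P' (No n) : ℝ) ≠ 0 := by
    intro n hn
    obtain ⟨-, -, h1, h2, -, -⟩ := mg.2 n hn
    rw [real_inner_comm (No n) P, real_inner_comm (No n) P']
    constructor
    · intro h
      rw [h, mul_zero] at h2
      exact absurd hc (not_lt.2 h2)
    · intro h
      rw [h, mul_zero] at h1
      exact lt_irrefl _ h1
  -- labels
  have hlab : ∀ (q m m' : V × Bool), s(q, m) ≠ s(q, m') → m ≠ m' := by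
    intro q m m' h h'
    exact h (by rw [h'])
  have hself : ∀ v : E3, ‖v - v‖ ≤ r := by
    intro v
    rw [sub_self, norm_zero]
    exact hr.le
  -- pairs
  have pIF : ∀ v : E3, (inner ℝ P v : ℝ) ≠ 0 → (inner ℝ P' v : ℝ) ≠ 0 →
      det3 (L.nor i) (δ⁻¹ • crs P P') v ≠ 0 ∧ det3 (L.nor j) (δ⁻¹ • crs P P') v ≠ 0 := by
    intro v h1 h2
    rw [det3_smul2, det3_smul2, dcv, dcv, hiP, hiP', hjP, hjP']
    constructor
    · rw [zero_mul, sub_zero]
      exact mul_ne_zero (inv_ne_zero hδ.ne') (mul_ne_zero hδT h1)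
    · rw [zero_mul, zero_sub]
      exact mul_ne_zero (inv_ne_zero hδ.ne') (neg_ne_zero.2 (mul_ne_zero hδa h2))
  have pFF : ∀ n ∈ Co (j, false), ∀ n' ∈ Co (j, false), n ≠ n' →
      det3 (L.nor i) (No n) (No n') ≠ 0 ∧ det3 (L.nor j) (No n) (No n') ≠ 0 := by
    intro n hn n' hn' hne
    have h1 := (hcL2 n hn n' hn' hne).1
    rw [nor_lab a δ hL hpr hi] at h1
    refine ⟨smul1 h1, ?_⟩
    obtain ⟨m, hm, σ, hnm, hcl, hσ, hw, hnear, -, -⟩ := dF n hn
    obtain ⟨m', hm', σ', hnm', hcl', hσ', hw', hnear', -, -⟩ := dF n' hn'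
    refine hunif _ hnormj _ hw _ hw' ?_ _ _ _ (hself _) hnear hnear'
    rw [det3_smul2, det3_smul3, dcc, hjP]
    refine mul_ne_zero hσ (mul_ne_zero hσ' (mul_ne_zero ?_ hδa))
    have hmm : m ≠ m' := hlab (j, false) m m' (by rw [← hnm, ← hnm']; exact hne)
    refine hcl m' hm' ?_ hmm.symm
    intro h
    obtain ⟨m'', -, hnm'', -, h4, -⟩ := hcL1 n' hn'
    rw [hnm'', h] at hnm'
    rw [Sym2.eq_iff] at hnm'
    rcases hnm' with h5 | h5
    · exact h4 h5.2
    · exact h4 h5.2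
  have pTT : ∀ n ∈ Co (j, true), ∀ n' ∈ Co (j, true), n ≠ n' →
      det3 (L.nor i) (No n) (No n') ≠ 0 ∧ det3 (L.nor j) (No n) (No n') ≠ 0 := by
    intro n hn n' hn' hne
    have h1 := (hcR2 n hn n' hn' hne).2.1
    rw [← lab_nf L hnf, nor_lab a δ hL hpr hjS] at h1
    refine ⟨?_, smul1 h1⟩
    obtain ⟨m, hm, σ, hnm, hcl, hσ, hw, hnear, -, -⟩ := dT n hn
    obtain ⟨m', hm', σ', hnm', hcl', hσ', hw', hnear', -, -⟩ := dT n' hn'
    refine hunif _ hnormi _ hw _ hw' ?_ _ _ _ (hself _) hnear hnear'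
    rw [det3_smul2, det3_smul3, dcc, hiP']
    refine mul_ne_zero hσ (mul_ne_zero hσ' (mul_ne_zero ?_ hδT))
    have hmm : m ≠ m' := hlab (j, true) m m' (by rw [← hnm, ← hnm']; exact hne)
    refine hcl m' hm' ?_ hmm.symm
    intro h
    obtain ⟨m'', -, hnm'', -, h4, -⟩ := hcR1 n' hn'
    rw [hnm'', h] at hnm'
    rw [Sym2.eq_iff] at hnm'
    rcases hnm' with h5 | h5
    · exact h4 h5.2
    · exact h4 h5.2
  have pFT : ∀ n ∈ Co (j, false), ∀ n' ∈ Co (j, true),
      det3 (L.nor i) (No n) (No n') ≠ 0 ∧ det3 (L.nor j) (No n) (No n') ≠ 0 := by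
    intro n hn n' hn'
    obtain ⟨m, hm, σ, hnm, hcl, hσ, hw, hnear, hm1, hm2⟩ := dF n hn
    obtain ⟨m', hm', σ', hnm', hcl', hσ', hw', hnear', hm1', hm2'⟩ := dT n' hn'
    constructor
    · refine hunif _ hnormi _ hw _ hw' ?_ _ _ _ (hself _) hnear hnear'
      rw [det3_smul2, det3_smul3, dcv, hiP, inner_crs', zero_mul, sub_zero]
      exact mul_ne_zero hσ (mul_ne_zero hσ' (mul_ne_zero hm1 hm2'))
    · refine hunif _ hnormj _ hw _ hw' ?_ _ _ _ (hself _) hnear hnear'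
      rw [det3_smul2, det3_smul3]
      refine mul_ne_zero hσ (mul_ne_zero hσ' (swap23 ?_))
      rw [dcv, hjP', inner_crs', zero_mul, sub_zero]
      exact mul_ne_zero hm1' (swap12 hm2)
  -- triples
  have tIFT : ∀ n ∈ Co (j, false), ∀ n' ∈ Co (j, true),
      det3 (δ⁻¹ • crs P P') (No n) (No n') ≠ 0 := by
    intro n hn n' hn'
    obtain ⟨m, hm, σ, hnm, hcl, hσ, hw, hnear, hm1, hm2⟩ := dF n hn
    obtain ⟨m', hm', σ', hnm', hcl', hσ', hw', hnear', hm1', hm2'⟩ := dT n' hn'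
    have hI : δ⁻¹ • crs P P' ∈ W := by
      have := hW3 j hjS
      rwa [hnorS] at this
    refine hunif _ hI _ hw _ hw' ?_ _ _ _ (hself _) hnear hnear'
    rw [det3_smul1, det3_smul2, det3_smul3]
    refine mul_ne_zero (inv_ne_zero hδ.ne') (mul_ne_zero hσ (mul_ne_zero hσ' ?_))
    have h1 : det3 (crs P P') (crs P ((cut L pr a δ).p m)) (crs P' ((cut L pr a δ).p m')) =
        det3 P P' ((cut L pr a δ).p m) * det3 P P' ((cut L pr a δ).p m') := by
      rw [← inner_crs, crs_crs, inner_smul_left, inner_crs']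
      rfl
    rw [h1]
    exact mul_ne_zero hm2 hm2'
  have tFFT : ∀ n ∈ Co (j, false), ∀ n' ∈ Co (j, false), n ≠ n' → ∀ n'' ∈ Co (j, true),
      det3 (No n) (No n') (No n'') ≠ 0 := by
    intro n hn n' hn' hne n'' hn''
    obtain ⟨m, hm, σ, hnm, hcl, hσ, hw, hnear, hm1, hm2⟩ := dF n hn
    obtain ⟨m', hm', σ', hnm', hcl', hσ', hw', hnear', hm1', hm2'⟩ := dF n' hn'
    obtain ⟨m'', hm'', σ'', hnm'', hcl'', hσ'', hw'', hnear'', hm1'', hm2''⟩ := dT n'' hn''
    refine hunif _ hw _ hw' _ hw'' ?_ _ _ _ hnear hnear' hnear''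
    rw [det3_smul1, det3_smul2, det3_smul3]
    refine mul_ne_zero hσ (mul_ne_zero hσ' (mul_ne_zero hσ'' ?_))
    have h1 : det3 (crs P ((cut L pr a δ).p m)) (crs P ((cut L pr a δ).p m'))
        (crs P' ((cut L pr a δ).p m'')) =
        det3 P ((cut L pr a δ).p m) ((cut L pr a δ).p m') *
          det3 P P' ((cut L pr a δ).p m'') := by
      rw [← inner_crs, crs_crs, inner_smul_left, inner_crs']
      rfl
    rw [h1]
    refine mul_ne_zero ?_ hm2''
    have hmm : m ≠ m' := hlab (j, false) m m' (by rw [← hnm, ← hnm']; exact hne)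
    refine hcl m' hm' ?_ hmm.symm
    intro h
    obtain ⟨m3, -, hnm3, -, h4, -⟩ := hcL1 n' hn'
    rw [hnm3, h] at hnm'
    rw [Sym2.eq_iff] at hnm'
    rcases hnm' with h5 | h5
    · exact h4 h5.2
    · exact h4 h5.2
  have tTTF : ∀ n ∈ Co (j, true), ∀ n' ∈ Co (j, true), n ≠ n' → ∀ n'' ∈ Co (j, false),
      det3 (No n) (No n') (No n'') ≠ 0 := by
    intro n hn n' hn' hne n'' hn''
    obtain ⟨m, hm, σ, hnm, hcl, hσ, hw, hnear, hm1, hm2⟩ := dT n hn
    obtain ⟨m', hm', σ', hnm', hcl', hσ', hw', hnear', hm1', hm2'⟩ := dT n' hn'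
    obtain ⟨m'', hm'', σ'', hnm'', hcl'', hσ'', hw'', hnear'', hm1'', hm2''⟩ := dF n'' hn''
    refine hunif _ hw _ hw' _ hw'' ?_ _ _ _ hnear hnear' hnear''
    rw [det3_smul1, det3_smul2, det3_smul3]
    refine mul_ne_zero hσ (mul_ne_zero hσ' (mul_ne_zero hσ'' ?_))
    have h1 : det3 (crs P' ((cut L pr a δ).p m)) (crs P' ((cut L pr a δ).p m'))
        (crs P ((cut L pr a δ).p m'')) =
        det3 P' ((cut L pr a δ).p m) ((cut L pr a δ).p m') *
          det3 P' P ((cut L pr a δ).p m'') := by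
      rw [← inner_crs, crs_crs, inner_smul_left, inner_crs']
      rfl
    rw [h1]
    refine mul_ne_zero ?_ (swap12 hm2'')
    have hmm : m ≠ m' := hlab (j, true) m m' (by rw [← hnm, ← hnm']; exact hne)
    refine hcl m' hm' ?_ hmm.symm
    intro h
    obtain ⟨m3, -, hnm3, -, h4, -⟩ := hcR1 n' hn'
    rw [hnm3, h] at hnm'
    rw [Sym2.eq_iff] at hnm'
    rcases hnm' with h5 | h5
    · exact h4 h5.2
    · exact h4 h5.2
  have tIFF : ∀ n ∈ Co (j, false), ∀ n' ∈ Co (j, false), n ≠ n' →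
      det3 (δ⁻¹ • crs P P') (No n) (No n') ≠ 0 := by
    intro n hn n' hn' hne
    have h1 := (hcL2 n hn n' hn' hne).2.1
    rw [hnorS] at h1
    exact smul_1 (inv_ne_zero hδ.ne') h1
  have tITT : ∀ n ∈ Co (j, true), ∀ n' ∈ Co (j, true), n ≠ n' →
      det3 (δ⁻¹ • crs P P') (No n) (No n') ≠ 0 := by
    intro n hn n' hn' hne
    have h1 := (hcR2 n hn n' hn' hne).1
    rw [hnorS] at h1
    exact smul_1 (inv_ne_zero hδ.ne') h1
  -- the members
  have hmem : ∀ n ∈ chL L Co j, n = Sum.inl j ∨ (∃ k ∈ Co (j, false), n = Sum.inr k) ∨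
      ∃ k ∈ Co (j, true), n = Sum.inr k := by
    intro n hn
    have hnf' : ¬ L.X = some j := hnf
    unfold chL at hn
    rw [if_neg hnf', Finset.mem_insert, Finset.mem_image] at hn
    rcases hn with h | ⟨k, hk, rfl⟩
    · exact Or.inl h
    · rcases Finset.mem_union.1 hk with h | h
      · exact Or.inr (Or.inl ⟨k, h, rfl⟩)
      · exact Or.inr (Or.inr ⟨k, h, rfl⟩)
  have hnI : nL L pr a δ No (Sum.inl j) = δ⁻¹ • crs P P' := by
    unfold nL
    rw [Sum.elim_inl, hnorS]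
  have hnR : ∀ k, nL L pr a δ No (Sum.inr k) = No k := fun k => by
    unfold nL
    rw [Sum.elim_inr]
  intro n hn n' hn' hne
  rw [← and_assoc]
  refine ⟨?_, ?_⟩
  · rcases hmem n hn with rfl | ⟨k, hk, rfl⟩ | ⟨k, hk, rfl⟩
    · rcases hmem n' hn' with rfl | ⟨k', hk', rfl⟩ | ⟨k', hk', rfl⟩
      · exact absurd rfl hne
      · rw [hnI, hnR]
        exact pIF _ (mF k' hk').1 (mF k' hk').2
      · rw [hnI, hnR]
        exact pIF _ (mT k' hk').1 (mT k' hk').2
    · rcases hmem n' hn' with rfl | ⟨k', hk', rfl⟩ | ⟨k', hk', rfl⟩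
      · rw [hnI, hnR]
        have := pIF _ (mF k hk).1 (mF k hk).2
        exact ⟨swap23 this.1, swap23 this.2⟩
      · rw [hnR, hnR]
        exact pFF k hk k' hk' (fun h => hne (by rw [h]))
      · rw [hnR, hnR]
        exact pFT k hk k' hk'
    · rcases hmem n' hn' with rfl | ⟨k', hk', rfl⟩ | ⟨k', hk', rfl⟩
      · rw [hnI, hnR]
        have := pIF _ (mT k hk).1 (mT k hk).2
        exact ⟨swap23 this.1, swap23 this.2⟩
      · rw [hnR, hnR]
        have := pFT k' hk' k hk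
        exact ⟨swap23 this.1, swap23 this.2⟩
      · rw [hnR, hnR]
        exact pTT k hk k' hk' (fun h => hne (by rw [h]))
  · intro n'' hn'' hne1 hne2
    rcases hmem n hn with rfl | ⟨k, hk, rfl⟩ | ⟨k, hk, rfl⟩
    · -- I ? ?
      rcases hmem n' hn' with rfl | ⟨k', hk', rfl⟩ | ⟨k', hk', rfl⟩
      · exact absurd rfl hne
      · rcases hmem n'' hn'' with rfl | ⟨l, hl, rfl⟩ | ⟨l, hl, rfl⟩
        · exact absurd rfl hne1
        · rw [hnI, hnR, hnR]
          exact tIFF k' hk' l hl (fun h => hne2 (by rw [h]))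
        · rw [hnI, hnR, hnR]
          exact tIFT k' hk' l hl
      · rcases hmem n'' hn'' with rfl | ⟨l, hl, rfl⟩ | ⟨l, hl, rfl⟩
        · exact absurd rfl hne1
        · rw [hnI, hnR, hnR]
          exact swap23 (tIFT l hl k' hk')
        · rw [hnI, hnR, hnR]
          exact tITT k' hk' l hl (fun h => hne2 (by rw [h]))
    · -- F ? ?
      rcases hmem n' hn' with rfl | ⟨k', hk', rfl⟩ | ⟨k', hk', rfl⟩
      · rcases hmem n'' hn'' with rfl | ⟨l, hl, rfl⟩ | ⟨l, hl, rfl⟩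
        · exact absurd rfl hne2
        · rw [hnI, hnR, hnR]
          exact swap12 (tIFF k hk l hl (fun h => hne1 (by rw [h])))
        · rw [hnI, hnR, hnR]
          exact swap12 (tIFT k hk l hl)
      · rcases hmem n'' hn'' with rfl | ⟨l, hl, rfl⟩ | ⟨l, hl, rfl⟩
        · rw [hnI, hnR, hnR]
          exact swap23 (swap12 (tIFF k hk k' hk' (fun h => hne (by rw [h]))))
        · rw [hnR, hnR, hnR]
          exact (hcL2 k hk k' hk' (fun h => hne (by rw [h]))).2.2 l hl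
            (fun h => hne1 (by rw [h])) (fun h => hne2 (by rw [h]))
        · rw [hnR, hnR, hnR]
          exact tFFT k hk k' hk' (fun h => hne (by rw [h])) l hl
      · rcases hmem n'' hn'' with rfl | ⟨l, hl, rfl⟩ | ⟨l, hl, rfl⟩
        · rw [hnI, hnR, hnR]
          exact swap23 (swap12 (tIFT k hk k' hk'))
        · rw [hnR, hnR, hnR]
          exact swap23 (tFFT k hk l hl (fun h => hne1 (by rw [h])) k' hk')
        · rw [hnR, hnR, hnR]
          exact swap12 (swap23 (tTTF k' hk' l hl (fun h => hne2 (by rw [h])) k hk))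
    · -- T ? ?
      rcases hmem n' hn' with rfl | ⟨k', hk', rfl⟩ | ⟨k', hk', rfl⟩
      · rcases hmem n'' hn'' with rfl | ⟨l, hl, rfl⟩ | ⟨l, hl, rfl⟩
        · exact absurd rfl hne2
        · rw [hnI, hnR, hnR]
          exact swap12 (swap23 (tIFT l hl k hk))
        · rw [hnI, hnR, hnR]
          exact swap12 (tITT k hk l hl (fun h => hne1 (by rw [h])))
      · rcases hmem n'' hn'' with rfl | ⟨l, hl, rfl⟩ | ⟨l, hl, rfl⟩
        · rw [hnI, hnR, hnR]
          exact swap23 (swap12 (swap23 (tIFT k' hk' k hk)))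
        · rw [hnR, hnR, hnR]
          exact swap12 (swap23 (tFFT k' hk' l hl (fun h => hne2 (by rw [h])) k hk))
        · rw [hnR, hnR, hnR]
          exact swap23 (tTTF k hk l hl (fun h => hne1 (by rw [h])) k' hk')
      · rcases hmem n'' hn'' with rfl | ⟨l, hl, rfl⟩ | ⟨l, hl, rfl⟩
        · rw [hnI, hnR, hnR]
          exact swap23 (swap12 (tITT k hk k' hk' (fun h => hne (by rw [h]))))
        · rw [hnR, hnR, hnR]
          exact tTTF k hk k' hk' (fun h => hne (by rw [h])) l hl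
        · rw [hnR, hnR, hnR]
          exact (hcR2 k hk k' hk' (fun h => hne (by rw [h]))).2.2 l hl
            (fun h => hne1 (by rw [h])) (fun h => hne2 (by rw [h]))

end Pool.Agent.TSC
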