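import Pool.Agent.TSC.Stmts

/-!
# CGS: signs and sizes of the chamfers of `L`
-/

set_option autoImplicit false

namespace Pool.Agent.TSC

open Set Filter Topology Pool.Agent.TSM

namespace CGS_

theorem norm_sq3 (a : E3) : ‖a‖ ^ 2 = a 0 ^ 2 + a 1 ^ 2 + a 2 ^ 2 := by
  rw [← real_inner_self_eq_norm_sq, inn3]
  ring

theorem crs_norm (a b : E3) : ‖crs a b‖ ≤ ‖a‖ * ‖b‖ := by
  have h : ‖crs a b‖ ^ 2 ≤ (‖a‖ * ‖b‖) ^ 2 := by
    have h1 : ‖crs a b‖ ^ 2 + (inner ℝ a b : ℝ) ^ 2 = (‖a‖ * ‖b‖) ^ 2 := by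
      rw [mul_pow, norm_sq3, norm_sq3, norm_sq3, inn3, crs0, crs1, crs2]
      ring
    have h2 := sq_nonneg (inner ℝ a b : ℝ)
    linarith
  exact (pow_le_pow_iff_left₀ (norm_nonneg _) (by positivity) two_ne_zero).1 h

theorem decomp (pi pj ps N : E3) : det3 pi pj ps • N =
    (inner ℝ N ps : ℝ) • crs pi pj + (inner ℝ N pi : ℝ) • crs pj ps +
      (inner ℝ N pj : ℝ) • crs ps pi := by
  apply e3ext <;> simp only [PiLp.add_apply, PiLp.smul_apply, smul_eq_mul, crs0, crs1, crs2, inn3,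
    det3] <;> ring

/-- sizes of the coefficients -/
theorem sizes (pi pj ps N : E3) (B CN r : ℝ) (hB : 1 ≤ B) (hT : det3 pi pj ps ≠ 0)
    (hTB : |det3 pi pj ps|⁻¹ ≤ B) (h1 : ‖pi‖ ≤ B) (h2 : ‖ps‖ ≤ B) (h3 : ‖crs pi pj‖ ≤ B)
    (h4 : ‖crs pj ps‖ ≤ B) (h5 : ‖crs ps pi‖ ≤ B) (hN : ‖N‖ ≤ CN) (hN' : 3 / (4 * B) ≤ ‖N‖)
    (hr : |(inner ℝ N pj : ℝ)| ≤ r) (hr' : B ^ 2 * r ≤ 1 / (4 * B))
    (hx : 0 ≤ (inner ℝ N ps : ℝ) / det3 pi pj ps) (hy : 0 ≤ (inner ℝ N pi : ℝ) / det3 pi pj ps) :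
    1 / (2 * B ^ 2) ≤ (inner ℝ N ps : ℝ) / det3 pi pj ps + (inner ℝ N pi : ℝ) / det3 pi pj ps ∧
    (inner ℝ N ps : ℝ) / det3 pi pj ps + (inner ℝ N pi : ℝ) / det3 pi pj ps ≤ 2 * CN * B ^ 2 ∧
    ‖N - (((inner ℝ N ps : ℝ) / det3 pi pj ps) • crs pi pj +
      ((inner ℝ N pi : ℝ) / det3 pi pj ps) • crs pj ps)‖ ≤ B ^ 2 * r := by
  have hB0 : 0 < B := by linarith
  have hT0 : 0 < |det3 pi pj ps| := abs_pos.2 hT
  have hCN : 0 ≤ CN := (norm_nonneg _).trans hN
  have hr0 : 0 ≤ r := (abs_nonneg _).trans hr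
  have e1 : N = ((inner ℝ N ps : ℝ) / det3 pi pj ps) • crs pi pj +
      ((inner ℝ N pi : ℝ) / det3 pi pj ps) • crs pj ps +
      ((inner ℝ N pj : ℝ) / det3 pi pj ps) • crs ps pi := by
    have h := decomp pi pj ps N
    have h' : N = (det3 pi pj ps)⁻¹ • (det3 pi pj ps • N) := by
      rw [smul_smul, inv_mul_cancel₀ hT, one_smul]
    rw [h] at h'
    refine h'.trans ?_
    rw [smul_add, smul_add, smul_smul, smul_smul, smul_smul, div_eq_inv_mul, div_eq_inv_mul,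
      div_eq_inv_mul]
  set x := (inner ℝ N ps : ℝ) / det3 pi pj ps with hxdef
  set y := (inner ℝ N pi : ℝ) / det3 pi pj ps with hydef
  have e2 : N - (x • crs pi pj + y • crs pj ps) =
      ((inner ℝ N pj : ℝ) / det3 pi pj ps) • crs ps pi := by
    nth_rewrite 1 [e1]
    abel
  have e3 : ‖N - (x • crs pi pj + y • crs pj ps)‖ ≤ B ^ 2 * r := by
    rw [e2, norm_smul, Real.norm_eq_abs, abs_div, div_eq_mul_inv]
    calc |(inner ℝ N pj : ℝ)| * |det3 pi pj ps|⁻¹ * ‖crs ps pi‖ ≤ r * B * B := by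
          apply mul_le_mul (mul_le_mul hr hTB (by positivity) hr0) h5 (norm_nonneg _)
            (by positivity)
      _ = _ := by ring
  refine ⟨?_, ?_, e3⟩
  · have e4 : ‖N‖ ≤ (x + y) * B + B ^ 2 * r := by
      calc ‖N‖ = ‖(x • crs pi pj + y • crs pj ps) + (N - (x • crs pi pj + y • crs pj ps))‖ := by
            congr 1
            abel
        _ ≤ ‖x • crs pi pj + y • crs pj ps‖ + ‖N - (x • crs pi pj + y • crs pj ps)‖ :=
            norm_add_le _ _
        _ ≤ (‖x • crs pi pj‖ + ‖y • crs pj ps‖) + B ^ 2 * r := add_le_add (norm_add_le _ _) e3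
        _ ≤ (x * B + y * B) + B ^ 2 * r := by
            rw [norm_smul, norm_smul, Real.norm_eq_abs, Real.norm_eq_abs, abs_of_nonneg hx,
              abs_of_nonneg hy]
            have k1 := mul_le_mul_of_nonneg_left h3 hx
            have k2 := mul_le_mul_of_nonneg_left h4 hy
            linarith
        _ = _ := by ring
    have e5 : 1 / (2 * B) ≤ (x + y) * B := by
      have k1 : 3 / (4 * B) = 1 / (2 * B) + 1 / (4 * B) := by
        field_simp
        norm_num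
      linarith
    rw [div_le_iff₀ (by positivity)] at e5 ⊢
    calc (1 : ℝ) ≤ (x + y) * B * (2 * B) := e5
      _ = _ := by ring
  · have k : ∀ w : E3, ‖w‖ ≤ B → (inner ℝ N w : ℝ) / det3 pi pj ps ≤ CN * B ^ 2 := by
      intro w hw
      calc (inner ℝ N w : ℝ) / det3 pi pj ps ≤ |(inner ℝ N w : ℝ) / det3 pi pj ps| := le_abs_self _
        _ = |(inner ℝ N w : ℝ)| * |det3 pi pj ps|⁻¹ := by rw [abs_div, div_eq_mul_inv]
        _ ≤ (CN * B) * B := by
          apply mul_le_mul _ hTB (by positivity) (by positivity)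
          exact (abs_real_inner_le_norm _ _).trans (mul_le_mul hN hw (norm_nonneg _) hCN)
        _ = _ := by ring
    have k1 := k ps h2
    have k2 := k pi h1
    linarith

section

variable {V : Type} [DecidableEq V] {L : Pg V} {pr : V → V}

/-- different labels have independent directions -/
theorem crs_ne (hL : L.Ok) (hpr : IsPr L pr) {j m : V} (hj : j ∈ L.S) (hm : m ∈ L.S)
    (hjm : j ≠ m) : crs (L.p j) (L.p m) ≠ 0 := by
  -- two other labels
  obtain ⟨x, hx, hxj, hxm⟩ : ∃ x ∈ L.S, x ≠ j ∧ x ≠ m := by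
    by_contra hcon
    push Not at hcon
    have h1 : L.S ⊆ {j, m} := by
      intro x hx
      by_cases h : x = j
      · simp [h]
      · simp [hcon x hx h]
    have h2 := (Finset.card_le_card h1).trans Finset.card_le_two
    have h3 := hL.card
    omega
  obtain ⟨y, hy, hyj, hym, hyx⟩ : ∃ y ∈ L.S, y ≠ j ∧ y ≠ m ∧ y ≠ x := by
    by_contra hcon
    push Not at hcon
    have h1 : L.S ⊆ {j, m, x} := by
      intro y hy
      by_cases h : y = j
      · simp [h]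
      · by_cases h' : y = m
        · simp [h']
        · simp [hcon y hy h h']
    have h2 := (Finset.card_le_card h1).trans Finset.card_le_three
    have h3 := hL.card
    omega
  intro h0
  have hz : ∀ w, det3 (L.p j) (L.p m) w = 0 := by
    intro w
    rw [← inner_crs, h0, inner_zero_left]
  by_cases hf : L.Flat j m x
  · have hf' : ¬ L.Flat j m y := by
      intro hf'
      obtain ⟨m1, q1, hm1, hq1, hqm1, he1⟩ := hf
      obtain ⟨m2, q2, hm2, hq2, hqm2, he2⟩ := hf'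
      rw [hm1] at hm2
      obtain rfl := Option.some.inj hm2
      have hq : q1 = q2 := hL.inj q1 hq1 q2 hq2 (by rw [hqm1, hqm2])
      subst hq
      rw [← he1] at he2
      have : x ∈ ({j, m, y} : Finset V) := by
        rw [he2]
        simp
      simp only [Finset.mem_insert, Finset.mem_singleton] at this
      rcases this with h | h | h
      · exact hxj h
      · exact hxm h
      · exact hyx h.symm
    exact hL.gen j hj m hm y hy hjm hyj.symm hym.symm hf' (hz _)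
  · exact hL.gen j hj m hm x hx hjm hxj.symm hxm.symm hf (hz _)

theorem fin_bound {W : Type} (S : Finset W) (f : W → ℝ) (hf : ∀ w, 0 ≤ f w) :
    ∃ B : ℝ, 0 ≤ B ∧ ∀ w ∈ S, f w ≤ B :=
  ⟨∑ w ∈ S, f w, Finset.sum_nonneg fun w _ => hf w, fun w hw =>
    Finset.single_le_sum (f := f) (fun w _ => hf w) hw⟩

/-- a bound for the finitely many constants of the polygon -/
theorem bound (L : Pg V) : ∃ B : ℝ, 1 ≤ B ∧ (∀ i ∈ L.S, ‖L.p i‖ ≤ B) ∧
    (∀ i ∈ L.S, |L.turn i|⁻¹ ≤ B) ∧ (∀ i ∈ L.S, ∀ k ∈ L.S, ‖crs (L.p i) (L.p k)‖ ≤ B) ∧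
    ∀ i ∈ L.S, ∀ k ∈ L.S, ‖crs (L.p i) (L.p k)‖⁻¹ ≤ B := by
  obtain ⟨B1, p1, h1⟩ := fin_bound L.S (fun i => ‖L.p i‖) fun i => norm_nonneg _
  obtain ⟨B2, p2, h2⟩ := fin_bound L.S (fun i => |L.turn i|⁻¹) fun i => by positivity
  obtain ⟨B3, p3, h3⟩ := fin_bound (L.S ×ˢ L.S) (fun q => ‖crs (L.p q.1) (L.p q.2)‖)
    fun q => norm_nonneg _
  obtain ⟨B4, p4, h4⟩ := fin_bound (L.S ×ˢ L.S) (fun q => ‖crs (L.p q.1) (L.p q.2)‖⁻¹)
    fun q => by positivity
  refine ⟨1 + B1 + B2 + B3 + B4, by linarith, ?_, ?_, ?_, ?_⟩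
  · intro i hi
    have := h1 i hi
    linarith
  · intro i hi
    have := h2 i hi
    linarith
  · intro i hi k hk
    have := h3 (i, k) (Finset.mk_mem_product hi hk)
    simp only at this
    linarith
  · intro i hi k hk
    have := h4 (i, k) (Finset.mk_mem_product hi hk)
    simp only at this
    linarith

/-- the directions of the cut polygon are near the directions of the polygon -/
theorem p_near (hpr : IsPr L pr) (hL : L.Ok) {a δ B : ℝ} (ha : 0 < a) (hδ : 0 < δ)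
    (hB : ∀ i ∈ L.S, ‖L.p i‖ ≤ B) {q : V × Bool} (hq : q ∈ (cut L pr a δ).S) :
    ‖(cut L pr a δ).p q - L.p q.1‖ ≤ δ * (1 + a) * B := by
  obtain ⟨i, c⟩ := q
  have hi : i ∈ L.S := ((mem_cut L pr a δ _).1 hq).1
  have hB0 : 0 ≤ B := (norm_nonneg _).trans (hB i hi)
  by_cases h : L.X = some i
  · rw [p_flat L pr a δ h]
    simp only [sub_self, norm_zero]
    positivity
  · cases c
    · rw [p_false L pr a δ h]
      simp only [add_sub_cancel_left]
      rw [norm_smul, Real.norm_eq_abs, abs_of_pos (by positivity)]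
      apply mul_le_mul _ (hB _ (hpr i hi).1) (norm_nonneg _) (by positivity)
      have : 0 ≤ δ := hδ.le
      linarith [mul_add δ 1 a]
    · rw [p_true L pr a δ h]
      simp only [add_sub_cancel_left]
      rw [norm_smul, Real.norm_eq_abs, abs_of_pos hδ]
      apply mul_le_mul _ (hB _ (hL.maps i hi)) (norm_nonneg _) (by positivity)
      have : 0 ≤ δ * a := by positivity
      linarith [mul_add δ 1 a]

/-- sizes of a chamfer normal near a chord plane -/
theorem chord {B B1 θ ε' : ℝ} (hB : 1 ≤ B) (P M pj pm N : E3) (σ : ℝ)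
    (hσ : σ = 1 ∨ σ = -1) (hN : ‖N - σ • crs P M‖ ≤ ε') (hP : ‖P‖ ≤ B1) (hM : ‖M‖ ≤ B1)
    (hpj : ‖pj‖ ≤ B) (hPj : ‖P - pj‖ ≤ θ) (hMm : ‖M - pm‖ ≤ θ) (hc : 1 / B ≤ ‖crs pj pm‖)
    (hε1 : ε' ≤ 1) (hε2 : ε' ≤ 1 / (8 * B)) (hθ : θ * (B1 + B) ≤ 1 / (8 * B)) :
    ‖N‖ ≤ B1 ^ 2 + 1 ∧ 3 / (4 * B) ≤ ‖N‖ ∧ |(inner ℝ N P : ℝ)| ≤ ε' * B1 := by
  have hB0 : 0 < B := by linarith
  have hσn : ‖σ • crs P M‖ = ‖crs P M‖ := by
    rcases hσ with h | h <;> rw [h, norm_smul] <;> simp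
  have hPM : ‖crs P M‖ ≤ B1 ^ 2 := by
    refine (crs_norm P M).trans ?_
    rw [sq]
    exact mul_le_mul hP hM (norm_nonneg _) ((norm_nonneg _).trans hP)
  have hθ0 : 0 ≤ θ := (norm_nonneg _).trans hPj
  refine ⟨?_, ?_, ?_⟩
  · calc ‖N‖ = ‖(N - σ • crs P M) + σ • crs P M‖ := by rw [sub_add_cancel]
      _ ≤ ‖N - σ • crs P M‖ + ‖σ • crs P M‖ := norm_add_le _ _
      _ ≤ 1 + B1 ^ 2 := by
        rw [hσn]
        linarith
      _ = _ := by ring
  · have e1 : crs pj pm = crs P M - crs (P - pj) M - crs pj (M - pm) := by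
      apply e3ext <;> simp only [PiLp.sub_apply, crs0, crs1, crs2] <;> ring
    have e2 : ‖crs (P - pj) M‖ ≤ θ * B1 :=
      (crs_norm _ _).trans (mul_le_mul hPj hM (norm_nonneg _) hθ0)
    have e3 : ‖crs pj (M - pm)‖ ≤ θ * B := by
      refine (crs_norm _ _).trans ?_
      rw [mul_comm]
      exact mul_le_mul hMm hpj (norm_nonneg _) hθ0
    have e4 : ‖crs pj pm‖ ≤ ‖crs P M‖ + θ * B1 + θ * B := by
      rw [e1]
      calc ‖crs P M - crs (P - pj) M - crs pj (M - pm)‖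
          ≤ ‖crs P M - crs (P - pj) M‖ + ‖crs pj (M - pm)‖ := norm_sub_le _ _
        _ ≤ ‖crs P M‖ + ‖crs (P - pj) M‖ + ‖crs pj (M - pm)‖ := by
          have := norm_sub_le (crs P M) (crs (P - pj) M)
          linarith
        _ ≤ _ := by linarith
    have e5 : ‖crs P M‖ ≤ ‖N‖ + ε' := by
      rw [← hσn]
      calc ‖σ • crs P M‖ = ‖N - (N - σ • crs P M)‖ := by
            congr 1
            abel
        _ ≤ ‖N‖ + ‖N - σ • crs P M‖ := norm_sub_le _ _
        _ ≤ _ := by linarith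
    have e6 : (3 : ℝ) / (4 * B) = 1 / B - 1 / (8 * B) - 1 / (8 * B) := by
      field_simp
      norm_num
    have e7 : θ * (B1 + B) = θ * B1 + θ * B := by ring
    rw [e6]
    linarith
  · have e1 : (inner ℝ N P : ℝ) = inner ℝ (N - σ • crs P M) P := by
      rw [inner_sub_left, inner_smul_left, inner_crs, det3_self13]
      simp
    rw [e1]
    exact (abs_real_inner_le_norm _ _).trans
      (mul_le_mul hN hP (norm_nonneg _) ((norm_nonneg _).trans hN))

theorem div_nonneg_of_sign {T z : ℝ} (hT : T ≠ 0) (hz : 0 < Real.sign T * z) : 0 ≤ z / T := by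
  rcases lt_or_gt_of_ne hT with h | h
  · rw [Real.sign_of_neg h] at hz
    exact div_nonneg_of_nonpos (by linarith) h.le
  · rw [Real.sign_of_pos h] at hz
    exact div_nonneg (by linarith) h.le

theorem sign_mul_self_pos {T : ℝ} (hT : T ≠ 0) : 0 < Real.sign T * T := by
  rcases lt_or_gt_of_ne hT with h | h
  · rw [Real.sign_of_neg h]
    linarith
  · rw [Real.sign_of_pos h]
    linarith

/-- signs for chamfers at the left new arm -/
theorem caseA {a δ ε B B1 CN c C ε' T : ℝ} (pi pj ps P P' N : E3) (hT : T ≠ 0)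
    (ha : 0 < a) (hδ : 0 < δ) (hc : 0 < c) (hε : δ * (1 + a) < ε)
    (hP : P = pj + (δ * a) • pi) (hP' : P' = pj + δ • ps) (hN : ‖N‖ ≤ CN) (hpi : ‖pi‖ ≤ B)
    (h1 : |(inner ℝ N P : ℝ)| ≤ ε' * B1) (h2 : |(inner ℝ N P : ℝ)| ≤ C * ε')
    (h3 : Real.sign T * inner ℝ N P < 0) (h4 : c ≤ Real.sign T * inner ℝ N P')
    (h5 : c ≤ Real.sign T * inner ℝ N pi) (h6 : c ≤ Real.sign T * inner ℝ N ps)
    (hε' : C * ε' < (ε - δ * (1 + a)) * c) :
    Real.sign T * inner ℝ N pj < 0 ∧ 0 < Real.sign T * inner ℝ N (pj + ε • pi) ∧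
    0 < Real.sign T * inner ℝ N (pj + ε • ps) ∧
    |(inner ℝ N pj : ℝ)| ≤ ε' * B1 + δ * (1 + a) * CN * B ∧
    0 ≤ (inner ℝ N ps : ℝ) / T ∧ 0 ≤ (inner ℝ N pi : ℝ) / T := by
  have hCN : 0 ≤ CN := (norm_nonneg _).trans hN
  have hs1 : |Real.sign T| = 1 := by
    rcases lt_or_gt_of_ne hT with h | h
    · rw [Real.sign_of_neg h]
      simp
    · rw [Real.sign_of_pos h]
      simp
  have k1 : (inner ℝ N P : ℝ) = inner ℝ N pj + δ * a * inner ℝ N pi := by
    rw [hP, inner_add_right, inner_smul_right]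
  have k2 : (inner ℝ N P' : ℝ) = inner ℝ N pj + δ * inner ℝ N ps := by
    rw [hP', inner_add_right, inner_smul_right]
  have hδa : 0 < δ * a := mul_pos hδ ha
  have e1 : δ * (1 + a) = δ + δ * a := by ring
  have h2' : - (C * ε') ≤ Real.sign T * inner ℝ N P := by
    have := neg_abs_le (Real.sign T * (inner ℝ N P : ℝ))
    rw [abs_mul, hs1, one_mul] at this
    linarith
  set u := Real.sign T * (inner ℝ N pj : ℝ) with hu
  set v := Real.sign T * (inner ℝ N pi : ℝ) with hv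
  set w := Real.sign T * (inner ℝ N ps : ℝ) with hw
  have e2 : Real.sign T * (inner ℝ N P : ℝ) = u + δ * a * v := by
    rw [k1, hu, hv]
    ring
  have e3 : Real.sign T * (inner ℝ N P' : ℝ) = u + δ * w := by
    rw [k2, hu, hw]
    ring
  have e4 : Real.sign T * (inner ℝ N (pj + ε • pi) : ℝ) = u + ε * v := by
    rw [inner_add_right, inner_smul_right, hu, hv]
    ring
  have e5 : Real.sign T * (inner ℝ N (pj + ε • ps) : ℝ) = u + ε * w := by
    rw [inner_add_right, inner_smul_right, hu, hw]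
    ring
  rw [e2] at h3 h2'
  rw [e3] at h4
  rw [e4, e5]
  have hv0 : 0 < v := lt_of_lt_of_le hc h5
  have hw0 : 0 < w := lt_of_lt_of_le hc h6
  have q1 : 0 < δ * a * v := mul_pos hδa hv0
  refine ⟨by linarith, ?_, ?_, ?_, div_nonneg_of_sign hT hw0, div_nonneg_of_sign hT hv0⟩
  · have q2 : (ε - δ * (1 + a)) * c ≤ (ε - δ * a) * v := by
      apply mul_le_mul (by linarith) h5 hc.le (by linarith)
    have q3 : (ε - δ * a) * v = ε * v - δ * a * v := by ring
    linarith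
  · have q2 : 0 < (ε - δ) * w := mul_pos (by linarith) hw0
    have q3 : (ε - δ) * w = ε * w - δ * w := by ring
    linarith
  · have q2 : (inner ℝ N pj : ℝ) = inner ℝ N P - δ * a * inner ℝ N pi := by
      rw [k1]
      ring
    have q3 : |(inner ℝ N pi : ℝ)| ≤ CN * B :=
      (abs_real_inner_le_norm _ _).trans (mul_le_mul hN hpi (norm_nonneg _) hCN)
    calc |(inner ℝ N pj : ℝ)| ≤ |(inner ℝ N P : ℝ)| + |δ * a * (inner ℝ N pi : ℝ)| := by
          rw [q2]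
          exact abs_sub _ _
      _ = |(inner ℝ N P : ℝ)| + δ * a * |(inner ℝ N pi : ℝ)| := by
          rw [abs_mul, abs_of_pos hδa]
      _ ≤ ε' * B1 + δ * (1 + a) * (CN * B) := by
          apply add_le_add h1
          apply mul_le_mul (by linarith) q3 (abs_nonneg _) (by positivity)
      _ = _ := by ring

/-- signs for chamfers at the right new arm -/
theorem caseB {a δ ε B B1 CN c C ε' T : ℝ} (pi pj ps P P' N : E3) (hT : T ≠ 0)
    (ha : 0 < a) (hδ : 0 < δ) (hc : 0 < c) (hε : δ * (1 + a) < ε)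
    (hP : P = pj + (δ * a) • pi) (hP' : P' = pj + δ • ps) (hN : ‖N‖ ≤ CN) (hps : ‖ps‖ ≤ B)
    (h1 : |(inner ℝ N P' : ℝ)| ≤ ε' * B1) (h2 : |(inner ℝ N P' : ℝ)| ≤ C * ε')
    (h3 : Real.sign T * inner ℝ N P' < 0) (h4 : c ≤ Real.sign T * inner ℝ N P)
    (h5 : c ≤ Real.sign T * inner ℝ N pi) (h6 : c ≤ Real.sign T * inner ℝ N ps)
    (hε' : C * ε' < (ε - δ * (1 + a)) * c) :
    Real.sign T * inner ℝ N pj < 0 ∧ 0 < Real.sign T * inner ℝ N (pj + ε • pi) ∧
    0 < Real.sign T * inner ℝ N (pj + ε • ps) ∧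
    |(inner ℝ N pj : ℝ)| ≤ ε' * B1 + δ * (1 + a) * CN * B ∧
    0 ≤ (inner ℝ N ps : ℝ) / T ∧ 0 ≤ (inner ℝ N pi : ℝ) / T := by
  have hCN : 0 ≤ CN := (norm_nonneg _).trans hN
  have hs1 : |Real.sign T| = 1 := by
    rcases lt_or_gt_of_ne hT with h | h
    · rw [Real.sign_of_neg h]
      simp
    · rw [Real.sign_of_pos h]
      simp
  have k1 : (inner ℝ N P : ℝ) = inner ℝ N pj + δ * a * inner ℝ N pi := by
    rw [hP, inner_add_right, inner_smul_right]
  have k2 : (inner ℝ N P' : ℝ) = inner ℝ N pj + δ * inner ℝ N ps := by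
    rw [hP', inner_add_right, inner_smul_right]
  have hδa : 0 < δ * a := mul_pos hδ ha
  have e1 : δ * (1 + a) = δ + δ * a := by ring
  have h2' : - (C * ε') ≤ Real.sign T * inner ℝ N P' := by
    have := neg_abs_le (Real.sign T * (inner ℝ N P' : ℝ))
    rw [abs_mul, hs1, one_mul] at this
    linarith
  set u := Real.sign T * (inner ℝ N pj : ℝ) with hu
  set v := Real.sign T * (inner ℝ N pi : ℝ) with hv
  set w := Real.sign T * (inner ℝ N ps : ℝ) with hw
  have e2 : Real.sign T * (inner ℝ N P : ℝ) = u + δ * a * v := by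
    rw [k1, hu, hv]
    ring
  have e3 : Real.sign T * (inner ℝ N P' : ℝ) = u + δ * w := by
    rw [k2, hu, hw]
    ring
  have e4 : Real.sign T * (inner ℝ N (pj + ε • pi) : ℝ) = u + ε * v := by
    rw [inner_add_right, inner_smul_right, hu, hv]
    ring
  have e5 : Real.sign T * (inner ℝ N (pj + ε • ps) : ℝ) = u + ε * w := by
    rw [inner_add_right, inner_smul_right, hu, hw]
    ring
  rw [e3] at h3 h2'
  rw [e2] at h4
  rw [e4, e5]
  have hv0 : 0 < v := lt_of_lt_of_le hc h5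
  have hw0 : 0 < w := lt_of_lt_of_le hc h6
  have q1 : 0 < δ * w := mul_pos hδ hw0
  refine ⟨by linarith, ?_, ?_, ?_, div_nonneg_of_sign hT hw0, div_nonneg_of_sign hT hv0⟩
  · have q2 : 0 < (ε - δ * a) * v := mul_pos (by linarith) hv0
    have q3 : (ε - δ * a) * v = ε * v - δ * a * v := by ring
    linarith
  · have q2 : (ε - δ * (1 + a)) * c ≤ (ε - δ) * w := by
      apply mul_le_mul (by linarith) h6 hc.le (by linarith)
    have q3 : (ε - δ) * w = ε * w - δ * w := by ring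
    linarith
  · have q2 : (inner ℝ N pj : ℝ) = inner ℝ N P' - δ * inner ℝ N ps := by
      rw [k2]
      ring
    have q3 : |(inner ℝ N ps : ℝ)| ≤ CN * B :=
      (abs_real_inner_le_norm _ _).trans (mul_le_mul hN hps (norm_nonneg _) hCN)
    calc |(inner ℝ N pj : ℝ)| ≤ |(inner ℝ N P' : ℝ)| + |δ * (inner ℝ N ps : ℝ)| := by
          rw [q2]
          exact abs_sub _ _
      _ = |(inner ℝ N P' : ℝ)| + δ * |(inner ℝ N ps : ℝ)| := by
          rw [abs_mul, abs_of_pos hδ]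
      _ ≤ ε' * B1 + δ * (1 + a) * (CN * B) := by
          apply add_le_add h1
          apply mul_le_mul (by linarith) q3 (abs_nonneg _) (by positivity)
      _ = _ := by ring

/-- the chamfer which is the small face -/
theorem caseI {a δ ε B T : ℝ} (pi pj ps N : E3) (hT : T ≠ 0) (hTd : T = det3 pi pj ps)
    (ha : 0 < a) (hδ : 0 < δ) (hε : δ * (1 + a) < ε)
    (hN : N = crs pj ps + a • crs pi pj + (δ * a) • crs pi ps) (hB : ‖crs pi ps‖ ≤ B) :
    Real.sign T * inner ℝ N pj < 0 ∧ 0 < Real.sign T * inner ℝ N (pj + ε • pi) ∧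
    0 < Real.sign T * inner ℝ N (pj + ε • ps) ∧
    ‖N - (a • crs pi pj + (1 : ℝ) • crs pj ps)‖ ≤ δ * (1 + a) * B := by
  have k1 : (inner ℝ N pj : ℝ) = - (δ * a) * T := by
    rw [hN, hTd, inner_add_left, inner_add_left, inner_smul_left, inner_smul_left, inner_crs,
      inner_crs, inner_crs, det3_self13, det3_self23, det3_swap' pi ps pj]
    simp
  have k2 : (inner ℝ N pi : ℝ) = T := by
    rw [hN, hTd, inner_add_left, inner_add_left, inner_smul_left, inner_smul_left, inner_crs,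
      inner_crs, inner_crs, det3_self13, det3_self13, det3_rot pi pj ps]
    simp
  have k3 : (inner ℝ N ps : ℝ) = a * T := by
    rw [hN, hTd, inner_add_left, inner_add_left, inner_smul_left, inner_smul_left, inner_crs,
      inner_crs, inner_crs, det3_self23, det3_self23]
    simp
  have hs := sign_mul_self_pos hT
  have hδa : 0 < δ * a := mul_pos hδ ha
  have e1 : δ * (1 + a) = δ + δ * a := by ring
  refine ⟨?_, ?_, ?_, ?_⟩
  · rw [k1]
    have : Real.sign T * (-(δ * a) * T) = - (δ * a * (Real.sign T * T)) := by ring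
    rw [this]
    have := mul_pos hδa hs
    linarith
  · rw [inner_add_right, inner_smul_right, k1, k2]
    have : Real.sign T * (-(δ * a) * T + ε * T) = (ε - δ * a) * (Real.sign T * T) := by ring
    rw [this]
    exact mul_pos (by linarith) hs
  · rw [inner_add_right, inner_smul_right, k1, k3]
    have : Real.sign T * (-(δ * a) * T + ε * (a * T)) = a * (ε - δ) * (Real.sign T * T) := by ring
    rw [this]
    exact mul_pos (mul_pos ha (by linarith)) hs
  · have : N - (a • crs pi pj + (1 : ℝ) • crs pj ps) = (δ * a) • crs pi ps := by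
      rw [hN, one_smul]
      abel
    rw [this, norm_smul, Real.norm_eq_abs, abs_of_pos hδa]
    apply mul_le_mul _ hB (norm_nonneg _) (by positivity)
    linarith

/-- the constants -/
theorem consts {a B ε δ ε' : ℝ} (ha : 0 < a) (hB : 1 ≤ B) (hε : 0 < ε) (hε1 : ε < 1)
    (hδ : 0 < δ) (hε' : 0 < ε') {B1 CN W : ℝ} (hB1 : B1 = B + (1 + a) * B)
    (hCN : CN = B1 ^ 2 + 1)
    (hW : W = 8 * B ^ 3 * B1 + 8 * B ^ 4 * CN + 8 * B ^ 2 * (B1 + B) + 8 * B + 1)
    (h1 : δ * (1 + a) < ε / W) (h2 : ε' < ε / W) :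
    δ * (1 + a) < ε ∧ δ ≤ 1 ∧ a * δ ^ 2 < 1 ∧ ε' ≤ 1 ∧ ε' ≤ 1 / (8 * B) ∧
    δ * (1 + a) * B * (B1 + B) ≤ 1 / (8 * B) ∧
    B ^ 2 * (ε' * B1 + δ * (1 + a) * CN * B) ≤ 1 / (4 * B) ∧
    B ^ 2 * (ε' * B1 + δ * (1 + a) * CN * B) ≤ ε ∧ δ * (1 + a) * B ≤ ε := by
  have hB0 : 0 < B := by linarith
  have hB10 : 0 < B1 := by
    rw [hB1]
    positivity
  have hCN0 : 0 < CN := by
    rw [hCN]
    positivity
  set t := δ * (1 + a) with ht
  have ht0 : 0 < t := by positivity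
  have w1 : 0 < 8 * B ^ 3 * B1 := by positivity
  have w2 : 0 < 8 * B ^ 4 * CN := by positivity
  have w3 : 0 < 8 * B ^ 2 * (B1 + B) := by positivity
  have hW0 : 0 < W := by linarith
  have g1 : t * W < ε := (lt_div_iff₀ hW0).1 h1
  have g2 : ε' * W < ε := (lt_div_iff₀ hW0).1 h2
  have gt : ∀ y, 0 ≤ y → y ≤ W → t * y ≤ ε := fun y _ hy =>
    (mul_le_mul_of_nonneg_left hy ht0.le).trans g1.le
  have ge : ∀ y, 0 ≤ y → y ≤ W → ε' * y ≤ ε := fun y _ hy =>
    (mul_le_mul_of_nonneg_left hy hε'.le).trans g2.le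
  have t1 : t < ε := by
    have : t * 1 ≤ t * W := mul_le_mul_of_nonneg_left (by linarith) ht0.le
    linarith
  have d1 : δ ≤ t := by
    rw [ht]
    have : 0 < δ * a := mul_pos hδ ha
    linarith [mul_add δ 1 a]
  have d2 : δ ≤ 1 := by linarith
  have a1 : ε' * (8 * B ^ 3 * B1) ≤ ε := ge _ w1.le (by linarith)
  have a2 : t * (8 * B ^ 4 * CN) ≤ ε := gt _ w2.le (by linarith)
  have a3 : t * (8 * B ^ 2 * (B1 + B)) ≤ ε := gt _ w3.le (by linarith)
  have a4 : ε' * (8 * B) ≤ ε := ge _ (by positivity) (by linarith)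
  have a5 : t * B ≤ ε := gt _ hB0.le (by linarith)
  have a6 : ε' * 1 ≤ ε := ge _ zero_le_one (by linarith)
  have key : B ^ 2 * (ε' * B1 + t * CN * B) * (4 * B) ≤ ε := by
    have : B ^ 2 * (ε' * B1 + t * CN * B) * (4 * B) =
        (ε' * (8 * B ^ 3 * B1) + t * (8 * B ^ 4 * CN)) / 2 := by ring
    rw [this]
    linarith
  refine ⟨t1, d2, ?_, by linarith, ?_, ?_, ?_, ?_, a5⟩
  · have e1 : a * δ ^ 2 = (δ * a) * δ := by ring
    rw [e1]
    have e2 : δ * a ≤ t := by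
      rw [ht]
      linarith [mul_add δ 1 a]
    have e3 : δ * a * δ ≤ δ * a * 1 := mul_le_mul_of_nonneg_left d2 (by positivity)
    linarith
  · rw [le_div_iff₀ (by positivity)]
    linarith
  · rw [le_div_iff₀ (by positivity)]
    have : t * B * (B1 + B) * (8 * B) = t * (8 * B ^ 2 * (B1 + B)) := by ring
    linarith
  · rw [le_div_iff₀ (by positivity)]
    linarith
  · have h0 : 0 ≤ B ^ 2 * (ε' * B1 + t * CN * B) := by positivity
    have h4 : B ^ 2 * (ε' * B1 + t * CN * B) * 1 ≤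
        B ^ 2 * (ε' * B1 + t * CN * B) * (4 * B) :=
      mul_le_mul_of_nonneg_left (by linarith) h0
    linarith

/-- data of a chamfer of the cut polygon -/
theorem arm_data (hL : L.Ok) (hpr : IsPr L pr) {a δ B B1 CN ε' : ℝ} (ha : 0 < a) (hδ : 0 < δ)
    (hB : 1 ≤ B) (hBp : ∀ i ∈ L.S, ‖L.p i‖ ≤ B)
    (hBc : ∀ i ∈ L.S, ∀ k ∈ L.S, ‖crs (L.p i) (L.p k)‖⁻¹ ≤ B)
    (hB1 : B1 = B + (1 + a) * B) (hCN : CN = B1 ^ 2 + 1) (hδ1 : δ ≤ 1)
    (hε1 : ε' ≤ 1) (hε2 : ε' ≤ 1 / (8 * B))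
    (hθ : δ * (1 + a) * B * (B1 + B) ≤ 1 / (8 * B)) {j : V} {b : Bool} (N : E3) (σ : ℝ)
    {m : V × Bool} (hj : (j, b) ∈ (cut L pr a δ).S) (hm : m ∈ (cut L pr a δ).S) (hmj : m.1 ≠ j)
    (hσ : σ = 1 ∨ σ = -1)
    (hN : ‖N - σ • crs ((cut L pr a δ).p (j, b)) ((cut L pr a δ).p m)‖ ≤ ε') :
    ‖N‖ ≤ CN ∧ 3 / (4 * B) ≤ ‖N‖ ∧
      |(inner ℝ N ((cut L pr a δ).p (j, b)) : ℝ)| ≤ ε' * B1 := by
  have hB0 : 0 < B := by linarith
  have hjS : j ∈ L.S := ((mem_cut L pr a δ _).1 hj).1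
  have hmS : m.1 ∈ L.S := ((mem_cut L pr a δ _).1 hm).1
  have n1 := p_near hpr hL ha hδ hBp hj
  have n2 := p_near hpr hL ha hδ hBp hm
  have k : ∀ q ∈ (cut L pr a δ).S, ‖(cut L pr a δ).p q‖ ≤ B1 := by
    intro q hq
    have n3 := p_near hpr hL ha hδ hBp hq
    have hqS : q.1 ∈ L.S := ((mem_cut L pr a δ _).1 hq).1
    have n4 : ‖(cut L pr a δ).p q‖ ≤ ‖(cut L pr a δ).p q - L.p q.1‖ + ‖L.p q.1‖ := by
      have := norm_add_le ((cut L pr a δ).p q - L.p q.1) (L.p q.1)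
      rwa [sub_add_cancel] at this
    have n5 := hBp _ hqS
    have n6 : δ * (1 + a) * B ≤ 1 * (1 + a) * B :=
      mul_le_mul_of_nonneg_right (mul_le_mul_of_nonneg_right hδ1 (by positivity)) hB0.le
    rw [hB1]
    linarith
  have hc : 1 / B ≤ ‖crs (L.p j) (L.p m.1)‖ := by
    have h1 := hBc j hjS m.1 hmS
    have h2 : 0 < ‖crs (L.p j) (L.p m.1)‖ := norm_pos_iff.2 (crs_ne hL hpr hjS hmS hmj.symm)
    rw [one_div]
    exact inv_le_of_inv_le₀ h2 h1
  have := chord hB ((cut L pr a δ).p (j, b)) ((cut L pr a δ).p m) (L.p j) (L.p m.1) N σ hσ hN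
    (k _ hj) (k _ hm) (hBp j hjS) n1 n2 hc hε1 hε2 hθ
  rw [hCN]
  exact this

end

end CGS_

open CGS_ in
theorem CGS_proof (hM : Stmt_MRG) : Stmt_CGS := by
  intro V _ L pr hL hpr a ha
  obtain ⟨B, hB, hBp, hBt, hBc, hBc'⟩ := bound L
  have hB0 : 0 < B := by linarith
  obtain ⟨B1, hB1⟩ : ∃ B1, B1 = B + (1 + a) * B := ⟨_, rfl⟩
  obtain ⟨CN, hCN⟩ : ∃ CN, CN = B1 ^ 2 + 1 := ⟨_, rfl⟩
  obtain ⟨W, hW⟩ : ∃ W, W = 8 * B ^ 3 * B1 + 8 * B ^ 4 * CN + 8 * B ^ 2 * (B1 + B) + 8 * B + 1 :=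
    ⟨_, rfl⟩
  obtain ⟨M0, hM0⟩ : ∃ M0, M0 = 2 * CN * B ^ 2 + (1 + a) + 2 * B ^ 2 := ⟨_, rfl⟩
  have hB10 : 0 < B1 := by
    rw [hB1]
    positivity
  have hCN0 : 0 < CN := by
    rw [hCN]
    positivity
  have hW1 : 1 ≤ W := by
    have w1 : 0 < 8 * B ^ 3 * B1 := by positivity
    have w2 : 0 < 8 * B ^ 4 * CN := by positivity
    have w3 : 0 < 8 * B ^ 2 * (B1 + B) := by positivity
    linarith
  have hW0 : 0 < W := by linarith
  have m1 : 0 < 2 * CN * B ^ 2 := by positivity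
  have m2 : 0 < 2 * B ^ 2 := by positivity
  have hM1 : 1 ≤ M0 := by linarith
  have hM00 : 0 < M0 := by linarith
  refine ⟨1 / M0, by positivity, ?_⟩
  intro ε hε hε1
  refine ⟨ε / W / (1 + a), by positivity, ?_⟩
  intro δ hδ hδ0 hOk
  have hd : δ * (1 + a) < ε / W := (lt_div_iff₀ (by positivity)).1 hδ0
  have hdε : δ * (1 + a) < ε := by
    have : ε / W ≤ ε := div_le_self hε.le hW1
    linarith
  have had : a * δ ^ 2 < 1 := by
    have e1 : δ < 1 := by
      have h1 : 0 < δ * a := mul_pos hδ ha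
      linarith [mul_add δ 1 a]
    have e2 : δ * a < 1 := by
      linarith [mul_add δ 1 a]
    calc a * δ ^ 2 = (δ * a) * δ := by ring
      _ < 1 * 1 := mul_lt_mul'' e2 e1 (by positivity) hδ.le
      _ = 1 := one_mul 1
  obtain ⟨c, ε₁', C, hc, hε₁', hC, hmain⟩ := hM V L pr hL hpr a ha δ hδ had hOk
  refine ⟨min ε₁' (min ((ε - δ * (1 + a)) * c / C) (ε / W)), ?_, ?_⟩
  · refine lt_min hε₁' (lt_min (div_pos (mul_pos (by linarith) hc) hC) (by positivity))
  intro ε' hε' hlt Co No hCond i hi hNF n hn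
  have g1 : ε' < ε₁' := lt_of_lt_of_le hlt (min_le_left _ _)
  have g2 : ε' < (ε - δ * (1 + a)) * c / C :=
    lt_of_lt_of_le hlt ((min_le_right _ _).trans (min_le_left _ _))
  have g3 : ε' < ε / W := lt_of_lt_of_le hlt ((min_le_right _ _).trans (min_le_right _ _))
  have g4 : C * ε' < (ε - δ * (1 + a)) * c := by
    rw [lt_div_iff₀ hC] at g2
    linarith
  obtain ⟨-, c2, -, c4, c5, c6, c7, c8, c9⟩ := consts ha hB hε hε1 hδ hε' hB1 hCN hW hd g3
  have hj : L.s i ∈ L.S := hL.maps i hi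
  have hprj : pr (L.s i) = i := (hpr i hi).2.2
  obtain ⟨r1, r2⟩ := hmain ε' hε' g1 Co No hCond (L.s i) hj hNF
  rw [hprj] at r1 r2
  have hT : L.turn i ≠ 0 := by
    have := turn_pr_ne hL hpr hj hNF
    rwa [hprj] at this
  have hTd : L.turn i = det3 (L.p i) (L.p (L.s i)) (L.p (L.s (L.s i))) := rfl
  have hPf : (cut L pr a δ).p (L.s i, false) = L.p (L.s i) + (δ * a) • L.p i := by
    rw [p_false L pr a δ hNF, hprj]
  have hPt : (cut L pr a δ).p (L.s i, true) = L.p (L.s i) + δ • L.p (L.s (L.s i)) :=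
    p_true L pr a δ hNF
  have hss : L.s (L.s i) ∈ L.S := hL.maps _ hj
  have hfin : ∀ N : E3, ‖N‖ ≤ CN → 3 / (4 * B) ≤ ‖N‖ →
      |(inner ℝ N (L.p (L.s i)) : ℝ)| ≤ ε' * B1 + δ * (1 + a) * CN * B →
      0 ≤ (inner ℝ N (L.p (L.s (L.s i))) : ℝ) / L.turn i →
      0 ≤ (inner ℝ N (L.p i) : ℝ) / L.turn i →
      ∃ x y : ℝ, 0 ≤ x ∧ 0 ≤ y ∧ 1 / M0 ≤ x + y ∧ x + y ≤ 1 / (1 / M0) ∧
        ‖N - (x • L.nor i + y • L.nor (L.s i))‖ ≤ ε / (1 / M0) := by
    intro N s1 s2 s3 s4 s5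
    obtain ⟨q1, q2, q3⟩ := sizes (L.p i) (L.p (L.s i)) (L.p (L.s (L.s i))) N B CN
      (ε' * B1 + δ * (1 + a) * CN * B) hB hT (hBt i hi) (hBp i hi) (hBp _ hss)
      (hBc i hi _ hj) (hBc _ hj _ hss) (hBc _ hss i hi) s1 s2 s3 c7 s4 s5
    refine ⟨_, _, s4, s5, ?_, ?_, ?_⟩
    · refine le_trans ?_ q1
      apply one_div_le_one_div_of_le (by positivity)
      linarith
    · rw [one_div_one_div]
      refine q2.trans ?_
      linarith
    · refine q3.trans ?_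
      rw [div_div_eq_mul_div, div_one]
      refine c8.trans ?_
      have : ε * 1 ≤ ε * M0 := mul_le_mul_of_nonneg_left hM1 hε.le
      linarith
  unfold chL at hn
  rw [if_neg hNF] at hn
  rcases Finset.mem_insert.1 hn with rfl | hn
  · -- the small face
    have hN : nL L pr a δ No (Sum.inl (L.s i)) = crs (L.p (L.s i)) (L.p (L.s (L.s i))) +
        a • crs (L.p i) (L.p (L.s i)) + (δ * a) • crs (L.p i) (L.p (L.s (L.s i))) := by
      change δ⁻¹ • (cut L pr a δ).nor (L.s i, false) = _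
      rw [nor_small a δ hNF, hprj]
      have e1 : δ⁻¹ * δ = 1 := inv_mul_cancel₀ hδ.ne'
      rw [smul_add, smul_add, smul_smul, smul_smul, smul_smul, e1, one_smul]
      have e2 : δ⁻¹ * (δ * a) = a := by rw [← mul_assoc, e1, one_mul]
      have e3 : δ⁻¹ * (δ ^ 2 * a) = δ * a := by
        rw [sq, mul_assoc, ← mul_assoc, e1, one_mul]
      rw [e2, e3]
      rfl
    obtain ⟨q1, q2, q3, q4⟩ := caseI (L.p i) (L.p (L.s i)) (L.p (L.s (L.s i))) _ hT hTd ha hδ hdε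
      hN (hBc i hi _ hss)
    refine ⟨q1, q2, q3, a, 1, ha.le, zero_le_one, ?_, ?_, ?_⟩
    · have : 1 / M0 ≤ 1 := (div_le_one hM00).2 hM1
      linarith
    · rw [one_div_one_div]
      linarith
    · refine q4.trans ?_
      rw [div_div_eq_mul_div, div_one]
      refine c9.trans ?_
      have : ε * 1 ≤ ε * M0 := mul_le_mul_of_nonneg_left hM1 hε.le
      linarith
  · obtain ⟨n', hn', rfl⟩ := Finset.mem_image.1 hn
    change Real.sign (L.turn i) * inner ℝ (No n') (L.p (L.s i)) < 0 ∧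
      0 < Real.sign (L.turn i) * inner ℝ (No n') (L.p (L.s i) + ε • L.p i) ∧
      0 < Real.sign (L.turn i) * inner ℝ (No n') (L.p (L.s i) + ε • L.p (L.s (L.s i))) ∧
      ∃ x y : ℝ, 0 ≤ x ∧ 0 ≤ y ∧ 1 / M0 ≤ x + y ∧ x + y ≤ 1 / (1 / M0) ∧
        ‖No n' - (x • L.nor i + y • L.nor (L.s i))‖ ≤ ε / (1 / M0)
    rcases Finset.mem_union.1 hn' with hn' | hn'
    · obtain ⟨z1, z2, z3, z4, z5, z6⟩ := r1 n' hn'
      have hq := (hCond (lab L i) (lab_mem L pr a δ hi)).2.1 n' (by rw [s_lab]; exact hn')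
      obtain ⟨m, hm, -, -, hm2, hm3, -, -, -, -, σ, hσ, hNσ⟩ := hq
      rw [s_lab] at hm2 hm3 hNσ
      rw [s_false L pr a δ hNF] at hm3
      have hmj : m.1 ≠ L.s i := by
        intro h
        obtain ⟨m1, m2⟩ := m
        simp only at h
        subst h
        cases m2
        · exact hm2 rfl
        · exact hm3 rfl
      obtain ⟨y1, y2, y3⟩ := arm_data hL hpr ha hδ hB hBp hBc' hB1 hCN c2 c4 c5 c6 (No n') σ
        (mem_cut_false L pr a δ hj) hm hmj hσ hNσ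
      obtain ⟨x1, x2, x3, x4, x5, x6⟩ := caseA (L.p i) (L.p (L.s i)) (L.p (L.s (L.s i))) _ _
        (No n') hT ha hδ hc hdε hPf hPt y1 (hBp i hi) y3 z2 z3 z4 z5 z6 g4
      exact ⟨x1, x2, x3, hfin _ y1 y2 x4 x5 x6⟩
    · obtain ⟨z1, z2, z3, z4, z5, z6⟩ := r2 n' hn'
      have hq := (hCond (L.s i, false) (mem_cut_false L pr a δ hj)).2.1 n'
        (by rw [s_false L pr a δ hNF]; exact hn')
      obtain ⟨m, hm, -, hm1, hm2, -, -, -, -, -, σ, hσ, hNσ⟩ := hq
      rw [s_false L pr a δ hNF] at hm2 hNσ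
      have hmj : m.1 ≠ L.s i := by
        intro h
        obtain ⟨m1, m2⟩ := m
        simp only at h
        subst h
        cases m2
        · exact hm1 rfl
        · exact hm2 rfl
      obtain ⟨y1, y2, y3⟩ := arm_data hL hpr ha hδ hB hBp hBc' hB1 hCN c2 c4 c5 c6 (No n') σ
        (mem_cut_true L pr a δ hj hNF) hm hmj hσ hNσ
      obtain ⟨x1, x2, x3, x4, x5, x6⟩ := caseB (L.p i) (L.p (L.s i)) (L.p (L.s (L.s i))) _ _
        (No n') hT ha hδ hc hdε hPf hPt y1 (hBp _ hss) y3 z2 z3 z4 z5 z6 g4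
      exact ⟨x1, x2, x3, hfin _ y1 y2 x4 x5 x6⟩

end Pool.Agent.TSC
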