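import Pool.Agent.TSC.Stmts

/-!
# TSC: combinatorics of the cut polygon (module COM)
-/

set_option autoImplicit false

namespace Pool.Agent.TSC

open Set Filter Topology Pool.Agent.TSM

namespace COM_

section
variable {V : Type} [DecidableEq V] {L : Pg V} {pr : V → V} {a δ : ℝ}

theorem maps (hL : L.Ok) {q : V × Bool} (hq : q ∈ (cut L pr a δ).S) :
    (cut L pr a δ).s q ∈ (cut L pr a δ).S := by
  rcases cut_cases L pr a δ hq with ⟨i, hi, rfl⟩ | ⟨i, hi, hn, rfl⟩
  · rw [s_lab]; exact mem_cut_false L pr a δ (hL.maps i hi)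
  · rw [s_false L pr a δ hn]; exact mem_cut_true L pr a δ hi hn

theorem inj (hL : L.Ok) {q r : V × Bool} (hq : q ∈ (cut L pr a δ).S)
    (hr : r ∈ (cut L pr a δ).S)
    (h : (cut L pr a δ).s q = (cut L pr a δ).s r) : q = r := by
  rcases cut_cases L pr a δ hq with ⟨i, hi, rfl⟩ | ⟨i, hi, hn, rfl⟩
  · rcases cut_cases L pr a δ hr with ⟨j, hj, rfl⟩ | ⟨j, hj, hm, rfl⟩
    · rw [s_lab, s_lab] at h
      have := hL.inj i hi j hj (congrArg Prod.fst h)
      rw [this]
    · rw [s_lab, s_false L pr a δ hm] at h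
      exact absurd (congrArg Prod.snd h) (by simp)
  · rcases cut_cases L pr a δ hr with ⟨j, hj, rfl⟩ | ⟨j, hj, hm, rfl⟩
    · rw [s_lab, s_false L pr a δ hn] at h
      exact absurd (congrArg Prod.snd h) (by simp)
    · rw [s_false L pr a δ hn, s_false L pr a δ hm] at h
      rw [show i = j from congrArg Prod.fst h]

theorem step1 (i : V) : ∃ m : ℕ, (cut L pr a δ).s^[m] (i, false) = (L.s i, false) := by
  by_cases h : L.X = some i
  · exact ⟨1, by rw [Function.iterate_one, s_flat L pr a δ h]⟩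
  · exact ⟨2, by
      rw [Function.iterate_succ_apply', Function.iterate_one, s_false L pr a δ h, s_true]⟩

theorem stepn (i : V) (n : ℕ) :
    ∃ m : ℕ, (cut L pr a δ).s^[m] (i, false) = (L.s^[n] i, false) := by
  induction n with
  | zero => exact ⟨0, rfl⟩
  | succ n ih =>
    obtain ⟨m, hm⟩ := ih
    obtain ⟨k, hk⟩ := step1 (L := L) (pr := pr) (a := a) (δ := δ) (L.s^[n] i)
    refine ⟨k + m, ?_⟩
    rw [Function.iterate_add_apply, hm, hk, Function.iterate_succ_apply']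

theorem start (hL : L.Ok) {q : V × Bool} (hq : q ∈ (cut L pr a δ).S) :
    ∃ m : ℕ, ∃ i ∈ L.S, (cut L pr a δ).s^[m] q = (i, false) := by
  rcases cut_cases L pr a δ hq with ⟨i, hi, rfl⟩ | ⟨i, hi, hn, rfl⟩
  · exact ⟨1, L.s i, hL.maps i hi, by rw [Function.iterate_one, s_lab]⟩
  · exact ⟨0, i, hi, rfl⟩

theorem fin {q : V × Bool} (hq : q ∈ (cut L pr a δ).S) :
    ∃ m : ℕ, ∃ i ∈ L.S, (cut L pr a δ).s^[m] (i, false) = q := by
  rcases cut_cases L pr a δ hq with ⟨i, hi, rfl⟩ | ⟨i, hi, hn, rfl⟩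
  · by_cases h : L.X = some i
    · exact ⟨0, i, hi, by rw [lab_flat L h]; rfl⟩
    · exact ⟨1, i, hi, by rw [lab_nf L h, Function.iterate_one, s_false L pr a δ h]⟩
  · exact ⟨0, i, hi, rfl⟩

theorem trans (hL : L.Ok) {q r : V × Bool} (hq : q ∈ (cut L pr a δ).S)
    (hr : r ∈ (cut L pr a δ).S) : ∃ m : ℕ, (cut L pr a δ).s^[m] q = r := by
  obtain ⟨m1, i, hi, h1⟩ := start hL hq
  obtain ⟨m3, j, hj, h3⟩ := fin hr
  obtain ⟨n, hn⟩ := hL.trans i hi j hj
  obtain ⟨m2, h2⟩ := stepn (L := L) (pr := pr) (a := a) (δ := δ) i n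
  refine ⟨m3 + (m2 + m1), ?_⟩
  rw [Function.iterate_add_apply, Function.iterate_add_apply, h1, h2, hn, h3]

theorem card4 (hL : L.Ok) : 4 ≤ (cut L pr a δ).S.card := by
  refine hL.card.trans (Finset.card_le_card_of_injOn (fun i => (i, false)) ?_ ?_)
  · intro i hi
    exact mem_cut_false L pr a δ hi
  · intro i _ j _ h
    exact congrArg Prod.fst h

end

end COM_

/-- combinatorics of the cut polygon -/
theorem COM_proof : Stmt_COM := by
  intro V _ L pr hL _ a δ
  exact ⟨fun q hq => COM_.maps hL hq, fun q hq r hr h => COM_.inj hL hq hr h,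
    fun q hq r hr => COM_.trans hL hq hr, COM_.card4 hL⟩

end Pool.Agent.TSC
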