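import Pool.Agent.TSC.Stmts

/-!
# TSC: assembly of the block CUT
-/

set_option autoImplicit false

namespace Pool.Agent.TSC

open Set Filter Topology Pool.Agent.TSM

theorem CUT_proof (hTR : Stmt_Trans) (hPRE : Stmt_PRE) (hAGE : Stmt_AGE) (hAOK : Stmt_AOK)
    (hFLA : Stmt_FLA) (hFLB : Stmt_FLB) (hPSI : Stmt_PSI) (hCGG : Stmt_CGG) (hRZZ : Stmt_RZZ) :
    Stmt_CUT := by
  intro hVM V _ L hL b hb
  obtain ⟨pr, hpr⟩ := hPRE V L hL
  obtain ⟨a, ha, hg⟩ := hAGE V L pr hL hpr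
  obtain ⟨β, e, ρ, hβ, hF⟩ := hFLA V L pr hL hpr b hb
  obtain ⟨μ, hμ, hG⟩ := hCGG V L pr hL hpr a ha
  obtain ⟨εT, hεT, hT⟩ := hTR V L hL β b hβ hb μ hμ
  refine ⟨μ, min εT (1 / 4), hμ, lt_min hεT (by norm_num), ?_⟩
  intro ε hε hlt
  have e1 : ε < εT := hlt.trans_le (min_le_left _ _)
  have e2 : ε < 1 / 4 := hlt.trans_le (min_le_right _ _)
  obtain ⟨d1, hd1, h1⟩ := hAOK V L pr hL hpr a ha hg
  obtain ⟨d2, hd2, h2⟩ := hFLB V L pr hL hpr a ha β e ρ hβ hF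
  obtain ⟨d3, hd3, h3⟩ := hG ε hε (by linarith)
  obtain ⟨d4, hd4, h4⟩ := hRZZ V L pr hL hpr a ha β hβ ε hε e2
  obtain ⟨d5, hd5, h5⟩ := hPSI V L pr hL hpr a ha β e ρ hF
  have hm : 0 < min d1 (min d2 (min d3 (min d4 d5))) :=
    lt_min hd1 (lt_min hd2 (lt_min hd3 (lt_min hd4 hd5)))
  obtain ⟨δ, hδ, hδm⟩ := exists_between hm
  have k1 : δ < d1 := hδm.trans_le (min_le_left _ _)
  have hδm := hδm.trans_le (min_le_right _ _)
  have k2 : δ < d2 := hδm.trans_le (min_le_left _ _)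
  have hδm := hδm.trans_le (min_le_right _ _)
  have k3 : δ < d3 := hδm.trans_le (min_le_left _ _)
  have hδm := hδm.trans_le (min_le_right _ _)
  have k4 : δ < d4 := hδm.trans_le (min_le_left _ _)
  have k5 : δ < d5 := hδm.trans_le (min_le_right _ _)
  have hok := h1 δ hδ k1
  have had := h2 δ hδ k2
  obtain ⟨Ψ, hΨ⟩ := h5 δ hδ k5 hok
  obtain ⟨ε0, hε0, h6⟩ := hVM (V × Bool) (cut L pr a δ) hok β had
  obtain ⟨ε1, hε1, h7⟩ := h3 δ hδ k3 hok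
  obtain ⟨ε2, hε2, h8⟩ := h4 δ hδ k4 hok had Ψ hΨ
  obtain ⟨ε', hε', hεm⟩ := exists_between (lt_min hε0 (lt_min hε1 hε2))
  have m1 : ε' < ε0 := hεm.trans_le (min_le_left _ _)
  have m2 : ε' < ε1 := hεm.trans_le ((min_le_right _ _).trans (min_le_left _ _))
  have m3 : ε' < ε2 := hεm.trans_le ((min_le_right _ _).trans (min_le_right _ _))
  obtain ⟨Co, No, hC, hR⟩ := h6 ε' hε' m1
  have hCG := h7 ε' hε' m2 Co No hC
  refine ⟨Kap V, chL L Co, nL L pr a δ No, hCG, ?_, ?_⟩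
  · intro i hi ht
    have hx : ¬ L.X = some (L.s i) := fun h => ht ((turn_eq_zero_iff hL hpr hi).2 h)
    unfold chL
    rw [if_neg hx]
    exact ⟨Sum.inl (L.s i), Finset.mem_insert_self _ _⟩
  · exact hT ε hε e1 (Kap V) (chL L Co) (nL L pr a δ No) hCG
      (h8 ε' hε' m3 Co No hC hR)

end Pool.Agent.TSC
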