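import Pool.Agent.TSM.VStmts

/-!
# TSC: the cut polygon (block CUT of Part VM, MP_89ee87_gt)

Every non-flat arm `i` of the polygon `L` is cut off: it is replaced by the two arms
`(i, false)` (direction `p i + δ a p (pr i)`) and `(i, true)` (direction `p i + δ p (s i)`).
-/

set_option autoImplicit false

namespace Pool.Agent.TSC

open Set Filter Topology Pool.Agent.TSM

variable {V : Type} [DecidableEq V]

/-- `pr` is the predecessor function of the polygon. -/
def IsPr (L : Pg V) (pr : V → V) : Prop :=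
  ∀ i ∈ L.S, pr i ∈ L.S ∧ L.s (pr i) = i ∧ pr (L.s i) = i

/-- the label `i` is not the flat vertex -/
def NF (L : Pg V) (i : V) : Prop := L.X ≠ some i

/-- the cut polygon -/
noncomputable def cut (L : Pg V) (pr : V → V) (a δ : ℝ) : Pg (V × Bool) where
  S := (L.S ×ˢ ({false, true} : Finset Bool)).filter fun q => L.X = some q.1 → q.2 = false
  s := fun q => if q.2 = true ∨ L.X = some q.1 then (L.s q.1, false) else (q.1, true)
  p := fun q => if L.X = some q.1 then L.p q.1 else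
    if q.2 = true then L.p q.1 + δ • L.p (L.s q.1) else L.p q.1 + (δ * a) • L.p (pr q.1)
  X := L.X.map fun m => (m, false)

/-- genericity of the constant `a` -/
def GenA (L : Pg V) (pr : V → V) (a : ℝ) : Prop :=
  ∀ i ∈ L.S, NF L i → ∀ x ∈ L.S, x ≠ i →
    det3 (L.p i) (L.p (L.s i)) (L.p x) + a * det3 (L.p (pr i)) (L.p i) (L.p x) ≠ 0

/-- the label of the big face over the face `i` of `L` -/
def lab (L : Pg V) (i : V) : V × Bool := (i, !decide (L.X = some i))

/-- `nor` of the big face over `i` is `lam i • nor i` -/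
noncomputable def lam (L : Pg V) (a δ : ℝ) (i : V) : ℝ :=
  if L.X = some i ∨ L.X = some (L.s i) then 1 else 1 - a * δ ^ 2

/-- labels of the chamfers of `L` -/
abbrev Kap (V : Type) := V ⊕ Sym2 (V × Bool)

/-- the chamfers of `L` at the arm `j` -/
def chL (L : Pg V) (Co : V × Bool → Finset (Sym2 (V × Bool))) (j : V) : Finset (Kap V) :=
  if L.X = some j then ∅ else
    insert (Sum.inl j) ((Co (j, false) ∪ Co (j, true)).image Sum.inr)

/-- the chamfer normals of `L` -/
noncomputable def nL (L : Pg V) (pr : V → V) (a δ : ℝ) (No : Sym2 (V × Bool) → E3) :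
    Kap V → E3 := Sum.elim (fun j => δ⁻¹ • (cut L pr a δ).nor (j, false)) No

/-- the face planes of the cut polygon -/
noncomputable def aoL (L : Pg V) (a δ : ℝ) (A : V → Aff) (B : Kap V → Aff) : V × Bool → Aff :=
  fun q => if q.2 = true ∨ L.X = some q.1 then lam L a δ q.1 • A q.1 else δ • B (Sum.inl q.1)

/-- the equations of the far surface together with the extra conclusions of `FarOK` -/
def FullEq {W κ : Type} [DecidableEq W] (L : Pg W) (Ch : W → Finset κ) (A : W → Aff)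
    (B : κ → Aff) (ε : ℝ) (x y : E3) : Prop :=
  L.ZoneEq Ch A B ε x y ∧
    (∀ i ∈ L.S, x ∈ L.faceZone ε i → L.turn i ≠ 0 → L.ArmEq Ch A B i y) ∧
    (∀ i ∈ L.S, x ∈ L.faceZone ε (L.s i) → L.turn i ≠ 0 → L.ArmEq Ch A B i y)

/-- the direction field `β` is constant `= e i` in a conical neighbourhood of every non-flat
arm -/
structure Fld (L : Pg V) (pr : V → V) (β : E3 → E3) (e : V → E3) (ρ : ℝ) : Prop where
  pos : 0 < ρ
  e1 : ∀ i ∈ L.S, NF L i → 0 < (inner ℝ (L.nor i) (e i) : ℝ)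
  e2 : ∀ i ∈ L.S, NF L i → 0 < (inner ℝ (L.nor (pr i)) (e i) : ℝ)
  eq : ∀ i ∈ L.S, NF L i → ∀ x : E3, x ≠ 0 → (∃ t : ℝ, 0 ≤ t ∧ ‖x - t • L.p i‖ ≤ ρ * ‖x‖) →
    β x = e i

/-- the projection of the cone over `L` to the cone over the cut polygon -/
structure Proj (L : Pg V) (pr : V → V) (a δ : ℝ) (β : E3 → E3) (Ψ : E3 → E3) : Prop where
  cont : ContinuousOn Ψ L.cone
  inj : InjOn Ψ L.cone
  maps : ∀ x ∈ L.cone, Ψ x ∈ (cut L pr a δ).cone
  dir : ∀ x ∈ L.cone, ∃ t : ℝ, Ψ x = x - t • β x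
  beta : ∀ x ∈ L.cone, β (Ψ x) = β x
  bd : ∀ x ∈ L.cone, ‖Ψ x - x‖ ≤ ‖x‖ / 2
  /-- the middle part of the face `i` is not moved -/
  mid : ∀ i ∈ L.S, ∀ c d : ℝ, 0 ≤ c → 0 ≤ d → (NF L i → δ * c ≤ d) →
    (NF L (L.s i) → δ * a * d ≤ c) →
    Ψ (c • L.p i + d • L.p (L.s i)) = c • L.p i + d • L.p (L.s i)
  /-- the part near the arm `j` on the face `pr j` goes to the small face -/
  left : ∀ j ∈ L.S, NF L j → ∀ c d : ℝ, 0 ≤ c → 0 ≤ d → c ≤ δ * a * d →
    Ψ (c • L.p (pr j) + d • L.p j) ∈ (cut L pr a δ).face (j, false)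
  /-- the part near the arm `j` on the face `j` goes to the small face -/
  right : ∀ j ∈ L.S, NF L j → ∀ c d : ℝ, 0 ≤ c → 0 ≤ d → c ≤ δ * d →
    Ψ (c • L.p (L.s j) + d • L.p j) ∈ (cut L pr a δ).face (j, false)

end Pool.Agent.TSC
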