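import Pool.Agent.TSC.Stmts

/-!
# TSC, module FLA: the modified field on the polygon
-/

set_option autoImplicit false

namespace Pool.Agent.TSC

open Set Filter Topology Pool.Agent.TSM

namespace FLA_

/-- direction -/
noncomputable def u (x : E3) : E3 := ‖x‖⁻¹ • x

theorem u_smul {t : ℝ} (ht : 0 < t) (x : E3) : u (t • x) = u x := by
  unfold u
  rw [norm_smul, Real.norm_of_nonneg ht.le, smul_smul, mul_inv]
  congr 1
  field_simp

theorem norm_u_le (x : E3) : ‖u x‖ ≤ 1 := by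
  unfold u
  rw [norm_smul, norm_inv, norm_norm]
  by_cases h : ‖x‖ = 0
  · rw [h]; simp
  · rw [inv_mul_cancel₀ h]

theorem u_lip {x y : E3} (hx : x ≠ 0) (hy : y ≠ 0) : ‖x‖ * ‖u x - u y‖ ≤ 2 * ‖x - y‖ := by
  have hx' : ‖x‖ ≠ 0 := norm_ne_zero_iff.2 hx
  have hy' : ‖y‖ ≠ 0 := norm_ne_zero_iff.2 hy
  have h : ‖x‖ • (u x - u y) = (x - y) + (‖y‖ - ‖x‖) • u y := by
    have e1 : ‖x‖ • u x = x := by
      unfold u; rw [smul_smul, mul_inv_cancel₀ hx', one_smul]
    have e2 : ‖y‖ • u y = y := by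
      unfold u; rw [smul_smul, mul_inv_cancel₀ hy', one_smul]
    rw [smul_sub, e1, sub_smul, e2]
    abel
  have h1 : ‖x‖ * ‖u x - u y‖ = ‖‖x‖ • (u x - u y)‖ := by
    rw [norm_smul, norm_norm]
  rw [h1, h]
  calc ‖(x - y) + (‖y‖ - ‖x‖) • u y‖ ≤ ‖x - y‖ + ‖(‖y‖ - ‖x‖) • u y‖ := norm_add_le _ _
    _ ≤ ‖x - y‖ + ‖x - y‖ := by
        gcongr
        rw [norm_smul, Real.norm_eq_abs]
        calc |‖y‖ - ‖x‖| * ‖u y‖ ≤ |‖y‖ - ‖x‖| * 1 := by
              gcongr; exact norm_u_le y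
          _ = |‖y‖ - ‖x‖| := mul_one _
          _ ≤ ‖y - x‖ := abs_norm_sub_norm_le y x
          _ = ‖x - y‖ := norm_sub_rev _ _
    _ = 2 * ‖x - y‖ := by ring

/-- cutoff function -/
noncomputable def chi (r : ℝ) (v x : E3) : ℝ := max 0 (min 1 (2 - ‖u x - v‖ / r))

theorem chi_nonneg (r : ℝ) (v x : E3) : 0 ≤ chi r v x := le_max_left _ _

theorem chi_le_one (r : ℝ) (v x : E3) : chi r v x ≤ 1 :=
  max_le zero_le_one (min_le_left _ _)

theorem chi_lip {r : ℝ} (hr : 0 < r) (v x y : E3) :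
    |chi r v x - chi r v y| ≤ ‖u x - u y‖ / r := by
  unfold chi
  rw [max_comm, max_comm 0]
  refine (abs_max_sub_max_le_abs _ _ _).trans ?_
  rw [min_comm, min_comm 1]
  refine (abs_min_sub_min_le_max _ _ _ _).trans ?_
  rw [sub_self, abs_zero]
  have e : (2 - ‖u x - v‖ / r) - (2 - ‖u y - v‖ / r) = (‖u y - v‖ - ‖u x - v‖) / r := by ring
  rw [e, abs_div, abs_of_pos hr]
  have h1 : |‖u y - v‖ - ‖u x - v‖| ≤ ‖u x - u y‖ := by
    refine (abs_norm_sub_norm_le _ _).trans ?_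
    rw [norm_sub_rev]
    apply le_of_eq
    congr 1
    abel
  apply max_le
  · gcongr
  · positivity

theorem chi_eq_one {r : ℝ} (hr : 0 < r) {v x : E3} (h : ‖u x - v‖ ≤ r) : chi r v x = 1 := by
  unfold chi
  have h1 : ‖u x - v‖ / r ≤ 1 := by rw [div_le_one hr]; exact h
  rw [min_eq_left (by linarith), max_eq_right zero_le_one]

theorem chi_pos {r : ℝ} (hr : 0 < r) {v x : E3} (h : chi r v x ≠ 0) : ‖u x - v‖ < 2 * r := by
  by_contra hn
  push Not at hn
  apply h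
  unfold chi
  have h1 : 2 ≤ ‖u x - v‖ / r := by rw [le_div_iff₀ hr]; exact hn
  apply max_eq_left
  refine (min_le_right _ _).trans ?_
  linarith

variable {V : Type} [DecidableEq V] {L : Pg V} {pr : V → V}

theorem indep_of_det {a b c : E3} (h : det3 a b c ≠ 0) {x y : ℝ} (he : x • b + y • c = 0) :
    x = 0 ∧ y = 0 := by
  have h1 : det3 a (x • b + y • c) c = x * det3 a b c := by
    rw [det3_add2, det3_smul2, det3_smul2, det3_self23]; ring
  have h2 : det3 a b (x • b + y • c) = y * det3 a b c := by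
    rw [det3_add3, det3_smul3, det3_smul3, det3_self23]; ring
  have h3 : det3 a (0 : E3) c = 0 := by
    rw [← zero_smul ℝ (0 : E3), det3_smul2, zero_mul]
  have h4 : det3 a b (0 : E3) = 0 := by
    rw [← zero_smul ℝ (0 : E3), det3_smul3, zero_mul]
  rw [he, h3] at h1
  rw [he, h4] at h2
  constructor
  · rcases mul_eq_zero.1 h1.symm with h | h'
    · exact h
    · exact absurd h' h
  · rcases mul_eq_zero.1 h2.symm with h | h'
    · exact h
    · exact absurd h' h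

theorem indep (hL : L.Ok) (hpr : IsPr L pr) {k : V} (hk : k ∈ L.S) {x y : ℝ}
    (he : x • L.p k + y • L.p (L.s k) = 0) : x = 0 ∧ y = 0 := by
  by_cases h : NF L k
  · have h1 := turn_pr_ne hL hpr hk h
    unfold Pg.turn at h1
    rw [(hpr k hk).2.1] at h1
    exact indep_of_det h1 he
  · have h' : L.X = some k := by
      by_contra hn; exact h hn
    have h2 : NF L (L.s k) := by
      intro h3
      rw [h'] at h3
      exact s_ne hL hpr hk (Option.some.inj h3).symm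
    have h1 := turn_pr_ne hL hpr (hL.maps k hk) h2
    rw [(hpr k hk).2.2] at h1
    unfold Pg.turn at h1
    rw [det3_rot, det3_rot] at h1
    exact indep_of_det h1 he

theorem p_ne (hL : L.Ok) (hpr : IsPr L pr) {k : V} (hk : k ∈ L.S) : L.p k ≠ 0 := by
  intro h
  have := (indep hL hpr hk (x := 1) (y := 0) (by rw [h]; simp)).1
  exact one_ne_zero this

/-- the direction `p i` is not on the face `k` -/
theorem notin (hL : L.Ok) (hpr : IsPr L pr) {i k : V} (hi : i ∈ L.S) (hk : k ∈ L.S)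
    (h1 : k ≠ i) (h2 : k ≠ pr i) {c : ℝ} (hc : 0 < c) : c • L.p i ∉ L.face k := by
  intro h
  have hi' : c • L.p i ∈ L.face i := ⟨c, 0, hc.le, le_rfl, by simp⟩
  rcases hL.simple i hi k hk (Ne.symm h1) _ hi' h with ⟨h3, a, -, h4⟩ | ⟨h3, -⟩ | h3
  · have h5 : c • L.p i + (-a) • L.p (L.s i) = 0 := by
      rw [h4, h3]; module
    exact hc.ne' (indep hL hpr hi h5).1
  · apply h2
    rw [h3, (hpr k hk).2.2]
  · rcases smul_eq_zero.1 h3 with h4 | h4
    · exact hc.ne' h4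
    · exact p_ne hL hpr hi h4

/-- quantitative form -/
theorem gap (hL : L.Ok) (hpr : IsPr L pr) {i k : V} (hi : i ∈ L.S) (hk : k ∈ L.S)
    (h1 : k ≠ i) (h2 : k ≠ pr i) :
    ∃ r : ℝ, 0 < r ∧ ∀ x ∈ L.face k, x ≠ 0 → r ≤ ‖u x - u (L.p i)‖ := by
  have hne : ∀ a ∈ Icc (0 : ℝ) 1, a • L.p k + (1 - a) • L.p (L.s k) ≠ 0 := by
    intro a _ h
    obtain ⟨h3, h4⟩ := indep hL hpr hk h
    linarith
  have hcont : ContinuousOn (fun a : ℝ => ‖u (a • L.p k + (1 - a) • L.p (L.s k)) - u (L.p i)‖)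
      (Icc 0 1) := by
    unfold u
    apply ContinuousOn.norm
    apply ContinuousOn.sub _ continuousOn_const
    have hc1 : ContinuousOn (fun a : ℝ => a • L.p k + (1 - a) • L.p (L.s k)) (Icc 0 1) := by
      fun_prop
    have hc2 : ContinuousOn (fun a : ℝ => ‖a • L.p k + (1 - a) • L.p (L.s k)‖⁻¹) (Icc 0 1) :=
      hc1.norm.inv₀ fun a ha => norm_ne_zero_iff.2 (hne a ha)
    exact hc2.smul hc1
  obtain ⟨a0, ha0, hmin⟩ := isCompact_Icc.exists_isMinOn (nonempty_Icc.2 zero_le_one) hcont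
  refine ⟨‖u (a0 • L.p k + (1 - a0) • L.p (L.s k)) - u (L.p i)‖, ?_, ?_⟩
  · rw [norm_pos_iff, sub_ne_zero]
    intro h
    set w := a0 • L.p k + (1 - a0) • L.p (L.s k) with hw
    have hw0 : w ≠ 0 := hne a0 ha0
    have hwf : w ∈ L.face k := ⟨a0, 1 - a0, ha0.1, by linarith [ha0.2], rfl⟩
    have h3 : w = (‖w‖ * ‖L.p i‖⁻¹) • L.p i := by
      have h4 : ‖w‖ • u w = w := by
        unfold u; rw [smul_smul, mul_inv_cancel₀ (norm_ne_zero_iff.2 hw0), one_smul]
      rw [mul_smul]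
      change w = ‖w‖ • u (L.p i)
      rw [← h, h4]
    have h5 : 0 < ‖w‖ * ‖L.p i‖⁻¹ := by
      have := norm_pos_iff.2 hw0
      have := norm_pos_iff.2 (p_ne hL hpr hi)
      positivity
    rw [h3] at hwf
    exact notin hL hpr hi hk h1 h2 h5 hwf
  · rintro x ⟨a, b, ha, hb, rfl⟩ hx
    have hab : 0 < a + b := by
      rcases ha.eq_or_lt with h | h
      · rcases hb.eq_or_lt with h' | h'
        · exfalso; apply hx; rw [← h, ← h']; simp
        · linarith
      · linarith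
    have hmem : a / (a + b) ∈ Icc (0 : ℝ) 1 :=
      ⟨by positivity, by rw [div_le_one hab]; linarith⟩
    have h3 := hmin hmem
    have h4 : a • L.p k + b • L.p (L.s k) =
        (a + b) • ((a / (a + b)) • L.p k + (1 - a / (a + b)) • L.p (L.s k)) := by
      have e1 : (a + b) * (a / (a + b)) = a := by field_simp
      have e2 : (a + b) * (1 - a / (a + b)) = b := by field_simp; ring
      rw [smul_add, smul_smul, smul_smul, e1, e2]
    rw [h4, u_smul hab]
    exact h3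

theorem gap_all (hL : L.Ok) (hpr : IsPr L pr) :
    ∃ r : ℝ, 0 < r ∧ ∀ i ∈ L.S, ∀ k ∈ L.S, k ≠ i → k ≠ pr i → ∀ x ∈ L.face k, x ≠ 0 →
      r ≤ ‖u x - u (L.p i)‖ := by
  have h : ∀ᶠ r : ℝ in 𝓝[>] 0, ∀ i ∈ L.S, ∀ k ∈ L.S, k ≠ i → k ≠ pr i → ∀ x ∈ L.face k, x ≠ 0 →
      r ≤ ‖u x - u (L.p i)‖ := by
    rw [eventually_all_finset]
    intro i hi
    rw [eventually_all_finset]
    intro k hk
    by_cases h1 : k ≠ i
    · by_cases h2 : k ≠ pr i
      · obtain ⟨r, hr, hgap⟩ := gap hL hpr hi hk h1 h2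
        have : ∀ᶠ r' : ℝ in 𝓝[>] 0, r' < r :=
          eventually_nhdsWithin_of_eventually_nhds (eventually_lt_nhds hr)
        filter_upwards [this] with r' hr' _ _ x hx hx0
        exact hr'.le.trans (hgap x hx hx0)
      · exact Eventually.of_forall fun r _ h2' => absurd h2' h2
    · exact Eventually.of_forall fun r h1' => absurd h1' h1
  obtain ⟨r, hr1, hr2⟩ := (h.and self_mem_nhdsWithin).exists
  exact ⟨r, hr2, hr1⟩

theorem face_mem (k : V) : L.p k ∈ L.face k :=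
  ⟨1, 0, zero_le_one, le_rfl, by simp⟩

theorem face_mem' (hpr : IsPr L pr) {k : V} (hk : k ∈ L.S) :
    L.p k ∈ L.face (pr k) :=
  ⟨0, 1, le_rfl, zero_le_one, by rw [(hpr k hk).2.1]; simp⟩

/-- different arms have different directions -/
theorem gap_arms (hL : L.Ok) (hpr : IsPr L pr) {r : ℝ}
    (hgap : ∀ i ∈ L.S, ∀ k ∈ L.S, k ≠ i → k ≠ pr i → ∀ x ∈ L.face k, x ≠ 0 →
      r ≤ ‖u x - u (L.p i)‖) {i j : V} (hi : i ∈ L.S) (hj : j ∈ L.S) (hij : j ≠ i) :
    r ≤ ‖u (L.p j) - u (L.p i)‖ := by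
  by_cases h : j = pr i
  · have h1 : pr j ≠ i := by
      intro h1
      have h2 := (hpr j hj).2.1
      rw [h1] at h2
      have h3 := (hpr i hi).2.1
      rw [← h, ← h2] at h3
      exact ss_ne hL hi h3
    have h2 : pr j ≠ pr i := by
      rw [← h]; exact pr_ne hL hpr hj
    exact hgap i hi (pr j) (hpr j hj).1 h1 h2 _ (face_mem' hpr hj) (p_ne hL hpr hj)
  · exact hgap i hi j hj hij h _ (face_mem j) (p_ne hL hpr hj)

end FLA_

open FLA_ in
theorem FLA_proof : Stmt_FLA := by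
  classical
  intro V _ L pr hL hpr b hb
  obtain ⟨Λ, c, hc, hbd, hlip, hpos⟩ := hb
  obtain ⟨R0, hR0, hgap⟩ := gap_all hL hpr
  set r : ℝ := R0 / 8 with hr
  have hr0 : 0 < r := by positivity
  let e : V → E3 := fun i => (L.turn (pr i))⁻¹ • (L.p (pr i) + L.p (L.s i))
  let T : Finset V := L.S.filter fun i => NF L i
  let χ : V → E3 → ℝ := fun i x => chi r (u (L.p i)) x
  let β : E3 → E3 := fun x => (1 - ∑ i ∈ T, χ i x) • b x + ∑ i ∈ T, χ i x • e i
  have he1 : ∀ i ∈ L.S, NF L i → (inner ℝ (L.nor i) (e i) : ℝ) = 1 := by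
    intro i hi hnf
    have ht := turn_pr_ne hL hpr hi hnf
    have h1 : (inner ℝ (L.nor i) (L.p (pr i) + L.p (L.s i)) : ℝ) = L.turn (pr i) := by
      unfold Pg.nor Pg.turn
      rw [inner_add_right, inner_crs, inner_crs, det3_self23, (hpr i hi).2.1,
        det3_rot (L.p (pr i)), add_zero]
    change (inner ℝ (L.nor i) ((L.turn (pr i))⁻¹ • (L.p (pr i) + L.p (L.s i))) : ℝ) = 1
    rw [inner_smul_right, h1]
    exact inv_mul_cancel₀ ht
  have he2 : ∀ i ∈ L.S, NF L i → (inner ℝ (L.nor (pr i)) (e i) : ℝ) = 1 := by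
    intro i hi hnf
    have ht := turn_pr_ne hL hpr hi hnf
    have h1 : (inner ℝ (L.nor (pr i)) (L.p (pr i) + L.p (L.s i)) : ℝ) = L.turn (pr i) := by
      unfold Pg.nor Pg.turn
      rw [inner_add_right, inner_crs, inner_crs, det3_self13, (hpr i hi).2.1, zero_add]
    change (inner ℝ (L.nor (pr i)) ((L.turn (pr i))⁻¹ • (L.p (pr i) + L.p (L.s i))) : ℝ) = 1
    rw [inner_smul_right, h1]
    exact inv_mul_cancel₀ ht
  have hone : ∀ x : E3, ∀ i ∈ T, ∀ j ∈ T, χ i x ≠ 0 → j ≠ i → χ j x = 0 := by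
    intro x i hi j hj hχ hij
    by_contra hχj
    have h1 := chi_pos hr0 hχ
    have h2 := chi_pos hr0 hχj
    have h3 := gap_arms hL hpr hgap (Finset.mem_filter.1 hi).1 (Finset.mem_filter.1 hj).1 hij
    have h4 : ‖u (L.p j) - u (L.p i)‖ ≤ ‖u x - u (L.p j)‖ + ‖u x - u (L.p i)‖ := by
      have : u (L.p j) - u (L.p i) = (u x - u (L.p i)) - (u x - u (L.p j)) := by abel
      rw [this, add_comm]
      exact norm_sub_le _ _
    linarith
  have hβ0 : ∀ x : E3, (∀ i ∈ T, χ i x = 0) → β x = b x := by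
    intro x h
    change (1 - ∑ i ∈ T, χ i x) • b x + ∑ i ∈ T, χ i x • e i = b x
    rw [Finset.sum_eq_zero h, Finset.sum_eq_zero (fun i hi => by rw [h i hi, zero_smul])]
    simp
  have hβ1 : ∀ x : E3, ∀ i ∈ T, χ i x ≠ 0 → β x = (1 - χ i x) • b x + χ i x • e i := by
    intro x i hi h
    change (1 - ∑ i ∈ T, χ i x) • b x + ∑ i ∈ T, χ i x • e i = _
    rw [Finset.sum_eq_single i (fun j hj hji => hone x i hi j hj h hji)
        (fun h' => absurd hi h'),
      Finset.sum_eq_single (s := T) (f := fun j => χ j x • e j) i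
        (fun j hj hji => by rw [hone x i hi j hj h hji, zero_smul]) (fun h' => absurd hi h')]
  have hsum1 : ∀ x : E3, ∑ i ∈ T, χ i x ≤ 1 := by
    intro x
    by_cases h : ∀ i ∈ T, χ i x = 0
    · rw [Finset.sum_eq_zero h]; exact zero_le_one
    · push Not at h
      obtain ⟨i, hi, hne⟩ := h
      rw [Finset.sum_eq_single i (fun j hj hji => hone x i hi j hj hne hji)
        (fun h' => absurd hi h')]
      exact chi_le_one _ _ _
  have hsum0 : ∀ x : E3, 0 ≤ ∑ i ∈ T, χ i x := fun x =>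
    Finset.sum_nonneg fun i _ => chi_nonneg _ _ _
  have hΛ : 0 ≤ Λ := by
    have hne : L.S.Nonempty := by
      rw [← Finset.card_pos]; have := hL.card; omega
    obtain ⟨k, hk⟩ := hne
    exact (norm_nonneg _).trans (hbd (L.p k) ⟨k, hk, face_mem k⟩ (p_ne hL hpr hk))
  refine ⟨β, e, min (r / 2) (1 / 2), ⟨Λ + ∑ i ∈ T, (1 + 2 / r) * (Λ + ‖e i‖), min c 1, ?_, ?_,
    ?_, ?_⟩, ⟨by positivity, ?_, ?_, ?_⟩⟩
  · exact lt_min hc one_pos
  · intro x hx hx0
    have h1 := hbd x hx hx0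
    have h2 : ‖β x‖ ≤ Λ + ∑ i ∈ T, ‖e i‖ := by
      change ‖(1 - ∑ i ∈ T, χ i x) • b x + ∑ i ∈ T, χ i x • e i‖ ≤ _
      refine (norm_add_le _ _).trans (add_le_add ?_ ?_)
      · rw [norm_smul, Real.norm_of_nonneg (by linarith [hsum1 x])]
        calc (1 - ∑ i ∈ T, χ i x) * ‖b x‖ ≤ 1 * ‖b x‖ := by
              gcongr; linarith [hsum0 x]
          _ ≤ Λ := by rw [one_mul]; exact h1
      · refine (norm_sum_le _ _).trans (Finset.sum_le_sum fun i _ => ?_)
        rw [norm_smul, Real.norm_of_nonneg (chi_nonneg _ _ _)]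
        calc χ i x * ‖e i‖ ≤ 1 * ‖e i‖ := by gcongr; exact chi_le_one _ _ _
          _ = ‖e i‖ := one_mul _
    refine h2.trans ?_
    gcongr with i hi
    have h3 : 0 ≤ 2 / r := by positivity
    have h4 := norm_nonneg (e i)
    nlinarith [mul_nonneg h3 hΛ, mul_nonneg h3 h4]
  · intro x hx y hy hx0 hy0
    have e0 : β x - β y = (1 - ∑ i ∈ T, χ i x) • (b x - b y) +
        ∑ i ∈ T, (χ i x - χ i y) • (e i - b y) := by
      have e1 : ∑ i ∈ T, (χ i x - χ i y) • (e i - b y) =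
          (∑ i ∈ T, χ i x • e i - ∑ i ∈ T, χ i y • e i) -
            ((∑ i ∈ T, χ i x) - ∑ i ∈ T, χ i y) • b y := by
        rw [← Finset.sum_sub_distrib, ← Finset.sum_sub_distrib, Finset.sum_smul,
          ← Finset.sum_sub_distrib]
        apply Finset.sum_congr rfl
        intro i _
        module
      rw [e1]
      change ((1 - ∑ i ∈ T, χ i x) • b x + ∑ i ∈ T, χ i x • e i) -
        ((1 - ∑ i ∈ T, χ i y) • b y + ∑ i ∈ T, χ i y • e i) = _
      module
    rw [e0]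
    have hxn : 0 ≤ ‖x‖ := norm_nonneg x
    have h1 : ‖x‖ * ‖(1 - ∑ i ∈ T, χ i x) • (b x - b y)‖ ≤ Λ * ‖x - y‖ := by
      rw [norm_smul, Real.norm_of_nonneg (by linarith [hsum1 x])]
      calc ‖x‖ * ((1 - ∑ i ∈ T, χ i x) * ‖b x - b y‖) ≤ ‖x‖ * (1 * ‖b x - b y‖) := by
            gcongr; linarith [hsum0 x]
        _ = ‖x‖ * ‖b x - b y‖ := by rw [one_mul]
        _ ≤ _ := hlip x hx y hy hx0 hy0
    have h2 : ‖x‖ * ‖∑ i ∈ T, (χ i x - χ i y) • (e i - b y)‖ ≤
        ∑ i ∈ T, (1 + 2 / r) * (Λ + ‖e i‖) * ‖x - y‖ := by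
      calc ‖x‖ * ‖∑ i ∈ T, (χ i x - χ i y) • (e i - b y)‖
          ≤ ‖x‖ * ∑ i ∈ T, ‖(χ i x - χ i y) • (e i - b y)‖ := by
            gcongr; exact norm_sum_le _ _
        _ = ∑ i ∈ T, ‖x‖ * ‖(χ i x - χ i y) • (e i - b y)‖ := Finset.mul_sum _ _ _
        _ ≤ _ := by
          apply Finset.sum_le_sum
          intro i _
          rw [norm_smul, Real.norm_eq_abs]
          have h3 : ‖x‖ * |χ i x - χ i y| ≤ 2 / r * ‖x - y‖ := by
            calc ‖x‖ * |χ i x - χ i y| ≤ ‖x‖ * (‖u x - u y‖ / r) := by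
                  gcongr; exact chi_lip hr0 _ _ _
              _ = (‖x‖ * ‖u x - u y‖) / r := by ring
              _ ≤ (2 * ‖x - y‖) / r := div_le_div_of_nonneg_right (u_lip hx0 hy0) hr0.le
              _ = _ := by ring
          have h4 : ‖e i - b y‖ ≤ Λ + ‖e i‖ := by
            refine (norm_sub_le _ _).trans ?_
            linarith [hbd y hy hy0]
          calc ‖x‖ * (|χ i x - χ i y| * ‖e i - b y‖)
              = (‖x‖ * |χ i x - χ i y|) * ‖e i - b y‖ := by ring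
            _ ≤ (2 / r * ‖x - y‖) * (Λ + ‖e i‖) := by gcongr
            _ ≤ (1 + 2 / r) * (Λ + ‖e i‖) * ‖x - y‖ := by
              have h5 : 0 ≤ (Λ + ‖e i‖) * ‖x - y‖ := by positivity
              nlinarith
    calc ‖x‖ * ‖(1 - ∑ i ∈ T, χ i x) • (b x - b y) + ∑ i ∈ T, (χ i x - χ i y) • (e i - b y)‖
        ≤ ‖x‖ * (‖(1 - ∑ i ∈ T, χ i x) • (b x - b y)‖ +
          ‖∑ i ∈ T, (χ i x - χ i y) • (e i - b y)‖) := by gcongr; exact norm_add_le _ _
      _ = ‖x‖ * ‖(1 - ∑ i ∈ T, χ i x) • (b x - b y)‖ +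
          ‖x‖ * ‖∑ i ∈ T, (χ i x - χ i y) • (e i - b y)‖ := by ring
      _ ≤ Λ * ‖x - y‖ + ∑ i ∈ T, (1 + 2 / r) * (Λ + ‖e i‖) * ‖x - y‖ := add_le_add h1 h2
      _ = _ := by rw [add_mul, Finset.sum_mul]
  · intro k hk x hx hx0
    have h1 := hpos k hk x hx hx0
    by_cases h : ∀ i ∈ T, χ i x = 0
    · rw [hβ0 x h]
      exact (min_le_left _ _).trans h1
    · push Not at h
      obtain ⟨i, hi, hne⟩ := h
      obtain ⟨hiS, hnf⟩ := Finset.mem_filter.1 hi
      rw [hβ1 x i hi hne, inner_add_right, inner_smul_right, inner_smul_right]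
      have h2 := chi_pos hr0 hne
      have h3 : (inner ℝ (L.nor k) (e i) : ℝ) = 1 := by
        by_cases hki : k = i
        · rw [hki]; exact he1 i hiS hnf
        · by_cases hkp : k = pr i
          · rw [hkp]; exact he2 i hiS hnf
          · exfalso
            have := hgap i hiS k hk hki hkp x hx hx0
            linarith
      rw [h3]
      have h4 := chi_nonneg r (u (L.p i)) x
      have h5 := chi_le_one r (u (L.p i)) x
      have h6 : min c 1 ≤ inner ℝ (L.nor k) (b x) := (min_le_left _ _).trans h1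
      have h7 : min c 1 ≤ 1 := min_le_right _ _
      change min c 1 ≤ (1 - chi r (u (L.p i)) x) * inner ℝ (L.nor k) (b x) +
        chi r (u (L.p i)) x * 1
      nlinarith [mul_le_mul_of_nonneg_left h6 (sub_nonneg.2 h5), mul_le_mul_of_nonneg_left h7 h4]
  · intro i hi hnf
    rw [he1 i hi hnf]; exact one_pos
  · intro i hi hnf
    rw [he2 i hi hnf]; exact one_pos
  · rintro i hi hnf x hx0 ⟨t, ht, hxt⟩
    have hxn : 0 < ‖x‖ := norm_pos_iff.2 hx0
    have ht0 : 0 < t := by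
      rcases ht.eq_or_lt with h | h
      · exfalso
        rw [← h, zero_smul, sub_zero] at hxt
        have : min (r / 2) (1 / 2) ≤ 1 / 2 := min_le_right _ _
        nlinarith
      · exact h
    have hp := p_ne hL hpr hi
    have hty : t • L.p i ≠ 0 := smul_ne_zero ht0.ne' hp
    have h1 : ‖x‖ * ‖u x - u (L.p i)‖ ≤ ‖x‖ * r := by
      have h2 := u_lip hx0 hty
      rw [u_smul ht0] at h2
      have h3 : min (r / 2) (1 / 2) ≤ r / 2 := min_le_left _ _
      nlinarith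
    have h2 : ‖u x - u (L.p i)‖ ≤ r := le_of_mul_le_mul_left h1 hxn
    have h3 : χ i x = 1 := chi_eq_one hr0 h2
    have hiT : i ∈ T := Finset.mem_filter.2 ⟨hi, hnf⟩
    rw [hβ1 x i hiT (by rw [h3]; exact one_ne_zero), h3]
    simp

end Pool.Agent.TSC
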