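import Pool.Agent.TSC.Stmts

/-!
# TSC FLB: the modified field is admissible for the cut polygon
-/

set_option autoImplicit false

namespace Pool.Agent.TSC.FLB_

open Set Filter Topology Pool.Agent.TSM

theorem unif {V : Type} [DecidableEq V] (S : Finset V) (P : V → ℝ → Prop)
    (h : ∀ j ∈ S, ∃ d : ℝ, 0 < d ∧ ∀ δ : ℝ, 0 < δ → δ < d → P j δ) :
    ∃ d : ℝ, 0 < d ∧ ∀ δ : ℝ, 0 < δ → δ < d → ∀ j ∈ S, P j δ := by
  induction S using Finset.induction_on with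
  | empty => exact ⟨1, one_pos, fun δ _ _ j hj => absurd hj (Finset.notMem_empty j)⟩
  | insert i S _ ih =>
    obtain ⟨d₁, h1, h2⟩ := ih fun j hj => h j (Finset.mem_insert_of_mem hj)
    obtain ⟨d₂, h3, h4⟩ := h i (Finset.mem_insert_self i S)
    refine ⟨min d₁ d₂, lt_min h1 h3, fun δ hδ hδ' j hj => ?_⟩
    rcases Finset.mem_insert.1 hj with rfl | hj
    · exact h4 δ hδ (hδ'.trans_le (min_le_right _ _))
    · exact h2 δ hδ (hδ'.trans_le (min_le_left _ _)) j hj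

variable {V : Type} [DecidableEq V] {L : Pg V} {pr : V → V}

theorem big_sub (hL : L.Ok) (hpr : IsPr L pr) {a δ : ℝ} (ha : 0 < a) (hδ : 0 < δ) {i : V}
    (hi : i ∈ L.S) {x : E3} (hx : x ∈ (cut L pr a δ).face (lab L i)) : x ∈ L.face i := by
  obtain ⟨u, v, hu, hv, rfl⟩ := hx
  rw [s_lab]
  have hpri : pr (L.s i) = i := (hpr i hi).2.2
  have h1 : ∃ c d : ℝ, 0 ≤ c ∧ 0 ≤ d ∧
      (cut L pr a δ).p (lab L i) = c • L.p i + d • L.p (L.s i) := by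
    by_cases h : L.X = some i
    · exact ⟨1, 0, zero_le_one, le_rfl, by rw [lab_flat L h, p_flat L pr a δ h]; simp⟩
    · exact ⟨1, δ, zero_le_one, hδ.le, by rw [lab_nf L h, p_true L pr a δ h]; simp⟩
  have h2 : ∃ c d : ℝ, 0 ≤ c ∧ 0 ≤ d ∧
      (cut L pr a δ).p (L.s i, false) = c • L.p i + d • L.p (L.s i) := by
    by_cases h : L.X = some (L.s i)
    · exact ⟨0, 1, le_rfl, zero_le_one, by rw [p_flat L pr a δ h]; simp⟩
    · exact ⟨δ * a, 1, (mul_pos hδ ha).le, zero_le_one, by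
        rw [p_false L pr a δ h, hpri]; simp [add_comm]⟩
  obtain ⟨c, d, hc, hd, e1⟩ := h1
  obtain ⟨c', d', hc', hd', e2⟩ := h2
  refine ⟨u * c + v * c', u * d + v * d', by positivity, by positivity, ?_⟩
  rw [e1, e2]
  module

theorem p_ne (hL : L.Ok) (hpr : IsPr L pr) {j : V} (hj : j ∈ L.S) (h : NF L j) :
    L.p j ≠ 0 := by
  intro h0
  have h1 := turn_pr_ne hL hpr hj h
  apply h1
  unfold Pg.turn
  rw [(hpr j hj).2.1, h0]
  simp [det3]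

/-- points of the small face are near the ray of `p j` -/
theorem small_near (hL : L.Ok) (hpr : IsPr L pr) {a ρ : ℝ} (ha : 0 < a) (hρ : 0 < ρ) {j : V}
    (hj : j ∈ L.S) (h : NF L j) :
    ∃ d : ℝ, 0 < d ∧ ∀ δ : ℝ, 0 < δ → δ < d → ∀ x ∈ (cut L pr a δ).face (j, false),
      ∃ t : ℝ, 0 ≤ t ∧ ‖x - t • L.p j‖ ≤ ρ / 4 * ‖x‖ := by
  set M : ℝ := a * ‖L.p (pr j)‖ + ‖L.p (L.s j)‖ + 1 with hM
  have hM0 : 0 < M := by positivity
  have hp : 0 < ‖L.p j‖ := norm_pos_iff.2 (p_ne hL hpr hj h)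
  refine ⟨min (‖L.p j‖ / (2 * M)) (ρ * ‖L.p j‖ / (8 * M)), by positivity, ?_⟩
  intro δ hδ hδ' x hx
  have hd1 : δ * M ≤ ‖L.p j‖ / 2 := by
    have h1 := (hδ'.trans_le (min_le_left _ _)).le
    rw [le_div_iff₀ (by positivity)] at h1
    linarith
  have hd2 : δ * M ≤ ρ / 4 * (‖L.p j‖ / 2) := by
    have h1 := (hδ'.trans_le (min_le_right _ _)).le
    rw [le_div_iff₀ (by positivity)] at h1
    linarith
  obtain ⟨u, v, hu, hv, rfl⟩ := hx
  rw [s_false L pr a δ h, p_false L pr a δ h, p_true L pr a δ h]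
  refine ⟨u + v, by positivity, ?_⟩
  have e1 : u • (L.p j + (δ * a) • L.p (pr j)) + v • (L.p j + δ • L.p (L.s j)) -
      (u + v) • L.p j = (u * δ * a) • L.p (pr j) + (v * δ) • L.p (L.s j) := by module
  have h1 : ‖u • (L.p j + (δ * a) • L.p (pr j)) + v • (L.p j + δ • L.p (L.s j)) -
      (u + v) • L.p j‖ ≤ (u + v) * (δ * M) := by
    rw [e1]
    refine (norm_add_le _ _).trans ?_
    rw [norm_smul, norm_smul, Real.norm_of_nonneg (by positivity),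
      Real.norm_of_nonneg (by positivity)]
    have h3 : u * δ * a * ‖L.p (pr j)‖ ≤ u * (δ * M) := by
      have : a * ‖L.p (pr j)‖ ≤ M := by
        rw [hM]; linarith [norm_nonneg (L.p (L.s j))]
      calc u * δ * a * ‖L.p (pr j)‖ = u * (δ * (a * ‖L.p (pr j)‖)) := by ring
        _ ≤ u * (δ * M) := by gcongr
    have h4 : v * δ * ‖L.p (L.s j)‖ ≤ v * (δ * M) := by
      have : ‖L.p (L.s j)‖ ≤ M := by
        have : 0 ≤ a * ‖L.p (pr j)‖ := by positivity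
        rw [hM]; linarith
      calc v * δ * ‖L.p (L.s j)‖ = v * (δ * ‖L.p (L.s j)‖) := by ring
        _ ≤ v * (δ * M) := by gcongr
    linarith
  have h2 : (u + v) * ‖L.p j‖ - (u + v) * (δ * M) ≤
      ‖u • (L.p j + (δ * a) • L.p (pr j)) + v • (L.p j + δ • L.p (L.s j))‖ := by
    have h5 : ‖(u + v) • L.p j‖ = (u + v) * ‖L.p j‖ := by
      rw [norm_smul, Real.norm_of_nonneg (by positivity)]
    have h6 := norm_sub_norm_le ((u + v) • L.p j)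
      (u • (L.p j + (δ * a) • L.p (pr j)) + v • (L.p j + δ • L.p (L.s j)))
    rw [norm_sub_rev] at h6
    linarith
  have huv : 0 ≤ u + v := by positivity
  have h7 : (u + v) * (‖L.p j‖ / 2) ≤
      ‖u • (L.p j + (δ * a) • L.p (pr j)) + v • (L.p j + δ • L.p (L.s j))‖ := by
    refine le_trans ?_ h2
    have := mul_le_mul_of_nonneg_left hd1 huv
    nlinarith
  calc _ ≤ (u + v) * (δ * M) := h1
    _ ≤ (u + v) * (ρ / 4 * (‖L.p j‖ / 2)) := by gcongr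
    _ = ρ / 4 * ((u + v) * (‖L.p j‖ / 2)) := by ring
    _ ≤ _ := by gcongr

/-- positivity on the small face -/
theorem small_pos (hL : L.Ok) (hpr : IsPr L pr) {a : ℝ} (ha : 0 < a) {j : V}
    (hj : j ∈ L.S) (h : NF L j) {e : E3} (he1 : 0 < (inner ℝ (L.nor j) e : ℝ))
    (he2 : 0 < (inner ℝ (L.nor (pr j)) e : ℝ)) :
    ∃ d : ℝ, 0 < d ∧ ∀ δ : ℝ, 0 < δ → δ < d →
      δ * ((inner ℝ (L.nor j) e : ℝ) / 2) ≤ (inner ℝ ((cut L pr a δ).nor (j, false)) e : ℝ) := by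
  set W : ℝ := |(inner ℝ (crs (L.p (pr j)) (L.p (L.s j))) e : ℝ)| + 1 with hW
  have hW0 : 0 < W := by positivity
  refine ⟨(inner ℝ (L.nor j) e : ℝ) / (2 * (a * W)), by positivity, ?_⟩
  intro δ hδ hδ'
  rw [nor_small (pr := pr) a δ h, ← nor_pr hpr hj]
  rw [inner_add_left, inner_add_left, inner_smul_left, inner_smul_left, inner_smul_left]
  simp only [conj_trivial]
  rw [lt_div_iff₀ (by positivity)] at hδ'
  have h1 : -W ≤ (inner ℝ (crs (L.p (pr j)) (L.p (L.s j))) e : ℝ) := by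
    have := neg_abs_le (inner ℝ (crs (L.p (pr j)) (L.p (L.s j))) e : ℝ)
    rw [hW]; linarith
  have h2 : δ * a * (-W) ≤ δ * a * (inner ℝ (crs (L.p (pr j)) (L.p (L.s j))) e : ℝ) := by
    gcongr
  have h3 : 0 ≤ a * (inner ℝ (L.nor (pr j)) e : ℝ) := by positivity
  have h4 : (inner ℝ (L.nor j) e : ℝ) / 2 ≤ (inner ℝ (L.nor j) e : ℝ) +
      a * (inner ℝ (L.nor (pr j)) e : ℝ) +
      δ * a * (inner ℝ (crs (L.p (pr j)) (L.p (L.s j))) e : ℝ) := by nlinarith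
  have h5 := mul_le_mul_of_nonneg_left h4 hδ.le
  calc _ ≤ _ := h5
    _ = _ := by ring


theorem real1 {ρ X Y D T : ℝ} (hρ : 0 < ρ) (hD : 0 ≤ D) (h3 : ρ * Y < T)
    (h4 : T ≤ D + ρ / 4 * X) (h5 : X ≤ Y + D) (h6 : Y ≤ X + D) :
    3 * ρ * X ≤ 4 * (1 + ρ) * D ∧ 3 * ρ * Y ≤ 4 * (1 + ρ) * D := by
  have h7 : ρ * X ≤ ρ * (Y + D) := mul_le_mul_of_nonneg_left h5 hρ.le
  have h8 : ρ * X ≤ ρ * Y + ρ * D := by linarith
  have h9 : ρ * Y < D + ρ / 4 * X := by linarith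
  have h10 : ρ * Y < D + (ρ * Y + ρ * D) / 4 := by
    have : ρ / 4 * X = (ρ * X) / 4 := by ring
    linarith
  have h11 : 3 * (ρ * X) ≤ 4 * (D + ρ * D) := by
    have : ρ / 4 * X = (ρ * X) / 4 := by ring
    linarith
  have h12 : 0 ≤ ρ * D := mul_nonneg hρ.le hD
  constructor
  · linarith
  · linarith

theorem key_est {ρ : ℝ} (hρ : 0 < ρ) {x y p : E3} {t : ℝ} (h3 : ρ * ‖y‖ < ‖y - t • p‖)
    (h' : ‖x - t • p‖ ≤ ρ / 4 * ‖x‖) :
    ‖x‖ ≤ (4 * (1 + ρ)) / (3 * ρ) * ‖x - y‖ ∧ ‖y‖ ≤ (4 * (1 + ρ)) / (3 * ρ) * ‖x - y‖ := by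
  have h4 : ‖y - t • p‖ ≤ ‖x - y‖ + ρ / 4 * ‖x‖ := by
    have : y - t • p = (y - x) + (x - t • p) := by abel
    rw [this]
    refine (norm_add_le _ _).trans ?_
    rw [norm_sub_rev y x]
    linarith
  have h5 : ‖x‖ ≤ ‖y‖ + ‖x - y‖ := by
    have h := norm_add_le y (x - y)
    rwa [add_sub_cancel] at h
  have h6 : ‖y‖ ≤ ‖x‖ + ‖x - y‖ := by
    have h := norm_sub_le x (x - y)
    rwa [sub_sub_cancel] at h
  obtain ⟨h7, h8⟩ := real1 hρ (norm_nonneg (x - y)) h3 h4 h5 h6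
  have h9 : 0 < 3 * ρ := by linarith
  constructor
  · rw [div_mul_eq_mul_div, le_div_iff₀ h9]; linarith
  · rw [div_mul_eq_mul_div, le_div_iff₀ h9]; linarith

theorem real2 {B K X D S : ℝ} (hB : 0 ≤ B) (hD : 0 ≤ D) (hS : 0 ≤ S)
    (hX : X ≤ K * D) (hS2 : S ≤ 2 * B) (hKD : 0 ≤ K * D) :
    X * S ≤ (B + 2 * B * K) * D := by
  have h1 : X * S ≤ (K * D) * S := mul_le_mul_of_nonneg_right hX hS
  have h2 : (K * D) * S ≤ (K * D) * (2 * B) := mul_le_mul_of_nonneg_left hS2 hKD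
  have h3 : 0 ≤ B * D := mul_nonneg hB hD
  have h4 : (B + 2 * B * K) * D = B * D + (K * D) * (2 * B) := by ring
  linarith


theorem main {V : Type} [DecidableEq V] {L : Pg V} {pr : V → V} (hL : L.Ok) (hpr : IsPr L pr)
    {a : ℝ} (ha : 0 < a) {β : E3 → E3} {e : V → E3} {ρ Λ c B K δ : ℝ} (hc : 0 < c)
    (hb : ∀ x ∈ L.cone, x ≠ 0 → ‖β x‖ ≤ Λ)
    (hl : ∀ x ∈ L.cone, ∀ y ∈ L.cone, x ≠ 0 → y ≠ 0 → ‖x‖ * ‖β x - β y‖ ≤ Λ * ‖x - y‖)
    (hp : ∀ i ∈ L.S, ∀ x ∈ L.face i, x ≠ 0 → c ≤ inner ℝ (L.nor i) (β x))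
    (hF : Fld L pr β e ρ) (hB0 : 0 ≤ B) (hBL : Λ ≤ B) (hBe : ∀ j ∈ L.S, ‖e j‖ ≤ B)
    (hK0 : 0 ≤ K) (hK : K = (4 * (1 + ρ)) / (3 * ρ)) (hδ : 0 < δ) (haδ : a * δ ^ 2 ≤ 1 / 2)
    (h1 : ∀ j ∈ L.S, NF L j → ∀ x ∈ (cut L pr a δ).face (j, false),
      ∃ t : ℝ, 0 ≤ t ∧ ‖x - t • L.p j‖ ≤ ρ / 4 * ‖x‖)
    (h2 : ∀ j ∈ L.S, NF L j → δ * ((inner ℝ (L.nor j) (e j) : ℝ) / 2) ≤
        (inner ℝ ((cut L pr a δ).nor (j, false)) (e j) : ℝ)) : (cut L pr a δ).Adm β := by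
  have hρ := hF.pos
  have hnear : ∀ j ∈ L.S, NF L j → ∀ x ∈ (cut L pr a δ).face (j, false), x ≠ 0 → β x = e j := by
    intro j hj h x hx hx0
    obtain ⟨t, ht, h'⟩ := h1 j hj h x hx
    refine hF.eq j hj h x hx0 ⟨t, ht, h'.trans ?_⟩
    have h3 : 0 ≤ ρ * ‖x‖ := mul_nonneg hρ.le (norm_nonneg x)
    linarith
  have hcase : ∀ x ∈ (cut L pr a δ).cone, x ∈ L.cone ∨
      ∃ j ∈ L.S, NF L j ∧ x ∈ (cut L pr a δ).face (j, false) := by
    rintro x ⟨q, hq, hx⟩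
    rcases cut_cases L pr a δ hq with ⟨i, hi, rfl⟩ | ⟨j, hj, h, rfl⟩
    · left; exact ⟨i, hi, big_sub hL hpr ha hδ hi hx⟩
    · right; exact ⟨j, hj, h, hx⟩
  have hbd : ∀ x ∈ (cut L pr a δ).cone, x ≠ 0 → ‖β x‖ ≤ B := by
    intro x hx hx0
    rcases hcase x hx with h | ⟨j, hj, h, h'⟩
    · exact (hb x h hx0).trans hBL
    · rw [hnear j hj h x h' hx0]; exact hBe j hj
  have key : ∀ j ∈ L.S, NF L j → ∀ x ∈ (cut L pr a δ).face (j, false), x ≠ 0 → ∀ y : E3, y ≠ 0 →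
      β y = β x ∨ (‖x‖ ≤ K * ‖x - y‖ ∧ ‖y‖ ≤ K * ‖x - y‖) := by
    intro j hj h x hx hx0 y hy0
    by_cases hy : ∃ t : ℝ, 0 ≤ t ∧ ‖y - t • L.p j‖ ≤ ρ * ‖y‖
    · left; rw [hnear j hj h x hx hx0, hF.eq j hj h y hy0 hy]
    · right
      obtain ⟨t, ht, h'⟩ := h1 j hj h x hx
      push Not at hy
      rw [hK]
      exact key_est hρ (hy t ht) h'
  have hmin : ∃ c' : ℝ, 0 < c' ∧ c' ≤ c / 2 ∧ ∀ j ∈ L.S, NF L j →
      c' ≤ δ * ((inner ℝ (L.nor j) (e j) : ℝ) / 2) := by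
    obtain ⟨d, hd, h⟩ := unif L.S (fun j δ' => NF L j →
        δ' ≤ δ * ((inner ℝ (L.nor j) (e j) : ℝ) / 2)) (fun j hj => by
      by_cases h : NF L j
      · have := hF.e1 j hj h
        exact ⟨δ * ((inner ℝ (L.nor j) (e j) : ℝ) / 2), by positivity, fun δ' _ h2 _ => h2.le⟩
      · exact ⟨1, one_pos, fun δ _ _ h' => absurd h' h⟩)
    have h5 : 0 < min (d / 2) (c / 2) := lt_min (by linarith) (by linarith)
    exact ⟨min (d / 2) (c / 2), h5, min_le_right _ _,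
      h _ h5 ((min_le_left _ _).trans_lt (by linarith))⟩
  obtain ⟨c', hc', hc1, hc2⟩ := hmin
  have hBK : 0 ≤ 2 * B * K := mul_nonneg (mul_nonneg two_pos.le hB0) hK0
  refine ⟨B + 2 * B * K, c', hc', ?_, ?_, ?_⟩
  · intro x hx hx0
    linarith [hbd x hx hx0]
  · intro x hx y hy hx0 hy0
    have hxy := norm_nonneg (x - y)
    have hKD : 0 ≤ K * ‖x - y‖ := mul_nonneg hK0 hxy
    have hsum : ‖β x - β y‖ ≤ 2 * B :=
      (norm_sub_le _ _).trans (by linarith [hbd x hx hx0, hbd y hy hy0])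
    have fin : ‖x‖ ≤ K * ‖x - y‖ → ‖x‖ * ‖β x - β y‖ ≤ (B + 2 * B * K) * ‖x - y‖ := fun h =>
      real2 hB0 hxy (norm_nonneg _) h hsum hKD
    have fin0 : β y = β x → ‖x‖ * ‖β x - β y‖ ≤ (B + 2 * B * K) * ‖x - y‖ := by
      intro h
      rw [h, sub_self, norm_zero, mul_zero]
      exact mul_nonneg (add_nonneg hB0 hBK) hxy
    rcases hcase x hx with h | ⟨j, hj, h, h'⟩
    · rcases hcase y hy with h3 | ⟨k, hk, h3, h4⟩
      · refine (hl x h y h3 hx0 hy0).trans (mul_le_mul_of_nonneg_right (by linarith) hxy)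
      · rcases key k hk h3 y h4 hy0 x hx0 with h5 | h5
        · exact fin0 h5.symm
        · apply fin
          rw [norm_sub_rev]
          exact h5.2
    · rcases key j hj h x h' hx0 y hy0 with h5 | h5
      · exact fin0 h5
      · exact fin h5.1
  · intro q hq x hx hx0
    rcases cut_cases L pr a δ hq with ⟨i, hi, rfl⟩ | ⟨j, hj, h, rfl⟩
    · rw [nor_lab a δ hL hpr hi, inner_smul_left]
      simp only [conj_trivial]
      have h3 := hp i hi x (big_sub hL hpr ha hδ hi hx) hx0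
      have h4 : 1 / 2 ≤ lam L a δ i := by
        unfold lam
        split_ifs
        · norm_num
        · linarith
      have h5 : 1 / 2 * c ≤ lam L a δ i * c := mul_le_mul_of_nonneg_right h4 hc.le
      have h6 : lam L a δ i * c ≤ lam L a δ i * (inner ℝ (L.nor i) (β x) : ℝ) :=
        mul_le_mul_of_nonneg_left h3 (by linarith)
      linarith
    · rw [hnear j hj h x hx hx0]
      exact (hc2 j hj h).trans (h2 j hj h)

end Pool.Agent.TSC.FLB_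

namespace Pool.Agent.TSC

open Set Filter Topology Pool.Agent.TSM FLB_

theorem FLB_proof : Stmt_FLB := by
  intro V _ L pr hL hpr a ha β e ρ hadm hF
  obtain ⟨Λ, c, hc, hb, hl, hp⟩ := hadm
  have hρ := hF.pos
  obtain ⟨d₁, hd₁, h1⟩ := unif L.S (fun j δ => NF L j → ∀ x ∈ (cut L pr a δ).face (j, false),
      ∃ t : ℝ, 0 ≤ t ∧ ‖x - t • L.p j‖ ≤ ρ / 4 * ‖x‖) (fun j hj => by
    by_cases h : NF L j
    · obtain ⟨d, hd, h'⟩ := small_near hL hpr ha hρ hj h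
      exact ⟨d, hd, fun δ h1 h2 _ => h' δ h1 h2⟩
    · exact ⟨1, one_pos, fun δ _ _ h' => absurd h' h⟩)
  obtain ⟨d₂, hd₂, h2⟩ := unif L.S (fun j δ => NF L j →
      δ * ((inner ℝ (L.nor j) (e j) : ℝ) / 2) ≤
        (inner ℝ ((cut L pr a δ).nor (j, false)) (e j) : ℝ)) (fun j hj => by
    by_cases h : NF L j
    · obtain ⟨d, hd, h'⟩ := small_pos hL hpr ha hj h (hF.e1 j hj h) (hF.e2 j hj h)
      exact ⟨d, hd, fun δ h1 h2 _ => h' δ h1 h2⟩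
    · exact ⟨1, one_pos, fun δ _ _ h' => absurd h' h⟩)
  have ha2 : 0 < 1 / (2 * a) := by positivity
  refine ⟨min (min d₁ d₂) (min 1 (1 / (2 * a))),
    lt_min (lt_min hd₁ hd₂) (lt_min one_pos ha2), ?_⟩
  intro δ hδ hδ'
  have hδ1 : δ < d₁ := hδ'.trans_le ((min_le_left _ _).trans (min_le_left _ _))
  have hδ2 : δ < d₂ := hδ'.trans_le ((min_le_left _ _).trans (min_le_right _ _))
  have hδ3 : δ < 1 := hδ'.trans_le ((min_le_right _ _).trans (min_le_left _ _))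
  have hδ4 : δ < 1 / (2 * a) := hδ'.trans_le ((min_le_right _ _).trans (min_le_right _ _))
  have haδ : a * δ ^ 2 ≤ 1 / 2 := by
    rw [lt_div_iff₀ (by linarith)] at hδ4
    have h3 : δ ^ 2 ≤ δ := by
      rw [pow_two]
      calc δ * δ ≤ 1 * δ := mul_le_mul_of_nonneg_right hδ3.le hδ.le
        _ = δ := one_mul δ
    have h4 : a * δ ^ 2 ≤ a * δ := mul_le_mul_of_nonneg_left h3 ha.le
    linarith
  obtain ⟨B, hB0, hBL, hBe⟩ : ∃ B : ℝ, 0 ≤ B ∧ Λ ≤ B ∧ ∀ j ∈ L.S, ‖e j‖ ≤ B := by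
    have h5 : 0 ≤ ∑ j ∈ L.S, ‖e j‖ := Finset.sum_nonneg fun _ _ => norm_nonneg _
    refine ⟨|Λ| + ∑ j ∈ L.S, ‖e j‖, add_nonneg (abs_nonneg _) h5, ?_, ?_⟩
    · linarith [le_abs_self Λ]
    · intro j hj
      have : ‖e j‖ ≤ ∑ j ∈ L.S, ‖e j‖ :=
        Finset.single_le_sum (f := fun j => ‖e j‖) (fun i _ => norm_nonneg (e i)) hj
      linarith [abs_nonneg Λ]
  have hK0 : 0 ≤ (4 * (1 + ρ)) / (3 * ρ) := by positivity
  exact main hL hpr ha hc hb hl hp hF hB0 hBL hBe hK0 rfl hδ haδ (h1 δ hδ hδ1) (h2 δ hδ hδ2)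

end Pool.Agent.TSC
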