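import Pool.Agent.TSC.Stmts

/-!
# TSC: the correct side of the flat sector
-/

set_option autoImplicit false

namespace Pool.Agent.TSC

open Set Filter Topology Pool.Agent.TSM

theorem HLF_proof : Stmt_HLF := by
  intro V _ L pr hL hpr a δ ha hδ y hy m hm σ hσ
  obtain ⟨hmS, -, -⟩ := flat_data hL hpr hm
  have hnor : (cut L pr a δ).nor (m, false) = L.nor m := by
    have := nor_lab a δ hL hpr hmS
    rw [lab_flat L hm, lam, if_pos (Or.inl hm), one_smul] at this
    exact this
  have h1 := hy (m, false) (X_cut_some L pr a δ hm) σ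
  rw [hnor] at h1
  apply h1
  intro q hq
  rcases cut_cases L pr a δ hq with ⟨i, hi, rfl⟩ | ⟨i, hi, hn, rfl⟩
  · by_cases h : L.X = some i
    · rw [lab_flat L h, p_flat L pr a δ h]
      exact hσ i hi
    · rw [lab_nf L h, p_true L pr a δ h, inner_add_right, inner_smul_right]
      have e1 := hσ i hi
      have e2 := hσ (L.s i) (hL.maps i hi)
      have e3 : δ * (σ * (inner ℝ (L.nor m) (L.p (L.s i)) : ℝ)) ≤ 0 :=
        mul_nonpos_of_nonneg_of_nonpos hδ.le e2
      nlinarith
  · rw [p_false L pr a δ hn, inner_add_right, inner_smul_right]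
    have e1 := hσ i hi
    have e2 := hσ (pr i) (hpr i hi).1
    have e3 : (δ * a) * (σ * (inner ℝ (L.nor m) (L.p (pr i)) : ℝ)) ≤ 0 :=
      mul_nonpos_of_nonneg_of_nonpos (by positivity) e2
    nlinarith

end Pool.Agent.TSC
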