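import Pool.Agent.TSC.Stmts

/-!
# TSC, MRG: margins of the chamfers of the cut polygon
-/

set_option autoImplicit false

namespace Pool.Agent.TSC

open Set Filter Topology Pool.Agent.TSM

namespace MRG_

theorem core {P M x N : E3} {σ τ ε c₀ C₁ : ℝ} (hσ : σ = 1 ∨ σ = -1) (hτ : τ = 1 ∨ τ = -1)
    (hε : 0 < ε) (hN : ‖N - σ • crs P M‖ ≤ ε) (hd : c₀ ≤ |det3 P M x|) (hx : ‖x‖ ≤ C₁)
    (hεC : ε * C₁ ≤ c₀ / 2) (h1 : τ * (inner ℝ N P : ℝ) < 0)
    (h2 : 0 < τ * (inner ℝ N (P + ε • x) : ℝ)) : c₀ / 2 ≤ τ * (inner ℝ N x : ℝ) := by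
  rw [inner_add_right, inner_smul_right] at h2
  have h3 : 0 < τ * (inner ℝ N x : ℝ) := by
    have h4 : 0 < ε * (τ * (inner ℝ N x : ℝ)) := by nlinarith
    exact (mul_pos_iff_of_pos_left hε).1 h4
  have h5 : (inner ℝ N x : ℝ) = σ * det3 P M x + (inner ℝ (N - σ • crs P M) x : ℝ) := by
    rw [inner_sub_left, real_inner_smul_left, inner_crs]; ring
  have h6 : |(inner ℝ (N - σ • crs P M) x : ℝ)| ≤ c₀ / 2 := by
    refine (abs_real_inner_le_norm _ _).trans ?_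
    refine le_trans (mul_le_mul hN hx (norm_nonneg _) hε.le) hεC
  have h7 : |σ * det3 P M x| = |det3 P M x| := by
    rw [abs_mul]
    rcases hσ with h | h <;> rw [h] <;> simp
  have h8 : c₀ / 2 ≤ |(inner ℝ N x : ℝ)| := by
    rw [h5]
    have h9 := abs_sub_abs_le_abs_sub (σ * det3 P M x) (-(inner ℝ (N - σ • crs P M) x : ℝ))
    rw [abs_neg, sub_neg_eq_add, h7] at h9
    linarith
  have h10 : |(inner ℝ N x : ℝ)| = |τ * (inner ℝ N x : ℝ)| := by
    rw [abs_mul]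
    rcases hτ with h | h <;> rw [h] <;> simp
  rw [h10, abs_of_pos h3] at h8
  exact h8

/-- constants of a polygon -/
structure Cst {W : Type} [DecidableEq W] (Lo : Pg W) (c₀ C₁ : ℝ) : Prop where
  pos : 0 < c₀
  pos' : 0 < C₁
  mn : ∀ x ∈ Lo.S, ∀ y ∈ Lo.S, ∀ z ∈ Lo.S, det3 (Lo.p x) (Lo.p y) (Lo.p z) ≠ 0 →
    c₀ ≤ |det3 (Lo.p x) (Lo.p y) (Lo.p z)|
  mx : ∀ x ∈ Lo.S, ‖Lo.p x‖ ≤ C₁
  mc : ∀ x ∈ Lo.S, ∀ y ∈ Lo.S, ‖crs (Lo.p x) (Lo.p y)‖ ≤ C₁

theorem exists_cst {W : Type} [DecidableEq W] (Lo : Pg W) : ∃ c₀ C₁ : ℝ, Cst Lo c₀ C₁ := by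
  have e1 : ∀ᶠ c in 𝓝[>] (0 : ℝ), ∀ x ∈ Lo.S, ∀ y ∈ Lo.S, ∀ z ∈ Lo.S,
      det3 (Lo.p x) (Lo.p y) (Lo.p z) ≠ 0 → c ≤ |det3 (Lo.p x) (Lo.p y) (Lo.p z)| := by
    rw [Filter.eventually_all_finset]
    intro x _
    rw [Filter.eventually_all_finset]
    intro y _
    rw [Filter.eventually_all_finset]
    intro z _
    by_cases h : det3 (Lo.p x) (Lo.p y) (Lo.p z) = 0
    · exact Eventually.of_forall fun c h' => absurd h h'
    · exact (eventually_nhdsWithin_of_eventually_nhds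
        (eventually_le_nhds (abs_pos.2 h))).mono fun c hc _ => hc
  obtain ⟨c₀, h1, h2⟩ := (e1.and (eventually_mem_nhdsWithin (α := ℝ) (a := 0)
    (s := Ioi (0 : ℝ)))).exists
  have e2 : ∀ᶠ C in (atTop : Filter ℝ), ∀ x ∈ Lo.S, ‖Lo.p x‖ ≤ C := by
    rw [Filter.eventually_all_finset]
    intro x _
    exact eventually_ge_atTop _
  have e3 : ∀ᶠ C in (atTop : Filter ℝ), ∀ x ∈ Lo.S, ∀ y ∈ Lo.S,
      ‖crs (Lo.p x) (Lo.p y)‖ ≤ C := by
    rw [Filter.eventually_all_finset]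
    intro x _
    rw [Filter.eventually_all_finset]
    intro y _
    exact eventually_ge_atTop _
  obtain ⟨C₁, ⟨h3, h4⟩, h5⟩ := ((e2.and e3).and (eventually_gt_atTop (0 : ℝ))).exists
  exact ⟨c₀, C₁, h2, h5, h1, h3, h4⟩

theorem gen {W : Type} [DecidableEq W] {Lo : Pg W} {c₀ C₁ ε : ℝ} (hc : Cst Lo c₀ C₁)
    (hε : 0 < ε) (hε1 : ε ≤ 1) (hεC : ε * C₁ ≤ c₀ / 2) {Co : W → Finset (Sym2 W)}
    {No : Sym2 W → E3} (hC : Lo.Cond ε Co No) {i : W} (hi : i ∈ Lo.S) (hsi : Lo.s i ∈ Lo.S)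
    (hssi : Lo.s (Lo.s i) ∈ Lo.S) (ht : Lo.turn i ≠ 0) (h1 : i ≠ Lo.s i)
    (h2 : Lo.s (Lo.s i) ≠ Lo.s i) : ∀ n ∈ Co (Lo.s i), ‖No n‖ ≤ C₁ + 1 ∧
      |(inner ℝ (No n) (Lo.p (Lo.s i)) : ℝ)| ≤ (C₁ + 1) * ε ∧
      Real.sign (Lo.turn i) * inner ℝ (No n) (Lo.p (Lo.s i)) < 0 ∧
      c₀ / 2 ≤ Real.sign (Lo.turn i) * inner ℝ (No n) (Lo.p (Lo.s (Lo.s i))) ∧
      c₀ / 2 ≤ Real.sign (Lo.turn i) * inner ℝ (No n) (Lo.p i) := by
  intro n hn
  obtain ⟨m, hm, -, m1, m2, m3, hdet, s1, s2, s3, σ, hσ, hN⟩ := (hC i hi).2.1 n hn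
  have hτ : Real.sign (Lo.turn i) = 1 ∨ Real.sign (Lo.turn i) = -1 := by
    rcases lt_or_gt_of_ne ht with h | h
    · right; exact Real.sign_of_neg h
    · left; exact Real.sign_of_pos h
  have hσn : ‖σ • crs (Lo.p (Lo.s i)) (Lo.p m)‖ = ‖crs (Lo.p (Lo.s i)) (Lo.p m)‖ := by
    rw [norm_smul]
    rcases hσ with h | h <;> rw [h] <;> simp
  refine ⟨?_, ?_, s1, ?_, ?_⟩
  · have h4 : ‖No n‖ ≤ ‖σ • crs (Lo.p (Lo.s i)) (Lo.p m)‖ +
        ‖No n - σ • crs (Lo.p (Lo.s i)) (Lo.p m)‖ := by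
      have h5 : No n = σ • crs (Lo.p (Lo.s i)) (Lo.p m) +
          (No n - σ • crs (Lo.p (Lo.s i)) (Lo.p m)) := by abel
      calc ‖No n‖ = ‖σ • crs (Lo.p (Lo.s i)) (Lo.p m) +
          (No n - σ • crs (Lo.p (Lo.s i)) (Lo.p m))‖ := by rw [← h5]
        _ ≤ _ := norm_add_le _ _
    have h6 := hc.mc _ hsi _ hm
    rw [hσn] at h4
    linarith
  · have h5 : (inner ℝ (No n) (Lo.p (Lo.s i)) : ℝ) =
        (inner ℝ (No n - σ • crs (Lo.p (Lo.s i)) (Lo.p m)) (Lo.p (Lo.s i)) : ℝ) := by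
      rw [inner_sub_left, real_inner_smul_left, inner_crs, det3_self13, mul_zero, sub_zero]
    rw [h5]
    refine (abs_real_inner_le_norm _ _).trans ?_
    have h6 := hc.mx _ hsi
    have h7 := mul_le_mul hN h6 (norm_nonneg _) hε.le
    refine h7.trans ?_
    nlinarith
  · exact core hσ hτ hε hN (hc.mn _ hsi _ hm _ hssi (hdet _ hssi h2 m3.symm)) (hc.mx _ hssi)
      hεC s1 s3
  · exact core hσ hτ hε hN (hc.mn _ hsi _ hm _ hi (hdet _ hi h1 m1.symm)) (hc.mx _ hi)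
      hεC s1 s2

end MRG_

open MRG_ in
theorem MRG_proof : Stmt_MRG := by
  intro V _ L pr hL hpr a ha δ hδ haδ hO
  obtain ⟨c₀, C₁, hc⟩ := exists_cst (cut L pr a δ)
  have hc0 := hc.pos
  have hC1 := hc.pos'
  refine ⟨min (c₀ / 2) (min (c₀ / 2 / δ) (c₀ / 2 / (δ * a))), min 1 (c₀ / 2 / C₁), C₁ + 1, ?_, ?_,
    by linarith, ?_⟩
  · have h1 : 0 < c₀ / 2 := by linarith
    exact lt_min h1 (lt_min (div_pos h1 hδ) (div_pos h1 (mul_pos hδ ha)))
  · exact lt_min one_pos (div_pos (by linarith) hC1)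
  intro ε' hε' hε1 Co No hCond j hj hNF
  have hεle1 : ε' ≤ 1 := (hε1.trans_le (min_le_left _ _)).le
  have hεC : ε' * C₁ ≤ c₀ / 2 := by
    have h1 : ε' ≤ c₀ / 2 / C₁ := (hε1.trans_le (min_le_right _ _)).le
    rwa [le_div_iff₀ hC1] at h1
  obtain ⟨q1, q2, q3⟩ := hpr j hj
  have hsj := hL.maps j hj
  have hT := turn_pr_ne hL hpr hj hNF
  have hlam : 0 < 1 - a * δ ^ 2 := by linarith
  have hlam1 : 1 - a * δ ^ 2 ≤ 1 := by
    have : 0 < a * δ ^ 2 := by positivity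
    linarith
  set τ := Real.sign (L.turn (pr j)) with hτd
  set P := (cut L pr a δ).p (j, false) with hP
  set P' := (cut L pr a δ).p (j, true) with hP'
  have eP : P = L.p j + (δ * a) • L.p (pr j) := p_false L pr a δ hNF
  have eP' : P' = L.p j + δ • L.p (L.s j) := p_true L pr a δ hNF
  have m0 : lab L (pr j) ∈ (cut L pr a δ).S := lab_mem L pr a δ q1
  have mf : (j, false) ∈ (cut L pr a δ).S := mem_cut_false L pr a δ hj
  have mt : (j, true) ∈ (cut L pr a δ).S := mem_cut_true L pr a δ hj hNF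
  have msf : (L.s j, false) ∈ (cut L pr a δ).S := mem_cut_false L pr a δ hsj
  have s0 : (cut L pr a δ).s (lab L (pr j)) = (j, false) := by rw [s_lab, q2]
  have s1 : (cut L pr a δ).s (j, false) = (j, true) := s_false L pr a δ hNF
  have s2 : (cut L pr a δ).s (j, true) = (L.s j, false) := s_true L pr a δ j
  have sgl := sign_left a δ hL hpr hj hNF ha hδ haδ
  have sgr := sign_right a δ hL hpr hj hNF ha hδ haδ
  have hlamp := lam_pos (L := L) a δ ha haδ
  have tl : (cut L pr a δ).turn (lab L (pr j)) ≠ 0 := by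
    rw [turn_left a δ hL hpr hj hNF]
    exact mul_ne_zero (hlamp _).ne' (mul_ne_zero hδ.ne' hT)
  have tr : (cut L pr a δ).turn (j, false) ≠ 0 := by
    rw [turn_right a δ hL hpr hj hNF]
    exact mul_ne_zero (hlamp _).ne' (mul_ne_zero (mul_pos hδ ha).ne' hT)
  have cle1 : min (c₀ / 2) (min (c₀ / 2 / δ) (c₀ / 2 / (δ * a))) ≤ c₀ / 2 := min_le_left _ _
  have cle2 : min (c₀ / 2) (min (c₀ / 2 / δ) (c₀ / 2 / (δ * a))) ≤ c₀ / 2 / δ :=
    (min_le_right _ _).trans (min_le_left _ _)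
  have cle3 : min (c₀ / 2) (min (c₀ / 2 / δ) (c₀ / 2 / (δ * a))) ≤ c₀ / 2 / (δ * a) :=
    (min_le_right _ _).trans (min_le_right _ _)
  constructor
  · -- chamfers at the left arm
    intro n hn
    have hne1 : lab L (pr j) ≠ (cut L pr a δ).s (lab L (pr j)) := by
      rw [s0]
      intro h
      exact pr_ne hL hpr hj (congrArg Prod.fst h)
    have hne2 : (cut L pr a δ).s ((cut L pr a δ).s (lab L (pr j))) ≠
        (cut L pr a δ).s (lab L (pr j)) := by
      rw [s0, s1]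
      intro h
      exact Bool.noConfusion (congrArg Prod.snd h)
    have G := gen hc hε' hεle1 hεC hCond m0 (by rw [s0]; exact mf) (by rw [s0, s1]; exact mt) tl
      hne1 hne2 n (by rw [s0]; exact hn)
    rw [s0, s1, sgl] at G
    obtain ⟨g1, g2, g3, g4, g5⟩ := G
    -- the direction of the left neighbour
    have g6 : c₀ / 2 ≤ τ * (inner ℝ (No n) (L.p (pr j)) : ℝ) := by
      by_cases hfl : L.X = some (pr j)
      · rw [lab_flat L hfl, p_flat L pr a δ hfl] at g5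
        exact g5
      · have hfl' : NF L (pr j) := hfl
        rw [lab_nf L hfl', p_true L pr a δ hfl', q2] at g5
        have e1 : L.p (pr j) + δ • L.p j = (1 - a * δ ^ 2) • L.p (pr j) + δ • P := by
          rw [eP]; module
        rw [e1, inner_add_right, inner_smul_right, inner_smul_right] at g5
        have g7 : c₀ / 2 ≤ (1 - a * δ ^ 2) * (τ * (inner ℝ (No n) (L.p (pr j)) : ℝ)) := by
          have : δ * (τ * (inner ℝ (No n) P : ℝ)) < 0 := mul_neg_of_pos_of_neg hδ g3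
          nlinarith
        have g8 : 0 < τ * (inner ℝ (No n) (L.p (pr j)) : ℝ) := by
          have : 0 < (1 - a * δ ^ 2) * (τ * (inner ℝ (No n) (L.p (pr j)) : ℝ)) := by linarith
          exact (mul_pos_iff_of_pos_left hlam).1 this
        nlinarith
    have g9 : c₀ / 2 / δ ≤ τ * (inner ℝ (No n) (L.p (L.s j)) : ℝ) := by
      rw [div_le_iff₀ hδ]
      have e2 : δ • L.p (L.s j) = P' - P + (δ * a) • L.p (pr j) := by
        rw [eP, eP']; module
      have e3 : δ * (inner ℝ (No n) (L.p (L.s j)) : ℝ) = (inner ℝ (No n) P' : ℝ) -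
          (inner ℝ (No n) P : ℝ) + δ * a * (inner ℝ (No n) (L.p (pr j)) : ℝ) := by
        rw [← inner_smul_right, e2, inner_add_right, inner_sub_right, inner_smul_right]
      have e4 : τ * (inner ℝ (No n) (L.p (L.s j)) : ℝ) * δ = τ * (inner ℝ (No n) P' : ℝ) -
          τ * (inner ℝ (No n) P : ℝ) + δ * a * (τ * (inner ℝ (No n) (L.p (pr j)) : ℝ)) := by
        linear_combination τ * e3
      have e5 : 0 ≤ δ * a * (τ * (inner ℝ (No n) (L.p (pr j)) : ℝ)) :=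
        mul_nonneg (mul_pos hδ ha).le (by linarith)
      linarith
    exact ⟨g1, g2, g3, cle1.trans g4, cle1.trans g6, cle2.trans g9⟩
  · -- chamfers at the right arm
    intro n hn
    have hne1 : ((j, false) : V × Bool) ≠ (cut L pr a δ).s (j, false) := by
      rw [s1]
      intro h
      exact Bool.noConfusion (congrArg Prod.snd h)
    have hne2 : (cut L pr a δ).s ((cut L pr a δ).s (j, false)) ≠
        (cut L pr a δ).s (j, false) := by
      rw [s1, s2]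
      intro h
      exact s_ne hL hpr hj (congrArg Prod.fst h)
    have G := gen hc hε' hεle1 hεC hCond mf (by rw [s1]; exact mt) (by rw [s1, s2]; exact msf) tr
      hne1 hne2 n (by rw [s1]; exact hn)
    rw [s1, s2, sgr] at G
    obtain ⟨g1, g2, g3, g4, g5⟩ := G
    have g6 : c₀ / 2 ≤ τ * (inner ℝ (No n) (L.p (L.s j)) : ℝ) := by
      by_cases hfl : L.X = some (L.s j)
      · rw [p_flat L pr a δ hfl] at g4
        exact g4
      · have hfl' : NF L (L.s j) := hfl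
        rw [p_false L pr a δ hfl', q3] at g4
        have e1 : L.p (L.s j) + (δ * a) • L.p j = (1 - a * δ ^ 2) • L.p (L.s j) +
            (δ * a) • P' := by
          rw [eP']; module
        rw [e1, inner_add_right, inner_smul_right, inner_smul_right] at g4
        have g7 : c₀ / 2 ≤ (1 - a * δ ^ 2) * (τ * (inner ℝ (No n) (L.p (L.s j)) : ℝ)) := by
          have : δ * a * (τ * (inner ℝ (No n) P' : ℝ)) < 0 :=
            mul_neg_of_pos_of_neg (mul_pos hδ ha) g3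
          nlinarith
        have g8 : 0 < τ * (inner ℝ (No n) (L.p (L.s j)) : ℝ) := by
          have : 0 < (1 - a * δ ^ 2) * (τ * (inner ℝ (No n) (L.p (L.s j)) : ℝ)) := by linarith
          exact (mul_pos_iff_of_pos_left hlam).1 this
        nlinarith
    have g9 : c₀ / 2 / (δ * a) ≤ τ * (inner ℝ (No n) (L.p (pr j)) : ℝ) := by
      rw [div_le_iff₀ (mul_pos hδ ha)]
      have e2 : (δ * a) • L.p (pr j) = P - P' + δ • L.p (L.s j) := by
        rw [eP, eP']; module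
      have e3 : δ * a * (inner ℝ (No n) (L.p (pr j)) : ℝ) = (inner ℝ (No n) P : ℝ) -
          (inner ℝ (No n) P' : ℝ) + δ * (inner ℝ (No n) (L.p (L.s j)) : ℝ) := by
        rw [← inner_smul_right, e2, inner_add_right, inner_sub_right, inner_smul_right]
      have e4 : τ * (inner ℝ (No n) (L.p (pr j)) : ℝ) * (δ * a) = τ * (inner ℝ (No n) P : ℝ) -
          τ * (inner ℝ (No n) P' : ℝ) + δ * (τ * (inner ℝ (No n) (L.p (L.s j)) : ℝ)) := by
        linear_combination τ * e3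
      have e5 : 0 ≤ δ * (τ * (inner ℝ (No n) (L.p (L.s j)) : ℝ)) :=
        mul_nonneg hδ.le (by linarith)
      linarith
    exact ⟨g1, g2, g3, cle1.trans g5, cle3.trans g9, cle1.trans g6⟩

end Pool.Agent.TSC
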