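import Pool.Agent.TSC.Stmts

/-!
# TSC, module NRO: near planes for `L` give near planes for the cut polygon
-/

set_option autoImplicit false

namespace Pool.Agent.TSC

open Set Filter Topology Pool.Agent.TSM

namespace NRO_

variable {V : Type} [DecidableEq V] {L : Pg V} {pr : V → V} {a δ : ℝ}

lemma lam_le (ha : 0 < a) (i : V) : lam L a δ i ≤ 1 := by
  unfold lam
  split_ifs
  · exact le_refl 1
  · nlinarith [mul_nonneg ha.le (sq_nonneg δ)]

lemma ao_lab (A : V → Aff) (B : Kap V → Aff) (i : V) :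
    aoL L a δ A B (lab L i) = lam L a δ i • A i := by
  unfold aoL
  by_cases h : L.X = some i
  · rw [lab_flat L h, if_pos (Or.inr h)]
  · rw [lab_nf L h, if_pos (Or.inl rfl)]

lemma ao_small (A : V → Aff) (B : Kap V → Aff) {i : V} (h : NF L i) :
    aoL L a δ A B (i, false) = δ • B (Sum.inl i) := by
  unfold aoL
  rw [if_neg]
  intro h'
  rcases h' with h' | h'
  · exact absurd h' (by simp)
  · exact h h'

lemma inl_mem (Co : V × Bool → Finset (Sym2 (V × Bool))) {i : V} (h : NF L i) :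
    (Sum.inl i : Kap V) ∈ chL L Co i := by
  unfold chL
  rw [if_neg h]
  exact Finset.mem_insert_self _ _

lemma inr_mem (Co : V × Bool → Finset (Sym2 (V × Bool))) {i : V} (h : NF L i) (c : Bool)
    {n : Sym2 (V × Bool)} (hn : n ∈ Co (i, c)) : (Sum.inr n : Kap V) ∈ chL L Co i := by
  unfold chL
  rw [if_neg h]
  refine Finset.mem_insert_of_mem (Finset.mem_image_of_mem _ ?_)
  cases c
  · exact Finset.mem_union_left _ hn
  · exact Finset.mem_union_right _ hn

lemma co_flat (hL : L.Ok) (hpr : IsPr L pr) {ε' : ℝ}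
    {Co : V × Bool → Finset (Sym2 (V × Bool))} {No : Sym2 (V × Bool) → E3}
    (hC : (cut L pr a δ).Cond ε' Co No) {i : V} (hi : L.X = some i) : Co (i, false) = ∅ := by
  have hiS : i ∈ L.S := (flat_data hL hpr hi).1
  obtain ⟨h1, h2, h3⟩ := hpr i hiS
  have hc := (hC (lab L (pr i)) (lab_mem L pr a δ h1)).1
  rw [s_lab, h2] at hc
  apply hc
  have e1 : (cut L pr a δ).turn (lab L (pr i)) =
      (inner ℝ ((cut L pr a δ).nor (lab L (pr i))) ((cut L pr a δ).p (L.s i, false)) : ℝ) := by
    unfold Pg.turn Pg.nor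
    rw [s_lab, h2, s_flat L pr a δ hi, inner_crs]
  have hns : NF L (L.s i) := by
    intro h'
    rw [hi] at h'
    exact s_ne hL hpr hiS (Option.some.inj h').symm
  have ht := turn_flat hL hpr hi
  unfold Pg.turn at ht
  rw [h2] at ht
  rw [e1, nor_lab a δ hL hpr h1, p_false L pr a δ hns, nor_pr hpr hiS, inner_smul_left,
    inner_add_right, inner_smul_right, inner_crs, inner_crs, (hpr i hiS).2.2, det3_self23, ht]
  simp

lemma nor_exact (hL : L.Ok) (hpr : IsPr L pr) {i : V} (hi : i ∈ L.S) (A : V → Aff)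
    (B : Kap V → Aff) (hA : A i = (L.nor i, 0)) :
    aoL L a δ A B (lab L i) = ((cut L pr a δ).nor (lab L i), 0) := by
  rw [ao_lab, hA, nor_lab a δ hL hpr hi, Prod.smul_mk, smul_zero]

lemma exact_part (hL : L.Ok) (hpr : IsPr L pr) (A : V → Aff) (B : Kap V → Aff)
    (h : ∀ m, L.X = some m → A m = (L.nor m, 0) ∧ ∀ q ∈ L.S, L.s q = m → A q = (L.nor q, 0)) :
    ∀ m, (cut L pr a δ).X = some m →
      aoL L a δ A B m = ((cut L pr a δ).nor m, 0) ∧
      ∀ q ∈ (cut L pr a δ).S, (cut L pr a δ).s q = m →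
        aoL L a δ A B q = ((cut L pr a δ).nor q, 0) := by
  intro m hm
  rw [X_cut, Option.map_eq_some_iff] at hm
  obtain ⟨m0, hm0, rfl⟩ := hm
  obtain ⟨h1, h2⟩ := h m0 hm0
  have hmS : m0 ∈ L.S := (flat_data hL hpr hm0).1
  refine ⟨?_, ?_⟩
  · rw [← lab_flat L hm0]
    exact nor_exact hL hpr hmS A B h1
  · intro q hq hs
    rcases cut_cases L pr a δ hq with ⟨i, hi, rfl⟩ | ⟨i, hi, hn, rfl⟩
    · rw [s_lab] at hs
      have : L.s i = m0 := (Prod.mk.inj hs).1
      exact nor_exact hL hpr hi A B (h2 i hi this)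
    · rw [s_false L pr a δ hn] at hs
      exact absurd (Prod.mk.inj hs).2 (by simp)

lemma big_dist (hL : L.Ok) (hpr : IsPr L pr) (ha : 0 < a) (haδ : a * δ ^ 2 < 1) {i : V}
    (hi : i ∈ L.S) (A : V → Aff) (B : Kap V → Aff) {η : ℝ} (h : ‖(A i).1 - L.nor i‖ < η) :
    ‖(aoL L a δ A B (lab L i)).1 - (cut L pr a δ).nor (lab L i)‖ < η := by
  rw [ao_lab, nor_lab a δ hL hpr hi, Prod.smul_fst, ← smul_sub, norm_smul, Real.norm_eq_abs,
    abs_of_pos (lam_pos a δ ha haδ i)]
  calc lam L a δ i * ‖(A i).1 - L.nor i‖ ≤ 1 * ‖(A i).1 - L.nor i‖ :=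
        mul_le_mul_of_nonneg_right (lam_le ha i) (norm_nonneg _)
    _ < η := by rw [one_mul]; exact h

lemma small_dist (hδ : 0 < δ) {i : V} (hn : NF L i) (A : V → Aff) (B : Kap V → Aff)
    (No : Sym2 (V × Bool) → E3) {η : ℝ} (h : ‖(B (Sum.inl i)).1 - nL L pr a δ No (Sum.inl i)‖ < η) :
    ‖(aoL L a δ A B (i, false)).1 - (cut L pr a δ).nor (i, false)‖ < δ * η := by
  have e : (aoL L a δ A B (i, false)).1 - (cut L pr a δ).nor (i, false) =
      δ • ((B (Sum.inl i)).1 - nL L pr a δ No (Sum.inl i)) := by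
    rw [ao_small A B hn, Prod.smul_fst, smul_sub]
    congr 1
    show _ = δ • (δ⁻¹ • (cut L pr a δ).nor (i, false))
    rw [smul_smul, mul_inv_cancel₀ hδ.ne', one_smul]
  rw [e, norm_smul, Real.norm_eq_abs, abs_of_pos hδ]
  exact mul_lt_mul_of_pos_left h hδ

end NRO_

open NRO_ in
theorem NRO_proof : Stmt_NRO := by
  intro V _ L pr hL hpr a δ ha hδ haδ hO ε' Co No hC
  refine ⟨?_, ?_⟩
  · intro oo oNo ηo hηo hoo
    refine ⟨fun i => oo (lab L i) / lam L a δ i,
      Sum.elim (fun j => oo (j, false) / δ) oNo, min ηo (ηo / δ),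
      lt_min hηo (div_pos hηo hδ), ?_, ?_⟩
    · intro m hm
      obtain ⟨h1, h2⟩ := hoo (m, false) (X_cut_some L pr a δ hm)
      refine ⟨?_, ?_⟩
      · show oo (lab L m) / lam L a δ m = 0
        rw [lab_flat L hm, h1, zero_div]
      · intro q hq hs
        show oo (lab L q) / lam L a δ q = 0
        rw [h2 (lab L q) (lab_mem L pr a δ hq) (by rw [s_lab, hs]), zero_div]
    · intro A B ⟨hA, hB, hX⟩
      refine ⟨?_, ?_, exact_part hL hpr A B hX⟩
      · intro q hq
        rcases cut_cases L pr a δ hq with ⟨i, hi, rfl⟩ | ⟨i, hi, hn, rfl⟩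
        · obtain ⟨h1, h2⟩ := hA i hi
          refine ⟨(big_dist hL hpr ha haδ hi A B h1).trans_le (min_le_left _ _), ?_⟩
          have hl := lam_pos (L := L) a δ ha haδ i
          have e : (aoL L a δ A B (lab L i)).2 - oo (lab L i) =
              lam L a δ i * ((A i).2 - oo (lab L i) / lam L a δ i) := by
            rw [ao_lab, Prod.smul_snd, smul_eq_mul]
            field_simp
          rw [e, abs_mul, abs_of_pos hl]
          calc lam L a δ i * |(A i).2 - oo (lab L i) / lam L a δ i|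
              ≤ 1 * |(A i).2 - oo (lab L i) / lam L a δ i| :=
                mul_le_mul_of_nonneg_right (lam_le ha i) (abs_nonneg _)
            _ < ηo := by rw [one_mul]; exact h2.trans_le (min_le_left _ _)
        · obtain ⟨h1, h2⟩ := hB i hi _ (inl_mem Co hn)
          have hδη : δ * min ηo (ηo / δ) ≤ ηo := by
            calc δ * min ηo (ηo / δ) ≤ δ * (ηo / δ) :=
                  mul_le_mul_of_nonneg_left (min_le_right _ _) hδ.le
              _ = ηo := by field_simp
          refine ⟨(small_dist hδ hn A B No h1).trans_le hδη, ?_⟩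
          have e : (aoL L a δ A B (i, false)).2 - oo (i, false) =
              δ * ((B (Sum.inl i)).2 - oo (i, false) / δ) := by
            rw [ao_small A B hn, Prod.smul_snd, smul_eq_mul]
            field_simp
          rw [e, abs_mul, abs_of_pos hδ]
          exact (mul_lt_mul_of_pos_left h2 hδ).trans_le hδη
      · rintro ⟨i, c⟩ hq n hn
        obtain ⟨h1, h2⟩ := (mem_cut L pr a δ _).1 hq
        by_cases h : L.X = some i
        · have hc : c = false := h2 h
          subst hc
          rw [co_flat hL hpr hC h] at hn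
          exact absurd hn (Finset.notMem_empty _)
        · obtain ⟨h3, h4⟩ := hB i h1 _ (inr_mem Co h c hn)
          exact ⟨h3.trans_le (min_le_left _ _), h4.trans_le (min_le_left _ _)⟩
  · intro ηo hηo
    refine ⟨min ηo (ηo / δ), lt_min hηo (div_pos hηo hδ), ?_⟩
    intro K
    refine ⟨|K| * (1 + δ), ?_⟩
    have hK1 : |K| ≤ |K| * (1 + δ) := by nlinarith [mul_nonneg (abs_nonneg K) hδ.le]
    have hK2 : δ * |K| ≤ |K| * (1 + δ) := by nlinarith [abs_nonneg K]
    intro A B ⟨hA, hB, hX⟩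
    refine ⟨?_, ?_, exact_part hL hpr A B hX⟩
    · intro q hq
      rcases cut_cases L pr a δ hq with ⟨i, hi, rfl⟩ | ⟨i, hi, hn, rfl⟩
      · obtain ⟨h1, h2⟩ := hA i hi
        refine ⟨(big_dist hL hpr ha haδ hi A B h1).trans_le (min_le_left _ _), ?_⟩
        have hl := lam_pos (L := L) a δ ha haδ i
        rw [ao_lab, Prod.smul_snd, smul_eq_mul, abs_mul, abs_of_pos hl]
        calc lam L a δ i * |(A i).2| ≤ 1 * |(A i).2| :=
              mul_le_mul_of_nonneg_right (lam_le ha i) (abs_nonneg _)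
          _ ≤ |K| := by rw [one_mul]; exact h2.trans (le_abs_self K)
          _ ≤ _ := hK1
      · obtain ⟨h1, h2⟩ := hB i hi _ (inl_mem Co hn)
        have hδη : δ * min ηo (ηo / δ) ≤ ηo := by
          calc δ * min ηo (ηo / δ) ≤ δ * (ηo / δ) :=
                mul_le_mul_of_nonneg_left (min_le_right _ _) hδ.le
            _ = ηo := by field_simp
        refine ⟨(small_dist hδ hn A B No h1).trans_le hδη, ?_⟩
        rw [ao_small A B hn, Prod.smul_snd, smul_eq_mul, abs_mul, abs_of_pos hδ]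
        exact (mul_le_mul_of_nonneg_left (h2.trans (le_abs_self K)) hδ.le).trans hK2
    · rintro ⟨i, c⟩ hq n hn
      obtain ⟨h1, h2⟩ := (mem_cut L pr a δ _).1 hq
      by_cases h : L.X = some i
      · have hc : c = false := h2 h
        subst hc
        rw [co_flat hL hpr hC h] at hn
        exact absurd hn (Finset.notMem_empty _)
      · obtain ⟨h3, h4⟩ := hB i h1 _ (inr_mem Co h c hn)
        exact ⟨h3.trans_le (min_le_left _ _), (h4.trans (le_abs_self K)).trans hK1⟩

end Pool.Agent.TSC
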