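import Pool.Agent.TSC.Stmts

/-!
# TSC: every polygon has a predecessor function
-/

set_option autoImplicit false

namespace Pool.Agent.TSC

open Set Filter Topology Pool.Agent.TSM

theorem PRE_proof : Stmt_PRE := by
  intro V _ L hL
  have hsurj : ∀ i ∈ L.S, ∃ j ∈ L.S, L.s j = i := by
    intro i hi
    have := Finset.surj_on_of_inj_on_of_card_le (s := L.S) (t := L.S) (fun a _ => L.s a)
      (fun a ha => hL.maps a ha) (fun a b ha hb h => hL.inj a ha b hb h) le_rfl i hi
    obtain ⟨a, ha, h⟩ := this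
    exact ⟨a, ha, h.symm⟩
  choose! f hf1 hf2 using hsurj
  refine ⟨f, fun i hi => ⟨hf1 i hi, hf2 i hi, ?_⟩⟩
  exact hL.inj _ (hf1 _ (hL.maps i hi)) _ hi (hf2 _ (hL.maps i hi))

end Pool.Agent.TSC
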