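import Pool.Agent.TSC.Stmts

/-!
# TSC, module PSI: the projection of the cone over `L` to the cone over the cut polygon
-/

set_option autoImplicit false

namespace Pool.Agent.TSC

open Set Filter Topology Pool.Agent.TSM

namespace PSI_

/-- Cramer's rule in the basis `u, v, u × v` -/
theorem cramer (u v x : E3) : (inner ℝ (crs u v) (crs u v) : ℝ) • x =
    det3 x v (crs u v) • u + det3 u x (crs u v) • v +
      (inner ℝ (crs u v) x : ℝ) • crs u v := by
  rw [inn3, inn3]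
  apply e3ext <;>
    simp only [PiLp.add_apply, PiLp.smul_apply, smul_eq_mul, crs0, crs1, crs2, det3] <;> ring

/-- first coordinate in the plane spanned by `u, v` -/
noncomputable def co1 (u v x : E3) : ℝ :=
  det3 x v (crs u v) / (inner ℝ (crs u v) (crs u v) : ℝ)

/-- second coordinate in the plane spanned by `u, v` -/
noncomputable def co2 (u v x : E3) : ℝ :=
  det3 u x (crs u v) / (inner ℝ (crs u v) (crs u v) : ℝ)

theorem co1_eq {u v : E3} (h : crs u v ≠ 0) (c d : ℝ) : co1 u v (c • u + d • v) = c := by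
  have h1 : (inner ℝ (crs u v) (crs u v) : ℝ) ≠ 0 := fun h' => h (inner_self_eq_zero.1 h')
  unfold co1
  rw [det3_add1, det3_smul1, det3_smul1, det3_self12, ← inner_crs, mul_zero, add_zero,
    mul_div_assoc, div_self h1, mul_one]

theorem co2_eq {u v : E3} (h : crs u v ≠ 0) (c d : ℝ) : co2 u v (c • u + d • v) = d := by
  have h1 : (inner ℝ (crs u v) (crs u v) : ℝ) ≠ 0 := fun h' => h (inner_self_eq_zero.1 h')
  unfold co2
  rw [det3_add2, det3_smul2, det3_smul2, det3_self12, ← inner_crs, mul_zero, zero_add,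
    mul_div_assoc, div_self h1, mul_one]

theorem co1_cont (u v : E3) : Continuous (co1 u v) := by
  unfold co1 det3
  fun_prop

theorem co2_cont (u v : E3) : Continuous (co2 u v) := by
  unfold co2 det3
  fun_prop

theorem co_inj {u v : E3} (h : crs u v ≠ 0) {c d c' d' : ℝ}
    (he : c • u + d • v = c' • u + d' • v) : c = c' ∧ d = d' := by
  constructor
  · rw [← co1_eq h c d, he, co1_eq h]
  · rw [← co2_eq h c d, he, co2_eq h]

section
variable {V : Type} [DecidableEq V] {L : Pg V} {pr : V → V}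

theorem nor_ne (hL : L.Ok) (hpr : IsPr L pr) {i : V} (hi : i ∈ L.S) :
    crs (L.p i) (L.p (L.s i)) ≠ 0 := by
  intro h0
  by_cases h : L.X = some i
  · have h' : NF L (L.s i) := by
      intro h'; rw [h] at h'
      exact s_ne hL hpr hi (Option.some.inj h').symm
    have h1 := turn_pr_ne hL hpr (hL.maps i hi) h'
    rw [(hpr i hi).2.2] at h1
    apply h1
    unfold Pg.turn
    rw [← inner_crs, h0, inner_zero_left]
  · have h1 := turn_pr_ne hL hpr hi h
    apply h1
    unfold Pg.turn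
    rw [(hpr i hi).2.1, det3_rot, ← inner_crs, h0, inner_zero_left]

theorem face_closed (hL : L.Ok) (hpr : IsPr L pr) {i : V} (hi : i ∈ L.S) :
    IsClosed (L.face i) := by
  have hn := nor_ne hL hpr hi
  have h1 : (inner ℝ (crs (L.p i) (L.p (L.s i))) (crs (L.p i) (L.p (L.s i))) : ℝ) ≠ 0 :=
    fun h' => hn (inner_self_eq_zero.1 h')
  have he : L.face i = {x | 0 ≤ co1 (L.p i) (L.p (L.s i)) x ∧
      0 ≤ co2 (L.p i) (L.p (L.s i)) x ∧
      (inner ℝ (crs (L.p i) (L.p (L.s i))) x : ℝ) = 0} := by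
    ext x
    constructor
    · rintro ⟨c, d, hc, hd, rfl⟩
      refine ⟨?_, ?_, ?_⟩
      · rw [co1_eq hn]; exact hc
      · rw [co2_eq hn]; exact hd
      · rw [inner_crs, det3_add3, det3_smul3, det3_smul3, det3_self13, det3_self23]
        ring
    · rintro ⟨h2, h3, h4⟩
      refine ⟨_, _, h2, h3, ?_⟩
      have h5 := cramer (L.p i) (L.p (L.s i)) x
      rw [h4, zero_smul, add_zero] at h5
      have h6 : x = (inner ℝ (crs (L.p i) (L.p (L.s i)))
          (crs (L.p i) (L.p (L.s i))) : ℝ)⁻¹ • ((inner ℝ (crs (L.p i) (L.p (L.s i)))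
          (crs (L.p i) (L.p (L.s i))) : ℝ) • x) := by
        rw [smul_smul, inv_mul_cancel₀ h1, one_smul]
      refine h6.trans ?_
      rw [h5, smul_add, smul_smul, smul_smul]
      unfold co1 co2
      rw [div_eq_inv_mul, div_eq_inv_mul]
  rw [he]
  apply IsClosed.inter
  · exact isClosed_le continuous_const (co1_cont _ _)
  apply IsClosed.inter
  · exact isClosed_le continuous_const (co2_cont _ _)
  · exact isClosed_eq (by fun_prop) continuous_const

/-- gluing of functions given on the faces in coordinates -/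
theorem glue (hL : L.Ok) (hpr : IsPr L pr) (F : V → ℝ → ℝ → E3)
    (hF : ∀ i, Continuous fun z : ℝ × ℝ => F i z.1 z.2) (h0 : ∀ i, F i 0 0 = 0)
    (hs : ∀ i ∈ L.S, ∀ d, 0 ≤ d → F i 0 d = F (L.s i) d 0) :
    ∃ Ψ : E3 → E3, ContinuousOn Ψ L.cone ∧ ∀ i ∈ L.S, ∀ c d : ℝ, 0 ≤ c → 0 ≤ d →
      Ψ (c • L.p i + d • L.p (L.s i)) = F i c d := by
  classical
  have hwd : ∀ i ∈ L.S, ∀ j ∈ L.S, ∀ c d c' d' : ℝ, 0 ≤ c → 0 ≤ d → 0 ≤ c' → 0 ≤ d' →
      c • L.p i + d • L.p (L.s i) = c' • L.p j + d' • L.p (L.s j) →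
      F i c d = F j c' d' := by
    intro i hi j hj c d c' d' hc hd hc' hd' he
    have hni := nor_ne hL hpr hi
    have hnj := nor_ne hL hpr hj
    by_cases hij : i = j
    · subst hij
      obtain ⟨h1, h2⟩ := co_inj hni he
      rw [h1, h2]
    · rcases hL.simple i hi j hj hij (c • L.p i + d • L.p (L.s i)) ⟨c, d, hc, hd, rfl⟩
        ⟨c', d', hc', hd', he⟩ with ⟨h1, t, ht, h2⟩ | ⟨h1, t, ht, h2⟩ | h2
      · subst h1
        obtain ⟨h3, h4⟩ := co_inj hni (c' := 0) (d' := t) (by rw [h2, zero_smul, zero_add])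
        obtain ⟨h5, h6⟩ := co_inj hnj (c' := t) (d' := 0)
          (by rw [← he, h2, zero_smul, add_zero])
        rw [h3, h4, h5, h6]
        exact hs i hi t ht
      · subst h1
        obtain ⟨h3, h4⟩ := co_inj hni (c' := t) (d' := 0) (by rw [h2, zero_smul, add_zero])
        obtain ⟨h5, h6⟩ := co_inj hnj (c' := 0) (d' := t)
          (by rw [← he, h2, zero_smul, zero_add])
        rw [h3, h4, h5, h6]
        exact (hs j hj t ht).symm
      · obtain ⟨h3, h4⟩ := co_inj hni (c' := 0) (d' := 0)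
          (by rw [h2, zero_smul, zero_smul, add_zero])
        obtain ⟨h5, h6⟩ := co_inj hnj (c' := 0) (d' := 0)
          (by rw [← he, h2, zero_smul, zero_smul, add_zero])
        rw [h3, h4, h5, h6, h0, h0]
  let P : E3 → V × ℝ × ℝ → Prop := fun x z => z.1 ∈ L.S ∧ 0 ≤ z.2.1 ∧ 0 ≤ z.2.2 ∧
    x = z.2.1 • L.p z.1 + z.2.2 • L.p (L.s z.1)
  let Ψ : E3 → E3 := fun x => if h : ∃ z : V × ℝ × ℝ, P x z then
    F h.choose.1 h.choose.2.1 h.choose.2.2 else 0
  have hΨ : ∀ i ∈ L.S, ∀ c d : ℝ, 0 ≤ c → 0 ≤ d →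
      Ψ (c • L.p i + d • L.p (L.s i)) = F i c d := by
    intro i hi c d hc hd
    have h : ∃ z : V × ℝ × ℝ, P (c • L.p i + d • L.p (L.s i)) z :=
      ⟨(i, c, d), hi, hc, hd, rfl⟩
    have h1 : Ψ (c • L.p i + d • L.p (L.s i)) = F h.choose.1 h.choose.2.1 h.choose.2.2 :=
      dif_pos h
    rw [h1]
    obtain ⟨k1, k2, k3, k4⟩ := h.choose_spec
    exact (hwd i hi _ k1 c d _ _ hc hd k2 k3 k4).symm
  refine ⟨Ψ, ?_, hΨ⟩
  have hc : L.cone = ⋃ i : L.S, L.face i.1 := by
    ext x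
    simp only [Pg.cone, Set.mem_ofPred_eq, mem_iUnion]
    constructor
    · rintro ⟨i, hi, hx⟩; exact ⟨⟨i, hi⟩, hx⟩
    · rintro ⟨⟨i, hi⟩, hx⟩; exact ⟨i, hi, hx⟩
  rw [hc]
  apply LocallyFinite.continuousOn_iUnion (locallyFinite_of_finite _)
  · rintro ⟨i, hi⟩; exact face_closed hL hpr hi
  · rintro ⟨i, hi⟩
    have h1 : Continuous fun x : E3 =>
        F i (co1 (L.p i) (L.p (L.s i)) x) (co2 (L.p i) (L.p (L.s i)) x) :=
      (hF i).comp ((co1_cont _ _).prodMk (co2_cont _ _))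
    refine h1.continuousOn.congr ?_
    rintro x ⟨c, d, hc, hd, rfl⟩
    rw [hΨ i hi c d hc hd]
    simp only [co1_eq (nor_ne hL hpr hi), co2_eq (nor_ne hL hpr hi)]

variable (L) (pr) in
/-- `GG` is the normal of the small face applied to `e j`, divided by `δ` -/
noncomputable def GG (a : ℝ) (e : V → E3) (j : V) (δ : ℝ) : ℝ :=
  (inner ℝ (crs (L.p j) (L.p (L.s j))) (e j) : ℝ) +
    a * (inner ℝ (crs (L.p (pr j)) (L.p j)) (e j) : ℝ) +
    δ * a * (inner ℝ (crs (L.p (pr j)) (L.p (L.s j))) (e j) : ℝ)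

variable (L) (pr) in
/-- coefficients of the projection -/
noncomputable def kk (a : ℝ) (e : V → E3) (j : V) (δ : ℝ) : ℝ :=
  if L.X = some j then 0 else L.turn (pr j) / GG L pr a e j δ

theorem ident (pp pj ps e : E3) (a δ : ℝ) :
    ((inner ℝ (crs pj ps) e : ℝ) + a * (inner ℝ (crs pp pj) e : ℝ) +
      δ * a * (inner ℝ (crs pp ps) e : ℝ)) • pj + (δ * a * det3 pp pj ps) • e =
    (inner ℝ (crs pj ps) e : ℝ) • (pj + (δ * a) • pp) +
      (a * (inner ℝ (crs pp pj) e : ℝ)) • (pj + δ • ps) := by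
  rw [inn3, inn3, inn3]
  apply e3ext <;>
    simp only [PiLp.add_apply, PiLp.smul_apply, smul_eq_mul, crs0, crs1, crs2, det3] <;> ring

variable (L) (pr) in
/-- the smallness conditions at the arm `j` -/
structure Dat (a : ℝ) (e : V → E3) (ρ : ℝ) (j : V) (δ : ℝ) : Prop where
  G : 0 < GG L pr a e j δ
  k1 : δ * (a * ‖L.p (pr j)‖ + ‖L.p (L.s j)‖ + a * |kk L pr a e j δ| * ‖e j‖) ≤ ‖L.p j‖ / 4
  k2 : δ * (a * ‖L.p (pr j)‖ + ‖L.p (L.s j)‖ + a * |kk L pr a e j δ| * ‖e j‖) ≤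
    ρ * ‖L.p j‖ / 2

theorem p_ne (hL : L.Ok) (hpr : IsPr L pr) {j : V} (hj : j ∈ L.S) : L.p j ≠ 0 := by
  intro h
  apply nor_ne hL hpr hj
  rw [h]
  apply e3ext <;> simp [crs0, crs1, crs2]

theorem dat_ev (hL : L.Ok) (hpr : IsPr L pr) {a : ℝ} (ha : 0 < a) {β : E3 → E3} {e : V → E3}
    {ρ : ℝ} (hf : Fld L pr β e ρ) {j : V} (hj : j ∈ L.S) (h : NF L j) :
    ∀ᶠ δ : ℝ in 𝓝[>] 0, Dat L pr a e ρ j δ := by
  have hn : ¬ L.X = some j := h
  have hG : Continuous fun δ : ℝ => GG L pr a e j δ := by unfold GG; fun_prop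
  have hG0 : 0 < GG L pr a e j 0 := by
    unfold GG
    have h1 := hf.e1 j hj h
    have h2 := hf.e2 j hj h
    rw [nor_pr hpr hj] at h2
    unfold Pg.nor at h1
    have h3 := mul_pos ha h2
    rw [zero_mul, zero_mul, add_zero]
    exact add_pos h1 h3
  have hp : 0 < ‖L.p j‖ := norm_pos_iff.2 (p_ne hL hpr hj)
  have hk : ContinuousAt (fun δ : ℝ => kk L pr a e j δ) 0 := by
    unfold kk
    simp only [if_neg hn]
    exact ContinuousAt.div continuousAt_const hG.continuousAt hG0.ne'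
  have hg : ContinuousAt (fun δ : ℝ => δ * (a * ‖L.p (pr j)‖ + ‖L.p (L.s j)‖ +
      a * |kk L pr a e j δ| * ‖e j‖)) 0 := by
    apply ContinuousAt.mul continuousAt_id
    apply ContinuousAt.add continuousAt_const
    apply ContinuousAt.mul _ continuousAt_const
    exact ContinuousAt.mul continuousAt_const hk.abs
  have e1 : ∀ᶠ δ : ℝ in 𝓝 0, 0 < GG L pr a e j δ :=
    hG.continuousAt.eventually (lt_mem_nhds hG0)
  have e2 : ∀ᶠ δ : ℝ in 𝓝 0, δ * (a * ‖L.p (pr j)‖ + ‖L.p (L.s j)‖ +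
      a * |kk L pr a e j δ| * ‖e j‖) < ‖L.p j‖ / 4 := by
    apply hg.eventually (gt_mem_nhds _)
    beta_reduce
    rw [zero_mul]
    positivity
  have e3 : ∀ᶠ δ : ℝ in 𝓝 0, δ * (a * ‖L.p (pr j)‖ + ‖L.p (L.s j)‖ +
      a * |kk L pr a e j δ| * ‖e j‖) < ρ * ‖L.p j‖ / 2 := by
    apply hg.eventually (gt_mem_nhds _)
    beta_reduce
    rw [zero_mul]
    have := hf.pos
    positivity
  have e4 : ∀ᶠ δ : ℝ in 𝓝 0, Dat L pr a e ρ j δ := by
    filter_upwards [e1, e2, e3] with δ h1 h2 h3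
    exact ⟨h1, h2.le, h3.le⟩
  exact e4.filter_mono nhdsWithin_le_nhds

variable {a δ ρ : ℝ} {e : V → E3} {β : E3 → E3}

/-- the image of the arm `j` -/
theorem arm_img (hpr : IsPr L pr) {j : V} (hj : j ∈ L.S) (h : NF L j)
    (hG : 0 < GG L pr a e j δ) :
    L.p j + (δ * a * kk L pr a e j δ) • e j =
      ((inner ℝ (L.nor j) (e j) : ℝ) / GG L pr a e j δ) • (L.p j + (δ * a) • L.p (pr j)) +
      (a * (inner ℝ (L.nor (pr j)) (e j) : ℝ) / GG L pr a e j δ) •
        (L.p j + δ • L.p (L.s j)) := by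
  have hn : ¬ L.X = some j := h
  have h1 := ident (L.p (pr j)) (L.p j) (L.p (L.s j)) (e j) a δ
  have h2 := hG.ne'
  have hk : kk L pr a e j δ = L.turn (pr j) / GG L pr a e j δ := if_neg hn
  have hT : L.turn (pr j) = det3 (L.p (pr j)) (L.p j) (L.p (L.s j)) := by
    unfold Pg.turn; rw [(hpr j hj).2.1]
  rw [nor_pr hpr hj, hk, hT]
  have h3 : L.p j + (δ * a * (det3 (L.p (pr j)) (L.p j) (L.p (L.s j)) /
      GG L pr a e j δ)) • e j = (GG L pr a e j δ)⁻¹ • ((GG L pr a e j δ) • L.p j +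
        (δ * a * det3 (L.p (pr j)) (L.p j) (L.p (L.s j))) • e j) := by
    rw [smul_add, smul_smul, smul_smul, inv_mul_cancel₀ h2, one_smul]
    congr 2
    field_simp
  rw [h3]
  unfold GG at h1 ⊢
  rw [h1, smul_add, smul_smul, smul_smul, inv_mul_eq_div, inv_mul_eq_div]
  rfl

/-- the part near the arm `j` on the face `pr j` -/
theorem left_mem (hpr : IsPr L pr) (ha : 0 < a) (hδ : 0 < δ)
    (hf : Fld L pr β e ρ) {j : V} (hj : j ∈ L.S) (h : NF L j)
    (hG : 0 < GG L pr a e j δ) {c d : ℝ} (hc : 0 ≤ c) (hcd : c ≤ δ * a * d) :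
    c • L.p (pr j) + d • L.p j + (kk L pr a e j δ * (δ * a * d - c)) • e j ∈
      (cut L pr a δ).face (j, false) := by
  have hda : 0 < δ * a := mul_pos hδ ha
  have h1 := hf.e1 j hj h
  have h2 := hf.e2 j hj h
  have hw : 0 ≤ d - c / (δ * a) := by
    rw [sub_nonneg, div_le_iff₀ hda]; linarith
  refine ⟨c / (δ * a) + (d - c / (δ * a)) * ((inner ℝ (L.nor j) (e j) : ℝ) /
      GG L pr a e j δ), (d - c / (δ * a)) * (a * (inner ℝ (L.nor (pr j)) (e j) : ℝ) /
      GG L pr a e j δ), by positivity, by positivity, ?_⟩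
  rw [s_false L pr a δ h, p_false L pr a δ h, p_true L pr a δ h]
  have h3 := arm_img hpr hj h hG
  have h4 : (kk L pr a e j δ * (δ * a * d - c)) = (d - c / (δ * a)) *
      (δ * a * kk L pr a e j δ) := by
    field_simp
  have h5 : c • L.p (pr j) + d • L.p j + (kk L pr a e j δ * (δ * a * d - c)) • e j =
      (c / (δ * a)) • (L.p j + (δ * a) • L.p (pr j)) + (d - c / (δ * a)) •
        (L.p j + (δ * a * kk L pr a e j δ) • e j) := by
    rw [h4]
    have h6 : c = (c / (δ * a)) * (δ * a) := by field_simp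
    have h7 : c • L.p (pr j) = ((c / (δ * a)) * (δ * a)) • L.p (pr j) := by rw [← h6]
    rw [h7]
    module
  rw [h5, h3]
  module

/-- the part near the arm `j` on the face `j` -/
theorem right_mem (hpr : IsPr L pr) (ha : 0 < a) (hδ : 0 < δ)
    (hf : Fld L pr β e ρ) {j : V} (hj : j ∈ L.S) (h : NF L j)
    (hG : 0 < GG L pr a e j δ) {c d : ℝ} (hc : 0 ≤ c) (hcd : c ≤ δ * d) :
    c • L.p (L.s j) + d • L.p j + (a * kk L pr a e j δ * (δ * d - c)) • e j ∈
      (cut L pr a δ).face (j, false) := by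
  have h1 := hf.e1 j hj h
  have h2 := hf.e2 j hj h
  have hw : 0 ≤ d - c / δ := by
    rw [sub_nonneg, div_le_iff₀ hδ]; linarith
  refine ⟨(d - c / δ) * ((inner ℝ (L.nor j) (e j) : ℝ) /
      GG L pr a e j δ), c / δ + (d - c / δ) * (a * (inner ℝ (L.nor (pr j)) (e j) : ℝ) /
      GG L pr a e j δ), by positivity, by positivity, ?_⟩
  rw [s_false L pr a δ h, p_false L pr a δ h, p_true L pr a δ h]
  have h3 := arm_img hpr hj h hG
  have h4 : (a * kk L pr a e j δ * (δ * d - c)) = (d - c / δ) *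
      (δ * a * kk L pr a e j δ) := by
    field_simp
  have h5 : c • L.p (L.s j) + d • L.p j + (a * kk L pr a e j δ * (δ * d - c)) • e j =
      (c / δ) • (L.p j + δ • L.p (L.s j)) + (d - c / δ) •
        (L.p j + (δ * a * kk L pr a e j δ) • e j) := by
    rw [h4]
    have h6 : c = (c / δ) * δ := by field_simp
    have h7 : c • L.p (L.s j) = ((c / δ) * δ) • L.p (L.s j) := by rw [← h6]
    rw [h7]
    module
  rw [h5, h3]
  module

variable (L) (pr) (a) (δ) in
/-- the part of the cone near the arm `j` -/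
def InW (j : V) (x : E3) : Prop :=
  (∃ c d : ℝ, 0 ≤ c ∧ 0 ≤ d ∧ c ≤ δ * a * d ∧ x = c • L.p (pr j) + d • L.p j) ∨
    ∃ c d : ℝ, 0 ≤ c ∧ 0 ≤ d ∧ c ≤ δ * d ∧ x = c • L.p (L.s j) + d • L.p j

theorem InW_zero (j : V) : InW L pr a δ j 0 :=
  Or.inl ⟨0, 0, le_refl _, le_refl _, by simp, by simp⟩

/-- injectivity near the arm `j` -/
theorem W_inj (hpr : IsPr L pr) (hf : Fld L pr β e ρ) {j : V} (hj : j ∈ L.S) (h : NF L j)
    {x y : E3} (hx : InW L pr a δ j x) (hy : InW L pr a δ j y) {l : ℝ}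
    (he : x - y = l • e j) : x = y := by
  have h1 := hf.e1 j hj h
  have h2 := hf.e2 j hj h
  have hn1 : L.nor j = crs (L.p j) (L.p (L.s j)) := rfl
  have hn2 : L.nor (pr j) = crs (L.p (pr j)) (L.p j) := nor_pr hpr hj
  set T : ℝ := det3 (L.p (pr j)) (L.p j) (L.p (L.s j)) with hT
  have hj1 : (inner ℝ (L.nor j) (L.p j) : ℝ) = 0 := by
    rw [hn1, inner_crs, det3_self13]
  have hj2 : (inner ℝ (L.nor j) (L.p (L.s j)) : ℝ) = 0 := by
    rw [hn1, inner_crs, det3_self23]
  have hj3 : (inner ℝ (L.nor j) (L.p (pr j)) : ℝ) = T := by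
    rw [hn1, inner_crs, hT, det3_rot (L.p (pr j))]
  have hp1 : (inner ℝ (L.nor (pr j)) (L.p j) : ℝ) = 0 := by
    rw [hn2, inner_crs, det3_self23]
  have hp2 : (inner ℝ (L.nor (pr j)) (L.p (L.s j)) : ℝ) = T := by
    rw [hn2, inner_crs]
  have hp3 : (inner ℝ (L.nor (pr j)) (L.p (pr j)) : ℝ) = 0 := by
    rw [hn2, inner_crs, det3_self13]
  have e1 : (inner ℝ (L.nor j) x : ℝ) - (inner ℝ (L.nor j) y : ℝ) =
      l * (inner ℝ (L.nor j) (e j) : ℝ) := by
    rw [← inner_sub_right, he, inner_smul_right]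
  have e2 : (inner ℝ (L.nor (pr j)) x : ℝ) - (inner ℝ (L.nor (pr j)) y : ℝ) =
      l * (inner ℝ (L.nor (pr j)) (e j) : ℝ) := by
    rw [← inner_sub_right, he, inner_smul_right]
  have hl : l = 0 → x = y := by
    intro hl
    rw [hl, zero_smul] at he
    exact sub_eq_zero.1 he
  have h3 := mul_pos h1 h2
  rcases hx with ⟨c, d, hc, hd, -, rfl⟩ | ⟨c, d, hc, hd, -, rfl⟩ <;>
    rcases hy with ⟨c', d', hc', hd', -, rfl⟩ | ⟨c', d', hc', hd', -, rfl⟩ <;>
    apply hl <;>
    simp only [inner_add_right, inner_smul_right, hj1, hj2, hj3, hp1, hp2, hp3, mul_zero,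
      add_zero, sub_zero, zero_sub] at e1 e2
  · rcases mul_eq_zero.1 e2.symm with h4 | h4
    · exact h4
    · exact absurd h4 h2.ne'
  · -- left, right
    have h4 : l * l * ((inner ℝ (L.nor j) (e j) : ℝ) *
        (inner ℝ (L.nor (pr j)) (e j) : ℝ)) = - (c * c' * (T * T)) := by
      calc _ = (l * (inner ℝ (L.nor j) (e j) : ℝ)) *
          (l * (inner ℝ (L.nor (pr j)) (e j) : ℝ)) := by ring
        _ = _ := by rw [← e1, ← e2]; ring
    have h5 : 0 ≤ c * c' * (T * T) := mul_nonneg (mul_nonneg hc hc') (mul_self_nonneg T)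
    have h6 : l * l ≤ 0 := by
      by_contra hcon
      have := mul_pos (not_le.1 hcon) h3
      linarith
    exact mul_self_eq_zero.1 (le_antisymm h6 (mul_self_nonneg l))
  · have h4 : l * l * ((inner ℝ (L.nor j) (e j) : ℝ) *
        (inner ℝ (L.nor (pr j)) (e j) : ℝ)) = - (c * c' * (T * T)) := by
      calc _ = (l * (inner ℝ (L.nor j) (e j) : ℝ)) *
          (l * (inner ℝ (L.nor (pr j)) (e j) : ℝ)) := by ring
        _ = _ := by rw [← e1, ← e2]; ring
    have h5 : 0 ≤ c * c' * (T * T) := mul_nonneg (mul_nonneg hc hc') (mul_self_nonneg T)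
    have h6 : l * l ≤ 0 := by
      by_contra hcon
      have := mul_pos (not_le.1 hcon) h3
      linarith
    exact mul_self_eq_zero.1 (le_antisymm h6 (mul_self_nonneg l))
  · rcases mul_eq_zero.1 e1.symm with h4 | h4
    · exact h4
    · exact absurd h4 h1.ne'

/-- bounds near an arm -/
theorem near (hL : L.Ok) (hpr : IsPr L pr) (hf : Fld L pr β e ρ) {j : V} (hj : j ∈ L.S)
    (h : NF L j) {κ : ℝ} (hk1 : κ ≤ ‖L.p j‖ / 4) (hk2 : κ ≤ ρ * ‖L.p j‖ / 2) {x z : E3}
    {d r : ℝ} (hd : 0 ≤ d) (hx : ‖x - d • L.p j‖ ≤ d * κ) (hz : ‖z - d • L.p j‖ ≤ d * κ)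
    (hzx : z = x + r • e j) (hr : ‖r • e j‖ ≤ d * κ) :
    (∃ t : ℝ, z = x - t • β x) ∧ β z = β x ∧ ‖z - x‖ ≤ ‖x‖ / 2 := by
  have hp : 0 < ‖L.p j‖ := norm_pos_iff.2 (p_ne hL hpr hj)
  have hb : ∀ y : E3, ‖y - d • L.p j‖ ≤ d * κ → d * ‖L.p j‖ ≤ 2 * ‖y‖ := by
    intro y hy
    have h1 : ‖d • L.p j‖ ≤ ‖y‖ + ‖y - d • L.p j‖ := by
      have h2 : d • L.p j = y - (y - d • L.p j) := by abel
      calc ‖d • L.p j‖ = ‖y - (y - d • L.p j)‖ := by rw [← h2]
        _ ≤ _ := norm_sub_le _ _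
    rw [norm_smul, Real.norm_of_nonneg hd] at h1
    have h3 : d * κ ≤ d * (‖L.p j‖ / 4) := mul_le_mul_of_nonneg_left hk1 hd
    have h4 : 0 ≤ d * ‖L.p j‖ := by positivity
    linarith
  have hβ : ∀ y : E3, y ≠ 0 → ‖y - d • L.p j‖ ≤ d * κ → β y = e j := by
    intro y hy0 hy
    apply hf.eq j hj h y hy0
    refine ⟨d, hd, hy.trans ?_⟩
    have h1 := hb y hy
    have h3 : d * κ ≤ d * (ρ * ‖L.p j‖ / 2) := mul_le_mul_of_nonneg_left hk2 hd
    have h4 := mul_le_mul_of_nonneg_left h1 hf.pos.le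
    linarith
  rcases hd.eq_or_lt with hd0 | hd0
  · rw [← hd0, zero_smul, zero_mul, sub_zero] at hx hz
    have hx0 : x = 0 := norm_le_zero_iff.1 hx
    have hz0 : z = 0 := norm_le_zero_iff.1 hz
    rw [hx0, hz0]
    exact ⟨⟨0, by simp⟩, rfl, by simp⟩
  · have hne : ∀ y : E3, ‖y - d • L.p j‖ ≤ d * κ → y ≠ 0 := by
      intro y hy hy0
      have h1 := hb y hy
      rw [hy0, norm_zero, mul_zero] at h1
      have h2 : 0 < d * ‖L.p j‖ := by positivity
      linarith
    have hbx := hβ x (hne x hx) hx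
    have hbz := hβ z (hne z hz) hz
    refine ⟨⟨-r, ?_⟩, ?_, ?_⟩
    · rw [hbx, hzx]; module
    · rw [hbx, hbz]
    · have h1 : z - x = r • e j := by rw [hzx]; abel
      rw [h1]
      refine hr.trans ?_
      have h3 : d * κ ≤ d * (‖L.p j‖ / 4) := mul_le_mul_of_nonneg_left hk1 hd
      have h4 := hb x hx
      linarith

variable (L) (pr) (a) (δ) (e) in
/-- the projection in coordinates -/
noncomputable def FF (i : V) (c d : ℝ) : E3 :=
  c • L.p i + d • L.p (L.s i) + (a * kk L pr a e i δ * max (δ * c - d) 0) • e i +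
    (kk L pr a e (L.s i) δ * max (δ * a * d - c) 0) • e (L.s i)

theorem kk_flat {j : V} (h : ¬ NF L j) : kk L pr a e j δ = 0 := by
  have h' : L.X = some j := not_not.1 h
  unfold kk
  rw [if_pos h']

theorem FF_mid {i : V} {c d : ℝ} (h1 : NF L i → δ * c ≤ d)
    (h2 : NF L (L.s i) → δ * a * d ≤ c) :
    FF L pr a δ e i c d = c • L.p i + d • L.p (L.s i) := by
  have e1 : a * kk L pr a e i δ * max (δ * c - d) 0 = 0 := by
    by_cases h : NF L i
    · rw [max_eq_right (by linarith [h1 h]), mul_zero]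
    · rw [kk_flat h]; ring
  have e2 : kk L pr a e (L.s i) δ * max (δ * a * d - c) 0 = 0 := by
    by_cases h : NF L (L.s i)
    · rw [max_eq_right (by linarith [h2 h]), mul_zero]
    · rw [kk_flat h]; ring
  unfold FF
  rw [e1, e2, zero_smul, zero_smul, add_zero, add_zero]

theorem small_aux (ha : 0 < a) (hδ : 0 < δ) (haδ : a * δ ^ 2 < 1) {c d : ℝ} (hd : 0 ≤ d)
    (hcd : c ≤ δ * a * d) : δ * c ≤ d := by
  have h1 := mul_le_mul_of_nonneg_left hcd hδ.le
  have h2 : a * δ ^ 2 * d ≤ 1 * d := mul_le_mul_of_nonneg_right haδ.le hd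
  nlinarith

theorem small_aux' (ha : 0 < a) (hδ : 0 < δ) (haδ : a * δ ^ 2 < 1) {c d : ℝ} (hd : 0 ≤ d)
    (hcd : c ≤ δ * d) : δ * a * c ≤ d := by
  have h1 := mul_le_mul_of_nonneg_left hcd (mul_pos hδ ha).le
  have h2 : a * δ ^ 2 * d ≤ 1 * d := mul_le_mul_of_nonneg_right haδ.le hd
  nlinarith

theorem FF_left (hpr : IsPr L pr) (ha : 0 < a) (hδ : 0 < δ) (haδ : a * δ ^ 2 < 1) {j : V}
    (hj : j ∈ L.S) {c d : ℝ} (hd : 0 ≤ d) (hcd : c ≤ δ * a * d) :
    FF L pr a δ e (pr j) c d = c • L.p (pr j) + d • L.p j +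
      (kk L pr a e j δ * (δ * a * d - c)) • e j := by
  unfold FF
  rw [(hpr j hj).2.1, max_eq_right (by linarith [small_aux ha hδ haδ hd hcd]),
    max_eq_left (by linarith), mul_zero, zero_smul, add_zero]

theorem FF_right (ha : 0 < a) (hδ : 0 < δ) (haδ : a * δ ^ 2 < 1) {j : V}
    {c d : ℝ} (hd : 0 ≤ d) (hcd : c ≤ δ * d) :
    FF L pr a δ e j d c = c • L.p (L.s j) + d • L.p j +
      (a * kk L pr a e j δ * (δ * d - c)) • e j := by
  unfold FF
  rw [max_eq_left (by linarith), max_eq_right (by linarith [small_aux' ha hδ haδ hd hcd]),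
    mul_zero, zero_smul, add_zero, add_comm (d • L.p j)]

/-- the middle part of a face lies in the big face of the cut polygon -/
theorem mid_mem (hpr : IsPr L pr) (hL : L.Ok) (haδ : a * δ ^ 2 < 1)
    {i : V} (hi : i ∈ L.S)
    {c d : ℝ} (hc : 0 ≤ c) (hd : 0 ≤ d) (h1 : NF L i → δ * c ≤ d)
    (h2 : NF L (L.s i) → δ * a * d ≤ c) :
    c • L.p i + d • L.p (L.s i) ∈ (cut L pr a δ).face (lab L i) := by
  have hpri : pr (L.s i) = i := (hpr i hi).2.2
  have hl : 0 < 1 - a * δ ^ 2 := by linarith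
  unfold Pg.face
  rw [s_lab]
  by_cases h : L.X = some i
  · have h' : NF L (L.s i) := by
      intro h'; rw [h] at h'
      exact s_ne hL hpr hi (Option.some.inj h').symm
    refine ⟨c - δ * a * d, d, by linarith [h2 h'], hd, ?_⟩
    rw [lab_flat L h, p_flat L pr a δ h, p_false L pr a δ h', hpri]
    module
  · by_cases h' : L.X = some (L.s i)
    · refine ⟨c, d - δ * c, hc, by linarith [h1 h], ?_⟩
      rw [lab_nf L h, p_true L pr a δ h, p_flat L pr a δ h']
      module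
    · refine ⟨(c - δ * a * d) / (1 - a * δ ^ 2), (d - δ * c) / (1 - a * δ ^ 2),
        div_nonneg (by linarith [h2 h']) hl.le, div_nonneg (by linarith [h1 h]) hl.le, ?_⟩
      rw [lab_nf L h, p_true L pr a δ h, p_false L pr a δ h', hpri]
      have hl' : (1 - a * δ ^ 2) ≠ 0 := hl.ne'
      have e1 : (c - δ * a * d) / (1 - a * δ ^ 2) +
          (d - δ * c) / (1 - a * δ ^ 2) * (δ * a) = c := by
        rw [div_mul_eq_mul_div, ← add_div, div_eq_iff hl']
        ring
      have e2 : (c - δ * a * d) / (1 - a * δ ^ 2) * δ +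
          (d - δ * c) / (1 - a * δ ^ 2) = d := by
        rw [div_mul_eq_mul_div, ← add_div, div_eq_iff hl']
        ring
      calc c • L.p i + d • L.p (L.s i) = ((c - δ * a * d) / (1 - a * δ ^ 2) +
          (d - δ * c) / (1 - a * δ ^ 2) * (δ * a)) • L.p i +
          ((c - δ * a * d) / (1 - a * δ ^ 2) * δ +
          (d - δ * c) / (1 - a * δ ^ 2)) • L.p (L.s i) := by rw [e1, e2]
        _ = _ := by module

theorem main (hL : L.Ok) (hpr : IsPr L pr) (ha : 0 < a) (hδ : 0 < δ) (haδ : a * δ ^ 2 < 1)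
    (hf : Fld L pr β e ρ) (hdat : ∀ j ∈ L.S, NF L j → Dat L pr a e ρ j δ)
    (hOk : (cut L pr a δ).Ok) : ∃ Ψ : E3 → E3, Proj L pr a δ β Ψ := by
  have hF : ∀ i, Continuous fun z : ℝ × ℝ => FF L pr a δ e i z.1 z.2 := by
    intro i
    unfold FF
    fun_prop
  obtain ⟨Ψ, hΨc, hΨ⟩ := glue hL hpr (FF L pr a δ e) hF
    (by intro i; unfold FF; simp)
    (by
      intro i hi d hd
      unfold FF
      have e1 : max (δ * 0 - d) 0 = 0 := max_eq_right (by linarith)
      have e2 : max (δ * a * 0 - d) 0 = 0 := max_eq_right (by linarith)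
      have e3 : max (δ * a * d - 0) 0 = δ * a * d := by
        rw [sub_zero]; exact max_eq_left (by positivity)
      have e4 : max (δ * d - 0) 0 = δ * d := by
        rw [sub_zero]; exact max_eq_left (by positivity)
      rw [e1, e2, e3, e4]
      module)
  have hmid : ∀ i ∈ L.S, ∀ c d : ℝ, 0 ≤ c → 0 ≤ d → (NF L i → δ * c ≤ d) →
      (NF L (L.s i) → δ * a * d ≤ c) →
      Ψ (c • L.p i + d • L.p (L.s i)) = c • L.p i + d • L.p (L.s i) := by
    intro i hi c d hc hd h1 h2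
    rw [hΨ i hi c d hc hd, FF_mid h1 h2]
  have hleft : ∀ j ∈ L.S, ∀ c d : ℝ, 0 ≤ c → 0 ≤ d → c ≤ δ * a * d →
      Ψ (c • L.p (pr j) + d • L.p j) = c • L.p (pr j) + d • L.p j +
        (kk L pr a e j δ * (δ * a * d - c)) • e j := by
    intro j hj c d hc hd hcd
    have h1 := hΨ (pr j) (hpr j hj).1 c d hc hd
    rw [FF_left hpr ha hδ haδ hj hd hcd, (hpr j hj).2.1] at h1
    exact h1
  have hright : ∀ j ∈ L.S, ∀ c d : ℝ, 0 ≤ c → 0 ≤ d → c ≤ δ * d →
      Ψ (c • L.p (L.s j) + d • L.p j) = c • L.p (L.s j) + d • L.p j +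
        (a * kk L pr a e j δ * (δ * d - c)) • e j := by
    intro j hj c d hc hd hcd
    have h1 := hΨ j hj d c hd hc
    rw [FF_right ha hδ haδ hd hcd, add_comm (d • L.p j)] at h1
    exact h1
  -- the two kinds of points
  have hcases : ∀ x ∈ L.cone, (∃ i ∈ L.S, Ψ x = x ∧ x ∈ (cut L pr a δ).face (lab L i)) ∨
      ∃ j ∈ L.S, NF L j ∧ InW L pr a δ j x := by
    rintro x ⟨i, hi, c, d, hc, hd, rfl⟩
    have hpri : pr (L.s i) = i := (hpr i hi).2.2
    by_cases h1 : NF L i ∧ d ≤ δ * c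
    · right
      exact ⟨i, hi, h1.1, Or.inr ⟨d, c, hd, hc, h1.2, add_comm _ _⟩⟩
    by_cases h2 : NF L (L.s i) ∧ c ≤ δ * a * d
    · right
      refine ⟨L.s i, hL.maps i hi, h2.1, Or.inl ⟨c, d, hc, hd, h2.2, ?_⟩⟩
      rw [hpri]
    left
    have h3 : NF L i → δ * c ≤ d := fun h => by
      by_contra hcon
      exact h1 ⟨h, (not_le.1 hcon).le⟩
    have h4 : NF L (L.s i) → δ * a * d ≤ c := fun h => by
      by_contra hcon
      exact h2 ⟨h, (not_le.1 hcon).le⟩
    exact ⟨i, hi, hmid i hi c d hc hd h3 h4, mid_mem hpr hL haδ hi hc hd h3 h4⟩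
  have hW : ∀ j ∈ L.S, NF L j → ∀ x, InW L pr a δ j x →
      (∃ r : ℝ, Ψ x = x + r • e j) ∧ Ψ x ∈ (cut L pr a δ).face (j, false) ∧
      (∃ t : ℝ, Ψ x = x - t • β x) ∧ β (Ψ x) = β x ∧ ‖Ψ x - x‖ ≤ ‖x‖ / 2 := by
    intro j hj h x hx
    obtain ⟨hG, hk1, hk2⟩ := hdat j hj h
    have hj1 : 0 ≤ a * ‖L.p (pr j)‖ := by positivity
    have hj2 : 0 ≤ a * |kk L pr a e j δ| * ‖e j‖ := by positivity
    have hj3 : 0 ≤ ‖L.p (L.s j)‖ := norm_nonneg _
    rcases hx with ⟨c, d, hc, hd, hcd, rfl⟩ | ⟨c, d, hc, hd, hcd, rfl⟩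
    · have h1 := hleft j hj c d hc hd hcd
      have hr : ‖(kk L pr a e j δ * (δ * a * d - c)) • e j‖ ≤
          d * (δ * (a * |kk L pr a e j δ| * ‖e j‖)) := by
        rw [norm_smul, Real.norm_eq_abs, abs_mul, abs_of_nonneg (by linarith : 0 ≤ δ * a * d - c)]
        have h2 : |kk L pr a e j δ| * (δ * a * d - c) * ‖e j‖ ≤
            |kk L pr a e j δ| * (δ * a * d) * ‖e j‖ := by
          gcongr
          linarith
        calc _ ≤ _ := h2
          _ = _ := by ring
      have hx0 : ‖c • L.p (pr j)‖ ≤ d * (δ * (a * ‖L.p (pr j)‖)) := by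
        rw [norm_smul, Real.norm_of_nonneg hc]
        have h2 : c * ‖L.p (pr j)‖ ≤ δ * a * d * ‖L.p (pr j)‖ := by gcongr
        calc _ ≤ _ := h2
          _ = _ := by ring
      refine ⟨⟨_, h1⟩, ?_, ?_⟩
      · rw [h1]
        exact left_mem hpr ha hδ hf hj h hG hc hcd
      · refine near hL hpr hf hj h hk1 hk2 (d := d) hd ?_ ?_ h1 ?_
        · rw [add_sub_cancel_right]
          refine hx0.trans ?_
          gcongr
          linarith
        · rw [h1]
          have h3 : c • L.p (pr j) + d • L.p j +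
              (kk L pr a e j δ * (δ * a * d - c)) • e j - d • L.p j =
              c • L.p (pr j) + (kk L pr a e j δ * (δ * a * d - c)) • e j := by abel
          rw [h3]
          refine (norm_add_le _ _).trans ((add_le_add hx0 hr).trans ?_)
          rw [← mul_add, ← mul_add]
          gcongr
          linarith
        · refine hr.trans ?_
          gcongr
          linarith
    · have h1 := hright j hj c d hc hd hcd
      have hr : ‖(a * kk L pr a e j δ * (δ * d - c)) • e j‖ ≤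
          d * (δ * (a * |kk L pr a e j δ| * ‖e j‖)) := by
        rw [norm_smul, Real.norm_eq_abs, abs_mul, abs_mul, abs_of_pos ha,
          abs_of_nonneg (by linarith : 0 ≤ δ * d - c)]
        have h2 : a * |kk L pr a e j δ| * (δ * d - c) * ‖e j‖ ≤
            a * |kk L pr a e j δ| * (δ * d) * ‖e j‖ := by
          gcongr
          linarith
        calc _ ≤ _ := h2
          _ = _ := by ring
      have hx0 : ‖c • L.p (L.s j)‖ ≤ d * (δ * ‖L.p (L.s j)‖) := by
        rw [norm_smul, Real.norm_of_nonneg hc]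
        have h2 : c * ‖L.p (L.s j)‖ ≤ δ * d * ‖L.p (L.s j)‖ := by gcongr
        calc _ ≤ _ := h2
          _ = _ := by ring
      refine ⟨⟨_, h1⟩, ?_, ?_⟩
      · rw [h1]
        exact right_mem hpr ha hδ hf hj h hG hc hcd
      · refine near hL hpr hf hj h hk1 hk2 (d := d) hd ?_ ?_ h1 ?_
        · rw [add_sub_cancel_right]
          refine hx0.trans ?_
          gcongr
          linarith
        · rw [h1]
          have h3 : c • L.p (L.s j) + d • L.p j +
              (a * kk L pr a e j δ * (δ * d - c)) • e j - d • L.p j =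
              c • L.p (L.s j) + (a * kk L pr a e j δ * (δ * d - c)) • e j := by abel
          rw [h3]
          refine (norm_add_le _ _).trans ((add_le_add hx0 hr).trans ?_)
          rw [← mul_add, ← mul_add]
          gcongr
          linarith
        · refine hr.trans ?_
          gcongr
          linarith
  -- equal images near an arm
  have hWeq : ∀ j ∈ L.S, NF L j → ∀ x y, InW L pr a δ j x → InW L pr a δ j y →
      (∃ l : ℝ, y = x + l • e j) → y = x := by
    rintro j hj h x y hx hy ⟨l, hl⟩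
    apply W_inj (l := l) hpr hf hj h hy hx
    rw [hl]; abel
  -- a middle point and a point near an arm
  have hMW : ∀ i ∈ L.S, ∀ j ∈ L.S, NF L j → ∀ x y, x ∈ (cut L pr a δ).face (lab L i) →
      InW L pr a δ j y → x = Ψ y → x = y := by
    intro i hi j hj h x y hx hy hxy
    obtain ⟨⟨r, hr⟩, hm, -⟩ := hW j hj h y hy
    have hxW : InW L pr a δ j x := by
      have hne : lab L i ≠ (j, false) := by
        intro he
        by_cases h' : L.X = some i
        · rw [lab_flat L h'] at he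
          have h3 : i = j := congrArg Prod.fst he
          rw [h3] at h'
          exact h h'
        · rw [lab_nf L h'] at he
          have h3 : true = false := congrArg Prod.snd he
          exact absurd h3 (by simp)
      rcases hOk.simple (lab L i) (lab_mem L pr a δ hi) (j, false)
        (mem_cut_false L pr a δ hj) hne x hx (hxy ▸ hm) with ⟨-, t, ht, h2⟩ | ⟨h1, t, ht, h2⟩ | h2
      · left
        refine ⟨t * (δ * a), t, by positivity, ht, by linarith, ?_⟩
        rw [h2, p_false L pr a δ h]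
        module
      · right
        refine ⟨t * δ, t, by positivity, ht, by linarith, ?_⟩
        rw [h2, h1, s_false L pr a δ h, p_true L pr a δ h]
        module
      · rw [h2]; exact InW_zero j
    exact hWeq j hj h y x hy hxW ⟨r, by rw [hxy, hr]⟩
  refine ⟨Ψ, hΨc, ?_, ?_, ?_, ?_, ?_, hmid, ?_, ?_⟩
  · -- injectivity
    intro x hx y hy hxy
    rcases hcases x hx with ⟨i, hi, h1, h2⟩ | ⟨j, hj, h1, h2⟩
    · rcases hcases y hy with ⟨i', hi', h3, h4⟩ | ⟨j', hj', h3, h4⟩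
      · rw [← h1, hxy, h3]
      · rw [h1] at hxy
        exact hMW i hi j' hj' h3 x y h2 h4 hxy
    · rcases hcases y hy with ⟨i', hi', h3, h4⟩ | ⟨j', hj', h3, h4⟩
      · rw [h3] at hxy
        exact (hMW i' hi' j hj h1 y x h4 h2 hxy.symm).symm
      · obtain ⟨⟨r, hr⟩, hm, -⟩ := hW j hj h1 x h2
        obtain ⟨⟨r', hr'⟩, hm', -⟩ := hW j' hj' h3 y h4
        by_cases hjj : j = j'
        · subst hjj
          refine (hWeq j hj h1 x y h2 h4 ⟨r - r', ?_⟩).symm
          have h5 : x + r • e j = y + r' • e j := by rw [← hr, ← hr', hxy]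
          have h6 : y = x + r • e j - r' • e j := by rw [h5]; abel
          rw [h6]; module
        · have hne : ((j, false) : V × Bool) ≠ (j', false) := by
            intro he
            exact hjj (congrArg Prod.fst he)
          have h0 : Ψ x = 0 := by
            rcases hOk.simple (j, false) (mem_cut_false L pr a δ hj) (j', false)
              (mem_cut_false L pr a δ hj') hne (Ψ x) hm (hxy ▸ hm') with
              ⟨h5, -⟩ | ⟨h5, -⟩ | h5
            · rw [s_false L pr a δ h1] at h5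
              have h6 : false = true := congrArg Prod.snd h5
              exact absurd h6 (by simp)
            · rw [s_false L pr a δ h3] at h5
              have h6 : false = true := congrArg Prod.snd h5
              exact absurd h6 (by simp)
            · exact h5
          have hx0 : 0 = x := hWeq j hj h1 x 0 h2 (InW_zero j) ⟨r, by rw [← hr, h0]⟩
          have hy0 : 0 = y := hWeq j' hj' h3 y 0 h4 (InW_zero j')
            ⟨r', by rw [← hr', ← hxy, h0]⟩
          rw [← hx0, ← hy0]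
  · -- maps
    intro x hx
    rcases hcases x hx with ⟨i, hi, h1, h2⟩ | ⟨j, hj, h1, h2⟩
    · rw [h1]; exact ⟨lab L i, lab_mem L pr a δ hi, h2⟩
    · exact ⟨(j, false), mem_cut_false L pr a δ hj, (hW j hj h1 x h2).2.1⟩
  · intro x hx
    rcases hcases x hx with ⟨i, hi, h1, h2⟩ | ⟨j, hj, h1, h2⟩
    · exact ⟨0, by rw [h1, zero_smul, sub_zero]⟩
    · exact (hW j hj h1 x h2).2.2.1
  · intro x hx
    rcases hcases x hx with ⟨i, hi, h1, h2⟩ | ⟨j, hj, h1, h2⟩
    · rw [h1]
    · exact (hW j hj h1 x h2).2.2.2.1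
  · intro x hx
    rcases hcases x hx with ⟨i, hi, h1, h2⟩ | ⟨j, hj, h1, h2⟩
    · rw [h1, sub_self, norm_zero]; positivity
    · exact (hW j hj h1 x h2).2.2.2.2
  · intro j hj h c d hc hd hcd
    exact (hW j hj h _ (Or.inl ⟨c, d, hc, hd, hcd, rfl⟩)).2.1
  · intro j hj h c d hc hd hcd
    exact (hW j hj h _ (Or.inr ⟨c, d, hc, hd, hcd, rfl⟩)).2.1

end

end PSI_

open PSI_ in
theorem PSI_proof : Stmt_PSI := by
  intro V _ L pr hL hpr a ha β e ρ hf
  have h1 : ∀ᶠ δ : ℝ in 𝓝[>] 0, ∀ j ∈ L.S, NF L j → Dat L pr a e ρ j δ := by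
    rw [Filter.eventually_all_finset]
    intro j hj
    by_cases h : NF L j
    · filter_upwards [dat_ev hL hpr ha hf hj h] with δ hδ
      intro _
      exact hδ
    · exact Filter.Eventually.of_forall fun δ h' => absurd h' h
  have h2 : ∀ᶠ δ : ℝ in 𝓝[>] 0, a * δ ^ 2 < 1 := by
    have h3 : ∀ᶠ δ : ℝ in 𝓝 0, a * δ ^ 2 < 1 := by
      have hc : Continuous fun δ : ℝ => a * δ ^ 2 := by fun_prop
      apply hc.continuousAt.eventually (gt_mem_nhds _)
      simp
    exact h3.filter_mono nhdsWithin_le_nhds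
  obtain ⟨δ₀, h0, h3⟩ := (mem_nhdsGT_iff_exists_Ioo_subset).1 (h1.and h2)
  refine ⟨δ₀, h0, fun δ hδ hδ' hOk => ?_⟩
  obtain ⟨h4, h5⟩ := h3 ⟨hδ, hδ'⟩
  exact main hL hpr ha hδ h5 hf h4 hOk

end Pool.Agent.TSC
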