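import Pool.Agent.TSC.Stmts

/-!
# TSC: module RZZ (RES for the modified field)
-/

set_option autoImplicit false

namespace Pool.Agent.TSC

open Set Filter Topology Pool.Agent.TSM

namespace RZZ_

variable {V : Type} [DecidableEq V]

/-- `Near` is monotone. -/
theorem near_mono {κ : Type} {L : Pg V} {Ch : V → Finset κ} {N : κ → E3} {o : V → ℝ}
    {oN : κ → ℝ} {η η' : ℝ} {A : V → Aff} {B : κ → Aff} (h : L.Near Ch N o oN η A B)
    (hη : η ≤ η') : L.Near Ch N o oN η' A B :=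
  ⟨fun i hi => ⟨(h.1 i hi).1.trans_le hη, (h.1 i hi).2.trans_le hη⟩,
    fun j hj n hn => ⟨(h.2.1 j hj n hn).1.trans_le hη, (h.2.1 j hj n hn).2.trans_le hη⟩, h.2.2⟩

/-- `Near` implies `NearK`. -/
theorem near_nearK {κ : Type} {L : Pg V} {Ch : V → Finset κ} {N : κ → E3} {o : V → ℝ}
    {oN : κ → ℝ} {η η' : ℝ} {A : V → Aff} {B : κ → Aff} (h : L.Near Ch N o oN η A B)
    (hη : η ≤ η') (h1 : η ≤ 1) :
    L.NearK Ch N (∑ i ∈ L.S, |o i| + ∑ j ∈ L.S, ∑ n ∈ Ch j, |oN n| + 1) η' A B := by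
  have a1 : 0 ≤ ∑ i ∈ L.S, |o i| := Finset.sum_nonneg fun _ _ => abs_nonneg _
  have a2 : 0 ≤ ∑ j ∈ L.S, ∑ n ∈ Ch j, |oN n| :=
    Finset.sum_nonneg fun _ _ => Finset.sum_nonneg fun _ _ => abs_nonneg _
  refine ⟨fun i hi => ⟨(h.1 i hi).1.trans_le hη, ?_⟩,
    fun j hj n hn => ⟨(h.2.1 j hj n hn).1.trans_le hη, ?_⟩, h.2.2⟩
  · have b1 := (h.1 i hi).2
    have b2 : |o i| ≤ ∑ i ∈ L.S, |o i| :=
      Finset.single_le_sum (f := fun i => |o i|) (fun _ _ => abs_nonneg _) hi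
    have b3 : |(A i).2| ≤ |(A i).2 - o i| + |o i| := by
      have := abs_add_le ((A i).2 - o i) (o i)
      rwa [sub_add_cancel] at this
    linarith
  · have b1 := (h.2.1 j hj n hn).2
    have b2 : |oN n| ≤ ∑ n ∈ Ch j, |oN n| :=
      Finset.single_le_sum (f := fun n => |oN n|) (fun _ _ => abs_nonneg _) hn
    have b4 : ∑ n ∈ Ch j, |oN n| ≤ ∑ j ∈ L.S, ∑ n ∈ Ch j, |oN n| :=
      Finset.single_le_sum (f := fun j => ∑ n ∈ Ch j, |oN n|)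
        (fun _ _ => Finset.sum_nonneg fun _ _ => abs_nonneg _) hj
    have b3 : |(B n).2| ≤ |(B n).2 - oN n| + |oN n| := by
      have := abs_add_le ((B n).2 - oN n) (oN n)
      rwa [sub_add_cancel] at this
    linarith

end RZZ_

open RZZ_

/-- RES for the modified field. -/
theorem RZZ_proof (h1 : Stmt_FTau) (h2 : Stmt_Chg) (h3 : Stmt_ZEQ) (h4 : Stmt_NRO)
    (h5 : Stmt_HLF) : Stmt_RZZ := by
  intro V _ L pr hL hpr a ha β hβ ε hε hε4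
  obtain ⟨δZ, hδZ, HZ⟩ := h3 V L pr hL hpr a ha ε hε hε4
  have ha1 : 0 < 1 / (a + 1) := by positivity
  refine ⟨min δZ (min 1 (1 / (a + 1))), lt_min hδZ (lt_min one_pos ha1), ?_⟩
  intro δ hδ hδ0 hok hAdm Ψ hΨ
  have hδZ' : δ < δZ := hδ0.trans_le (min_le_left _ _)
  have hδ1 : δ < 1 := hδ0.trans_le ((min_le_right _ _).trans (min_le_left _ _))
  have hδa : δ < 1 / (a + 1) := hδ0.trans_le ((min_le_right _ _).trans (min_le_right _ _))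
  have haδ : a * δ ^ 2 < 1 := by
    rw [lt_div_iff₀ (by positivity)] at hδa
    nlinarith [mul_pos ha hδ]
  obtain ⟨Λ, c, hT⟩ := hAdm
  have hc : 0 < c := hT.1
  obtain ⟨μ, εc, hμ, hεc, HC⟩ := h2 (V × Bool) (cut L pr a δ) hok
  obtain ⟨εF, CF, hεF, hCF, HF⟩ := h1 (V × Bool) (cut L pr a δ) hok Λ c μ hc hμ
  obtain ⟨εZ, hεZ, HZ2⟩ := HZ δ hδ hδZ' hok (CF * Λ)
  refine ⟨min εc (min εF εZ), lt_min hεc (lt_min hεF hεZ), ?_⟩
  intro ε' hε' hε'0 Co No hCond hRes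
  have e1 : ε' < εc := hε'0.trans_le (min_le_left _ _)
  have e2 : ε' < εF := hε'0.trans_le ((min_le_right _ _).trans (min_le_left _ _))
  have e3 : ε' < εZ := hε'0.trans_le ((min_le_right _ _).trans (min_le_right _ _))
  have hCG := HC ε' hε' e1 Co No hCond
  obtain ⟨ηF, hηF, HF2⟩ := HF ε' hε' e2 (Sym2 (V × Bool)) Co No hCG
  obtain ⟨ηZ, hηZ, HZ3⟩ := HZ2 ε' hε' e3 Co No hCond
  obtain ⟨oo, oNo, ηo, Ro, Mo, hηo, hRo, hoo, HRes⟩ := hRes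
  obtain ⟨HN1, HN2⟩ := h4 V L pr hL hpr a δ ha hδ haδ hok ε' Co No hCond
  obtain ⟨o, oN, η1, hη1, ho, HN1'⟩ := HN1 oo oNo ηo hηo hoo
  obtain ⟨η2, hη2, HN2'⟩ := HN2 ηF hηF
  obtain ⟨K, hK⟩ : ∃ K : ℝ, K = ∑ i ∈ L.S, |o i| +
    ∑ j ∈ L.S, ∑ n ∈ chL L Co j, |oN n| + 1 := ⟨_, rfl⟩
  obtain ⟨K', HK'⟩ := HN2' K
  obtain ⟨RF, hRF, HF3⟩ := HF2 K'
  obtain ⟨RZ, hRZ, HZ4⟩ := HZ3 K
  refine ⟨o, oN, min η1 (min η2 (min ηZ 1)), 2 * (Ro + RF + RZ), 2 * |Mo| + 1,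
    lt_min hη1 (lt_min hη2 (lt_min hηZ one_pos)), by positivity, ho, ?_⟩
  intro A B hNear
  have n1 : L.Near (chL L Co) (nL L pr a δ No) o oN η1 A B := near_mono hNear (min_le_left _ _)
  have n2 : L.NearK (chL L Co) (nL L pr a δ No) K η2 A B := by
    rw [hK]
    exact near_nearK hNear ((min_le_right _ _).trans (min_le_left _ _))
      ((min_le_right _ _).trans ((min_le_right _ _).trans (min_le_right _ _)))
  have n3 : L.NearK (chL L Co) (nL L pr a δ No) K ηZ A B := by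
    rw [hK]
    exact near_nearK hNear ((min_le_right _ _).trans ((min_le_right _ _).trans (min_le_left _ _)))
      ((min_le_right _ _).trans ((min_le_right _ _).trans (min_le_right _ _)))
  obtain ⟨Do, hDc, hDg, hDb, hDf⟩ := HRes _ _ (HN1' A B n1)
  obtain ⟨τ, hτ⟩ := HF3 _ _ (HK' A B n2) β hT
  refine ⟨Do ∘ Ψ, hDc.comp hΨ.cont hΨ.maps, fun x hx => ⟨?_, ?_⟩, fun x hx => ?_,
    fun x hx hxR => ?_⟩
  · obtain ⟨U, hU, hinj, p, q, r, hind, hG⟩ := (hDg (Ψ x) (hΨ.maps x hx)).1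
    refine ⟨L.cone ∩ Ψ ⁻¹' U, ?_, ?_, p, q, r, hind, fun y hy => hG _ hy.2⟩
    · refine Filter.inter_mem self_mem_nhdsWithin ?_
      have ht : Tendsto Ψ (𝓝[L.cone] x) (𝓝[(cut L pr a δ).cone] (Ψ x)) :=
        tendsto_nhdsWithin_iff.mpr ⟨hΨ.cont x hx,
          Filter.eventually_of_mem self_mem_nhdsWithin fun y hy => hΨ.maps y hy⟩
      exact ht hU
    · intro y hy z hz hyz
      exact hΨ.inj hy.1 hz.1 (hinj hy.2 hz.2 hyz)
  · exact h5 V L pr hL hpr a δ ha hδ _ (hDg (Ψ x) (hΨ.maps x hx)).2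
  · have b1 := hDb (Ψ x) (hΨ.maps x hx)
    have b2 := hΨ.bd x hx
    have b3 : ‖Ψ x‖ ≤ 3 / 2 * ‖x‖ := by
      have := norm_add_le (Ψ x - x) x
      rw [sub_add_cancel] at this
      linarith
    have b4 : ‖(Do ∘ Ψ) x - x‖ ≤ ‖Do (Ψ x) - Ψ x‖ + ‖Ψ x - x‖ := by
      have := norm_add_le (Do (Ψ x) - Ψ x) (Ψ x - x)
      rwa [sub_add_sub_cancel] at this
    have b5 : Mo * (1 + ‖Ψ x‖) ≤ |Mo| * (1 + 3 / 2 * ‖x‖) :=
      mul_le_mul (le_abs_self Mo) (by linarith) (by positivity) (abs_nonneg _)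
    have b6 := abs_nonneg Mo
    have b7 := norm_nonneg x
    have b8 := mul_nonneg b6 b7
    nlinarith
  · have hmem := hΨ.maps x hx
    have b2 := hΨ.bd x hx
    have b3 : ‖x‖ / 2 ≤ ‖Ψ x‖ := by
      have := norm_sub_norm_le x (Ψ x)
      rw [norm_sub_rev] at this
      linarith
    have c1 : Ro ≤ ‖Ψ x‖ := by linarith
    have c2 : RF ≤ ‖Ψ x‖ := by linarith
    have c3 : RZ ≤ ‖x‖ := by linarith
    obtain ⟨⟨t, ht⟩, hZ⟩ := hDf (Ψ x) hmem c1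
    obtain ⟨f1, f2, -, f4, f5, f6⟩ := hτ.2 (Ψ x) hmem c2
    have htτ : t = τ (Ψ x) := f4 t (by rw [← ht]; exact hZ)
    have hne : Ψ x ≠ 0 := by
      intro h0
      rw [h0, norm_zero] at c2
      linarith
    obtain ⟨s, hs⟩ := hΨ.dir x hx
    have hβ2 := hΨ.beta x hx
    refine ⟨⟨s + t, ?_⟩, ?_⟩
    · show Do (Ψ x) = x - (s + t) • β x
      rw [ht, hβ2, add_smul, ← sub_sub]
      rw [← hs]
    · have hDo : Do (Ψ x) = Ψ x - τ (Ψ x) • β (Ψ x) := by rw [ht, htτ]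
      refine HZ4 A B n3 β Ψ hΨ x hx c3 (Do (Ψ x)) ?_ ⟨?_, ?_, ?_⟩
      · rw [hDo, sub_sub_cancel_left, norm_neg, norm_smul, Real.norm_eq_abs]
        have g1 := hT.2.1 (Ψ x) hmem hne
        calc |τ (Ψ x)| * ‖β (Ψ x)‖ ≤ (CF * ε' * ‖Ψ x‖) * Λ :=
              mul_le_mul f2 g1 (norm_nonneg _) (by positivity)
          _ = CF * Λ * ε' * ‖Ψ x‖ := by ring
      · rw [hDo]; exact f1
      · rw [hDo]; exact f5
      · rw [hDo]; exact f6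

end Pool.Agent.TSC
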