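import Pool.Agent.TSC.Stmts

/-!
# TSC: ZEQ, transfer of the equations of the far surface
-/

set_option autoImplicit false

namespace Pool.Agent.TSC

open Set Filter Topology Pool.Agent.TSM

namespace ZEQ_

theorem ev_smul (t : ℝ) (Z : Aff) (y : E3) : ev (t • Z) y = t * ev Z y := by
  unfold ev
  rw [Prod.smul_fst, Prod.smul_snd, real_inner_smul_left, smul_eq_mul]
  ring

/-- A plane which is positive with a linear margin stays positive. -/
theorem posi {τ c0 M η K C ε' : ℝ} (hτ : |τ| = 1) (N z y : E3) (Z : Aff)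
    (h1 : c0 * ‖z‖ ≤ τ * inner ℝ N z) (h2 : ‖N‖ ≤ M) (h3 : ‖Z.1 - N‖ < η) (h4 : |Z.2| ≤ K)
    (h5 : ‖y - z‖ ≤ C * ε' * ‖z‖) (h6 : M * (|C| * ε') ≤ c0 / 4) (h7 : |C| * ε' ≤ 1)
    (h8 : η ≤ c0 / 8) (h9 : 2 * K ≤ c0 * ‖z‖) (hε' : 0 < ε') : 0 ≤ τ * ev Z y := by
  have hz : 0 ≤ ‖z‖ := norm_nonneg z
  have hM : 0 ≤ M := le_trans (norm_nonneg N) h2
  have hη : 0 ≤ η := le_trans (norm_nonneg _) h3.le
  have h5' : ‖y - z‖ ≤ |C| * ε' * ‖z‖ := by
    refine le_trans h5 (mul_le_mul_of_nonneg_right ?_ hz)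
    exact mul_le_mul_of_nonneg_right (le_abs_self C) hε'.le
  have hy : ‖y‖ ≤ 2 * ‖z‖ := by
    have e1 : ‖y‖ ≤ ‖y - z‖ + ‖z‖ := by
      calc ‖y‖ = ‖(y - z) + z‖ := by rw [sub_add_cancel]
        _ ≤ _ := norm_add_le _ _
    have e2 := mul_le_mul_of_nonneg_right h7 hz
    linarith
  have hdec : τ * ev Z y = τ * inner ℝ N z + τ * inner ℝ N (y - z) +
      τ * inner ℝ (Z.1 - N) y - τ * Z.2 := by
    unfold ev
    rw [inner_sub_right, inner_sub_left]
    ring
  have b1 : |τ * inner ℝ N (y - z)| ≤ c0 / 4 * ‖z‖ := by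
    rw [abs_mul, hτ, one_mul]
    calc |(inner ℝ N (y - z) : ℝ)| ≤ ‖N‖ * ‖y - z‖ := abs_real_inner_le_norm _ _
      _ ≤ M * (|C| * ε' * ‖z‖) := mul_le_mul h2 h5' (norm_nonneg _) hM
      _ = M * (|C| * ε') * ‖z‖ := by ring
      _ ≤ _ := mul_le_mul_of_nonneg_right h6 hz
  have b2 : |τ * inner ℝ (Z.1 - N) y| ≤ c0 / 4 * ‖z‖ := by
    rw [abs_mul, hτ, one_mul]
    calc |(inner ℝ (Z.1 - N) y : ℝ)| ≤ ‖Z.1 - N‖ * ‖y‖ := abs_real_inner_le_norm _ _
      _ ≤ η * (2 * ‖z‖) := mul_le_mul h3.le hy (norm_nonneg _) hη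
      _ ≤ c0 / 8 * (2 * ‖z‖) := mul_le_mul_of_nonneg_right h8 (by positivity)
      _ = _ := by ring
  have b3 : |τ * Z.2| ≤ c0 / 2 * ‖z‖ := by
    rw [abs_mul, hτ, one_mul]
    linarith
  have c1 := (abs_le.1 b1).1
  have c2 := (abs_le.1 b2).1
  have c3 := (abs_le.1 b3).2
  rw [hdec]
  linarith

section

variable {V : Type} [DecidableEq V] {L : Pg V} {pr : V → V} {a δ : ℝ}
  {Co : V × Bool → Finset (Sym2 (V × Bool))} {A : V → Aff} {B : Kap V → Aff}

/-! ### The planes -/

theorem ao_lab (i : V) : aoL L a δ A B (lab L i) = lam L a δ i • A i := by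
  unfold aoL
  by_cases h : L.X = some i
  · rw [lab_flat L h, if_pos (Or.inr h)]
  · rw [lab_nf L h, if_pos (Or.inl rfl)]

theorem ao_small {j : V} (h : NF L j) : aoL L a δ A B (j, false) = δ • B (Sum.inl j) := by
  unfold aoL
  rw [if_neg]
  rintro (h1 | h1)
  · exact absurd h1 (by simp)
  · exact h h1

theorem mem_lst_iff {W κ : Type} [DecidableEq W] (M : Pg W) (Ch : W → Finset κ) (A' : W → Aff)
    (B' : κ → Aff) (i : W) (Z : Aff) :
    Z ∈ M.lst Ch A' B' i ↔ Z = A' i ∨ Z = A' (M.s i) ∨ ∃ n ∈ Ch (M.s i), Z = B' n := Iff.rfl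

theorem sign_mul_smul {t c e : ℝ} (hc : 0 < c) (h : 0 ≤ t * (c * e)) : 0 ≤ t * e := by
  by_contra hn
  rw [not_le] at hn
  have : t * (c * e) = c * (t * e) := by ring
  rw [this] at h
  have := mul_neg_of_pos_of_neg hc hn
  linarith

/-- What the equations at the arm `(s i, false)` say. -/
theorem left_data (hL : L.Ok) (hpr : IsPr L pr) (ha : 0 < a) (hδ : 0 < δ) (haδ : a * δ ^ 2 < 1)
    {i : V} (hi : i ∈ L.S) (hnf : NF L (L.s i)) {y : E3}
    (h : (cut L pr a δ).ArmEq Co (aoL L a δ A B) (fun n => B (Sum.inr n)) (lab L i) y) :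
    0 ≤ Real.sign (L.turn i) * ev (A i) y ∧
    0 ≤ Real.sign (L.turn i) * ev (B (Sum.inl (L.s i))) y ∧
    (∀ n ∈ Co (L.s i, false), 0 ≤ Real.sign (L.turn i) * ev (B (Sum.inr n)) y) ∧
    (ev (A i) y = 0 ∨ ev (B (Sum.inl (L.s i))) y = 0 ∨
      ∃ n ∈ Co (L.s i, false), ev (B (Sum.inr n)) y = 0) := by
  have hpi : pr (L.s i) = i := (hpr i hi).2.2
  have hsg := sign_left a δ hL hpr (hL.maps i hi) hnf ha hδ haδ
  rw [hpi] at hsg
  have hlam := lam_pos (L := L) a δ ha haδ i
  obtain ⟨h1, Z, hZ, hZ0⟩ := h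
  rw [hsg] at h1
  have m1 : aoL L a δ A B (lab L i) ∈ (cut L pr a δ).lst Co (aoL L a δ A B)
      (fun n => B (Sum.inr n)) (lab L i) := Or.inl rfl
  have m2 : aoL L a δ A B (L.s i, false) ∈ (cut L pr a δ).lst Co (aoL L a δ A B)
      (fun n => B (Sum.inr n)) (lab L i) := by
    refine Or.inr (Or.inl ?_)
    rw [s_lab]
  have m3 : ∀ n ∈ Co (L.s i, false), B (Sum.inr n) ∈ (cut L pr a δ).lst Co (aoL L a δ A B)
      (fun n => B (Sum.inr n)) (lab L i) := by
    intro n hn
    refine Or.inr (Or.inr ⟨n, ?_, rfl⟩)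
    rw [s_lab]
    exact hn
  refine ⟨?_, ?_, fun n hn => h1 _ (m3 n hn), ?_⟩
  · have := h1 _ m1
    rw [ao_lab, ev_smul] at this
    exact sign_mul_smul hlam this
  · have := h1 _ m2
    rw [ao_small hnf, ev_smul] at this
    exact sign_mul_smul hδ this
  · rcases hZ with hZ | hZ | ⟨n, hn, hZ⟩
    · rw [hZ, ao_lab, ev_smul] at hZ0
      exact Or.inl ((mul_eq_zero.1 hZ0).resolve_left hlam.ne')
    · rw [hZ, s_lab, ao_small hnf, ev_smul] at hZ0
      exact Or.inr (Or.inl ((mul_eq_zero.1 hZ0).resolve_left hδ.ne'))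
    · rw [s_lab] at hn
      rw [hZ] at hZ0
      exact Or.inr (Or.inr ⟨n, hn, hZ0⟩)

/-- What the equations at the arm `(s i, true)` say. -/
theorem right_data (hL : L.Ok) (hpr : IsPr L pr) (ha : 0 < a) (hδ : 0 < δ) (haδ : a * δ ^ 2 < 1)
    {i : V} (hi : i ∈ L.S) (hnf : NF L (L.s i)) {y : E3}
    (h : (cut L pr a δ).ArmEq Co (aoL L a δ A B) (fun n => B (Sum.inr n)) (L.s i, false) y) :
    0 ≤ Real.sign (L.turn i) * ev (A (L.s i)) y ∧
    0 ≤ Real.sign (L.turn i) * ev (B (Sum.inl (L.s i))) y ∧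
    (∀ n ∈ Co (L.s i, true), 0 ≤ Real.sign (L.turn i) * ev (B (Sum.inr n)) y) ∧
    (ev (A (L.s i)) y = 0 ∨ ev (B (Sum.inl (L.s i))) y = 0 ∨
      ∃ n ∈ Co (L.s i, true), ev (B (Sum.inr n)) y = 0) := by
  have hpi : pr (L.s i) = i := (hpr i hi).2.2
  have hsg := sign_right a δ hL hpr (hL.maps i hi) hnf ha hδ haδ
  rw [hpi] at hsg
  have hlam := lam_pos (L := L) a δ ha haδ (L.s i)
  have hao : aoL L a δ A B (L.s i, true) = lam L a δ (L.s i) • A (L.s i) := by
    rw [← ao_lab (L := L) (a := a) (δ := δ) (A := A) (B := B) (L.s i), lab_nf L hnf]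
  obtain ⟨h1, Z, hZ, hZ0⟩ := h
  rw [hsg] at h1
  have m1 : aoL L a δ A B (L.s i, false) ∈ (cut L pr a δ).lst Co (aoL L a δ A B)
      (fun n => B (Sum.inr n)) (L.s i, false) := Or.inl rfl
  have m2 : aoL L a δ A B (L.s i, true) ∈ (cut L pr a δ).lst Co (aoL L a δ A B)
      (fun n => B (Sum.inr n)) (L.s i, false) := by
    refine Or.inr (Or.inl ?_)
    rw [s_false L pr a δ hnf]
  have m3 : ∀ n ∈ Co (L.s i, true), B (Sum.inr n) ∈ (cut L pr a δ).lst Co (aoL L a δ A B)
      (fun n => B (Sum.inr n)) (L.s i, false) := by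
    intro n hn
    refine Or.inr (Or.inr ⟨n, ?_, rfl⟩)
    rw [s_false L pr a δ hnf]
    exact hn
  refine ⟨?_, ?_, fun n hn => h1 _ (m3 n hn), ?_⟩
  · have := h1 _ m2
    rw [hao, ev_smul] at this
    exact sign_mul_smul hlam this
  · have := h1 _ m1
    rw [ao_small hnf, ev_smul] at this
    exact sign_mul_smul hδ this
  · rcases hZ with hZ | hZ | ⟨n, hn, hZ⟩
    · rw [hZ, ao_small hnf, ev_smul] at hZ0
      exact Or.inr (Or.inl ((mul_eq_zero.1 hZ0).resolve_left hδ.ne'))
    · rw [hZ, s_false L pr a δ hnf, hao, ev_smul] at hZ0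
      exact Or.inl ((mul_eq_zero.1 hZ0).resolve_left hlam.ne')
    · rw [s_false L pr a δ hnf] at hn
      rw [hZ] at hZ0
      exact Or.inr (Or.inr ⟨n, hn, hZ0⟩)

/-- The equations at the arm `s i` of `L`. -/
theorem armEq_of {i : V} (hnf : NF L (L.s i)) {y : E3}
    (h1 : 0 ≤ Real.sign (L.turn i) * ev (A i) y)
    (h2 : 0 ≤ Real.sign (L.turn i) * ev (A (L.s i)) y)
    (h3 : 0 ≤ Real.sign (L.turn i) * ev (B (Sum.inl (L.s i))) y)
    (h4 : ∀ n ∈ Co (L.s i, false), 0 ≤ Real.sign (L.turn i) * ev (B (Sum.inr n)) y)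
    (h5 : ∀ n ∈ Co (L.s i, true), 0 ≤ Real.sign (L.turn i) * ev (B (Sum.inr n)) y)
    (h6 : (ev (A i) y = 0 ∨ ev (B (Sum.inl (L.s i))) y = 0 ∨
        ∃ n ∈ Co (L.s i, false), ev (B (Sum.inr n)) y = 0) ∨
      (ev (A (L.s i)) y = 0 ∨ ev (B (Sum.inl (L.s i))) y = 0 ∨
        ∃ n ∈ Co (L.s i, true), ev (B (Sum.inr n)) y = 0)) :
    L.ArmEq (chL L Co) A B i y := by
  have hch : chL L Co (L.s i) = insert (Sum.inl (L.s i))
      ((Co (L.s i, false) ∪ Co (L.s i, true)).image Sum.inr) := by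
    unfold chL
    rw [if_neg hnf]
  constructor
  · intro Z hZ
    rcases hZ with hZ | hZ | ⟨n, hn, hZ⟩
    · rw [hZ]; exact h1
    · rw [hZ]; exact h2
    · rw [hch, Finset.mem_insert, Finset.mem_image] at hn
      rw [hZ]
      rcases hn with rfl | ⟨n', hn', rfl⟩
      · exact h3
      · rcases Finset.mem_union.1 hn' with hn' | hn'
        · exact h4 n' hn'
        · exact h5 n' hn'
  · have hBl : B (Sum.inl (L.s i)) ∈ L.lst (chL L Co) A B i := by
      refine Or.inr (Or.inr ⟨_, ?_, rfl⟩)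
      rw [hch]
      exact Finset.mem_insert_self _ _
    have hBr : ∀ n, n ∈ Co (L.s i, false) ∨ n ∈ Co (L.s i, true) →
        B (Sum.inr n) ∈ L.lst (chL L Co) A B i := by
      intro n hn
      refine Or.inr (Or.inr ⟨_, ?_, rfl⟩)
      rw [hch]
      exact Finset.mem_insert_of_mem (Finset.mem_image_of_mem _ (Finset.mem_union.2 hn))
    rcases h6 with (h | h | ⟨n, hn, h⟩) | (h | h | ⟨n, hn, h⟩)
    · exact ⟨_, Or.inl rfl, h⟩
    · exact ⟨_, hBl, h⟩
    · exact ⟨_, hBr n (Or.inl hn), h⟩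
    · exact ⟨_, Or.inr (Or.inl rfl), h⟩
    · exact ⟨_, hBl, h⟩
    · exact ⟨_, hBr n (Or.inr hn), h⟩

/-! ### Coordinates on the big faces -/

/-- The displacement of the left end of a big face. -/
noncomputable def dl (L : Pg V) (δ : ℝ) (i : V) : ℝ := if L.X = some i then 0 else δ

/-- The displacement of the right end of a big face. -/
noncomputable def dr (L : Pg V) (a δ : ℝ) (j : V) : ℝ := if L.X = some j then 0 else δ * a

theorem p_lab (i : V) :
    (cut L pr a δ).p (lab L i) = L.p i + dl L δ i • L.p (L.s i) := by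
  unfold dl
  by_cases h : L.X = some i
  · rw [lab_flat L h, p_flat L pr a δ h, if_pos h, zero_smul, add_zero]
  · rw [lab_nf L h, p_true L pr a δ h, if_neg h]

theorem p_left (hpr : IsPr L pr) {i : V} (hi : i ∈ L.S) :
    (cut L pr a δ).p (L.s i, false) = L.p (L.s i) + dr L a δ (L.s i) • L.p i := by
  unfold dr
  by_cases h : L.X = some (L.s i)
  · rw [p_flat L pr a δ h, if_pos h, zero_smul, add_zero]
  · rw [p_false L pr a δ h, if_neg h, (hpr i hi).2.2]

theorem dl_bd (hδ : 0 < δ) (i : V) : 0 ≤ dl L δ i ∧ dl L δ i ≤ δ := by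
  unfold dl
  split_ifs
  · exact ⟨le_refl _, hδ.le⟩
  · exact ⟨hδ.le, le_refl _⟩

theorem dr_bd (ha : 0 < a) (hδ : 0 < δ) (i : V) : 0 ≤ dr L a δ i ∧ dr L a δ i ≤ δ * a := by
  unfold dr
  have : 0 < δ * a := mul_pos hδ ha
  split_ifs
  · exact ⟨le_refl _, this.le⟩
  · exact ⟨this.le, le_refl _⟩

theorem det_pos (ha : 0 < a) (hδ : 0 < δ) (haδ : a * δ ^ 2 < 1) (i : V) :
    0 < 1 - dl L δ i * dr L a δ (L.s i) := by
  have h1 := dl_bd (L := L) hδ i
  have h2 := dr_bd (L := L) ha hδ (L.s i)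
  have h3 : dl L δ i * dr L a δ (L.s i) ≤ δ * (δ * a) := mul_le_mul h1.2 h2.2 h2.1 hδ.le
  have h4 : δ * (δ * a) = a * δ ^ 2 := by ring
  linarith

theorem decomp (hpr : IsPr L pr) (ha : 0 < a) (hδ : 0 < δ) (haδ : a * δ ^ 2 < 1) {i : V}
    (hi : i ∈ L.S) (c d : ℝ) :
    c • L.p i + d • L.p (L.s i) =
      ((c - dr L a δ (L.s i) * d) / (1 - dl L δ i * dr L a δ (L.s i))) •
        (cut L pr a δ).p (lab L i) +
      ((d - dl L δ i * c) / (1 - dl L δ i * dr L a δ (L.s i))) •
        (cut L pr a δ).p (L.s i, false) := by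
  have h := (det_pos (L := L) ha hδ haδ i).ne'
  rw [p_lab, p_left hpr hi]
  have e1 : (c - dr L a δ (L.s i) * d) / (1 - dl L δ i * dr L a δ (L.s i)) +
      (d - dl L δ i * c) / (1 - dl L δ i * dr L a δ (L.s i)) * dr L a δ (L.s i) = c := by
    rw [div_mul_eq_mul_div, ← add_div, div_eq_iff h]
    ring
  have e2 : (c - dr L a δ (L.s i) * d) / (1 - dl L δ i * dr L a δ (L.s i)) * dl L δ i +
      (d - dl L δ i * c) / (1 - dl L δ i * dr L a δ (L.s i)) = d := by
    rw [div_mul_eq_mul_div, ← add_div, div_eq_iff h]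
    ring
  set c' := (c - dr L a δ (L.s i) * d) / (1 - dl L δ i * dr L a δ (L.s i))
  set d' := (d - dl L δ i * c) / (1 - dl L δ i * dr L a δ (L.s i))
  calc c • L.p i + d • L.p (L.s i)
      = (c' + d' * dr L a δ (L.s i)) • L.p i + (c' * dl L δ i + d') • L.p (L.s i) := by
        rw [e1, e2]
    _ = _ := by module

/-! ### Zones of the cut polygon -/

theorem zone_i (hpr : IsPr L pr) (ha : 0 < a) (hδ : 0 < δ) (hδ1 : δ ≤ 1)
    (haδ : a * δ ^ 2 < 1) {ε' : ℝ} (hε' : 0 < ε') (hε1 : ε' ≤ 1 / 2) {i : V}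
    (hi : i ∈ L.S) {c d : ℝ} (hc : 0 ≤ c) (hcd : 2 * c ≤ d)
    (hdr : dr L a δ (L.s i) * d ≤ c) :
    c • L.p i + d • L.p (L.s i) ∈ (cut L pr a δ).armZone ε' (lab L i) ∨
    c • L.p i + d • L.p (L.s i) ∈ (cut L pr a δ).faceZone ε' (lab L i) := by
  have hΔ := det_pos (L := L) ha hδ haδ i
  have hdl := dl_bd (L := L) hδ i
  have hdr0 := dr_bd (L := L) ha hδ (L.s i)
  have hdlc : dl L δ i * c ≤ c := by nlinarith [hdl.1, hdl.2]
  have hx := decomp (L := L) hpr ha hδ haδ hi c d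
  have hc' : 0 ≤ (c - dr L a δ (L.s i) * d) / (1 - dl L δ i * dr L a δ (L.s i)) :=
    div_nonneg (by linarith) hΔ.le
  have hd' : 0 ≤ (d - dl L δ i * c) / (1 - dl L δ i * dr L a δ (L.s i)) :=
    div_nonneg (by linarith) hΔ.le
  by_cases h : (c - dr L a δ (L.s i) * d) / (1 - dl L δ i * dr L a δ (L.s i)) ≤
      2 * ε' * ((d - dl L δ i * c) / (1 - dl L δ i * dr L a δ (L.s i)))
  · left
    refine ⟨_, _, hc', hd', h, Or.inl ?_⟩
    rw [s_lab]
    exact hx
  · right
    rw [not_le] at h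
    refine ⟨_, _, hc', hd', ?_, ?_, ?_⟩
    rotate_left 2
    · rw [s_lab]
      exact hx
    · have := mul_nonneg hε'.le hd'
      linarith
    · rw [← mul_div_assoc]
      apply div_le_div_of_nonneg_right _ hΔ.le
      have h1 : 0 ≤ dr L a δ (L.s i) * d := mul_nonneg hdr0.1 (by linarith)
      have h2 : ε' * (c - dr L a δ (L.s i) * d) ≤ 1 / 2 * c := by
        apply mul_le_mul hε1 (by linarith) (by linarith) (by norm_num)
      linarith

theorem zone_j (hpr : IsPr L pr) (ha : 0 < a) (hδ : 0 < δ) (hδa : δ * a ≤ 1)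
    (haδ : a * δ ^ 2 < 1) {ε' : ℝ} (hε' : 0 < ε') (hε1 : ε' ≤ 1 / 2) {i : V}
    (hi : i ∈ L.S) {c d : ℝ} (hc : 0 ≤ c) (hcd : 2 * c ≤ d)
    (hdl' : dl L δ i * d ≤ c) {q : V × Bool} (hq : (cut L pr a δ).s q = lab L i) :
    d • L.p i + c • L.p (L.s i) ∈ (cut L pr a δ).armZone ε' q ∨
    d • L.p i + c • L.p (L.s i) ∈ (cut L pr a δ).faceZone ε' (lab L i) := by
  have hΔ := det_pos (L := L) ha hδ haδ i
  have hdl := dl_bd (L := L) hδ i
  have hdr0 := dr_bd (L := L) ha hδ (L.s i)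
  have hdrc : dr L a δ (L.s i) * c ≤ c := by nlinarith [hdr0.1, hdr0.2]
  have hx := decomp (L := L) hpr ha hδ haδ hi d c
  have hc' : 0 ≤ (d - dr L a δ (L.s i) * c) / (1 - dl L δ i * dr L a δ (L.s i)) :=
    div_nonneg (by linarith) hΔ.le
  have hd' : 0 ≤ (c - dl L δ i * d) / (1 - dl L δ i * dr L a δ (L.s i)) :=
    div_nonneg (by linarith) hΔ.le
  by_cases h : (c - dl L δ i * d) / (1 - dl L δ i * dr L a δ (L.s i)) ≤
      2 * ε' * ((d - dr L a δ (L.s i) * c) / (1 - dl L δ i * dr L a δ (L.s i)))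
  · left
    refine ⟨_, _, hd', hc', h, Or.inr ?_⟩
    rw [hq, s_lab, add_comm]
    rw [add_comm] at hx
    rw [hx, add_comm]
  · right
    rw [not_le] at h
    refine ⟨_, _, hc', hd', ?_, ?_, ?_⟩
    rotate_left 2
    · rw [s_lab]
      exact hx
    · rw [← mul_div_assoc]
      apply div_le_div_of_nonneg_right _ hΔ.le
      have h1 : 0 ≤ dl L δ i * d := mul_nonneg hdl.1 (by linarith)
      have h2 : ε' * (c - dl L δ i * d) ≤ 1 / 2 * c := by
        apply mul_le_mul hε1 (by linarith) (by linarith) (by norm_num)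
      linarith
    · have := mul_nonneg hε'.le hc'
      linarith

theorem zone_f (hpr : IsPr L pr) (ha : 0 < a) (hδ : 0 < δ) (haδ : a * δ ^ 2 < 1) {ε ε' : ℝ}
    (hδε : δ ≤ ε / 2) (hδaε : δ * a ≤ ε / 2) (hε1 : ε' ≤ ε / 2)
    {i : V} (hi : i ∈ L.S) {c d : ℝ} (hc : 0 ≤ c) (hd : 0 ≤ d)
    (h1 : ε * d ≤ c) (h2 : ε * c ≤ d) :
    c • L.p i + d • L.p (L.s i) ∈ (cut L pr a δ).faceZone ε' (lab L i) := by
  have hΔ := det_pos (L := L) ha hδ haδ i
  have hdl := dl_bd (L := L) hδ i
  have hdr0 := dr_bd (L := L) ha hδ (L.s i)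
  have hx := decomp (L := L) hpr ha hδ haδ hi c d
  have e1 : dr L a δ (L.s i) * d ≤ ε / 2 * d :=
    mul_le_mul_of_nonneg_right (hdr0.2.trans hδaε) hd
  have e2 : dl L δ i * c ≤ ε / 2 * c := mul_le_mul_of_nonneg_right (hdl.2.trans hδε) hc
  have e3 : 0 ≤ dr L a δ (L.s i) * d := mul_nonneg hdr0.1 hd
  have e4 : 0 ≤ dl L δ i * c := mul_nonneg hdl.1 hc
  have e5 : 0 ≤ ε / 2 * c := mul_nonneg (by linarith) hc
  have e6 : 0 ≤ ε / 2 * d := mul_nonneg (by linarith) hd
  refine ⟨(c - dr L a δ (L.s i) * d) / (1 - dl L δ i * dr L a δ (L.s i)),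
    (d - dl L δ i * c) / (1 - dl L δ i * dr L a δ (L.s i)), div_nonneg (by linarith) hΔ.le,
    div_nonneg (by linarith) hΔ.le, ?_, ?_, ?_⟩
  rotate_left 2
  · rw [s_lab]
    exact hx
  · rw [← mul_div_assoc]
    apply div_le_div_of_nonneg_right _ hΔ.le
    have h3 : ε' * (d - dl L δ i * c) ≤ ε / 2 * d := by
      apply mul_le_mul hε1 (by linarith) (by linarith) (by linarith)
    linarith
  · rw [← mul_div_assoc]
    apply div_le_div_of_nonneg_right _ hΔ.le
    have h3 : ε' * (c - dr L a δ (L.s i) * d) ≤ ε / 2 * c := by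
      apply mul_le_mul hε1 (by linarith) (by linarith) (by linarith)
    linarith

/-! ### Products with the normals -/

theorem nor_i_i (i : V) : (inner ℝ (L.nor i) (L.p i) : ℝ) = 0 := by
  unfold Pg.nor
  rw [inner_crs, det3_self13]

theorem nor_i_si (i : V) : (inner ℝ (L.nor i) (L.p (L.s i)) : ℝ) = 0 := by
  unfold Pg.nor
  rw [inner_crs, det3_self23]

theorem nor_i_ssi (i : V) : (inner ℝ (L.nor i) (L.p (L.s (L.s i))) : ℝ) = L.turn i := by
  unfold Pg.nor Pg.turn
  rw [inner_crs]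

theorem nor_si_i (i : V) : (inner ℝ (L.nor (L.s i)) (L.p i) : ℝ) = L.turn i := by
  unfold Pg.nor Pg.turn
  rw [inner_crs, ← det3_rot]

theorem norm_two_le {p q : E3} {c d Mo : ℝ} (hc : 0 ≤ c) (hd : 0 ≤ d) (hcd : c ≤ d)
    (hp : ‖p‖ ≤ Mo) (hq : ‖q‖ ≤ Mo) : ‖c • p + d • q‖ ≤ 2 * d * Mo := by
  have hMo : 0 ≤ Mo := le_trans (norm_nonneg p) hp
  calc ‖c • p + d • q‖ ≤ ‖c • p‖ + ‖d • q‖ := norm_add_le _ _
    _ = c * ‖p‖ + d * ‖q‖ := by
        rw [norm_smul, norm_smul, Real.norm_of_nonneg hc, Real.norm_of_nonneg hd]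
    _ ≤ d * Mo + d * Mo :=
        add_le_add (mul_le_mul hcd hp (norm_nonneg _) hd) (mul_le_mul_of_nonneg_left hq hd)
    _ = 2 * d * Mo := by ring

/-- The equations at the arm `s i`, case of a non-flat arm. -/
theorem arm_geo (hL : L.Ok) (hpr : IsPr L pr) (ha : 0 < a) (hδ : 0 < δ) (hδ1 : δ ≤ 1)
    (hδa : δ * a ≤ 1) (haδ : a * δ ^ 2 < 1) {ε' c0 Mo Tm cm Cm : ℝ} (hε' : 0 < ε')
    (hε1 : ε' ≤ 1 / 2) (hMo : 0 < Mo) (hTm : 0 < Tm) (hcm : 0 < cm)
    (hc1 : c0 ≤ δ * a * Tm / (2 * Mo)) (hc2 : c0 ≤ δ * Tm / (2 * Mo))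
    (hc3 : c0 ≤ cm / (4 * Mo)) (hCm : Cm * ε' ≤ cm / 2)
    {No : Sym2 (V × Bool) → E3}
    {i : V} (hi : i ∈ L.S) (hnf : NF L (L.s i)) (hT : Tm ≤ |L.turn i|)
    (hp1 : ‖L.p i‖ ≤ Mo) (hp2 : ‖L.p (L.s i)‖ ≤ Mo) (hp3 : ‖L.p (L.s (L.s i))‖ ≤ Mo)
    (hP1 : ‖(cut L pr a δ).p (L.s i, false)‖ ≤ Mo) (hP2 : ‖(cut L pr a δ).p (L.s i, true)‖ ≤ Mo)
    (hmF : ∀ n ∈ Co (L.s i, false),
      |(inner ℝ (No n) ((cut L pr a δ).p (L.s i, false)) : ℝ)| ≤ Cm * ε' ∧
      cm ≤ Real.sign (L.turn i) * inner ℝ (No n) ((cut L pr a δ).p (L.s i, true)) ∧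
      cm ≤ Real.sign (L.turn i) * inner ℝ (No n) (L.p (L.s (L.s i))))
    (hmT : ∀ n ∈ Co (L.s i, true),
      |(inner ℝ (No n) ((cut L pr a δ).p (L.s i, true)) : ℝ)| ≤ Cm * ε' ∧
      cm ≤ Real.sign (L.turn i) * inner ℝ (No n) ((cut L pr a δ).p (L.s i, false)) ∧
      cm ≤ Real.sign (L.turn i) * inner ℝ (No n) (L.p i))
    {z y : E3}
    (hFull : FullEq (cut L pr a δ) Co (aoL L a δ A B) (fun n => B (Sum.inr n)) ε' z y)
    (hPA : ∀ j ∈ L.S, c0 * ‖z‖ ≤ Real.sign (L.turn i) * inner ℝ (L.nor j) z →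
      0 ≤ Real.sign (L.turn i) * ev (A j) y)
    (hPB : ∀ n, n ∈ Co (L.s i, false) ∨ n ∈ Co (L.s i, true) →
      c0 * ‖z‖ ≤ Real.sign (L.turn i) * inner ℝ (No n) z →
      0 ≤ Real.sign (L.turn i) * ev (B (Sum.inr n)) y)
    (hz : (∃ c d : ℝ, 0 ≤ c ∧ 2 * c ≤ d ∧ δ * a * d ≤ c ∧ z = c • L.p i + d • L.p (L.s i)) ∨
      z ∈ (cut L pr a δ).face (L.s i, false) ∨
      (∃ c d : ℝ, 0 ≤ c ∧ 2 * c ≤ d ∧ δ * d ≤ c ∧
        z = d • L.p (L.s i) + c • L.p (L.s (L.s i)))) :
    L.ArmEq (chL L Co) A B i y := by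
  obtain ⟨⟨hZA, -⟩, hF2, hF3⟩ := hFull
  have hsi := hL.maps i hi
  have hpi : pr (L.s i) = i := (hpr i hi).2.2
  have hτT : Real.sign (L.turn i) * L.turn i = |L.turn i| := by
    rcases lt_trichotomy (L.turn i) 0 with h | h | h
    · rw [Real.sign_of_neg h, abs_of_neg h]; ring
    · rw [h]; simp
    · rw [Real.sign_of_pos h, abs_of_pos h]; ring
  have hlabi : lab L i ∈ (cut L pr a δ).S := lab_mem L pr a δ hi
  have hsf : (L.s i, false) ∈ (cut L pr a δ).S := mem_cut_false L pr a δ hsi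
  have hTn : L.turn i ≠ 0 := by
    intro h
    rw [h, abs_zero] at hT
    linarith
  have ht1 : (cut L pr a δ).turn (lab L i) ≠ 0 := by
    have h := turn_left a δ hL hpr hsi hnf
    rw [hpi] at h
    rw [h]
    exact mul_ne_zero (lam_pos a δ ha haδ _).ne' (mul_ne_zero hδ.ne' hTn)
  have ht2 : (cut L pr a δ).turn (L.s i, false) ≠ 0 := by
    have h := turn_right a δ hL hpr hsi hnf
    rw [hpi] at h
    rw [h]
    exact mul_ne_zero (lam_pos a δ ha haδ _).ne' (mul_ne_zero (mul_pos hδ ha).ne' hTn)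
  have hslab : (cut L pr a δ).s (lab L i) = (L.s i, false) := s_lab L pr a δ i
  have hssf : (cut L pr a δ).s (L.s i, false) = (L.s i, true) := s_false L pr a δ hnf
  have hlabs : lab L (L.s i) = (L.s i, true) := lab_nf L hnf
  -- the two cases
  have goL : (cut L pr a δ).ArmEq Co (aoL L a δ A B) (fun n => B (Sum.inr n)) (lab L i) y →
      c0 * ‖z‖ ≤ Real.sign (L.turn i) * inner ℝ (L.nor (L.s i)) z →
      (∀ n ∈ Co (L.s i, true), c0 * ‖z‖ ≤ Real.sign (L.turn i) * inner ℝ (No n) z) →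
      L.ArmEq (chL L Co) A B i y := by
    intro h m1 m2
    obtain ⟨g1, g2, g3, g4⟩ := left_data hL hpr ha hδ haδ hi hnf h
    exact armEq_of hnf g1 (hPA _ hsi m1) g2 g3 (fun n hn => hPB n (Or.inr hn) (m2 n hn))
      (Or.inl g4)
  have goR : (cut L pr a δ).ArmEq Co (aoL L a δ A B) (fun n => B (Sum.inr n)) (L.s i, false) y →
      c0 * ‖z‖ ≤ Real.sign (L.turn i) * inner ℝ (L.nor i) z →
      (∀ n ∈ Co (L.s i, false), c0 * ‖z‖ ≤ Real.sign (L.turn i) * inner ℝ (No n) z) →
      L.ArmEq (chL L Co) A B i y := by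
    intro h m1 m2
    obtain ⟨g1, g2, g3, g4⟩ := right_data hL hpr ha hδ haδ hi hnf h
    exact armEq_of hnf (hPA _ hi m1) g1 g2 (fun n hn => hPB n (Or.inl hn) (m2 n hn)) g3
      (Or.inr g4)
  have hbnd : ∀ {k d X : ℝ}, 0 ≤ d → c0 ≤ k / (2 * Mo) → 0 ≤ k → X ≤ 2 * d * Mo →
      0 ≤ X → c0 * X ≤ k * d := by
    intro k d X hd hk hk0 hX hX0
    calc c0 * X ≤ k / (2 * Mo) * X := mul_le_mul_of_nonneg_right hk hX0
      _ ≤ k / (2 * Mo) * (2 * d * Mo) := mul_le_mul_of_nonneg_left hX (by positivity)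
      _ = k * d := by field_simp
  have hc3' : c0 ≤ (cm / 2) / (2 * Mo) := by
    have : (cm / 2) / (2 * Mo) = cm / (4 * Mo) := by
      field_simp
      norm_num
    rw [this]
    exact hc3
  rcases hz with ⟨c, d, hc, hcd, hcd2, hz⟩ | ⟨u, v, hu, hv, hz⟩ | ⟨c, d, hc, hcd, hcd2, hz⟩
  · -- the point is on the big face `i`
    have hd : 0 ≤ d := by linarith
    have hzone := zone_i (L := L) (pr := pr) hpr ha hδ hδ1 haδ hε' hε1 hi hc hcd (by
      unfold dr
      rw [if_neg hnf]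
      exact hcd2)
    rw [← hz] at hzone
    have hArm : (cut L pr a δ).ArmEq Co (aoL L a δ A B) (fun n => B (Sum.inr n)) (lab L i) y := by
      rcases hzone with h | h
      · exact hZA _ hlabi h
      · exact hF2 _ hlabi h ht1
    have hnz : ‖z‖ ≤ 2 * d * Mo := by
      rw [hz]
      exact norm_two_le hc hd (by linarith) hp1 hp2
    refine goL hArm ?_ ?_
    · have e1 : Real.sign (L.turn i) * inner ℝ (L.nor (L.s i)) z = c * |L.turn i| := by
        rw [hz, inner_add_right, real_inner_smul_right, real_inner_smul_right, nor_si_i, nor_i_i,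
          ← hτT]
        ring
      rw [e1]
      refine le_trans (hbnd hd hc1 (by positivity) hnz (norm_nonneg _)) ?_
      calc δ * a * Tm * d = (δ * a * d) * Tm := by ring
        _ ≤ c * |L.turn i| := mul_le_mul hcd2 hT hTm.le hc
    · intro n hn
      obtain ⟨-, k2, k3⟩ := hmT n hn
      have e1 : z = (c - δ * a * d) • L.p i + d • (cut L pr a δ).p (L.s i, false) := by
        rw [hz, p_false L pr a δ hnf, hpi]
        module
      have e2 : Real.sign (L.turn i) * inner ℝ (No n) z =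
          (c - δ * a * d) * (Real.sign (L.turn i) * inner ℝ (No n) (L.p i)) +
          d * (Real.sign (L.turn i) * inner ℝ (No n) ((cut L pr a δ).p (L.s i, false))) := by
        conv_lhs => rw [e1]
        rw [inner_add_right, real_inner_smul_right, real_inner_smul_right]
        ring
      rw [e2]
      have e3 := hbnd hd hc3' (by positivity) hnz (norm_nonneg _)
      have e4 : 0 ≤ (c - δ * a * d) * (Real.sign (L.turn i) * inner ℝ (No n) (L.p i)) :=
        mul_nonneg (by linarith) (by linarith)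
      have e5 : d * cm ≤
          d * (Real.sign (L.turn i) * inner ℝ (No n) ((cut L pr a δ).p (L.s i, false))) :=
        mul_le_mul_of_nonneg_left k2 hd
      have e6 : 0 ≤ d * cm := by positivity
      linarith
  · -- the point is on the small face
    rw [hssf] at hz
    -- products with the normals
    have q1 : (inner ℝ (L.nor (L.s i)) ((cut L pr a δ).p (L.s i, false)) : ℝ) =
        δ * a * L.turn i := by
      rw [p_false L pr a δ hnf, hpi, inner_add_right, real_inner_smul_right, nor_i_i, nor_si_i]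
      ring
    have q2 : (inner ℝ (L.nor (L.s i)) ((cut L pr a δ).p (L.s i, true)) : ℝ) = 0 := by
      rw [p_true L pr a δ hnf, inner_add_right, real_inner_smul_right, nor_i_i, nor_i_si]
      ring
    have q3 : (inner ℝ (L.nor i) ((cut L pr a δ).p (L.s i, false)) : ℝ) = 0 := by
      rw [p_false L pr a δ hnf, hpi, inner_add_right, real_inner_smul_right, nor_i_si, nor_i_i]
      ring
    have q4 : (inner ℝ (L.nor i) ((cut L pr a δ).p (L.s i, true)) : ℝ) = δ * L.turn i := by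
      rw [p_true L pr a δ hnf, inner_add_right, real_inner_smul_right, nor_i_si, nor_i_ssi]
      ring
    have hin : ∀ N : E3, (inner ℝ N z : ℝ) = u * inner ℝ N ((cut L pr a δ).p (L.s i, false)) +
        v * inner ℝ N ((cut L pr a δ).p (L.s i, true)) := by
      intro N
      rw [hz, inner_add_right, real_inner_smul_right, real_inner_smul_right]
    by_cases hv2 : v ≤ 2 * ε' * u
    · -- near the arm `(s i, false)`
      have hvu : v ≤ u := by nlinarith
      have hArm : (cut L pr a δ).ArmEq Co (aoL L a δ A B) (fun n => B (Sum.inr n)) (lab L i) y := by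
        apply hZA _ hlabi
        refine ⟨v, u, hv, hu, hv2, Or.inr ?_⟩
        rw [hslab, hssf, hz, add_comm]
      have hnz : ‖z‖ ≤ 2 * u * Mo := by
        rw [hz, add_comm]
        exact norm_two_le hv hu hvu hP2 hP1
      refine goL hArm ?_ ?_
      · have e1 : Real.sign (L.turn i) * inner ℝ (L.nor (L.s i)) z = δ * a * u * |L.turn i| := by
          rw [hin, q1, q2, ← hτT]
          ring
        rw [e1]
        refine le_trans (hbnd hu hc1 (by positivity) hnz (norm_nonneg _)) ?_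
        calc δ * a * Tm * u = δ * a * u * Tm := by ring
          _ ≤ _ := mul_le_mul_of_nonneg_left hT (by positivity)
      · intro n hn
        obtain ⟨k1, k2, -⟩ := hmT n hn
        have e2 : Real.sign (L.turn i) * inner ℝ (No n) z =
            u * (Real.sign (L.turn i) * inner ℝ (No n) ((cut L pr a δ).p (L.s i, false))) +
            v * (Real.sign (L.turn i) * inner ℝ (No n) ((cut L pr a δ).p (L.s i, true))) := by
          rw [hin]
          ring
        rw [e2]
        have e3 := hbnd hu hc3' (by positivity) hnz (norm_nonneg _)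
        have e5 := mul_le_mul_of_nonneg_left k2 hu
        have hsabs : |Real.sign (L.turn i)| ≤ 1 := by
          rcases lt_trichotomy (L.turn i) 0 with h | h | h
          · rw [Real.sign_of_neg h]; simp
          · rw [h]; simp
          · rw [Real.sign_of_pos h]; simp
        have e6 : |Real.sign (L.turn i) * inner ℝ (No n) ((cut L pr a δ).p (L.s i, true))| ≤
            cm / 2 := by
          rw [abs_mul]
          calc _ ≤ 1 * (Cm * ε') := mul_le_mul hsabs k1 (abs_nonneg _) (by norm_num)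
            _ ≤ cm / 2 := by rw [one_mul]; exact hCm
        have e7 := (abs_le.1 e6).1
        have e8 : -(v * (cm / 2)) ≤
            v * (Real.sign (L.turn i) * inner ℝ (No n) ((cut L pr a δ).p (L.s i, true))) := by
          have := mul_le_mul_of_nonneg_left e7 hv
          linarith
        have e9 : v * (cm / 2) ≤ u * (cm / 2) := mul_le_mul_of_nonneg_right hvu (by positivity)
        linarith
    · by_cases hu2 : u ≤ 2 * ε' * v
      · -- near the arm `(s i, true)`
        have huv : u ≤ v := by nlinarith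
        have hArm : (cut L pr a δ).ArmEq Co (aoL L a δ A B) (fun n => B (Sum.inr n))
            (L.s i, false) y := by
          apply hZA _ hsf
          refine ⟨u, v, hu, hv, hu2, Or.inl ?_⟩
          rw [hssf, hz]
        have hnz : ‖z‖ ≤ 2 * v * Mo := by
          rw [hz]
          exact norm_two_le hu hv huv hP1 hP2
        refine goR hArm ?_ ?_
        · have e1 : Real.sign (L.turn i) * inner ℝ (L.nor i) z = δ * v * |L.turn i| := by
            rw [hin, q3, q4, ← hτT]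
            ring
          rw [e1]
          refine le_trans (hbnd hv hc2 (by positivity) hnz (norm_nonneg _)) ?_
          calc δ * Tm * v = δ * v * Tm := by ring
            _ ≤ _ := mul_le_mul_of_nonneg_left hT (by positivity)
        · intro n hn
          obtain ⟨k1, k2, -⟩ := hmF n hn
          have e2 : Real.sign (L.turn i) * inner ℝ (No n) z =
              u * (Real.sign (L.turn i) * inner ℝ (No n) ((cut L pr a δ).p (L.s i, false))) +
              v * (Real.sign (L.turn i) * inner ℝ (No n) ((cut L pr a δ).p (L.s i, true))) := by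
            rw [hin]
            ring
          rw [e2]
          have e3 := hbnd hv hc3' (by positivity) hnz (norm_nonneg _)
          have e5 := mul_le_mul_of_nonneg_left k2 hv
          have hsabs : |Real.sign (L.turn i)| ≤ 1 := by
            rcases lt_trichotomy (L.turn i) 0 with h | h | h
            · rw [Real.sign_of_neg h]; simp
            · rw [h]; simp
            · rw [Real.sign_of_pos h]; simp
          have e6 : |Real.sign (L.turn i) * inner ℝ (No n) ((cut L pr a δ).p (L.s i, false))| ≤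
              cm / 2 := by
            rw [abs_mul]
            calc _ ≤ 1 * (Cm * ε') := mul_le_mul hsabs k1 (abs_nonneg _) (by norm_num)
              _ ≤ cm / 2 := by rw [one_mul]; exact hCm
          have e7 := (abs_le.1 e6).1
          have e8 : -(u * (cm / 2)) ≤
              u * (Real.sign (L.turn i) * inner ℝ (No n) ((cut L pr a δ).p (L.s i, false))) := by
            have := mul_le_mul_of_nonneg_left e7 hu
            linarith
          have e9 : u * (cm / 2) ≤ v * (cm / 2) := mul_le_mul_of_nonneg_right huv (by positivity)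
          linarith
      · -- in the face zone of the small face
        rw [not_le] at hv2 hu2
        have hfz : z ∈ (cut L pr a δ).faceZone ε' (L.s i, false) := by
          refine ⟨u, v, hu, hv, ?_, ?_, ?_⟩
          · have := mul_nonneg hε'.le hv
            linarith
          · have := mul_nonneg hε'.le hu
            linarith
          · rw [hssf, hz]
        have hA1 := hF2 _ hsf hfz ht2
        have hA2 := hF3 _ hlabi (by rw [hslab]; exact hfz) ht1
        obtain ⟨g1, g2, g3, g4⟩ := left_data hL hpr ha hδ haδ hi hnf hA2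
        obtain ⟨g5, -, g7, -⟩ := right_data hL hpr ha hδ haδ hi hnf hA1
        exact armEq_of hnf g1 g5 g2 g3 g7 (Or.inl g4)
  · -- the point is on the big face `s i`
    have hd : 0 ≤ d := by linarith
    have hzone := zone_j (L := L) (pr := pr) hpr ha hδ hδa haδ hε' hε1 hsi hc hcd (by
      unfold dl
      rw [if_neg hnf]
      exact hcd2) (q := (L.s i, false)) (by rw [hssf, hlabs])
    rw [← hz, hlabs] at hzone
    have hArm : (cut L pr a δ).ArmEq Co (aoL L a δ A B) (fun n => B (Sum.inr n))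
        (L.s i, false) y := by
      rcases hzone with h | h
      · exact hZA _ hsf h
      · exact hF3 _ hsf (by rw [hssf]; exact h) ht2
    have hnz : ‖z‖ ≤ 2 * d * Mo := by
      rw [hz, add_comm]
      exact norm_two_le hc hd (by linarith) hp3 hp2
    refine goR hArm ?_ ?_
    · have e1 : Real.sign (L.turn i) * inner ℝ (L.nor i) z = c * |L.turn i| := by
        rw [hz, inner_add_right, real_inner_smul_right, real_inner_smul_right, nor_i_si,
          nor_i_ssi, ← hτT]
        ring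
      rw [e1]
      refine le_trans (hbnd hd hc2 (by positivity) hnz (norm_nonneg _)) ?_
      calc δ * Tm * d = (δ * d) * Tm := by ring
        _ ≤ c * |L.turn i| := mul_le_mul hcd2 hT hTm.le hc
    · intro n hn
      obtain ⟨-, k2, k3⟩ := hmF n hn
      have e1 : z = (c - δ * d) • L.p (L.s (L.s i)) + d • (cut L pr a δ).p (L.s i, true) := by
        rw [hz, p_true L pr a δ hnf]
        module
      have e2 : Real.sign (L.turn i) * inner ℝ (No n) z =
          (c - δ * d) * (Real.sign (L.turn i) * inner ℝ (No n) (L.p (L.s (L.s i)))) +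
          d * (Real.sign (L.turn i) * inner ℝ (No n) ((cut L pr a δ).p (L.s i, true))) := by
        conv_lhs => rw [e1]
        rw [inner_add_right, real_inner_smul_right, real_inner_smul_right]
        ring
      rw [e2]
      have e3 := hbnd hd hc3' (by positivity) hnz (norm_nonneg _)
      have e4 : 0 ≤ (c - δ * d) * (Real.sign (L.turn i) * inner ℝ (No n) (L.p (L.s (L.s i)))) :=
        mul_nonneg (by linarith) (by linarith)
      have e5 : d * cm ≤
          d * (Real.sign (L.turn i) * inner ℝ (No n) ((cut L pr a δ).p (L.s i, true))) :=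
        mul_le_mul_of_nonneg_left k2 hd
      have e6 : 0 ≤ d * cm := by positivity
      linarith

/-- The turn of the cut polygon at the flat arm. -/
theorem turn_flat_cut (hL : L.Ok) (hpr : IsPr L pr) {i : V} (hi : i ∈ L.S)
    (h0 : L.turn i = 0) (hX : L.X = some (L.s i)) : (cut L pr a δ).turn (lab L i) = 0 := by
  have hsi := hL.maps i hi
  have e1 : (cut L pr a δ).turn (lab L i) = (inner ℝ ((cut L pr a δ).nor (lab L i))
      ((cut L pr a δ).p ((cut L pr a δ).s ((cut L pr a δ).s (lab L i)))) : ℝ) := by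
    unfold Pg.turn Pg.nor
    rw [inner_crs]
  rw [e1, nor_lab a δ hL hpr hi, s_lab, s_flat L pr a δ hX, p_left hpr hsi,
    real_inner_smul_left, inner_add_right, real_inner_smul_right, nor_i_ssi, nor_i_si, h0]
  ring

end

theorem exists_min {ι : Type} (S : Finset ι) (f : ι → ℝ) :
    ∃ m : ℝ, 0 < m ∧ ∀ i ∈ S, f i ≠ 0 → m ≤ |f i| := by
  classical
  induction S using Finset.induction_on with
  | empty => exact ⟨1, one_pos, fun i hi => absurd hi (Finset.notMem_empty i)⟩
  | insert j S _ ih =>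
    obtain ⟨m, hm, h⟩ := ih
    by_cases hj : f j = 0
    · refine ⟨m, hm, fun i hi hfi => ?_⟩
      rcases Finset.mem_insert.1 hi with rfl | hi
      · exact absurd hj hfi
      · exact h i hi hfi
    · refine ⟨min m |f j|, lt_min hm (abs_pos.2 hj), fun i hi hfi => ?_⟩
      rcases Finset.mem_insert.1 hi with rfl | hi
      · exact min_le_right _ _
      · exact le_trans (min_le_left _ _) (h i hi hfi)

end ZEQ_

open ZEQ_ in
theorem ZEQ_proof (hM : Stmt_MRG) : Stmt_ZEQ := by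
  intro V _ L pr hL hpr a ha ε hε hε4
  refine ⟨min (ε / 2) (ε / (2 * a)), by positivity, ?_⟩
  intro δ hδ hδ0 hOk C
  have hδε : δ ≤ ε / 2 := (lt_of_lt_of_le hδ0 (min_le_left _ _)).le
  have hδaε : δ * a ≤ ε / 2 := by
    have h1 : δ ≤ ε / (2 * a) := (lt_of_lt_of_le hδ0 (min_le_right _ _)).le
    calc δ * a ≤ ε / (2 * a) * a := mul_le_mul_of_nonneg_right h1 ha.le
      _ = ε / 2 := by field_simp
  have hδ1 : δ ≤ 1 := by linarith
  have hδa : δ * a ≤ 1 := by linarith
  have haδ : a * δ ^ 2 < 1 := by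
    have h1 : a * δ ^ 2 = (δ * a) * δ := by ring
    have h2 : (δ * a) * δ ≤ (ε / 2) * (ε / 2) :=
      mul_le_mul hδaε hδε hδ.le (by linarith)
    nlinarith
  obtain ⟨cm, ε1m, Cm, hcm, hε1m, hCm, hMRG⟩ := hM V L pr hL hpr a ha δ hδ haδ hOk
  -- constants
  obtain ⟨Tm, hTm, hTmin⟩ := exists_min L.S L.turn
  obtain ⟨Mo, hMo, hMo1, hMo2⟩ : ∃ Mo : ℝ, 0 < Mo ∧ (∀ i ∈ L.S, ‖L.p i‖ ≤ Mo) ∧
      ∀ q ∈ (cut L pr a δ).S, ‖(cut L pr a δ).p q‖ ≤ Mo := by
    have s1 : 0 ≤ ∑ i ∈ L.S, ‖L.p i‖ := Finset.sum_nonneg fun _ _ => norm_nonneg _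
    have s2 : 0 ≤ ∑ q ∈ (cut L pr a δ).S, ‖(cut L pr a δ).p q‖ :=
      Finset.sum_nonneg fun _ _ => norm_nonneg _
    refine ⟨1 + ∑ i ∈ L.S, ‖L.p i‖ + ∑ q ∈ (cut L pr a δ).S, ‖(cut L pr a δ).p q‖,
      by linarith, ?_, ?_⟩
    · intro i hi
      have := Finset.single_le_sum (f := fun i => ‖L.p i‖) (fun _ _ => norm_nonneg _) hi
      linarith
    · intro q hq
      have := Finset.single_le_sum (f := fun q => ‖(cut L pr a δ).p q‖)
        (fun _ _ => norm_nonneg _) hq
      linarith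
  obtain ⟨MN, hMN, hMN1, hMN2⟩ : ∃ MN : ℝ, 0 < MN ∧ (∀ i ∈ L.S, ‖L.nor i‖ ≤ MN) ∧ Cm ≤ MN := by
    have s1 : 0 ≤ ∑ i ∈ L.S, ‖L.nor i‖ := Finset.sum_nonneg fun _ _ => norm_nonneg _
    refine ⟨1 + ∑ i ∈ L.S, ‖L.nor i‖ + Cm, by linarith, ?_, by linarith⟩
    intro i hi
    have := Finset.single_le_sum (f := fun i => ‖L.nor i‖) (fun _ _ => norm_nonneg _) hi
    linarith
  obtain ⟨c0, hc0, hc1, hc2, hc3⟩ : ∃ c0 : ℝ, 0 < c0 ∧ c0 ≤ δ * a * Tm / (2 * Mo) ∧
      c0 ≤ δ * Tm / (2 * Mo) ∧ c0 ≤ cm / (4 * Mo) := by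
    refine ⟨min (min (δ * a * Tm / (2 * Mo)) (δ * Tm / (2 * Mo))) (cm / (4 * Mo)),
      by positivity, ?_, ?_, min_le_right _ _⟩
    · exact le_trans (min_le_left _ _) (min_le_left _ _)
    · exact le_trans (min_le_left _ _) (min_le_right _ _)
  refine ⟨min (min ε1m (ε / 2)) (min (cm / (2 * Cm))
    (min (c0 / (4 * MN * (|C| + 1))) (1 / (|C| + 1)))), by positivity, ?_⟩
  intro ε' hε' hε'1 Co No hCond
  have hεa : ε' < ε1m := lt_of_lt_of_le hε'1 (le_trans (min_le_left _ _) (min_le_left _ _))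
  have hεb : ε' ≤ ε / 2 :=
    (lt_of_lt_of_le hε'1 (le_trans (min_le_left _ _) (min_le_right _ _))).le
  have hεc : Cm * ε' ≤ cm / 2 := by
    have h1 : ε' ≤ cm / (2 * Cm) :=
      (lt_of_lt_of_le hε'1 (le_trans (min_le_right _ _) (min_le_left _ _))).le
    calc Cm * ε' ≤ Cm * (cm / (2 * Cm)) := mul_le_mul_of_nonneg_left h1 hCm.le
      _ = cm / 2 := by field_simp
  have hC1 : 0 < |C| + 1 := by positivity
  have hεd : MN * (|C| * ε') ≤ c0 / 4 := by
    have h1 : ε' ≤ c0 / (4 * MN * (|C| + 1)) :=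
      (lt_of_lt_of_le hε'1 (le_trans (min_le_right _ _)
        (le_trans (min_le_right _ _) (min_le_left _ _)))).le
    calc MN * (|C| * ε') ≤ MN * ((|C| + 1) * (c0 / (4 * MN * (|C| + 1)))) := by
          apply mul_le_mul_of_nonneg_left _ hMN.le
          exact mul_le_mul (by linarith) h1 hε'.le hC1.le
      _ = c0 / 4 := by field_simp
  have hεe : |C| * ε' ≤ 1 := by
    have h1 : ε' ≤ 1 / (|C| + 1) :=
      (lt_of_lt_of_le hε'1 (le_trans (min_le_right _ _)
        (le_trans (min_le_right _ _) (min_le_right _ _)))).le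
    calc |C| * ε' ≤ (|C| + 1) * (1 / (|C| + 1)) :=
          mul_le_mul (by linarith) h1 hε'.le hC1.le
      _ = 1 := by field_simp
  have hε1 : ε' ≤ 1 / 2 := by linarith
  have hMR := hMRG ε' hε' hεa Co No hCond
  refine ⟨c0 / 8, by positivity, ?_⟩
  intro K
  refine ⟨max 1 (4 * |K| / c0), lt_of_lt_of_le one_pos (le_max_left _ _), ?_⟩
  intro A B hNear β Ψ hΨ x hx hxR y hy hFull
  obtain ⟨hNA, hNB, -⟩ := hNear
  have hzx : ‖x‖ / 2 ≤ ‖Ψ x‖ := by
    have h1 := hΨ.bd x hx
    have h2 : ‖x‖ ≤ ‖Ψ x‖ + ‖Ψ x - x‖ := by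
      calc ‖x‖ = ‖Ψ x - (Ψ x - x)‖ := by rw [sub_sub_cancel]
        _ ≤ _ := norm_sub_le _ _
    linarith
  have hKz : 2 * K ≤ c0 * ‖Ψ x‖ := by
    have h1 : 4 * |K| / c0 ≤ ‖x‖ := le_trans (le_max_right _ _) hxR
    rw [div_le_iff₀ hc0] at h1
    have h2 := mul_le_mul_of_nonneg_left hzx hc0.le
    have h3 := le_abs_self K
    linarith
  have hFull' := hFull
  obtain ⟨⟨hZA, hZF⟩, -, -⟩ := hFull
  -- big faces
  have hbig : ∀ i ∈ L.S, Ψ x ∈ (cut L pr a δ).faceZone ε' (lab L i) → ev (A i) y = 0 := by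
    intro i hi h
    have h1 := hZF _ (lab_mem L pr a δ hi) h
    rw [ao_lab, ev_smul] at h1
    exact (mul_eq_zero.1 h1).resolve_left (lam_pos a δ ha haδ i).ne'
  constructor
  · rintro i hi ⟨c, d, hc, hd, hcd, hx'⟩
    have hsi := hL.maps i hi
    have hpi : pr (L.s i) = i := (hpr i hi).2.2
    have hcd2 : 2 * c ≤ d := by nlinarith
    by_cases hT0 : L.turn i = 0
    · -- the flat arm
      have hX : L.X = some (L.s i) := (turn_eq_zero_iff hL hpr hi).1 hT0
      have hCo : Co (L.s i, false) = ∅ := by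
        have h1 := (hCond (lab L i) (lab_mem L pr a δ hi)).1
          (turn_flat_cut hL hpr hi hT0 hX)
        rwa [s_lab] at h1
      have harm : (cut L pr a δ).ArmEq Co (aoL L a δ A B) (fun n => B (Sum.inr n)) (lab L i) y →
          ev (A i) y = 0 ∨ ev (A (L.s i)) y = 0 := by
        rintro ⟨-, Z, hZ, hZ0⟩
        rcases hZ with hZ | hZ | ⟨n, hn, -⟩
        · rw [hZ, ao_lab, ev_smul] at hZ0
          exact Or.inl ((mul_eq_zero.1 hZ0).resolve_left (lam_pos a δ ha haδ i).ne')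
        · rw [hZ, s_lab, ← lab_flat L hX, ao_lab, ev_smul] at hZ0
          exact Or.inr ((mul_eq_zero.1 hZ0).resolve_left (lam_pos a δ ha haδ _).ne')
        · rw [s_lab, hCo] at hn
          exact absurd hn (Finset.notMem_empty n)
      have hgoal : ev (A i) y = 0 ∨ ev (A (L.s i)) y = 0 := by
        rcases hx' with hx' | hx'
        · have hmid : Ψ x = x := by
            rw [hx']
            exact hΨ.mid i hi c d hc hd (fun _ => by nlinarith) (fun h => absurd hX h)
          have hz := zone_i (L := L) (pr := pr) hpr ha hδ hδ1 haδ hε' hε1 hi hc hcd2 (by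
            unfold dr
            rw [if_pos hX, zero_mul]
            exact hc)
          rw [← hx'] at hz
          rw [hmid] at hZA hbig
          rcases hz with hz | hz
          · exact harm (hZA _ (lab_mem L pr a δ hi) hz)
          · exact Or.inl (hbig i hi hz)
        · have hmid : Ψ x = x := by
            rw [hx', add_comm]
            exact hΨ.mid (L.s i) hsi d c hd hc (fun h => absurd hX h) (fun _ => by nlinarith)
          have hz := zone_j (L := L) (pr := pr) hpr ha hδ hδa haδ hε' hε1 hsi hc hcd2 (by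
            unfold dl
            rw [if_pos hX, zero_mul]
            exact hc) (q := lab L i) (by rw [s_lab, lab_flat L hX])
          rw [add_comm, ← hx'] at hz
          rw [hmid] at hZA hbig
          rcases hz with hz | hz
          · exact harm (hZA _ (lab_mem L pr a δ hi) hz)
          · exact Or.inr (hbig _ hsi hz)
      constructor
      · intro Z _
        rw [hT0, Real.sign_zero, zero_mul]
      · rcases hgoal with h | h
        · exact ⟨_, Or.inl rfl, h⟩
        · exact ⟨_, Or.inr (Or.inl rfl), h⟩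
    · -- the arm is not flat
      have hnf : NF L (L.s i) := by
        intro h
        exact hT0 ((turn_eq_zero_iff hL hpr hi).2 h)
      have hτ : |Real.sign (L.turn i)| = 1 := by
        rcases lt_or_gt_of_ne hT0 with h | h
        · rw [Real.sign_of_neg h]; simp
        · rw [Real.sign_of_pos h]; simp
      obtain ⟨hmF, hmT⟩ := hMR (L.s i) hsi hnf
      rw [hpi] at hmF hmT
      have hch : ∀ n, n ∈ Co (L.s i, false) ∨ n ∈ Co (L.s i, true) →
          Sum.inr n ∈ chL L Co (L.s i) := by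
        intro n hn
        unfold chL
        rw [if_neg hnf]
        exact Finset.mem_insert_of_mem (Finset.mem_image_of_mem _ (Finset.mem_union.2 hn))
      refine arm_geo hL hpr ha hδ hδ1 hδa haδ hε' hε1 hMo hTm hcm hc1 hc2 hc3 hεc (No := No) hi
        hnf (hTmin i hi hT0) (hMo1 i hi) (hMo1 _ hsi) (hMo1 _ (hL.maps _ hsi))
        (hMo2 _ (mem_cut_false L pr a δ hsi)) (hMo2 _ (mem_cut_true L pr a δ hsi hnf))
        ?_ ?_ hFull' ?_ ?_ ?_
      · intro n hn
        obtain ⟨-, k2, -, k4, -, k6⟩ := hmF n hn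
        exact ⟨k2, k4, k6⟩
      · intro n hn
        obtain ⟨-, k2, -, k4, k5, -⟩ := hmT n hn
        exact ⟨k2, k4, k5⟩
      · intro j hj h1
        exact posi hτ (L.nor j) (Ψ x) y (A j) h1 (hMN1 j hj) (hNA j hj).1 (hNA j hj).2 hy hεd hεe
          (le_refl _) hKz hε'
      · intro n hn h1
        have hNn : ‖No n‖ ≤ MN := by
          rcases hn with hn | hn
          · exact le_trans (hmF n hn).1 hMN2
          · exact le_trans (hmT n hn).1 hMN2
        have h2 := hNB (L.s i) hsi (Sum.inr n) (hch n hn)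
        exact posi hτ (No n) (Ψ x) y (B (Sum.inr n)) h1 hNn h2.1 h2.2 hy hεd hεe (le_refl _) hKz
          hε'
      · rcases hx' with hx' | hx'
        · by_cases h : δ * a * d ≤ c
          · left
            refine ⟨c, d, hc, hcd2, h, ?_⟩
            rw [hx']
            exact hΨ.mid i hi c d hc hd (fun _ => by nlinarith) (fun _ => h)
          · right; left
            have h1 := hΨ.left (L.s i) hsi hnf c d hc hd (not_le.1 h).le
            rw [hpi, ← hx'] at h1
            exact h1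
        · by_cases h : δ * d ≤ c
          · right; right
            refine ⟨c, d, hc, hcd2, h, ?_⟩
            rw [hx', add_comm]
            exact hΨ.mid (L.s i) hsi d c hd hc (fun _ => h) (fun _ => by nlinarith)
          · right; left
            have h1 := hΨ.right (L.s i) hsi hnf c d hc hd (not_le.1 h).le
            rw [← hx'] at h1
            exact h1
  · rintro i hi ⟨c, d, hc, hd, h1, h2, hx'⟩
    have hmid : Ψ x = x := by
      rw [hx']
      refine hΨ.mid i hi c d hc hd (fun _ => ?_) (fun _ => ?_)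
      · have := mul_le_mul_of_nonneg_right (show δ ≤ ε by linarith) hc
        linarith
      · have := mul_le_mul_of_nonneg_right (show δ * a ≤ ε by linarith) hd
        linarith
    have hz := zone_f (L := L) (pr := pr) hpr ha hδ haδ hδε hδaε hεb hi hc hd h1 h2
    rw [← hx'] at hz
    apply hbig i hi
    rw [hmid]
    exact hz

end Pool.Agent.TSC
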