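import Pool.Agent.TSC.AOK
import Pool.Agent.TSC.CGG
import Pool.Agent.TSC.CUT
import Pool.Agent.TSC.PRE
import Pool.Agent.TSC.AGE
import Pool.Agent.TSC.COM
import Pool.Agent.TSC.AGN
import Pool.Agent.TSC.ASM
import Pool.Agent.TSC.AKD
import Pool.Agent.TSC.FLA
import Pool.Agent.TSC.FLB
import Pool.Agent.TSC.PSI
import Pool.Agent.TSC.MRG
import Pool.Agent.TSC.CGS
import Pool.Agent.TSC.CGI
import Pool.Agent.TSC.ZEQ
import Pool.Agent.TSC.NRO
import Pool.Agent.TSC.HLF
import Pool.Agent.TSC.RZZ
import Pool.Agent.TSM.FPOS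
import Pool.Agent.TSM.FMAR
import Pool.Agent.TSM.FDEP
import Pool.Agent.TSM.FINJ
import Pool.Agent.TSM.FGER
import Pool.Agent.TSM.FTAU
import Pool.Agent.TSM.FAR
import Pool.Agent.TSM.TRANS
import Pool.Agent.TSM.CHG

/-!
# TSC: block CUT complete
-/

set_option autoImplicit false

namespace Pool.Agent.TSC

open Pool.Agent.TSM

theorem ftau_final : Stmt_FTau := ftau_proof fpos_proof fmar_proof fdep_proof

theorem far_final : Stmt_Far := far_proof ftau_final finj_proof fger_proof

theorem trans_final : Stmt_Trans := trans_proof far_final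

theorem aok_final : Stmt_AOK := AOK_proof COM_proof AGN_proof ASM_proof AKD_proof

theorem cgg_final : Stmt_CGG := CGG_proof (CGS_proof MRG_proof) (CGI_proof MRG_proof)

theorem rzz_final : Stmt_RZZ :=
  RZZ_proof ftau_final chg_proof (ZEQ_proof MRG_proof) NRO_proof HLF_proof

/-- block CUT: VM implies VM2 -/
theorem vm2_of : Stmt_VM → Stmt_VM2 :=
  CUT_proof trans_final PRE_proof AGE_proof aok_final FLA_proof FLB_proof PSI_proof cgg_final
    rzz_final

end Pool.Agent.TSC
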