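import Pool.Agent.TSC.Base

/-!
# TSC: exact statements of the modules of the block CUT

Recipes: /team-store/MP_89ee87_TSC.md.
-/

set_option autoImplicit false

namespace Pool.Agent.TSC

open Set Filter Topology Pool.Agent.TSM

/-- every polygon has a predecessor function -/
def Stmt_PRE : Prop := ∀ (V : Type) [DecidableEq V] (L : Pg V), L.Ok → ∃ pr : V → V, IsPr L pr

/-- generic constants exist -/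
def Stmt_AGE : Prop := ∀ (V : Type) [DecidableEq V] (L : Pg V) (pr : V → V), L.Ok → IsPr L pr →
  ∃ a : ℝ, 0 < a ∧ GenA L pr a

/-- combinatorics of the cut polygon -/
def Stmt_COM : Prop := ∀ (V : Type) [DecidableEq V] (L : Pg V) (pr : V → V), L.Ok → IsPr L pr →
  ∀ a δ : ℝ,
  (∀ i ∈ (cut L pr a δ).S, (cut L pr a δ).s i ∈ (cut L pr a δ).S) ∧
  (∀ i ∈ (cut L pr a δ).S, ∀ j ∈ (cut L pr a δ).S,
    (cut L pr a δ).s i = (cut L pr a δ).s j → i = j) ∧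
  (∀ i ∈ (cut L pr a δ).S, ∀ j ∈ (cut L pr a δ).S, ∃ m : ℕ, (cut L pr a δ).s^[m] i = j) ∧
  4 ≤ (cut L pr a δ).S.card

/-- genericity of the cut polygon -/
def Stmt_AGN : Prop := ∀ (V : Type) [DecidableEq V] (L : Pg V) (pr : V → V), L.Ok → IsPr L pr →
  ∀ a : ℝ, 0 < a → GenA L pr a → ∃ δ₀ : ℝ, 0 < δ₀ ∧ ∀ δ : ℝ, 0 < δ → δ < δ₀ →
  ∀ i ∈ (cut L pr a δ).S, ∀ j ∈ (cut L pr a δ).S, ∀ k ∈ (cut L pr a δ).S, i ≠ j → i ≠ k →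
    j ≠ k → ¬ (cut L pr a δ).Flat i j k →
    det3 ((cut L pr a δ).p i) ((cut L pr a δ).p j) ((cut L pr a δ).p k) ≠ 0

/-- the cut polygon is simple -/
def Stmt_ASM : Prop := ∀ (V : Type) [DecidableEq V] (L : Pg V) (pr : V → V), L.Ok → IsPr L pr →
  ∀ a : ℝ, 0 < a → ∃ δ₀ : ℝ, 0 < δ₀ ∧ ∀ δ : ℝ, 0 < δ → δ < δ₀ →
  ∀ i ∈ (cut L pr a δ).S, ∀ j ∈ (cut L pr a δ).S, i ≠ j → ∀ x, x ∈ (cut L pr a δ).face i →
    x ∈ (cut L pr a δ).face j →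
    (j = (cut L pr a δ).s i ∧ ∃ c : ℝ, 0 ≤ c ∧ x = c • (cut L pr a δ).p j) ∨
    (i = (cut L pr a δ).s j ∧ ∃ c : ℝ, 0 ≤ c ∧ x = c • (cut L pr a δ).p i) ∨ x = 0

/-- the kind of the cut polygon -/
def Stmt_AKD : Prop := ∀ (V : Type) [DecidableEq V] (L : Pg V) (pr : V → V), L.Ok → IsPr L pr →
  ∀ a : ℝ, 0 < a → ∃ δ₀ : ℝ, 0 < δ₀ ∧ ∀ δ : ℝ, 0 < δ → δ < δ₀ →
  ((cut L pr a δ).X = none ∧ ∀ ν : E3, ν ≠ 0 →
    ∃ i ∈ (cut L pr a δ).S, 0 < (inner ℝ ν ((cut L pr a δ).p i) : ℝ)) ∨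
    ∃ m, (cut L pr a δ).X = some m ∧ (cut L pr a δ).CornerAt m

/-- the cut polygon is Ok (uses COM, AGN, ASM, AKD) -/
def Stmt_AOK : Prop := ∀ (V : Type) [DecidableEq V] (L : Pg V) (pr : V → V), L.Ok → IsPr L pr →
  ∀ a : ℝ, 0 < a → GenA L pr a → ∃ δ₀ : ℝ, 0 < δ₀ ∧ ∀ δ : ℝ, 0 < δ → δ < δ₀ →
  (cut L pr a δ).Ok

/-- the modified field on the polygon -/
def Stmt_FLA : Prop := ∀ (V : Type) [DecidableEq V] (L : Pg V) (pr : V → V), L.Ok → IsPr L pr →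
  ∀ b : E3 → E3, L.Adm b → ∃ (β : E3 → E3) (e : V → E3) (ρ : ℝ), L.Adm β ∧ Fld L pr β e ρ

/-- the modified field is admissible for the cut polygon -/
def Stmt_FLB : Prop := ∀ (V : Type) [DecidableEq V] (L : Pg V) (pr : V → V), L.Ok → IsPr L pr →
  ∀ a : ℝ, 0 < a → ∀ (β : E3 → E3) (e : V → E3) (ρ : ℝ), L.Adm β → Fld L pr β e ρ →
  ∃ δ₀ : ℝ, 0 < δ₀ ∧ ∀ δ : ℝ, 0 < δ → δ < δ₀ → (cut L pr a δ).Adm β

/-- the projection to the cut polygon (assuming that the cut polygon is Ok) -/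
def Stmt_PSI : Prop := ∀ (V : Type) [DecidableEq V] (L : Pg V) (pr : V → V), L.Ok → IsPr L pr →
  ∀ a : ℝ, 0 < a → ∀ (β : E3 → E3) (e : V → E3) (ρ : ℝ), Fld L pr β e ρ →
  ∃ δ₀ : ℝ, 0 < δ₀ ∧ ∀ δ : ℝ, 0 < δ → δ < δ₀ → (cut L pr a δ).Ok →
    ∃ Ψ : E3 → E3, Proj L pr a δ β Ψ

/-- margins of the chamfers of the cut polygon (far from the other arm) -/
def Stmt_MRG : Prop := ∀ (V : Type) [DecidableEq V] (L : Pg V) (pr : V → V), L.Ok → IsPr L pr →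
  ∀ a : ℝ, 0 < a → ∀ δ : ℝ, 0 < δ → a * δ ^ 2 < 1 → (cut L pr a δ).Ok →
  ∃ c ε₁ C : ℝ, 0 < c ∧ 0 < ε₁ ∧ 0 < C ∧ ∀ ε' : ℝ, 0 < ε' → ε' < ε₁ →
  ∀ (Co : V × Bool → Finset (Sym2 (V × Bool))) (No : Sym2 (V × Bool) → E3),
    (cut L pr a δ).Cond ε' Co No → ∀ j ∈ L.S, NF L j →
    (∀ n ∈ Co (j, false), ‖No n‖ ≤ C ∧
      |(inner ℝ (No n) ((cut L pr a δ).p (j, false)) : ℝ)| ≤ C * ε' ∧
      Real.sign (L.turn (pr j)) * inner ℝ (No n) ((cut L pr a δ).p (j, false)) < 0 ∧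
      c ≤ Real.sign (L.turn (pr j)) * inner ℝ (No n) ((cut L pr a δ).p (j, true)) ∧
      c ≤ Real.sign (L.turn (pr j)) * inner ℝ (No n) (L.p (pr j)) ∧
      c ≤ Real.sign (L.turn (pr j)) * inner ℝ (No n) (L.p (L.s j))) ∧
    (∀ n ∈ Co (j, true), ‖No n‖ ≤ C ∧
      |(inner ℝ (No n) ((cut L pr a δ).p (j, true)) : ℝ)| ≤ C * ε' ∧
      Real.sign (L.turn (pr j)) * inner ℝ (No n) ((cut L pr a δ).p (j, true)) < 0 ∧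
      c ≤ Real.sign (L.turn (pr j)) * inner ℝ (No n) ((cut L pr a δ).p (j, false)) ∧
      c ≤ Real.sign (L.turn (pr j)) * inner ℝ (No n) (L.p (pr j)) ∧
      c ≤ Real.sign (L.turn (pr j)) * inner ℝ (No n) (L.p (L.s j)))

/-- signs and sizes of the chamfers of `L` (uses MRG) -/
def Stmt_CGS : Prop := ∀ (V : Type) [DecidableEq V] (L : Pg V) (pr : V → V), L.Ok → IsPr L pr →
  ∀ a : ℝ, 0 < a → ∃ μ : ℝ, 0 < μ ∧ ∀ ε : ℝ, 0 < ε → ε < 1 → ∃ δ₀ : ℝ, 0 < δ₀ ∧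
  ∀ δ : ℝ, 0 < δ → δ < δ₀ → (cut L pr a δ).Ok → ∃ ε₁ : ℝ, 0 < ε₁ ∧ ∀ ε' : ℝ, 0 < ε' →
  ε' < ε₁ → ∀ (Co : V × Bool → Finset (Sym2 (V × Bool))) (No : Sym2 (V × Bool) → E3),
    (cut L pr a δ).Cond ε' Co No → ∀ i ∈ L.S, NF L (L.s i) → ∀ n ∈ chL L Co (L.s i),
      Real.sign (L.turn i) * inner ℝ (nL L pr a δ No n) (L.p (L.s i)) < 0 ∧
      0 < Real.sign (L.turn i) * inner ℝ (nL L pr a δ No n) (L.p (L.s i) + ε • L.p i) ∧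
      0 < Real.sign (L.turn i) *
        inner ℝ (nL L pr a δ No n) (L.p (L.s i) + ε • L.p (L.s (L.s i))) ∧
      ∃ x y : ℝ, 0 ≤ x ∧ 0 ≤ y ∧ μ ≤ x + y ∧ x + y ≤ 1 / μ ∧
        ‖nL L pr a δ No n - (x • L.nor i + y • L.nor (L.s i))‖ ≤ ε / μ

/-- independence of the chamfers of `L` (uses MRG) -/
def Stmt_CGI : Prop := ∀ (V : Type) [DecidableEq V] (L : Pg V) (pr : V → V), L.Ok → IsPr L pr →
  ∀ a : ℝ, 0 < a → ∀ δ : ℝ, 0 < δ → a * δ ^ 2 < 1 → (cut L pr a δ).Ok →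
  ∃ ε₁ : ℝ, 0 < ε₁ ∧ ∀ ε' : ℝ, 0 < ε' → ε' < ε₁ →
  ∀ (Co : V × Bool → Finset (Sym2 (V × Bool))) (No : Sym2 (V × Bool) → E3),
    (cut L pr a δ).Cond ε' Co No → ∀ i ∈ L.S, NF L (L.s i) →
    ∀ n ∈ chL L Co (L.s i), ∀ n' ∈ chL L Co (L.s i), n ≠ n' →
      det3 (L.nor i) (nL L pr a δ No n) (nL L pr a δ No n') ≠ 0 ∧
      det3 (L.nor (L.s i)) (nL L pr a δ No n) (nL L pr a δ No n') ≠ 0 ∧
      ∀ n'' ∈ chL L Co (L.s i), n'' ≠ n → n'' ≠ n' →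
        det3 (nL L pr a δ No n) (nL L pr a δ No n') (nL L pr a δ No n'') ≠ 0

/-- the conditions CondG for `L` (uses CGS, CGI) -/
def Stmt_CGG : Prop := ∀ (V : Type) [DecidableEq V] (L : Pg V) (pr : V → V), L.Ok → IsPr L pr →
  ∀ a : ℝ, 0 < a → ∃ μ : ℝ, 0 < μ ∧ ∀ ε : ℝ, 0 < ε → ε < 1 → ∃ δ₀ : ℝ, 0 < δ₀ ∧
  ∀ δ : ℝ, 0 < δ → δ < δ₀ → (cut L pr a δ).Ok → ∃ ε₁ : ℝ, 0 < ε₁ ∧ ∀ ε' : ℝ, 0 < ε' →
  ε' < ε₁ → ∀ (Co : V × Bool → Finset (Sym2 (V × Bool))) (No : Sym2 (V × Bool) → E3),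
    (cut L pr a δ).Cond ε' Co No → L.CondG μ ε (chL L Co) (nL L pr a δ No)

/-- transfer of the equations of the far surface from the cut polygon to `L` (uses MRG) -/
def Stmt_ZEQ : Prop := ∀ (V : Type) [DecidableEq V] (L : Pg V) (pr : V → V), L.Ok → IsPr L pr →
  ∀ a : ℝ, 0 < a → ∀ ε : ℝ, 0 < ε → ε < 1 / 4 → ∃ δ₀ : ℝ, 0 < δ₀ ∧
  ∀ δ : ℝ, 0 < δ → δ < δ₀ → (cut L pr a δ).Ok → ∀ C : ℝ, ∃ ε₁ : ℝ, 0 < ε₁ ∧ ∀ ε' : ℝ, 0 < ε' →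
  ε' < ε₁ → ∀ (Co : V × Bool → Finset (Sym2 (V × Bool))) (No : Sym2 (V × Bool) → E3),
    (cut L pr a δ).Cond ε' Co No → ∃ η : ℝ, 0 < η ∧ ∀ K : ℝ, ∃ R : ℝ, 0 < R ∧
  ∀ (A : V → Aff) (B : Kap V → Aff), L.NearK (chL L Co) (nL L pr a δ No) K η A B →
  ∀ (β : E3 → E3) (Ψ : E3 → E3), Proj L pr a δ β Ψ → ∀ x ∈ L.cone, R ≤ ‖x‖ → ∀ y : E3,
    ‖y - Ψ x‖ ≤ C * ε' * ‖Ψ x‖ →
    FullEq (cut L pr a δ) Co (aoL L a δ A B) (fun n => B (Sum.inr n)) ε' (Ψ x) y →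
    L.ZoneEq (chL L Co) A B ε x y

/-- near planes for `L` give near planes for the cut polygon -/
def Stmt_NRO : Prop := ∀ (V : Type) [DecidableEq V] (L : Pg V) (pr : V → V), L.Ok → IsPr L pr →
  ∀ a δ : ℝ, 0 < a → 0 < δ → a * δ ^ 2 < 1 → (cut L pr a δ).Ok →
  ∀ (ε' : ℝ) (Co : V × Bool → Finset (Sym2 (V × Bool))) (No : Sym2 (V × Bool) → E3),
    (cut L pr a δ).Cond ε' Co No →
  (∀ (oo : V × Bool → ℝ) (oNo : Sym2 (V × Bool) → ℝ) (ηo : ℝ), 0 < ηo →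
    (∀ m, (cut L pr a δ).X = some m → oo m = 0 ∧
      ∀ q ∈ (cut L pr a δ).S, (cut L pr a δ).s q = m → oo q = 0) →
    ∃ (o : V → ℝ) (oN : Kap V → ℝ) (η : ℝ), 0 < η ∧
      (∀ m, L.X = some m → o m = 0 ∧ ∀ q ∈ L.S, L.s q = m → o q = 0) ∧
      ∀ (A : V → Aff) (B : Kap V → Aff),
        L.Near (chL L Co) (nL L pr a δ No) o oN η A B →
        (cut L pr a δ).Near Co No oo oNo ηo (aoL L a δ A B) (fun n => B (Sum.inr n))) ∧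
  (∀ ηo : ℝ, 0 < ηo → ∃ η : ℝ, 0 < η ∧ ∀ K : ℝ, ∃ K' : ℝ, ∀ (A : V → Aff) (B : Kap V → Aff),
        L.NearK (chL L Co) (nL L pr a δ No) K η A B →
        (cut L pr a δ).NearK Co No K' ηo (aoL L a δ A B) (fun n => B (Sum.inr n)))

/-- the correct side of the flat sector -/
def Stmt_HLF : Prop := ∀ (V : Type) [DecidableEq V] (L : Pg V) (pr : V → V), L.Ok → IsPr L pr →
  ∀ a δ : ℝ, 0 < a → 0 < δ → ∀ y : E3, (cut L pr a δ).Half y → L.Half y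

/-- RES for the modified field (uses FTAU, CHG, ZEQ, NRO, HLF) -/
def Stmt_RZZ : Prop := ∀ (V : Type) [DecidableEq V] (L : Pg V) (pr : V → V), L.Ok → IsPr L pr →
  ∀ a : ℝ, 0 < a → ∀ β : E3 → E3, L.Adm β → ∀ ε : ℝ, 0 < ε → ε < 1 / 4 → ∃ δ₀ : ℝ, 0 < δ₀ ∧
  ∀ δ : ℝ, 0 < δ → δ < δ₀ → (cut L pr a δ).Ok → (cut L pr a δ).Adm β →
  ∀ Ψ : E3 → E3, Proj L pr a δ β Ψ → ∃ ε₁ : ℝ, 0 < ε₁ ∧ ∀ ε' : ℝ, 0 < ε' → ε' < ε₁ →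
  ∀ (Co : V × Bool → Finset (Sym2 (V × Bool))) (No : Sym2 (V × Bool) → E3),
    (cut L pr a δ).Cond ε' Co No → (cut L pr a δ).Res Co No ε' β →
    L.Res (chL L Co) (nL L pr a δ No) ε β

/-- VM2 (uses TRANS, PRE, AGE, AOK, FLA, FLB, PSI, CGG, RZZ) -/
def Stmt_CUT : Prop := Stmt_VM → Stmt_VM2

end Pool.Agent.TSC
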